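import Pool.Agent.Lib.MP_ccffa6_gt.P.MDef

/-! Choice of the constants. -/

namespace Pool.Agent.Lib.MP_ccffa6_gt.P

open Set ContinuousLinearMap
open scoped ContDiff

namespace Dat

variable {E : Type} [NormedAddCommGroup E] [NormedSpace ℝ E]

theorem m3b_num {η L M S C : ℝ} (hη : 0 < η) (hL : 0 < L) (hM : 0 ≤ M) (hS : 0 ≤ S) (hC : 0 < C) :
    ∃ e k t : ℝ, 0 < e ∧ 0 < k ∧ 0 < t ∧ 10 * e ≤ η ^ 2 ∧ 20 * C * e * M ≤ L ∧
      t * Real.exp 3 ≤ 1 ∧ 8 * (t * Real.exp 3) * S ≤ e ∧ 8 ≤ k * η ^ 2 ∧ 2 * M ≤ k * t * L := by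
  obtain ⟨e, h0, h1, h2⟩ : ∃ e, 0 < e ∧ e ≤ η ^ 2 / 10 ∧ e ≤ L / (20 * C * (M + 1)) :=
    ⟨_, lt_min (by positivity) (by positivity), min_le_left _ _, min_le_right _ _⟩
  obtain ⟨T, h3, h4, h5⟩ : ∃ T, 0 < T ∧ T ≤ 1 ∧ T ≤ e / (8 * (S + 1)) :=
    ⟨_, lt_min one_pos (by positivity), min_le_left _ _, min_le_right _ _⟩
  have h6 : T / Real.exp 3 * Real.exp 3 = T := div_mul_cancel₀ _ (Real.exp_pos 3).ne'
  have h7 : 0 < T / Real.exp 3 := by positivity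
  obtain ⟨k, h8, h9⟩ : ∃ k, 8 / η ^ 2 ≤ k ∧ 2 * M / (T / Real.exp 3 * L) ≤ k :=
    ⟨_, le_max_left _ _, le_max_right _ _⟩
  rw [le_div_iff₀ (by positivity)] at h2 h5
  refine ⟨e, k, T / Real.exp 3, h0, lt_of_lt_of_le (by positivity) h8, h7, by linarith,
    by nlinarith [mul_pos hC h0], by rwa [h6], by rw [h6]; nlinarith,
    (div_le_iff₀ (by positivity)).1 h8, ?_⟩
  rwa [mul_assoc, ← div_le_iff₀ (by positivity)]

/-- The constants `L₀`, `M`, `S` come from compactness. -/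
theorem exists_dat [FiniteDimensional ℝ E] {α : Form1 E} {O N : Set E} {s : E → ℂ} {η : ℝ}
    (hα : ContDiff ℝ ∞ α) (hO : Bornology.IsBounded O) (oO : IsOpen O) (sub : N ⊆ O)
    (hN : IsCompact N) (cs : CS N (Tan N)) (nd : ∀ x ∈ N, Nd ((Tan N x).prod ⊤) (symz α x))
    (ob : OB N α s η) : ∃ d : Dat E, d.α = α ∧ d.O = O ∧ d.N = N ∧ d.s = s ∧ d.Ok := by
  have cs' : Continuous (fderiv ℝ s) := ob.1.continuous_fderiv (by simp)
  have co : ContinuousOn (dF α) N :=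
    (continuousOn_dF isOpen_univ (hα.of_le (by simp)).contDiffOn).mono (subset_univ _)
  obtain ⟨R, X₁, X₂, cR, c₁, c₂, cd⟩ := exists_cd (l := fderiv ℝ s) cs co hα.continuous.continuousOn
    cs'.continuousOn (fun p _ => alt_dF α p) nd
  have H := fun x hx => ob.2.2 x hx _ _ _ (cd x hx).hR (cd x hx).h₁ (cd x hx).h₂
  obtain ⟨σ, θ, pl⟩ := exists_plane
  obtain ⟨C, hC, hC'⟩ := exists_deriv_st_le
  obtain ⟨L, hL, hL'⟩ := (hN.inter_right (isClosed_le ob.1.continuous.norm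
    (continuous_const (y := η)))).exists_forall_le'
    (((co.clm_apply c₁).clm_apply c₂).mono inter_subset_left) fun x hx => (H x hx.1).1 hx.2
  obtain ⟨M, hM⟩ := hN.exists_bound_of_continuousOn (cs'.continuousOn.clm_apply cR)
  obtain ⟨S, hS⟩ := hO.isCompact_closure.exists_bound_of_continuousOn ob.1.continuous.continuousOn
  obtain ⟨e, k, t, h⟩ := m3b_num ob.2.1 hL (le_max_right M 0) (le_max_right S 0) hC
  exact ⟨⟨α, O, N, s, σ, θ, R, X₁, X₂, η, e, k, t, L, max M 0, max S 0, C⟩, rfl, rfl, rfl, rfl,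
    ⟨ob.2.1, h.1, h.2.1, h.2.2.1, hL, le_max_right _ _, le_max_right _ _, hC', h.2.2.2.1,
      h.2.2.2.2.1, h.2.2.2.2.2.1, h.2.2.2.2.2.2.1, h.2.2.2.2.2.2.2.1, h.2.2.2.2.2.2.2.2⟩,
    hα, ob.1, pl, oO, sub, hN, cs, cR, c₁, c₂, cd, fun x hx h => hL' x ⟨hx, h⟩,
    fun x hx => (H x hx).2.1, fun x hx => (H x hx).2.2, fun x hx => le_max_of_le_left (hM x hx),
    fun x hx => le_max_of_le_left (hS x (subset_closure hx))⟩

end Dat

end Pool.Agent.Lib.MP_ccffa6_gt.P
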