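import Pool.Agent.Lib.MP_ccffa6_gt.P.M1b

/-! Scalar inequalities on the model. -/

namespace Pool.Agent.Lib.MP_ccffa6_gt.P

open Set ContinuousLinearMap
open scoped ContDiff

namespace Dat

variable {E : Type} [NormedAddCommGroup E] [NormedSpace ℝ E] {d : Dat E} {p : E × ℝ × ℂ}

theorem m3_im (a : ℂ) {b : ℂ} {M : ℝ} (h : ‖b‖ ≤ M) : |((starRingEnd ℂ) a * b).im| ≤ ‖a‖ * M :=
  (Complex.abs_im_le_norm _).trans (by rw [norm_mul, RCLike.norm_conj]; gcongr)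

theorem m3_sc (L N m c B : ℝ) (θ s : ℂ) : Sc L θ m (-(N • s)) c (B • (Complex.I * s)) =
    c * (1 + m * L) + B * (((starRingEnd ℂ) s * θ).im + N * ‖s‖ ^ 2 * L) := by
  rw [Complex.sq_norm, Complex.normSq_apply]
  simp [Sc]
  ring

theorem m3_Γ (d : Dat E) {K : ℝ} (hK : 0 ≤ K) (q : ℝ × ℂ) : 0 ≤ d.Γ K q := by
  unfold Γ
  positivity

theorem Ok.lam_pos (h : d.Ok) (hp : p ∈ d.MX) (hu : deriv d.u p.2.1 ≠ 0) : d.L₀ ≤ d.Λ p.1 :=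
  h.near _ hp.1 (hp.2.2.1 ▸ h.num.small hp.2.1 hp.2.2.2 (lt_of_not_ge fun e => hu (u_lo e)))

theorem Ok.du_mul (h : d.Ok) (hp : p ∈ d.MX) : 0 ≤ deriv d.u p.2.1 * d.Λ p.1 := by
  rcases eq_or_ne (deriv d.u p.2.1) 0 with e | e
  · rw [e, zero_mul]
  · exact mul_nonneg (d.deriv_u_nonneg _) (h.num.L₀.le.trans (h.lam_pos hp e))

theorem Ok.dich (h : d.Ok) (hp : p ∈ d.MX) : (deriv d.u p.2.1 = 1 ∧ d.L₀ ≤ d.Λ p.1) ∨
    (0 < d.Θ p.1 ∧ ((starRingEnd ℂ) (d.μ p.2) * d.θ p.1).im < 0) := by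
  rcases le_total d.a₂ p.2.1 with e | e
  · exact .inl ⟨(u_hi e).2, h.lam_pos hp ((u_hi e).2 ▸ one_ne_zero)⟩
  obtain ⟨h1, c, hc, h2⟩ := h.num.big hp.2.1 e
  rw [← hp.2.2.1] at h1 h2
  have h3 := h.far _ hp.1 h1
  refine .inr ⟨h3, (neg_lt_zero.2 (mul_pos hc h3)).trans_eq' ?_⟩
  rw [h2, Θ]
  simp
  ring

theorem Ok.vert_pos (h : d.Ok) (hp : p ∈ d.MX) (h0 : 0 ≤ d.l p.2) :
    0 < deriv d.u p.2.1 * d.Λ p.1 - ((starRingEnd ℂ) (d.μ p.2) * d.θ p.1).im := by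
  rcases h.dich hp with ⟨e, h1⟩ | ⟨-, h1⟩
  · rw [e]
    linarith [h.num.mu_le hp.2.1 hp.2.2.2 h0, (abs_le.1 (m3_im (d.μ p.2) (h.bθ _ hp.1))).2,
      h.num.L₀]
  · linarith [h.du_mul hp]

theorem sc_cF (d : Dat E) (K A ϑ : ℝ) (p : E × ℝ × ℂ) :
    Sc (d.Λ p.1) (d.θ p.1) (2 * st (d.l p.2) * d.Γ K p.2)
      (-((d.k * st (d.l p.2) * deriv d.u p.2.1) • d.s p.1)) (A + ϑ * d.c₁ p.2)
      (((A * st (d.l p.2) + ϑ * (deriv st (d.l p.2) + 2 * st (d.l p.2))) * d.Γ K p.2) •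
        (Complex.I * d.s p.1)) = A * d.S₀ K p + ϑ * d.S₁ K p := by
  rw [m3_sc, S₀, S₁, Θ', Θ]
  ring

theorem Ok.sc_scale (h : d.Ok) {K : ℝ} (hK : 0 ≤ K) (hp : p ∈ d.MX) {r : ℝ} (hr : 0 ≤ r) :
    1 ≤ Sc (d.Λ p.1) (d.θ p.1) (r * (2 * st (d.l p.2) * d.Γ K p.2))
      (r • -((d.k * st (d.l p.2) * deriv d.u p.2.1) • d.s p.1)) 1
      (r • ((st (d.l p.2) * d.Γ K p.2) • (Complex.I * d.s p.1))) := by
  rw [smul_neg, smul_smul, smul_smul, m3_sc]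
  have h0 := Real.smoothTransition.nonneg (d.l p.2)
  have h1 := m3_Γ d hK p.2
  have h2 := h.du_mul hp
  have h3 := (h.all _ hp.1).le
  have h4 := h.num.k.le
  have h5 : 0 ≤ r * (st (d.l p.2) * d.Γ K p.2) * (d.Θ p.1 + 2 * d.Λ p.1 +
      r * d.k * st (d.l p.2) * ‖d.s p.1‖ ^ 2 * (deriv d.u p.2.1 * d.Λ p.1)) := by positivity
  rw [Θ] at h5
  linarith

theorem Ok.S₀_ge (h : d.Ok) {K : ℝ} (hK : 0 ≤ K) (hp : p ∈ d.MX) : 1 ≤ d.S₀ K p := by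
  have h1 := h.sc_scale hK hp zero_le_one
  have h2 := d.sc_cF K 1 0 p
  simp only [one_mul, one_smul, zero_mul, add_zero] at h1 h2
  exact h2 ▸ h1

theorem S₁_zero (d : Dat E) (K : ℝ) (h0 : d.l p.2 ≤ 0) : d.S₁ K p = 0 := by
  simp [S₁, Dat.c₁, deriv_st_of_nonpos h0, Real.smoothTransition.zero_of_nonpos h0]

theorem Ok.S₁_pos (h : d.Ok) {K : ℝ} (hK : 0 < K) (hp : p ∈ d.MX) (h1 : 1 ≤ d.l p.2) :
    0 < d.S₁ K p := by
  have ht := t_pos hp.2.1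
  have hk := h.num.k
  have hΓ : 0 < d.Γ K p.2 := by
    have := h.num.e
    unfold Γ
    positivity
  have e : d.S₁ K p = deriv d.u p.2.1 * d.k * d.t p.2 ^ 2 + 2 * d.Γ K p.2 *
      (d.Θ p.1 + d.k * (deriv d.u p.2.1 * d.Λ p.1) * (d.t p.2 ^ 2 + ‖d.s p.1‖ ^ 2)) := by
    simp only [S₁, Dat.c₁, Θ', deriv_st_of_one_le h1, Real.smoothTransition.one_of_one_le h1]
    ring
  rw [e]
  rcases h.dich hp with ⟨e1, h2⟩ | ⟨h2, -⟩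
  · rw [e1, one_mul, one_mul]
    refine add_pos_of_pos_of_nonneg (by positivity) (mul_nonneg (by positivity) ?_)
    have h3 : -(‖d.s p.1‖ * d.M) ≤ d.Θ p.1 := (abs_le.1 (m3_im _ (h.bθ _ hp.1))).1
    have h4 : d.t₀ ≤ d.t p.2 := by
      rw [h.num.t_eq hp.2.1]
      exact le_mul_of_one_le_right h.num.t₀.le (Real.one_le_exp (zero_le_one.trans h1))
    have h5 : d.t₀ * ‖d.s p.1‖ ≤ d.t p.2 ^ 2 + ‖d.s p.1‖ ^ 2 := by
      linarith [mul_le_mul_of_nonneg_right h4 (norm_nonneg (d.s p.1)),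
        sq_nonneg (d.t p.2 - ‖d.s p.1‖), mul_nonneg ht.le (norm_nonneg (d.s p.1))]
    have h6 := h.num.L₀
    have h7 := h.num.t₀
    have h8 : d.k * d.L₀ * (d.t₀ * ‖d.s p.1‖) ≤ d.k * d.Λ p.1 * (d.t p.2 ^ 2 + ‖d.s p.1‖ ^ 2) :=
      mul_le_mul (by gcongr) h5 (by positivity) (mul_pos hk (h6.trans_le h2)).le
    linarith [mul_le_mul_of_nonneg_right h.num.i₆ (norm_nonneg (d.s p.1)),
      mul_nonneg h.num.M (norm_nonneg (d.s p.1))]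
  · have h3 := h.du_mul hp
    have h4 := d.deriv_u_nonneg p.2.1
    positivity

theorem Ok.exists_k (h : d.Ok) {K : ℝ} (hK : 0 < K) : ∃ k' : ℝ, 0 < k' ∧ ∀ p ∈ d.MX, d.l p.2 ≤ 3 →
    0 < k' * deriv HH (d.l p.2) * d.S₀ K p + d.S₁ K p := by
  obtain ⟨B, hB⟩ := (h.cpt_col 0).exists_bound_of_continuousOn
    ((h.cont_S₁ K).mono inter_subset_left)
  have hk : 0 < |B| + 1 := by positivity
  refine ⟨|B| + 1, hk, fun p hp h3 => ?_⟩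
  have h0 := h.S₀_ge hK.le hp
  rcases le_total 1 (d.l p.2) with e | e
  · exact add_pos_of_nonneg_of_pos (mul_nonneg (mul_nonneg hk.le (deriv_HH_nonneg _))
      (zero_le_one.trans h0)) (h.S₁_pos hK hp e)
  rw [(HH_of_le (e.trans one_le_two)).2, mul_one]
  have h1 := mul_le_mul_of_nonneg_left h0 hk.le
  rcases le_total 0 (d.l p.2) with e' | e'
  · linarith [(abs_le.1 (hB p ⟨hp, e', h3⟩)).1, le_abs_self B]
  · linarith [d.S₁_zero K e']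

end Dat

end Pool.Agent.Lib.MP_ccffa6_gt.P
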