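import Pool.Agent.Lib.MP_ccffa6_gt.P.SB2

/-! A path of symplectic forms on a bundle over a compact set is trivial. -/

namespace Pool.Agent.Lib.MP_ccffa6_gt.P

open Set ContinuousLinearMap Filter Topology

variable {X E : Type} [TopologicalSpace X] [NormedAddCommGroup E] [NormedSpace ℝ E]
  [FiniteDimensional ℝ E] {K : Set X} {W : X → Submodule ℝ E}

section alg

variable {A : Type} [NormedRing A] [NormedAlgebra ℝ A]

/-- the iteration for the square root -/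
noncomputable def sb3_it (S : A) : ℕ → A
  | 0 => 0
  | n + 1 => (1 / 2 : ℝ) • (S - 1 - sb3_it S n * sb3_it S n)

theorem sb3_it_le {S : A} (h : ‖S - 1‖ < 1 / 2) (n : ℕ) : ‖sb3_it S n‖ ≤ 1 / 2 := by
  induction n with
  | zero => simp [sb3_it]
  | succ n ih =>
    have h1 : ‖sb3_it S n * sb3_it S n‖ ≤ 1 / 4 :=
      (norm_mul_le _ _).trans (by nlinarith [norm_nonneg (sb3_it S n)])
    have h2 := norm_sub_le (S - 1) (sb3_it S n * sb3_it S n)
    rw [sb3_it, norm_smul, Real.norm_of_nonneg (by norm_num)]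
    linarith

theorem sb3_it_dist {S : A} (h : ‖S - 1‖ < 1 / 2) (n : ℕ) :
    dist (sb3_it S n) (sb3_it S (n + 1)) ≤ 1 / 2 / 2 ^ n := by
  induction n with
  | zero => simpa [dist_eq_norm, sb3_it] using sb3_it_le h 1
  | succ n ih =>
    have e : sb3_it S (n + 1) - sb3_it S (n + 1 + 1) =
        -((1 / 2 : ℝ) • ((sb3_it S n - sb3_it S (n + 1)) * sb3_it S n +
          sb3_it S (n + 1) * (sb3_it S n - sb3_it S (n + 1)))) := by
      have e1 : sb3_it S (n + 1 + 1) =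
          (1 / 2 : ℝ) • (S - 1 - sb3_it S (n + 1) * sb3_it S (n + 1)) := rfl
      have e2 : sb3_it S (n + 1) = (1 / 2 : ℝ) • (S - 1 - sb3_it S n * sb3_it S n) := rfl
      rw [e1]
      generalize sb3_it S (n + 1) = y at *
      generalize sb3_it S n = x at *
      nth_rewrite 1 [e2]
      rw [← smul_sub, ← smul_neg]
      congr 1
      noncomm_ring
    rw [dist_eq_norm] at ih ⊢
    rw [e, norm_neg, norm_smul, Real.norm_of_nonneg (by norm_num)]
    have h1 := norm_mul_le (sb3_it S n - sb3_it S (n + 1)) (sb3_it S n)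
    have h2 := norm_mul_le (sb3_it S (n + 1)) (sb3_it S n - sb3_it S (n + 1))
    have h3 := norm_add_le ((sb3_it S n - sb3_it S (n + 1)) * sb3_it S n)
      (sb3_it S (n + 1) * (sb3_it S n - sb3_it S (n + 1)))
    have h4 := sb3_it_le h n
    have h5 := sb3_it_le h (n + 1)
    have h6 := norm_nonneg (sb3_it S n - sb3_it S (n + 1))
    have h7 : (1 : ℝ) / 2 / 2 ^ (n + 1) = 1 / 2 * (1 / 2 / 2 ^ n) := by
      rw [pow_succ]; field_simp
    rw [h7]
    nlinarith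

theorem sb3_it_cont (n : ℕ) : Continuous fun S : A => sb3_it S n := by
  induction n with
  | zero => exact continuous_const
  | succ n ih => exact ((continuous_id.sub continuous_const).sub (ih.mul ih)).const_smul _

theorem sb3_it_mem (S : A) (n : ℕ) : sb3_it S n ∈ Algebra.adjoin ℝ {S} := by
  induction n with
  | zero => exact zero_mem _
  | succ n ih =>
    exact Subalgebra.smul_mem _ (sub_mem (sub_mem (Algebra.self_mem_adjoin_singleton ℝ S)
      (one_mem _)) (mul_mem ih ih)) _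

theorem sb3_it_one (n : ℕ) : sb3_it (1 : A) n = 0 := by
  induction n with
  | zero => rfl
  | succ n ih => simp [sb3_it, ih]

theorem sb3_sqrt [FiniteDimensional ℝ A] : ∃ r : A → A,
    ContinuousOn r (Metric.ball 1 (1 / 2)) ∧ r 1 = 1 ∧ ∀ S ∈ Metric.ball (1 : A) (1 / 2),
      r S * r S = S ∧ IsUnit (r S) ∧ r S ∈ Algebra.adjoin ℝ {S} := by
  have : CompleteSpace A := FiniteDimensional.complete ℝ A
  have hc : ∀ S ∈ Metric.ball (1 : A) (1 / 2), ∃ L, Tendsto (sb3_it S) atTop (𝓝 L) :=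
    fun S hS => cauchySeq_tendsto_of_complete
      (cauchySeq_of_le_geometric_two (sb3_it_dist (mem_ball_iff_norm.1 hS)))
  choose! L hL using hc
  have hu : TendstoUniformlyOn (fun n S => sb3_it S n) L atTop (Metric.ball (1 : A) (1 / 2)) := by
    rw [Metric.tendstoUniformlyOn_iff]
    intro ε hε
    have h0 : Tendsto (fun n : ℕ => (1 : ℝ) / 2 ^ n) atTop (𝓝 0) :=
      tendsto_const_nhds.div_atTop (tendsto_pow_atTop_atTop_of_one_lt one_lt_two)
    filter_upwards [h0.eventually (gt_mem_nhds hε)] with n hn S hS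
    rw [dist_comm]
    exact (dist_le_of_le_geometric_two_of_tendsto (sb3_it_dist (mem_ball_iff_norm.1 hS))
      (hL S hS) n).trans_lt hn
  refine ⟨fun S => 1 + L S, continuousOn_const.add
    (hu.continuousOn (Frequently.of_forall fun n => (sb3_it_cont n).continuousOn)), ?_,
    fun S hS => ?_⟩
  · have h1 := hL 1 (Metric.mem_ball_self (by norm_num))
    rw [show sb3_it (1 : A) = fun _ => 0 from funext sb3_it_one] at h1
    simp [tendsto_nhds_unique h1 tendsto_const_nhds]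
  · have h1 := hL S hS
    have h2 : L S = (1 / 2 : ℝ) • (S - 1 - L S * L S) :=
      tendsto_nhds_unique (h1.comp (tendsto_add_atTop_nat 1))
        ((tendsto_const_nhds.sub (h1.mul h1)).const_smul _)
    have h3 : L S + L S = S - 1 - L S * L S := by
      nth_rewrite 1 [h2]
      nth_rewrite 3 [h2]
      rw [← add_smul]; norm_num
    have h4 : (1 + L S) * (1 + L S) = S := by
      have : (1 + L S) * (1 + L S) = 1 + (L S + L S) + L S * L S := by noncomm_ring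
      rw [this, h3]; abel
    refine ⟨h4, ?_, add_mem (one_mem _) ?_⟩
    · have h5 : ‖1 - S‖ < 1 := by
        rw [norm_sub_rev]; linarith [mem_ball_iff_norm.1 hS]
      have h6 := isUnit_one_sub_of_norm_lt_one h5
      rw [sub_sub_cancel] at h6
      exact isUnit_mul_self_iff.1 (h4.symm ▸ h6)
    · exact (Submodule.closed_of_finiteDimensional
        (Subalgebra.toSubmodule (Algebra.adjoin ℝ {S}))).mem_of_tendsto h1
        (Eventually.of_forall (sb3_it_mem S))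

end alg

/-- A continuous square root near `1`. -/
theorem exists_sqrt_near (E : Type) [NormedAddCommGroup E] [NormedSpace ℝ E]
    [FiniteDimensional ℝ E] : ∃ r : (E →L[ℝ] E) → E →L[ℝ] E,
      ContinuousOn r (Metric.ball 1 (1 / 2)) ∧ r 1 = 1 ∧ ∀ S ∈ Metric.ball (1 : E →L[ℝ] E) (1 / 2),
        r S * r S = S ∧ IsUnit (r S) ∧ r S ∈ Algebra.adjoin ℝ {S} := sb3_sqrt

omit [TopologicalSpace X] in
theorem sb3_dual {V : Submodule ℝ E} {w : Bil E} (nd : Nd V w) (l : Bil E) :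
    ∃ T : E →L[ℝ] E, ∀ u, T u ∈ V ∧ ∀ v ∈ V, w (T u) v = l u v := by
  choose f hf using fun u => nd.exists_dual (l u)
  refine ⟨LinearMap.toContinuousLinearMap
    { toFun := f, map_add' := fun a b => ?_, map_smul' := fun c a => ?_ }, hf⟩
  · refine sub_eq_zero.1 (nd _ (sub_mem (hf _).1 (add_mem (hf _).1 (hf _).1)) fun v hv => ?_)
    simp [(hf _).2 v hv]
  · refine sub_eq_zero.1 (nd _ (sub_mem (hf _).1 (V.smul_mem _ (hf _).1)) fun v hv => ?_)
    simp [(hf _).2 v hv]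

/-- `S p u = w + (u - P p u)` with `w ∈ W p` dual to `o p (P p u)`. -/
theorem exists_ext {ω : X → Bil E} (h : SB K W ω) {P : X → E →L[ℝ] E} (hP : ContinuousOn P K)
    (p₁ : ∀ p ∈ K, (∀ v, P p v ∈ W p) ∧ ∀ v ∈ W p, P p v = v) {o : X → Bil E} (ho : SB K W o) :
    ∃ S : X → E →L[ℝ] E, ContinuousOn S K ∧ ∀ p ∈ K, (∀ u ∈ W p, S p u ∈ W p) ∧
      (∀ u, P p u = 0 → S p u = u) ∧ (∀ u ∈ W p, ∀ v ∈ W p, ω p (S p u) v = o p u v) ∧
      (o p = ω p → S p = 1) := by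
  choose! T hT using fun p (hp : p ∈ K) => sb3_dual (h.nd p hp) ((o p).comp (P p))
  have hc : ContinuousOn T K := continuousOn_clm_apply.2 fun u =>
    h.cs.dual h.cont h.nd (l := fun p => o p (P p u))
      (ho.cont.clm_apply (hP.clm_apply continuousOn_const)) fun p hp => hT p hp u
  refine ⟨fun p => T p + (1 - P p), hc.add (continuousOn_const.sub hP), fun p hp =>
    ⟨fun u hu => ?_, fun u hu => ?_, fun u hu v hv => ?_, fun e => ?_⟩⟩
  · simpa [(p₁ p hp).2 u hu] using (hT p hp u).1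
  · have : T p u = 0 := h.nd p hp _ (hT p hp u).1 fun v hv => by simp [(hT p hp u).2 v hv, hu]
    simp [this, hu]
  · simpa [(p₁ p hp).2 u hu] using (hT p hp u).2 v hv
  · ext u
    have : T p u = P p u := sub_eq_zero.1 (h.nd p hp _ (sub_mem (hT p hp u).1 ((p₁ p hp).1 u))
      fun v hv => by simp [(hT p hp u).2 v hv, e])
    simp [this]

theorem sb3_root {V : Submodule ℝ E} {w o : Bil E} (aw : Alt w) (ao : Alt o) {S R : E →L[ℝ] E}
    (hS : ∀ u ∈ V, S u ∈ V) (e : ∀ u ∈ V, ∀ v ∈ V, w (S u) v = o u v) (h1 : R * R = S)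
    (h2 : IsUnit R) (h3 : R ∈ Algebra.adjoin ℝ {S}) :
    BijOn R V V ∧ ∀ u ∈ V, ∀ v ∈ V, w (R u) (R v) = o u v := by
  have key : ∀ T ∈ Algebra.adjoin ℝ {S},
      (∀ u ∈ V, T u ∈ V) ∧ ∀ u ∈ V, ∀ v ∈ V, w (T u) v = w u (T v) := by
    intro T hT
    induction hT using Algebra.adjoin_induction with
    | mem x hx =>
      obtain rfl : x = S := hx
      exact ⟨hS, fun u hu v hv => by rw [e u hu v hv, ao, ← e v hv u hu, ← aw]⟩
    | algebraMap c =>
      exact ⟨fun u hu => V.smul_mem c hu, fun u _ v _ => by simp [Algebra.algebraMap_eq_smul_one]⟩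
    | add x y _ _ hx hy =>
      exact ⟨fun u hu => add_mem (hx.1 u hu) (hy.1 u hu), fun u hu v hv => by
        simp [hx.2 u hu v hv, hy.2 u hu v hv]⟩
    | mul x y mx my hx hy =>
      refine ⟨fun u hu => hx.1 _ (hy.1 u hu), fun u hu v hv => ?_⟩
      have hc : x * y = y * x := Algebra.commute_of_mem_adjoin_singleton_of_commute my
        (Algebra.commute_of_mem_adjoin_self mx).symm
      nth_rewrite 2 [hc]
      exact (hx.2 _ (hy.1 u hu) v hv).trans (hy.2 u hu _ (hx.1 v hv))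
  obtain ⟨k1, k2⟩ := key R h3
  have inj : Function.Injective R := (ContinuousLinearMap.isUnit_iff_bijective.1 h2).1
  refine ⟨⟨k1, inj.injOn, fun y hy => ?_⟩, fun u hu v hv => ?_⟩
  · have hs : Function.Surjective ((R : E →ₗ[ℝ] E).restrict k1) :=
      LinearMap.surjective_of_injective fun a b hab =>
        Subtype.ext (inj (congrArg Subtype.val hab))
    obtain ⟨x, hx⟩ := hs ⟨y, hy⟩
    exact ⟨x, x.2, congrArg Subtype.val hx⟩
  · rw [← k2 _ (k1 u hu) v hv, ← e u hu v hv, ← h1]; rfl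

/-- short steps in the parameter -/
theorem sb3_step (hK : IsCompact K) {Ω : X × ℝ → Bil E}
    (h : SB (K ×ˢ Icc (0 : ℝ) 1) (fun q => W q.1) Ω) :
    ∃ δ : ℝ, 0 < δ ∧ ∃ B : X × ℝ × ℝ → E →L[ℝ] E,
      IsSI {q | q ∈ K ×ˢ Icc (0 : ℝ) 1 ×ˢ Icc (0 : ℝ) 1 ∧ |q.2.1 - q.2.2| ≤ δ} (fun q => W q.1)
        (fun q => Ω (q.1, q.2.1)) (fun q => W q.1) (fun q => Ω (q.1, q.2.2)) B ∧
      ∀ p ∈ K, B (p, 0, 0) = 1 := by
  have h1 : SB (K ×ˢ Icc (0 : ℝ) 1 ×ˢ Icc (0 : ℝ) 1) (fun q => W q.1)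
      fun q => Ω (q.1, q.2.1) :=
    h.comp (f := fun q : X × ℝ × ℝ => (q.1, q.2.1)) (by fun_prop) fun q hq => ⟨hq.1, hq.2.1⟩
  have h2 : SB (K ×ˢ Icc (0 : ℝ) 1 ×ˢ Icc (0 : ℝ) 1) (fun q => W q.1)
      fun q => Ω (q.1, q.2.2) :=
    h.comp (f := fun q : X × ℝ × ℝ => (q.1, q.2.2)) (by fun_prop) fun q hq => ⟨hq.1, hq.2.2⟩
  obtain ⟨P, hP, p₁⟩ := h2.cs
  obtain ⟨S, hS, pS⟩ := exists_ext h2 hP p₁ h1
  obtain ⟨r, hr, r1, pr⟩ := exists_sqrt_near E
  obtain ⟨δ, hδ, hle⟩ := (hK.prod (isCompact_Icc.prod isCompact_Icc)).exists_forall_le'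
    (f := fun q : X × ℝ × ℝ => |q.2.1 - q.2.2| + max 0 (1 / 2 - ‖S q - 1‖)) (a := 0)
    ((by fun_prop : Continuous fun q : X × ℝ × ℝ => |q.2.1 - q.2.2|).continuousOn.add
      (continuousOn_const.sup (continuousOn_const.sub (hS.sub continuousOn_const).norm)))
    (fun q hq => by
      by_cases e : q.2.1 = q.2.2
      · rw [(pS q hq).2.2.2 (by simp only [e]), e]; norm_num
      · exact add_pos_of_pos_of_nonneg (abs_pos.2 (sub_ne_zero.2 e)) (le_max_left _ _))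
  have hb : ∀ q ∈ {q | q ∈ K ×ˢ Icc (0 : ℝ) 1 ×ˢ Icc (0 : ℝ) 1 ∧ |q.2.1 - q.2.2| ≤ δ / 2},
      S q ∈ Metric.ball (1 : E →L[ℝ] E) (1 / 2) := by
    intro q hq
    have h3 := hle q hq.1
    have h4 : 0 < max 0 (1 / 2 - ‖S q - 1‖) := by linarith [hq.2]
    rw [mem_ball_iff_norm]
    rcases lt_max_iff.1 h4 with h5 | h5
    · exact absurd h5 (lt_irrefl _)
    · linarith
  have hq := fun q hq => sb3_root (h2.alt q (hq : q ∈ {q | q ∈ K ×ˢ Icc (0 : ℝ) 1 ×ˢ Icc (0 : ℝ) 1 ∧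
    |q.2.1 - q.2.2| ≤ δ / 2}).1) (h1.alt q hq.1) (pS q hq.1).1 (pS q hq.1).2.2.1
    (pr _ (hb q hq)).1 (pr _ (hb q hq)).2.1 (pr _ (hb q hq)).2.2
  refine ⟨δ / 2, half_pos hδ, fun q => r (S q), ⟨hr.comp (hS.mono fun q hq => hq.1) hb,
    fun q h => (hq q h).1, fun q h => (hq q h).2⟩, fun p hp => ?_⟩
  have h0 : (0 : ℝ) ∈ Icc (0 : ℝ) 1 := left_mem_Icc.2 zero_le_one
  show r (S (p, 0, 0)) = 1
  rw [(pS (p, 0, 0) ⟨hp, h0, h0⟩).2.2.2 rfl, r1]

/-- LEMMA L, strong form: the isomorphisms depend continuously on the parameter and start at the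
identity. -/
theorem exists_path (hK : IsCompact K) {Ω : X × ℝ → Bil E}
    (h : SB (K ×ˢ Icc (0 : ℝ) 1) (fun q => W q.1) Ω) :
    ∃ A : X × ℝ → E →L[ℝ] E,
      IsSI (K ×ˢ Icc (0 : ℝ) 1) (fun q => W q.1) (fun q => Ω (q.1, 0)) (fun q => W q.1) Ω A ∧
      ∀ p ∈ K, ∀ u ∈ W p, A (p, 0) u = u := by
  obtain ⟨δ, hδ, B, hB, B1⟩ := sb3_step hK h
  have key : ∀ k : ℕ, ∃ A : X × ℝ → E →L[ℝ] E,
      IsSI (K ×ˢ Icc (0 : ℝ) 1) (fun q => W q.1) (fun q => Ω (q.1, 0)) (fun q => W q.1)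
        (fun q => Ω (q.1, min q.2 (k * δ))) A ∧ ∀ p ∈ K, A (p, 0) = 1 := by
    intro k
    induction k with
    | zero =>
      refine ⟨fun _ => 1, ⟨continuousOn_const, fun q _ => bijOn_id _, fun q hq u _ v _ => ?_⟩,
        fun _ _ => rfl⟩
      simp [min_eq_right hq.2.1]
    | succ k ih =>
      obtain ⟨A, hA, A1⟩ := ih
      have k0 : (0 : ℝ) ≤ k * δ := by positivity
      have k1 : (0 : ℝ) ≤ (k + 1 : ℕ) * δ := by positivity
      have m : MapsTo (fun q : X × ℝ => (q.1, min q.2 (k * δ), min q.2 ((k + 1 : ℕ) * δ)))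
          (K ×ˢ Icc (0 : ℝ) 1)
          {q | q ∈ K ×ˢ Icc (0 : ℝ) 1 ×ˢ Icc (0 : ℝ) 1 ∧ |q.2.1 - q.2.2| ≤ δ} := by
        intro q hq
        refine ⟨⟨hq.1, ⟨le_min hq.2.1 k0, min_le_of_left_le hq.2.2⟩,
          ⟨le_min hq.2.1 k1, min_le_of_left_le hq.2.2⟩⟩, (abs_min_sub_min_le_max _ _ _ _).trans ?_⟩
        have : (k : ℝ) * δ - (k + 1 : ℕ) * δ = -δ := by push_cast; ring
        simp only [this, sub_self, abs_zero, abs_neg, abs_of_pos hδ, max_eq_right hδ.le, le_refl]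
      refine ⟨fun q => B (q.1, min q.2 (k * δ), min q.2 ((k + 1 : ℕ) * δ)) * A q,
        ⟨(hB.cont.comp (by fun_prop) m).mul hA.cont,
          fun q hq => (hB.bij _ (m hq)).comp (hA.bij q hq), fun q hq u hu v hv => ?_⟩,
        fun p hp => ?_⟩
      · exact (hB.form _ (m hq) _ ((hA.bij q hq).1 hu) _ ((hA.bij q hq).1 hv)).trans
          (hA.form q hq u hu v hv)
      · simp only [min_eq_left k0, min_eq_left k1, B1 p hp, A1 p hp, mul_one]
  obtain ⟨k, hk⟩ := exists_nat_ge (1 / δ)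
  obtain ⟨A, hA, A1⟩ := key k
  refine ⟨A, ⟨hA.cont, hA.bij, fun q hq u hu v hv => ?_⟩, fun p hp u _ => by rw [A1 p hp]; rfl⟩
  have := hA.form q hq u hu v hv
  rwa [min_eq_left (hq.2.2.trans ((div_le_iff₀ hδ).1 hk))] at this

/-- LEMMA L -/
theorem si_path (hK : IsCompact K) {Ω : X × ℝ → Bil E}
    (h : SB (K ×ˢ Icc (0 : ℝ) 1) (fun q => W q.1) Ω) :
    SI K W (fun p => Ω (p, 0)) W fun p => Ω (p, 1) := by
  obtain ⟨A, hA, -⟩ := exists_path hK h
  have m : MapsTo (fun p : X => (p, (1 : ℝ))) K (K ×ˢ Icc (0 : ℝ) 1) :=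
    fun p hp => ⟨hp, right_mem_Icc.2 zero_le_one⟩
  exact ⟨fun p => A (p, 1), hA.cont.comp (by fun_prop) m, fun p hp => hA.bij _ (m hp),
    fun p hp => hA.form _ (m hp)⟩

end Pool.Agent.Lib.MP_ccffa6_gt.P
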