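import Pool.Agent.Lib.MP_ccffa6_gt.P.NL
import Pool.Agent.Lib.MP_ccffa6_gt.P.SB3

/-! Paths in the family `Fm`. -/

namespace Pool.Agent.Lib.MP_ccffa6_gt.P

open Set ContinuousLinearMap

variable {X E : Type} [TopologicalSpace X] [NormedAddCommGroup E] [NormedSpace ℝ E]
  [FiniteDimensional ℝ E]

/-- `si_path`, `CD.nd_fm`, `alt_fm`, `continuousOn_fm` -/
theorem si_fm {K : Set X} (hK : IsCompact K) {T : X → Submodule ℝ E} {o : X → Bil E}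
    {a : X → F1 E} {l : X → E →L[ℝ] ℂ} {R X₁ X₂ : X → E} (cs : CS K T) (ho : ContinuousOn o K)
    (ha : ContinuousOn a K) (hl : ContinuousOn l K)
    (cd : ∀ p ∈ K, CD (T p) (o p) (a p) (l p) (R p) (X₁ p) (X₂ p))
    {m c : X × ℝ → ℝ} {n b : X × ℝ → ℂ} (hm : ContinuousOn m (K ×ˢ Icc 0 1))
    (hn : ContinuousOn n (K ×ˢ Icc 0 1)) (hc : ContinuousOn c (K ×ˢ Icc 0 1))
    (hb : ContinuousOn b (K ×ˢ Icc 0 1))
    (hS : ∀ p ∈ K, ∀ r ∈ Icc (0 : ℝ) 1,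
      Sc (o p (X₁ p) (X₂ p)) (l p (R p)) (m (p, r)) (n (p, r)) (c (p, r)) (b (p, r)) ≠ 0) :
    SI K (fun p => (T p).prod ⊤)
      (fun p => Fm (o p) (a p) (l p) (m (p, 0)) (n (p, 0)) (c (p, 0)) (b (p, 0)))
      (fun p => (T p).prod ⊤)
      fun p => Fm (o p) (a p) (l p) (m (p, 1)) (n (p, 1)) (c (p, 1)) (b (p, 1)) := by
  have f : ContinuousOn (Prod.fst : X × ℝ → X) (K ×ˢ Icc (0 : ℝ) 1) := continuousOn_fst
  have g : MapsTo (Prod.fst : X × ℝ → X) (K ×ˢ Icc (0 : ℝ) 1) K := fun _ h => h.1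
  exact si_path (W := fun p => (T p).prod ⊤)
    (Ω := fun q => Fm (o q.1) (a q.1) (l q.1) (m q) (n q) (c q) (b q)) hK
    ⟨(cs.prod (cs_top K)).comp f g,
      continuousOn_fm (ho.comp f g) (ha.comp f g) (hl.comp f g) hm hn hc hb,
      fun q hq => alt_fm (cd _ hq.1).alt _ _ _ _ _ _,
      fun q hq => (cd _ hq.1).nd_fm (hS _ hq.1 _ hq.2)⟩

end Pool.Agent.Lib.MP_ccffa6_gt.P
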