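import Pool.Agent.Lib.MP_ccffa6_gt.P.M2
import Pool.Agent.Lib.MP_ccffa6_gt.P.M3
import Pool.Agent.Lib.MP_ccffa6_gt.P.NL2

/-! The collar of the model. -/

namespace Pool.Agent.Lib.MP_ccffa6_gt.P

open Set ContinuousLinearMap
open scoped ContDiff

namespace Dat

variable {E : Type} [NormedAddCommGroup E] [NormedSpace ℝ E] [FiniteDimensional ℝ E] {d : Dat E}
  {K k' : ℝ}

/-- `Ok.col_bij`, `Ok.dlam_col`, `sc_cF`, `CD.nd_fm`, `Nd.of_bij` -/
theorem Ok.col_nd (h : d.Ok) {p : E × ℝ × ℂ} (hp : p ∈ d.MX) (h3 : d.l p.2 ≤ 3)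
    (hS : 0 < k' * deriv HH (d.l p.2) * d.S₀ K p + d.S₁ K p) :
    Nd (d.MT p) (dF (d.lam K k') p) := by
  have nd : Nd ((Tan d.N p.1).prod ⊤) (d.cF K p (k' * deriv HH (d.l p.2)) 1) := by
    refine (h.cd p.1 hp.1).nd_fm ?_
    have e := sc_cF d K (k' * deriv HH (d.l p.2)) 1 p
    rw [one_mul (d.S₁ K p)] at e
    exact (e.trans_gt hS).ne'
  exact (nd.smul (Real.exp_ne_zero (k' * HH (d.l p.2) + st (d.l p.2) * d.u p.2.1))).of_bij
    (h.col_bij hp h3) fun u hu v hv => h.dlam_col K k' hp h3 hu hv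

/-- `pc` (`Ok.cont_pc`) and `si_smul` lead to `cF K p (k' H') 1`; `si_fm` along
`(A, ϑ) = ((1 - r) k' H' + r, 1 - r)` (`sc_cF`, `Ok.S₀_ge`) leads to `cF K p 1 0`; `si_fm` along
`(1 - r) • (m, n, b)` (`Ok.sc_scale`) leads to `Fm 0 0 1 0 = symz`. -/
theorem Ok.col_si (h : d.Ok) (hK : 0 ≤ K)
    (hS : ∀ p ∈ d.MX, d.l p.2 ≤ 3 → 0 < k' * deriv HH (d.l p.2) * d.S₀ K p + d.S₁ K p) (b : ℝ) :
    SI (d.col b) d.MT (dF (d.lam K k')) (fun p => (Tan d.N p.1).prod ⊤) fun p => symz d.α p.1 := by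
  have sub : d.col b ⊆ d.MX := inter_subset_left
  have cl := h.cont_l.mono sub
  have cst : Continuous st := contDiff_st.continuous
  have s₁ : SI (d.col b) d.MT (dF (d.lam K k')) (fun p => (Tan d.N p.1).prod ⊤) fun p =>
      Real.exp (k' * HH (d.l p.2) + st (d.l p.2) * d.u p.2.1) •
        d.cF K p (k' * deriv HH (d.l p.2)) 1 :=
    ⟨d.pc, h.cont_pc.mono sub, fun p hp => h.col_bij hp.1 hp.2.2, fun p hp u hu v hv =>
      (h.dlam_col K k' hp.1 hp.2.2 hu hv).symm⟩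
  refine s₁.trans ((si_smul (Real.continuous_exp.comp_continuousOn
    ((continuousOn_const.mul (contDiff_HH.continuous.comp_continuousOn cl)).add
      ((cst.comp_continuousOn cl).mul
        (d.contDiff_u.continuous.comp continuous_snd.fst).continuousOn)))
    fun p _ => Real.exp_pos _).trans ?_)
  have cs : CS (d.col b) fun p => Tan d.N p.1 := h.cs.comp continuousOn_fst fun p hp => hp.1.1
  have co : ContinuousOn (fun p : E × ℝ × ℂ => dF d.α p.1) (d.col b) :=
    (continuousOn_dF isOpen_univ (h.sα.of_le (by simp)).contDiffOn).comp continuousOn_fst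
      (mapsTo_univ _ _)
  have ca : ContinuousOn (fun p : E × ℝ × ℂ => d.α p.1) (d.col b) :=
    (h.sα.continuous.comp continuous_fst).continuousOn
  have cd : ContinuousOn (fun p : E × ℝ × ℂ => fderiv ℝ d.s p.1) (d.col b) :=
    ((h.ss.continuous_fderiv (by simp)).comp continuous_fst).continuousOn
  have up : ∀ {Z : Type} [TopologicalSpace Z] {g : E × ℝ × ℂ → Z}, ContinuousOn g (d.col b) →
      ContinuousOn (fun q : (E × ℝ × ℂ) × ℝ => g q.1) (d.col b ×ˢ Icc 0 1) := fun hg =>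
    hg.comp continuousOn_fst fun _ hq => hq.1
  have c₀ := up (cst.comp_continuousOn cl)
  have c₁ := up ((contDiff_st.continuous_deriv (by simp)).comp_continuousOn cl)
  have c₂ := up ((contDiff_HH.continuous_deriv (by simp)).comp_continuousOn cl)
  have cΓ := up ((h.cont_Γ K).mono sub)
  have cc := up (h.cont_c₁.mono sub)
  have cu := up (g := fun p => deriv d.u p.2.1) (d.cont_du.comp continuous_snd.fst).continuousOn
  have cz := up (g := fun p => d.s p.1) (h.ss.continuous.comp continuous_fst).continuousOn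
  have cr : ContinuousOn (fun q : (E × ℝ × ℂ) × ℝ => 1 - q.2) (d.col b ×ˢ Icc 0 1) :=
    continuousOn_const.sub continuousOn_snd
  have cm : ContinuousOn (fun q : (E × ℝ × ℂ) × ℝ => 2 * st (d.l q.1.2) * d.Γ K q.1.2)
      (d.col b ×ˢ Icc 0 1) := (continuousOn_const.mul c₀).mul cΓ
  have cn : ContinuousOn (fun q : (E × ℝ × ℂ) × ℝ =>
      -((d.k * st (d.l q.1.2) * deriv d.u q.1.2.1) • d.s q.1.1)) (d.col b ×ˢ Icc 0 1) :=
    (((continuousOn_const.mul c₀).mul cu).smul cz).neg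
  have cI : ContinuousOn (fun q : (E × ℝ × ℂ) × ℝ => Complex.I * d.s q.1.1) (d.col b ×ˢ Icc 0 1) :=
    continuousOn_const.mul cz
  have cA : ContinuousOn (fun q : (E × ℝ × ℂ) × ℝ =>
      (1 - q.2) * (k' * deriv HH (d.l q.1.2)) + q.2) (d.col b ×ˢ Icc 0 1) :=
    (cr.mul (continuousOn_const.mul c₂)).add continuousOn_snd
  have s₃ := si_fm (h.cpt_col b) cs co ca cd (fun p hp => h.cd p.1 hp.1.1) cm cn
    (c := fun q => (1 - q.2) * (k' * deriv HH (d.l q.1.2)) + q.2 + (1 - q.2) * d.c₁ q.1.2)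
    (b := fun q => ((((1 - q.2) * (k' * deriv HH (d.l q.1.2)) + q.2) * st (d.l q.1.2) +
      (1 - q.2) * (deriv st (d.l q.1.2) + 2 * st (d.l q.1.2))) * d.Γ K q.1.2) •
        (Complex.I * d.s q.1.1))
    (cA.add (cr.mul cc))
    ((((cA.mul c₀).add (cr.mul (c₁.add (continuousOn_const.mul c₀)))).mul cΓ).smul cI)
    fun p hp r hr => by
      refine ((sc_cF d K ((1 - r) * (k' * deriv HH (d.l p.2)) + r) (1 - r) p).trans_gt ?_).ne'
      have h1 := hS p hp.1 hp.2.2
      have h2 := h.S₀_ge hK hp.1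
      have h3 := mul_nonneg (sub_nonneg.2 hr.2) h1.le
      rcases hr.1.eq_or_lt with rfl | h4
      · linarith
      · nlinarith
  have s₄ := si_fm (h.cpt_col b) cs co ca cd (fun p hp => h.cd p.1 hp.1.1)
    (m := fun q => (1 - q.2) * (2 * st (d.l q.1.2) * d.Γ K q.1.2))
    (n := fun q => (1 - q.2) • -((d.k * st (d.l q.1.2) * deriv d.u q.1.2.1) • d.s q.1.1))
    (c := fun _ => 1)
    (b := fun q => (1 - q.2) • ((st (d.l q.1.2) * d.Γ K q.1.2) • (Complex.I * d.s q.1.1)))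
    (cr.mul cm) (cr.smul cn) continuousOn_const (cr.smul ((c₀.mul cΓ).smul cI))
    fun p hp r hr => (one_pos.trans_le (h.sc_scale hK hp.1 (sub_nonneg.2 hr.2))).ne'
  simp only [sub_zero, one_mul, add_zero, sub_self, zero_mul, zero_add, one_smul, zero_smul,
    fm_zero] at s₃ s₄
  simpa only [cF, one_mul, symz_eq] using s₃.trans s₄

end Dat

end Pool.Agent.Lib.MP_ccffa6_gt.P
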