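import Pool.Agent.Lib.MP_ccffa6_gt.P.M5
import Pool.Agent.Lib.MP_ccffa6_gt.P.M6

/-! The result on the model. -/

namespace Pool.Agent.Lib.MP_ccffa6_gt.P

open Set ContinuousLinearMap
open scoped ContDiff

namespace Dat

variable {E : Type} [NormedAddCommGroup E] [NormedSpace ℝ E] [FiniteDimensional ℝ E] {d : Dat E}

omit [FiniteDimensional ℝ E] in
theorem m7_rho (h : d.Ok) {p : E × ℝ × ℂ} (hp : p.1 ∈ d.N) {b : ℝ} (hb : b ≤ 3) :
    (p.1, d.kap (d.s p.1) 3) ∈ d.out 3 ∩ d.col b := by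
  obtain ⟨h1, h2, h3, h4⟩ := h.num.kap_mem (h.bs _ (h.sub hp)) (le_refl (3 : ℝ))
  have hm : (p.1, d.kap (d.s p.1) 3) ∈ d.MX :=
    ⟨hp, h1, h2.symm, (pp_sq_le (h4.trans (by norm_num))).trans (by norm_num)⟩
  exact ⟨⟨hm, (h.num.lo h1 h3.le).trans (by norm_num), h3.ge⟩, hm, hb.trans h3.ge, h3.le⟩

theorem Ok.model (h : d.Ok) : ∃ K k', d.MOk K k' := by
  obtain ⟨K, hK, H⟩ := h.mid
  obtain ⟨k', hk, hS⟩ := h.exists_k hK
  obtain ⟨hpt, hsi⟩ := H K le_rfl k'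
  have on : ∀ p ∈ d.MX, p.2.1 ≤ -1 → Onto ((Tan d.N p.1).prod ⊤) (d.mL p) := fun p hp ha => by
    rcases le_total (d.l p.2) 3 with h3 | h3
    exacts [h.col_onto hp h3, (hpt p ⟨hp, ha, h3⟩).onto]
  refine ⟨K, k', hK, hk, fun p hp ha => ?_, fun b hb => ?_⟩
  · rcases le_total (d.l p.2) 3 with h3 | h3
    · have : pp p.2.2 ^ 2 ≤ 1 / 2 := pp_sq_le ((h.num.col_near hp.2.1 h3
        (hp.2.2.1 ▸ h.bs _ (h.sub hp.1))).trans (by norm_num))
      exact ⟨h.col_onto hp h3, h.col_nd hp h3 (hS p hp h3), fun g => absurd g (not_lt.2 this),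
        fun g => absurd g (not_lt.2 this)⟩
    · exact hpt p ⟨hp, ha, h3⟩
  · obtain ⟨Φ, hΦ⟩ := hsi.trans h.si_vert
    have sub : d.out b ⊆ d.MX := inter_subset_left
    have cs : CS (d.out b) d.MT :=
      (h.cs_T'.mono sub).kr (h.cont_mL.mono sub) fun p hp => on p hp.1 hp.2.1
    rw [h.num.out_eq hb] at cs ⊢
    have c₀ : Continuous fun p : E × ℝ × ℂ => (d.s p.1, (3 : ℝ)) :=
      (h.ss.continuous.comp continuous_fst).prodMk continuous_const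
    have c : Continuous fun p : E × ℝ × ℂ => (p.1, d.kap (d.s p.1) 3) :=
      continuous_fst.prodMk (by simpa only [Function.comp_def] using (contDiff_kap d).continuous.comp c₀)
    obtain ⟨Ψ, hΨ, -⟩ := IsSI.paste (h.cpt_out 3).isClosed (h.cpt_col b).isClosed cs hΦ
      (h.col_si hK.le hS b) (h.cs_T.mono inter_subset_left) c.continuousOn
      (fun p hp => m7_rho h hp.1.1 hb) (fun p hp => by
        have e := h.num.kap_eq hp.1.1.2.1 hp.2.2.2
        rw [← hp.1.1.2.2.1, le_antisymm hp.2.2.2 hp.1.2.2] at e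
        exact Prod.ext rfl e.symm) fun _ _ => ⟨rfl, rfl, rfl, rfl⟩
    exact ⟨Ψ, hΨ⟩

end Dat

end Pool.Agent.Lib.MP_ccffa6_gt.P
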