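import Pool.Agent.Lib.MP_ccffa6_gt.P.M4
import Pool.Agent.Lib.MP_ccffa6_gt.P.NL2

/-! The vertical spaces plus a plane are isomorphic to the symplectisation. -/

namespace Pool.Agent.Lib.MP_ccffa6_gt.P

open Set ContinuousLinearMap
open scoped ContDiff

namespace Dat

variable {E : Type} [NormedAddCommGroup E] [NormedSpace ℝ E] [FiniteDimensional ℝ E] {d : Dat E}

theorem m5_sc (L m c M : ℝ) (θ μ : ℂ) : Sc L θ m 0 c (-(M • (Complex.I * μ))) =
    c * (1 + m * L) - M * ((starRingEnd ℂ) μ * θ).im := by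
  simp [Sc]
  ring

omit [FiniteDimensional ℝ E] in
theorem m5_cont (h : d.Ok) : Continuous (dF d.α) ∧ Continuous d.α ∧ Continuous (fderiv ℝ d.s) :=
  ⟨continuousOn_univ.1 (continuousOn_dF isOpen_univ (h.sα.of_le (by simp)).contDiffOn),
    h.sα.continuous, h.ss.continuous_fderiv (by simp)⟩

theorem m5_path (h : d.Ok) {X : Type} [TopologicalSpace X] {K : Set X} (hK : IsCompact K)
    {f : X → E} (hf : Continuous f) (hN : MapsTo f K d.N) {m c M : X × ℝ → ℝ} {μ : X → ℂ}
    (hm : Continuous m) (hc : Continuous c) (hM : Continuous M) (hμ : ContinuousOn μ K)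
    (hS : ∀ p ∈ K, ∀ r ∈ Icc (0 : ℝ) 1, 0 < c (p, r) * (1 + m (p, r) * d.Λ (f p)) -
      M (p, r) * ((starRingEnd ℂ) (μ p) * d.θ (f p)).im) :
    SI K (fun p => (Tan d.N (f p)).prod ⊤)
      (fun p => Fm (dF d.α (f p)) (d.α (f p)) (fderiv ℝ d.s (f p)) (m (p, 0)) 0 (c (p, 0))
        (-(M (p, 0) • (Complex.I * μ p))))
      (fun p => (Tan d.N (f p)).prod ⊤)
      fun p => Fm (dF d.α (f p)) (d.α (f p)) (fderiv ℝ d.s (f p)) (m (p, 1)) 0 (c (p, 1))
        (-(M (p, 1) • (Complex.I * μ p))) := by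
  obtain ⟨c1, c2, c3⟩ := m5_cont h
  refine si_fm hK (h.cs.comp hf.continuousOn hN) (c1.comp hf).continuousOn
    (c2.comp hf).continuousOn (c3.comp hf).continuousOn (fun p hp => h.cd (f p) (hN hp))
    (n := fun _ => 0) (b := fun q => -(M q • (Complex.I * μ q.1))) hm.continuousOn
    continuousOn_const hc.continuousOn (hM.continuousOn.smul (continuousOn_const.mul
      (hμ.comp continuousOn_fst fun _ hq => hq.1))).neg fun p hp r hr => ?_
  exact ((hS p hp r hr).trans_eq (m5_sc ..).symm).ne'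

theorem m5_ineq {u L J M r : ℝ} (hM : 0 < M) (h0 : 0 ≤ r) (h1 : r ≤ 1) (hu : 0 ≤ u)
    (hL : 0 ≤ u * L) (hp : 0 < u * L - J) (hd : u = 1 ∨ J < 0) :
    0 < u * (1 + ((1 - r) * M + r * (M * u)) * L) - M * J ∧
      0 < ((1 - r) * u + r) * (1 + (1 - r) * (M * u) * L) - (1 - r) * M * J := by
  have h2 : 0 ≤ 1 - r := sub_nonneg.2 h1
  rcases hd with rfl | hd
  · have h3 := mul_pos hM hp
    have h4 := mul_nonneg h2 h3.le
    constructor <;> nlinarith
  · have h3 : 0 < M * -J := mul_pos hM (neg_pos.2 hd)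
    have h4 : 0 ≤ ((1 - r) * M + r * (M * u)) * (u * L) := by positivity
    have h5 : 0 ≤ ((1 - r) * u + r) * ((1 - r) * M * (u * L)) := by positivity
    have h6 : 0 ≤ (1 - r) * u := by positivity
    have h7 : 0 < r + (1 - r) * (M * -J) := by
      rcases h0.eq_or_lt with rfl | h0
      · linarith
      · positivity
    constructor <;> nlinarith

/-- `si_fib_large`, `fm_lm`, two paths in the family `Fm` -/
theorem Ok.si_vert (h : d.Ok) : SI (d.out 3) (fun p => (d.VT p).prod (⊤ : Submodule ℝ ℂ))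
    (fun p => osum (d.Vo p) ar) (fun p => (Tan d.N p.1).prod ⊤) fun p => symz d.α p.1 := by
  have hK := h.cpt_out 3
  have hX : d.out 3 ⊆ d.MX := inter_subset_left
  have h0 : ∀ p ∈ d.out 3, 0 ≤ d.l p.2 := fun p hp => le_trans (by norm_num) hp.2.2
  have hμ := h.cont_μ.mono hX
  have hL := continuousOn_lm ((m5_cont h).2.2.comp continuous_fst).continuousOn hμ
  have cs := h.cs_T.mono hX
  have o := fun p hp => (h.vert (hX hp) (h0 p hp)).1
  obtain ⟨M, hM, hk⟩ := si_fib_large hK cs h.cont_Vo.continuousOn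
    (fun p _ => (alt_dF d.α p.1).om _) hL o fun p hp => (h.vert (hX hp) (h0 p hp)).2
  have hu : Continuous fun q : (E × ℝ × ℂ) × ℝ => deriv d.u q.1.2.1 :=
    d.cont_du.comp (by fun_prop)
  have hi := fun p (hp : p ∈ d.out 3) r (hr : r ∈ Icc (0 : ℝ) 1) => m5_ineq hM hr.1 hr.2
    (d.deriv_u_nonneg p.2.1) (h.du_mul (hX hp)) (h.vert_pos (hX hp) (h0 p hp))
    ((h.dich (hX hp)).imp And.left And.right)
  have s1 := m5_path h hK continuous_fst (fun p hp => hp.1.1)
    (m := fun q => (1 - q.2) * M + q.2 * (M * deriv d.u q.1.2.1))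
    (c := fun q => deriv d.u q.1.2.1) (M := fun _ => M) (by fun_prop) hu continuous_const hμ
    fun p hp r hr => (hi p hp r hr).1
  have s2 := m5_path h hK continuous_fst (fun p hp => hp.1.1)
    (m := fun q => (1 - q.2) * (M * deriv d.u q.1.2.1))
    (c := fun q => (1 - q.2) * deriv d.u q.1.2.1 + q.2) (M := fun q => (1 - q.2) * M)
    (by fun_prop) (by fun_prop) (by fun_prop) hμ fun p hp r hr => (hi p hp r hr).2
  simp only [sub_zero, sub_self, one_mul, zero_mul, add_zero, zero_add, zero_smul, neg_zero,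
    fm_zero] at s1 s2
  have s0 := (hk M le_rfl).2.symm cs ((cs.kr hL o).prod (cs_top _))
  simp only [Vo, Function.comp_apply, fm_lm] at s0
  exact (s0.trans s1).trans s2

omit [FiniteDimensional ℝ E] in
theorem m5_kr (T : Submodule ℝ E) (l : E →L[ℝ] ℂ) :
    kr (T.prod (⊤ : Submodule ℝ ℝ)) (lm l 0) = (kr T l).prod ⊤ := by
  ext v
  simp [kr]

/-- the same along the binding -/
theorem Ok.si_bind (h : d.Ok) : SI (d.N ∩ d.s ⁻¹' {0})
    (fun x => ((kr (Tan d.N x) (fderiv ℝ d.s x)).prod (⊤ : Submodule ℝ ℝ)).prod (⊤ : Submodule ℝ ℂ))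
    (fun x => osum (symz d.α x) ar) (fun x => (Tan d.N x).prod ⊤) fun x => symz d.α x := by
  obtain ⟨c1, c2, c3⟩ := m5_cont h
  have hK : IsCompact (d.N ∩ d.s ⁻¹' {0}) :=
    h.cpt.inter_right (isClosed_singleton.preimage h.ss.continuous)
  have hΛ : ∀ x ∈ d.N ∩ d.s ⁻¹' {0}, 0 < d.Λ x := fun x hx => h.num.L₀.trans_le
    (h.near x hx.1 (by rw [show d.s x = 0 from hx.2, norm_zero]; exact h.num.η.le))
  have hb := fun x hx => (h.cd x (inter_subset_left hx)).bind (hΛ x hx).ne'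
  have hL : ContinuousOn (fun x => lm (fderiv ℝ d.s x) 0) (d.N ∩ d.s ⁻¹' {0}) :=
    continuousOn_lm c3.continuousOn continuousOn_const
  have cs := (h.cs.mono (inter_subset_left (t := d.s ⁻¹' {0}))).prod (cs_top (E := ℝ) _)
  have o : ∀ x ∈ d.N ∩ d.s ⁻¹' {0}, Onto ((Tan d.N x).prod ⊤) (lm (fderiv ℝ d.s x) 0) :=
    fun x hx y => by
      obtain ⟨v, hv, e⟩ := (hb x hx).1 y
      exact ⟨(v, 0), ⟨hv, trivial⟩, by simpa using e⟩
  have c4 : ContinuousOn (fun x => Om (dF d.α x) ((1 : ℝ) • d.α x)) (d.N ∩ d.s ⁻¹' {0}) :=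
    continuousOn_om c1.continuousOn (c2.const_smul (1 : ℝ)).continuousOn
  obtain ⟨M, hM, hk⟩ := si_fib_large hK cs c4 (fun p _ => (alt_dF d.α p).om _) hL o
    fun p hp => by
      rw [m5_kr, one_smul]
      exact (hb p hp).2
  have s1 := m5_path h hK continuous_id inter_subset_left (μ := fun _ => 0)
    (m := fun q => (1 - q.2) * M) (c := fun _ => 1) (M := fun _ => M) (by fun_prop)
    continuous_const continuous_const continuousOn_const fun p hp r hr => by
      have h1 := mul_nonneg (mul_nonneg (sub_nonneg.2 hr.2) hM.le) (hΛ p hp).le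
      simp only [map_zero, zero_mul, Complex.zero_im, mul_zero, sub_zero, one_mul, id]
      linarith
  have s0 := (hk M le_rfl).2.symm cs ((cs.kr hL o).prod (cs_top _))
  simp only [fm_lm, m5_kr] at s0
  simp only [sub_zero, sub_self, one_mul, zero_mul, mul_zero, smul_zero, neg_zero, fm_zero, id,
    one_smul] at s0 s1
  exact s0.trans s1

end Dat

end Pool.Agent.Lib.MP_ccffa6_gt.P
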