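import Pool.Agent.Lib.MP_ccffa6_gt.P.S3
import Pool.Agent.Lib.MP_ccffa6_gt.P.M5

/-! The stable isomorphism. -/

namespace Pool.Agent.Lib.MP_ccffa6_gt.P

open Set ContinuousLinearMap
open scoped ContDiff

variable {E Y F : Type} [NormedAddCommGroup E] [NormedSpace ℝ E] [NormedAddCommGroup Y]
  [NormedSpace ℝ Y] [NormedAddCommGroup F] [NormedSpace ℝ F]
  [FiniteDimensional ℝ E] [FiniteDimensional ℝ Y] [FiniteDimensional ℝ F]
  {d : Dat E} {D : PD E Y F} {K k' ε : ℝ} {p : E × Y × ℂ}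

/-- exchange of two trivial summands -/
theorem s6_sh {X V A B C : Type} [TopologicalSpace X] [NormedAddCommGroup V] [NormedSpace ℝ V]
    [NormedAddCommGroup A] [NormedSpace ℝ A] [NormedAddCommGroup B] [NormedSpace ℝ B]
    [NormedAddCommGroup C] [NormedSpace ℝ C] (S : Set X) (W : X → Submodule ℝ V) (o : X → Bil V)
    (a : Bil A) (b : Bil B) (c : Bil C) :
    SI S (fun p => ((W p).prod (⊤ : Submodule ℝ A)).prod (⊤ : Submodule ℝ (B × C)))
      (fun p => osum (osum (o p) a) (osum b c))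
      (fun p => ((W p).prod (⊤ : Submodule ℝ B)).prod (⊤ : Submodule ℝ (A × C)))
      fun p => osum (osum (o p) b) (osum a c) :=
  sb2_equiv (ContinuousLinearEquiv.prodProdProdComm ℝ V A B C)
    (fun _ _ => ⟨fun h => ⟨⟨h.1.1, trivial⟩, trivial⟩, fun h => ⟨⟨h.1.1, trivial⟩, trivial⟩⟩)
    fun p u v => by
      simp only [osum_apply]
      show o p u.1.1 v.1.1 + b u.2.1 v.2.1 + (a u.1.2 v.1.2 + c u.2.2 v.2.2) = _
      ring

theorem s6_cy {A B C : Type} [TopologicalSpace A] [TopologicalSpace B] [TopologicalSpace C] :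
    Continuous fun p : A × B × C => p.2.1 := continuous_fst.comp continuous_snd

theorem s6_prod {X V A B : Type} [TopologicalSpace X] [NormedAddCommGroup V] [NormedSpace ℝ V]
    [NormedAddCommGroup A] [NormedSpace ℝ A] [NormedAddCommGroup B] [NormedSpace ℝ B] {S : Set X}
    {f : X → V →L[ℝ] A} {g : X → V →L[ℝ] B} (hf : ContinuousOn f S) (hg : ContinuousOn g S) :
    ContinuousOn (fun p => (f p).prod (g p)) S :=
  (prodₗᵢ ℝ : ((V →L[ℝ] A) × (V →L[ℝ] B)) ≃ₗᵢ[ℝ] V →L[ℝ] A × B).continuous.comp_continuousOn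
    (hf.prodMk hg)

/-- the zone out -/
theorem SOk.si_out (h : SOk d D K k') :
    SI ((step d D K k' ε).X d.N ∩ {p | -1 ≤ (step d D K k' ε).τ p.2} ∩ {p | D.τ p.2.1 ≤ -1})
      ((step d D K k' ε).T d.N) (dF (step d D K k' ε).lam)
      (fun p => (Tan d.N p.1).prod ⊤) fun p => symz d.α p.1 := by
  have hτ : ContinuousOn (fun p : E × Y × ℂ => D.τ p.2.1) ((step d D K k' ε).X d.N) :=
    h.amb.sτ.continuousOn.comp s6_cy.continuousOn fun p hp => hp.2.1.1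
  have hd : ContinuousOn (fun p : E × Y × ℂ => fderiv ℝ D.τ p.2.1) ((step d D K k' ε).X d.N) :=
    (h.amb.sτ.continuousOn_fderiv_of_isOpen h.amb.opn (by simp)).comp s6_cy.continuousOn
      fun p hp => hp.2.1.1
  have hD : ContinuousOn D.DPi ((step d D K k' ε).X d.N) :=
    s6_prod continuousOn_const (s6_prod (hd.clm_comp continuousOn_const) continuousOn_const)
  have hP : ContinuousOn D.Pi ((step d D K k' ε).X d.N) :=
    continuousOn_fst.prodMk (hτ.prodMk (continuous_snd.comp continuous_snd).continuousOn)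
  have hk := h.m.hk
  refine SI.trans (W' := fun p => d.MT (D.Pi p)) (ω' := fun p => dF (d.lam K k') (D.Pi p))
    ⟨D.DPi, hD.mono fun p hp => hp.1.1, fun p hp => h.out_bij hp.1.1 hp.2,
      fun p hp u _ v _ => ?_⟩
    ((h.m.si (-1 / k') ((div_nonpos_of_nonpos_of_nonneg (by norm_num) hk.le).trans
      (by norm_num))).comp (hP.mono fun p hp => hp.1.1) fun p hp => ⟨h.mem_MX hp.1.1, hp.2, ?_⟩)
  · have h1 : D.τ p.2.1 ≤ -1 := hp.2
    rw [h.out_dlam hp.1.1.2.1 (by linarith), bp_apply]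
  · have h1 : -1 ≤ k' * d.l (D.qq p.2) := hp.1.2
    rw [mul_comm] at h1
    exact (div_le_iff₀ hk).2 h1

/-- the zone in -/
theorem SOk.si_in (h : SOk d D K k') (hε : 0 < ε) :
    SI ((step d D K k' ε).X d.N ∩ {p | -1 ≤ D.τ p.2.1})
      (fun p => ((step d D K k' ε).T d.N p).prod (⊤ : Submodule ℝ (F × ℂ)))
      (fun p => osum (dF (step d D K k' ε).lam p) (osum D.o ar))
      (fun p => ((Tan d.N p.1).prod (⊤ : Submodule ℝ ℝ)).prod (⊤ : Submodule ℝ (F × ℂ)))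
      fun p => osum (symz d.α p.1) (osum D.o ar) := by
  have hm : MapsTo (pr E Y) ((step d D K k' ε).X d.N ∩ {p | -1 ≤ D.τ p.2.1})
      (D.X d.B ∩ {p | -1 ≤ D.τ p.2}) := fun p hp => ⟨h.in_mem hε hp.1 hp.2, hp.2⟩
  have hB : MapsTo Prod.fst ((step d D K k' ε).X d.N ∩ {p | -1 ≤ D.τ p.2.1}) d.B :=
    fun p hp => (hm hp).1.1
  have a1 : SI ((step d D K k' ε).X d.N ∩ {p | -1 ≤ D.τ p.2.1}) ((step d D K k' ε).T d.N)
      (dF (step d D K k' ε).lam) (fun p => (D.T d.B (pr E Y p)).prod (⊤ : Submodule ℝ ℂ))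
      fun p => Real.exp (k' * 3) • osum (dF D.lam (pr E Y p)) (K • ar) := by
    refine ⟨fun _ => (ContinuousLinearEquiv.prodAssoc ℝ E Y ℂ).symm, continuousOn_const,
      fun p hp => (ContinuousLinearEquiv.prodAssoc ℝ E Y ℂ).symm.toEquiv.bijOn fun u =>
        ⟨fun hu => (h.in_T hp.1 hp.2 u).2 hu.1, fun hu => ⟨(h.in_T hp.1 hp.2 u).1 hu, trivial⟩⟩,
      fun p hp u _ v _ => ?_⟩
    rw [h.in_dlam hp.1.2.1 hp.2]
    simp only [smul_apply, add_apply, osum_apply, bp_apply]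
    rfl
  have a2 := (a1.trans (si_smul continuousOn_const fun _ _ => Real.exp_pos _)).trans
    ((SI.refl _ _ _).prod (si_smul continuousOn_const fun _ _ => h.m.hK))
  have a3 := (h.pd.si.comp (pr E Y).continuous.continuousOn hm).prod
    (SI.refl _ (fun _ => (⊤ : Submodule ℝ (ℂ × ℂ))) fun _ => osum ar ar)
  have a4 : SI ((step d D K k' ε).X d.N ∩ {p | -1 ≤ D.τ p.2.1})
      (fun p => ((Tan d.B p.1).prod (⊤ : Submodule ℝ ℝ)).prod (⊤ : Submodule ℝ ℂ))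
      (fun p => osum (symz d.α p.1) ar) (fun p => (Tan d.N p.1).prod ⊤) fun p => symz d.α p.1 :=
    (SI.of_eq (fun _ _ _ _ _ _ => rfl) fun p hp => by rw [h.tan _ (hB hp).1 (hB hp).2]).trans
      (h.ok.si_bind.comp continuousOn_fst hB)
  exact ((((a2.prod (SI.refl _ _ _)).trans (s6_sh _ _ _ ar D.o ar)).trans a3).trans
    (s6_sh _ _ _ D.o ar ar)).trans (a4.prod (SI.refl _ _ _))

omit [FiniteDimensional ℝ E] [FiniteDimensional ℝ Y] [FiniteDimensional ℝ F] in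
/-- the retraction of the zone in onto its boundary -/
theorem s6_rho (h : SOk d D K k') (hε' : ε ≤ 1) (hp : p ∈ (step d D K k' ε).X d.N)
    (hi : -1 ≤ D.τ p.2.1) :
    ((p.1, D.κ (p.1, -1), p.2.2) : E × Y × ℂ) ∈ (step d D K k' ε).X d.N ∧
      -1 ≤ (step d D K k' ε).τ (D.κ (p.1, -1), p.2.2) ∧ D.τ (D.κ (p.1, -1)) = -1 := by
  obtain ⟨hN, hV, hG, hΦ⟩ := hp
  have hO := h.ok.sub hN
  obtain ⟨k1, k2, k3⟩ := h.amb.κ₁ p.1 hO (-1) (by norm_num)
  have hq : -2 ≤ (D.qq (D.κ (p.1, -1), p.2.2)).1 := by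
    show -2 ≤ D.τ (D.κ (p.1, -1))
    rw [k3]
    norm_num
  have hU : D.qq (D.κ (p.1, -1), p.2.2) ∈ d.U := h.ok.num.hi_mem hq hV.2.1
  have hs : d.s p.1 - d.w (D.qq p.2) = 0 := congrArg Prod.snd hG
  rw [(Dat.w_hi hV.2 hi).1] at hs
  have hA : AA ε (D.Φ p.2.1) + BB (pp p.2.2) - 1 ≤ 0 := hΦ
  refine ⟨⟨hN, ⟨k1, hU⟩, Prod.ext k2 ?_, ?_⟩, ?_, k3⟩
  · show d.s p.1 - d.w (D.qq (D.κ (p.1, -1), p.2.2)) = 0
    rw [(Dat.w_hi hU k3.ge).1]
    exact hs
  · show AA ε (D.Φ (D.κ (p.1, -1))) + BB (pp p.2.2) - 1 ≤ 0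
    rw [h.amb.Φ₀ p.1 hO _ k1 k2 (by rw [k3]; norm_num), AA_of_le (neg_le_neg hε')]
    linarith [AA_nonneg ε (D.Φ p.2.1)]
  · show -1 ≤ k' * d.l (D.qq (D.κ (p.1, -1), p.2.2))
    have h1 := mul_nonneg h.m.hk.le ((by norm_num : (0 : ℝ) ≤ 3).trans (h.ok.num.hi hq).2)
    linarith

/-- the two zones pasted -/
theorem SOk.si (h : SOk d D K k') (hε : 0 < ε) (hε' : ε ≤ 1) :
    SI ((step d D K k' ε).X d.N ∩ {p | -1 ≤ (step d D K k' ε).τ p.2})
      (fun p => ((step d D K k' ε).T d.N p).prod (⊤ : Submodule ℝ (F × ℂ)))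
      (fun p => osum (dF (step d D K k' ε).lam p) (osum D.o ar))
      (fun p => ((Tan d.N p.1).prod (⊤ : Submodule ℝ ℝ)).prod (⊤ : Submodule ℝ (F × ℂ)))
      fun p => osum (symz d.α p.1) (osum D.o ar) := by
  have cN : CS ((step d D K k' ε).X d.N) fun p => Tan d.N p.1 :=
    h.ok.cs.comp continuousOn_fst fun p hp => hp.1
  have hA := h.amb' hε'
  have cT : CS ((step d D K k' ε).X d.N) ((step d D K k' ε).T d.N) :=
    (cN.prod (cs_top _)).kr
      ((hA.sG.continuousOn_fderiv_of_isOpen (isOpen_univ.prod hA.opn) (by simp)).mono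
        fun p hp => ⟨mem_univ _, hp.2.1⟩) fun p hp => h.onto hε hp
  obtain ⟨Φ₁, h₁⟩ := (h.si_out (ε := ε)).prod
    (SI.refl _ (fun _ => (⊤ : Submodule ℝ (F × ℂ))) fun _ => osum D.o ar)
  have hκ : ContinuousOn (fun p : E × Y × ℂ => D.κ (p.1, -1)) ((step d D K k' ε).X d.N) :=
    h.amb.sκ.continuousOn.comp (continuous_fst.prodMk continuous_const).continuousOn
      fun p hp => ⟨h.ok.sub hp.1, by norm_num⟩
  obtain ⟨Φ, hΦ, -⟩ := IsSI.paste (h.cpt_out hε' (-1)).isClosed (h.cpt_in hε (-1)).isClosed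
    ((cT.prod (cs_top _)).mono fun p hp => hp.elim (fun a => a.1.1) fun a => a.1.1) h₁
    ((h.si_in hε).mono fun p hp => ⟨hp.1.1, hp.2⟩)
    (((cN.prod (cs_top _)).prod (cs_top _)).mono fun p hp => hp.1.1)
    (ρ := fun p => (p.1, D.κ (p.1, -1), p.2.2))
    (continuousOn_fst.prodMk ((hκ.mono fun p hp => hp.1.1).prodMk
      (continuous_snd.comp continuous_snd).continuousOn))
    (fun p hp => by
      obtain ⟨r1, r2, r3⟩ := s6_rho h hε' hp.1.1 hp.2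
      exact ⟨⟨⟨r1, r2⟩, r3.le⟩, ⟨r1, r2⟩, r3.ge⟩)
    (fun p hp => by
      have e : D.τ p.2.1 = -1 := le_antisymm hp.1.2 hp.2.2
      obtain ⟨hN, hV, hG, -⟩ := hp.1.1.1
      have e2 := h.amb.κ₂ p.1 (h.ok.sub hN) p.2.1 hV.1 (congrArg Prod.fst hG)
        (by rw [e]; norm_num)
      rw [e] at e2
      exact Prod.ext rfl (Prod.ext e2.symm rfl))
    fun _ _ => ⟨rfl, rfl, rfl, rfl⟩
  exact SI.mono ⟨Φ, hΦ⟩ fun p hp =>
    (le_total (D.τ p.2.1) (-1)).imp (fun a => ⟨hp, a⟩) fun a => ⟨hp, a⟩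

end Pool.Agent.Lib.MP_ccffa6_gt.P
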