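import Pool.Agent.Lib.MP_ccffa6_gt.P.S5
import Pool.Agent.Lib.MP_ccffa6_gt.P.S6
import Pool.Agent.Lib.MP_ccffa6_gt.P.M3b
import Pool.Agent.Lib.MP_ccffa6_gt.P.M7

/-! The inductive step. -/

namespace Pool.Agent.Lib.MP_ccffa6_gt.P

theorem step_main (E : Type) [NormedAddCommGroup E] [NormedSpace ℝ E] [FiniteDimensional ℝ E] :
    StepStmt E := by
  rintro α O N s η hα hO oO sub hN cs nd ob tan ⟨Y, F, _, _, _, _, _, _, D, amb, ok⟩
  obtain ⟨d, rfl, rfl, rfl, rfl, hd⟩ := Dat.exists_dat hα hO oO sub hN cs nd ob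
  obtain ⟨K, k', hm⟩ := hd.model
  have h : SOk d D K k' := ⟨hd, hm, amb, ok, tan⟩
  obtain ⟨ε, hε⟩ := h.exists_eps
  exact ⟨Y × ℂ, F × ℂ, _, _, inferInstance, _, _, inferInstance, step d D K k' ε, h.amb' hε.le,
    h.cpt hε.pos hε.le, fun _ hp => h.onto hε.pos hp, fun _ hp => h.nd hε.pos hp,
    fun _ hp h0 _ hZ e => h.out hε hp h0 hZ e, h.hyp hε, h.si hε.pos hε.le⟩

end Pool.Agent.Lib.MP_ccffa6_gt.P
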