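import Pool.Agent.Lib.MP_ccffa6_gt.P.Asm
import Pool.Agent.Lib.MP_ccffa6_gt.P.Step

/-! Block P. -/

namespace Pool.Agent.Lib.MP_ccffa6_gt

theorem P_main (hG : ∀ n, GStmt n) (n : ℕ) : PStmt n := P.p_of_step P.step_main hG n

end Pool.Agent.Lib.MP_ccffa6_gt
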