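import Pool.Agent.Lib.MP_ccffa6_gt.P.FinDef
import Pool.Agent.Lib.MP_ccffa6_gt.K.Proj

/-! The zero set of the equations is a manifold near the compact part. -/

namespace Pool.Agent.Lib.MP_ccffa6_gt.P

open Set Filter Topology ContinuousLinearMap
open scoped ContDiff

variable {E Y F : Type} [NormedAddCommGroup E] [NormedSpace ℝ E] [NormedAddCommGroup Y]
  [NormedSpace ℝ Y] [NormedAddCommGroup F] [NormedSpace ℝ F] [FiniteDimensional ℝ E]
  [FiniteDimensional ℝ Y] [FiniteDimensional ℝ F]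

/-- `isOpen_setOf_nat_le_rank` with `n = finrank ℝ F` -/
theorem isOpen_surj (E F : Type) [NormedAddCommGroup E] [NormedSpace ℝ E] [NormedAddCommGroup F]
    [NormedSpace ℝ F] [FiniteDimensional ℝ F] :
    IsOpen {A : E →L[ℝ] F | Function.Surjective A} := by
  have h : {A : E →L[ℝ] F | Function.Surjective A} =
      {A : E →L[ℝ] F | ((Module.finrank ℝ F : ℕ) : Cardinal) ≤ (A : E →ₗ[ℝ] F).rank} := by
    ext A
    have h1 : Function.Surjective A ↔ LinearMap.range (A : E →ₗ[ℝ] F) = ⊤ :=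
      (LinearMap.range_eq_top (f := (A : E →ₗ[ℝ] F))).symm
    simp only [mem_ofPred_eq]
    rw [h1, LinearMap.rank, ← Module.finrank_eq_rank, Nat.cast_le]
    exact ⟨fun h => by rw [h, finrank_top],
      fun h => Submodule.eq_top_of_finrank_eq (le_antisymm (Submodule.finrank_le _) h)⟩
  rw [h]
  exact isOpen_setOfPred_nat_le_rank _

/-- `IsSub.prod`, `isSub_of_isOpen isOpen_univ`, `IsSub.inter_open`, `IsSub.tan_prod`, `Tan.congr`,
`Tan.of_mem_nhds` -/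
theorem isSub_cyl {d : ℕ} {N : Set E} (h : IsSub d N) {U : Set (E × Y)} (hU : IsOpen U) :
    IsSub (d + Module.finrank ℝ Y) (N ×ˢ univ ∩ U) ∧
      ∀ p ∈ N ×ˢ univ ∩ U, Tan (N ×ˢ univ ∩ U) p = (Tan N p.1).prod ⊤ := by
  have hY : IsSub (Module.finrank ℝ Y) (univ : Set Y) := isSub_of_isOpen isOpen_univ
  refine ⟨(h.prod hY).inter_open hU, fun p hp => ?_⟩
  have h1 : (N ×ˢ univ ∩ U : Set (E × Y)) =ᶠ[𝓝 p] (N ×ˢ univ : Set (E × Y)) := by
    filter_upwards [hU.mem_nhds hp.2] with q hq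
    exact propext ⟨fun h => h.1, fun h => ⟨h, hq⟩⟩
  rw [Tan.congr h1, ← Tan.of_mem_nhds (S := (univ : Set Y)) (x := p.2) univ_mem]
  exact h.tan_prod hY hp.1.1 (mem_univ p.2)

/-- A regular zero set near a compact part. With the smooth projector `P` of `IsSub.exists_proj`
(`A = N`) shrink `U` to `U' = U ∩ {p | fderiv G p ∘ (P p.1).prodMap id is surjective}`
(`isOpen_surj`), `W = (N ×ˢ univ ∩ U') ∩ G ⁻¹' {0}`; `IsSub.level`, `Chart.level`. -/
theorem exists_zero_set {d e : ℕ} {N : Set E} (h : Closed d N) {G : E × Y → F}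
    (hG : ContDiff ℝ ∞ G) (rk : d + Module.finrank ℝ Y = e + Module.finrank ℝ F)
    {C U : Set (E × Y)} (hU : IsOpen U) (hC : C ⊆ U)
    (o : ∀ p ∈ C, p.1 ∈ N ∧ G p = 0 ∧ Onto ((Tan N p.1).prod ⊤) (fderiv ℝ G p)) :
    ∃ W : Set (E × Y), IsSub e W ∧ C ⊆ W ∧ ∀ p ∈ W, p ∈ U ∧ p.1 ∈ N ∧ G p = 0 ∧
      Tan W p = kr ((Tan N p.1).prod ⊤) (fderiv ℝ G p) := by
  obtain ⟨P, U₀, hP, -, hN, hT⟩ := h.sub.exists_proj h.cpt subset_rfl
  have hc : Continuous fun p : E × Y =>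
      (fderiv ℝ G p).comp ((P p.1).prodMap (ContinuousLinearMap.id ℝ Y)) :=
    (hG.continuous_fderiv (by simp)).clm_comp
      ((hP.continuous.comp continuous_fst).prod_mapL ℝ continuous_const)
  have hU' : IsOpen (U ∩ {p : E × Y | Function.Surjective
      ((fderiv ℝ G p).comp ((P p.1).prodMap (ContinuousLinearMap.id ℝ Y)))}) :=
    hU.inter ((isOpen_surj (E × Y) F).preimage hc)
  obtain ⟨hS, hTan⟩ := isSub_cyl h.sub hU'
  have hs : ∀ p ∈ N ×ˢ univ ∩ (U ∩ {p : E × Y | Function.Surjective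
      ((fderiv ℝ G p).comp ((P p.1).prodMap (ContinuousLinearMap.id ℝ Y)))}), ∀ w : F,
      ∃ v ∈ Tan (N ×ˢ univ ∩ (U ∩ {p : E × Y | Function.Surjective
        ((fderiv ℝ G p).comp ((P p.1).prodMap (ContinuousLinearMap.id ℝ Y)))})) p,
        fderiv ℝ G p v = w := by
    intro p hp w
    obtain ⟨v, hv⟩ := hp.2.2 w
    refine ⟨(P p.1 v.1, v.2), ?_, hv⟩
    rw [hTan p hp]
    exact ⟨(hT p.1 ⟨hp.1.1, hN hp.1.1⟩).1 v.1, trivial⟩
  refine ⟨_, hS.level hG rk fun p hp _ => hs p hp, fun p hp => ?_, fun p hp => ?_⟩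
  · obtain ⟨h1, h2, h3⟩ := o p hp
    refine ⟨⟨⟨h1, trivial⟩, hC hp, fun w => ?_⟩, h2⟩
    obtain ⟨v, hv, rfl⟩ := h3 w
    refine ⟨v, ?_⟩
    change fderiv ℝ G p (P p.1 v.1, v.2) = _
    rw [(hT p.1 ⟨h1, hN h1⟩).2 v.1 hv.1]
  · refine ⟨hp.1.2.1, hp.1.1.1, hp.2, ?_⟩
    ext v
    rw [(Chart.level hS hG rk hp.1 hp.2 (hs p hp.1)).2 v, hTan p hp.1]
    rfl

/-- Extend `D.G`, `D.g`, `D.lam` from a neighbourhood of the compact set `D.C N ⊆ univ ×ˢ D.V`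
(`exists_smooth_nhdsSet`, `eventually_nhdsSet_iff_exists`, or `exists_ext_cpt` of `P/Cal`), `U` an
open set inside `univ ×ˢ D.V` where all three agree; then `exists_zero_set`
(`Filter.EventuallyEq.fderiv_eq`). -/
theorem PD.exists_ext {d : ℕ} {N O : Set E} {α : Form1 E} {D : PD E Y F} (h : Closed d N)
    (A : D.Amb α O) (B : D.Ok α N) : ∃ W g lam, D.Ext N (d + 1) W g lam := by
  have hc : IsClosed (D.C N) := (B.cpt (-1)).isClosed
  have hV : IsOpen (univ ×ˢ D.V : Set (E × Y)) := isOpen_univ.prod A.opn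
  have hs : D.C N ⊆ univ ×ˢ D.V := fun p hp => ⟨trivial, hp.1.2.1⟩
  have hm : MapsTo (Prod.snd : E × Y → Y) (univ ×ˢ D.V) D.V := fun p hp => hp.2
  have hg : ContDiffOn ℝ ∞ D.g (univ ×ˢ D.V) :=
    (A.sΦ.comp contDiff_snd.contDiffOn hm).sub (contDiff_jj.comp_contDiffOn
      (contDiffOn_const.mul (A.sτ.comp contDiff_snd.contDiffOn hm)))
  obtain ⟨G, sG, eG, -⟩ := exists_smooth_nhdsSet hc hV hs A.sG
  obtain ⟨g, sg, eg, -⟩ := exists_smooth_nhdsSet hc hV hs hg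
  obtain ⟨lam, sl, el, -⟩ := exists_smooth_nhdsSet hc hV hs A.slam
  have hV' : ∀ᶠ p in 𝓝ˢ (D.C N), p ∈ (univ ×ˢ D.V : Set (E × Y)) := hV.mem_nhdsSet.2 hs
  obtain ⟨U, hU, hCU, H⟩ := eventually_nhdsSet_iff_exists.1 (hV'.and (eG.and (eg.and el)))
  have e1 : ∀ p ∈ U, G =ᶠ[𝓝 p] D.G := fun p hp =>
    Filter.mem_of_superset (hU.mem_nhds hp) fun q hq => (H q hq).2.1
  obtain ⟨W, hW, hCW, HW⟩ := exists_zero_set (e := d + 1) h sG (by rw [A.rk]; omega) hU hCU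
    fun p hp => ⟨hp.1.1, (e1 p (hCU hp)).self_of_nhds.trans hp.1.2.2.1, by
      rw [(e1 p (hCU hp)).fderiv_eq]
      exact B.onto p hp.1⟩
  refine ⟨W, g, lam, hW, sg, sl, hCW, fun p hp => ⟨(HW p hp).2.1, (H p (HW p hp).1).1.2,
    (e1 p (HW p hp).1).self_of_nhds.symm.trans (HW p hp).2.2.1⟩, fun p hp =>
    Filter.mem_of_superset (hU.mem_nhds (HW p hp).1) fun q hq => (H q hq).2.2.1, fun p hp =>
    Filter.mem_of_superset (hU.mem_nhds (HW p hp).1) fun q hq => (H q hq).2.2.2, fun p hp => ?_⟩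
  rw [(HW p hp).2.2.2, (e1 p (HW p hp).1).fderiv_eq]
  rfl

end Pool.Agent.Lib.MP_ccffa6_gt.P
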