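import Pool.Agent.Lib.MP_ccffa6_gt.P.SB1

/-! Algebra of symplectic isomorphisms, pasting. -/

namespace Pool.Agent.Lib.MP_ccffa6_gt.P

open Set ContinuousLinearMap

variable {X X' E E' E'' F F' : Type} [TopologicalSpace X] [TopologicalSpace X']
  [NormedAddCommGroup E] [NormedSpace ℝ E] [NormedAddCommGroup E'] [NormedSpace ℝ E']
  [NormedAddCommGroup E''] [NormedSpace ℝ E''] [NormedAddCommGroup F] [NormedSpace ℝ F]
  [NormedAddCommGroup F'] [NormedSpace ℝ F'] {K K' : Set X} {W : X → Submodule ℝ E}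
  {W' : X → Submodule ℝ E'} {W'' : X → Submodule ℝ E''} {ω : X → Bil E} {ω' : X → Bil E'}
  {ω'' : X → Bil E''}

theorem alt_dF (a : E → F1 E) (x : E) : Alt (dF a x) := fun _ _ => (neg_sub _ _).symm
theorem alt_wg (a b : F1 E) : Alt (wg a b) := fun u v => by
  simp only [wg_apply]
  ring
theorem alt_ar : Alt ar := alt_wg _ _
theorem nd_ar : Nd ⊤ ar := fun u _ h =>
  Complex.ext (by simpa using h Complex.I trivial) (by simpa using h 1 trivial)
theorem Alt.add {o o' : Bil E} (h : Alt o) (h' : Alt o') : Alt (o + o') := fun u v => by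
  rw [add_apply, add_apply, add_apply, add_apply, h u v, h' u v, neg_add]
theorem Alt.smul {o : Bil E} (h : Alt o) (c : ℝ) : Alt (c • o) := fun u v => by
  rw [smul_apply, smul_apply, smul_apply, smul_apply, h u v, smul_neg]
theorem Alt.bp {o : Bil E'} (h : Alt o) (A : E →L[ℝ] E') : Alt (bp A o) := fun _ _ => h _ _
theorem Alt.osum {o : Bil E} {o' : Bil E'} (h : Alt o) (h' : Alt o') : Alt (osum o o') :=
  (h.bp _).add (h'.bp _)
theorem Alt.om {o : Bil E} (h : Alt o) (a : F1 E) : Alt (Om o a) := (h.bp _).add (alt_wg _ _)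
theorem Nd.smul {V : Submodule ℝ E} {o : Bil E} (h : Nd V o) {c : ℝ} (hc : c ≠ 0) : Nd V (c • o) :=
  fun u hu e => h u hu fun v hv => (mul_eq_zero.1 (e v hv)).resolve_left hc
theorem Nd.osum {V : Submodule ℝ E} {V' : Submodule ℝ E'} {o : Bil E} {o' : Bil E'} (h : Nd V o)
    (h' : Nd V' o') : Nd (V.prod V') (osum o o') := fun u hu e =>
  Prod.ext (h _ hu.1 fun v hv => by simpa using e (v, 0) ⟨hv, zero_mem _⟩)
    (h' _ hu.2 fun v hv => by simpa using e (0, v) ⟨zero_mem _, hv⟩)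
theorem Nd.congr {V : Submodule ℝ E} {o o' : Bil E} (h : Nd V o)
    (e : ∀ u ∈ V, ∀ v ∈ V, o' u v = o u v) : Nd V o' := fun u hu h' =>
  h u hu fun v hv => (e u hu v hv).symm.trans (h' v hv)
/-- transport along a bijection -/
theorem Nd.of_bij {V : Submodule ℝ E} {V' : Submodule ℝ E'} {o : Bil E} {o' : Bil E'} (h : Nd V' o')
    {A : E →L[ℝ] E'} (b : BijOn A V V') (e : ∀ u ∈ V, ∀ v ∈ V, o u v = o' (A u) (A v)) : Nd V o :=
  fun u hu h' => b.injOn hu (zero_mem V) ((h _ (b.mapsTo hu) fun y hy => by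
    obtain ⟨v, hv, rfl⟩ := b.surjOn hy
    exact (e u hu v hv).symm.trans (h' v hv)).trans (map_zero A).symm)

theorem sb2_flip {a : X → E →L[ℝ] E' →L[ℝ] F} (h : ContinuousOn a K) :
    ContinuousOn (fun p => (a p).flip) K :=
  (flipₗᵢ ℝ E E' F).continuous.comp_continuousOn h

theorem sb2_add {a b : X → Bil E} (ha : ContinuousOn a K) (hb : ContinuousOn b K) :
    ContinuousOn (fun p => a p + b p) K :=
  have := (inferInstance : IsTopologicalAddGroup (Bil E)).toContinuousAdd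
  ha.add hb

theorem continuousOn_wg {a b : X → F1 E} (ha : ContinuousOn a K) (hb : ContinuousOn b K) :
    ContinuousOn (fun p => wg (a p) (b p)) K :=
  ((smulRightL ℝ E (F1 E)).continuous₂.comp_continuousOn (ha.prodMk hb)).sub
    ((smulRightL ℝ E (F1 E)).continuous₂.comp_continuousOn (hb.prodMk ha))
theorem continuousOn_bp {A : X → E →L[ℝ] E'} (hA : ContinuousOn A K) (h : ContinuousOn ω' K) :
    ContinuousOn (fun p => bp (A p) (ω' p)) K :=
  sb2_flip ((sb2_flip (h.clm_comp hA)).clm_comp hA)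
theorem continuousOn_osum (h : ContinuousOn ω K) (h' : ContinuousOn ω' K) :
    ContinuousOn (fun p => osum (ω p) (ω' p)) K :=
  sb2_add (continuousOn_bp continuousOn_const h) (continuousOn_bp continuousOn_const h')
theorem continuousOn_om (h : ContinuousOn ω K) {a : X → F1 E} (ha : ContinuousOn a K) :
    ContinuousOn (fun p => Om (ω p) (a p)) K :=
  sb2_add (continuousOn_bp continuousOn_const h)
    (continuousOn_wg continuousOn_const (ha.clm_comp continuousOn_const))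
theorem continuousOn_dF {a : E → F1 E} {U : Set E} (hU : IsOpen U) (h : ContDiffOn ℝ 1 a U) :
    ContinuousOn (dF a) U :=
  (h.continuousOn_fderiv_of_isOpen hU le_rfl).sub
    (sb2_flip (h.continuousOn_fderiv_of_isOpen hU le_rfl))

theorem SB.mono (h : SB K W ω) (e : K' ⊆ K) : SB K' W ω :=
  ⟨h.cs.mono e, h.cont.mono e, fun p hp => h.alt p (e hp), fun p hp => h.nd p (e hp)⟩
theorem SB.comp (h : SB K W ω) {S : Set X'} {f : X' → X} (hf : ContinuousOn f S)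
    (m : MapsTo f S K) : SB S (fun p => W (f p)) fun p => ω (f p) :=
  ⟨h.cs.comp hf m, h.cont.comp hf m, fun _ hp => h.alt _ (m hp), fun _ hp => h.nd _ (m hp)⟩
theorem SB.prod (h : SB K W ω) (h' : SB K W' ω') :
    SB K (fun p => (W p).prod (W' p)) fun p => osum (ω p) (ω' p) :=
  ⟨h.cs.prod h'.cs, continuousOn_osum h.cont h'.cont, fun p hp => (h.alt p hp).osum (h'.alt p hp),
    fun p hp => (h.nd p hp).osum (h'.nd p hp)⟩
theorem sb_const (K : Set X) {o : Bil E} (h : Alt o) (h' : Nd ⊤ o) : SB K (fun _ => ⊤) fun _ => o :=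
  ⟨cs_top K, continuousOn_const, fun _ _ => h, fun _ _ => h'⟩

theorem sb2_trans {Φ : X → E →L[ℝ] E'} {Ψ : X → E' →L[ℝ] E''} (h : IsSI K W ω W' ω' Φ)
    (h' : IsSI K W' ω' W'' ω'' Ψ) : IsSI K W ω W'' ω'' fun p => (Ψ p).comp (Φ p) :=
  ⟨h'.cont.clm_comp h.cont, fun p hp => (h'.bij p hp).comp (h.bij p hp), fun p hp u hu v hv =>
    (h'.form p hp _ ((h.bij p hp).mapsTo hu) _ ((h.bij p hp).mapsTo hv)).trans
      (h.form p hp u hu v hv)⟩

theorem sb2_comp {Φ : X → E →L[ℝ] E'} (h : IsSI K W ω W' ω' Φ) {S : Set X'} {f : X' → X}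
    (hf : ContinuousOn f S) (m : MapsTo f S K) : IsSI S (fun p => W (f p)) (fun p => ω (f p))
      (fun p => W' (f p)) (fun p => ω' (f p)) fun p => Φ (f p) :=
  ⟨h.cont.comp hf m, fun _ hp => h.bij _ (m hp), fun _ hp => h.form _ (m hp)⟩

theorem sb2_equiv (A : E ≃L[ℝ] E') (h : ∀ p u, A u ∈ W' p ↔ u ∈ W p)
    (e : ∀ p u v, ω' p (A u) (A v) = ω p u v) : SI K W ω W' ω' :=
  ⟨fun _ => A, continuousOn_const, fun p _ => A.toEquiv.bijOn (h p), fun p _ u _ v _ => e p u v⟩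

theorem SI.of_eq {o : X → Bil E} (e : ∀ p ∈ K, ∀ u ∈ W p, ∀ v ∈ W p, ω p u v = o p u v) {V : X → Submodule ℝ E}
    (e' : ∀ p ∈ K, W p = V p) : SI K W ω V o :=
  ⟨fun _ => ContinuousLinearMap.id ℝ E, continuousOn_const, fun p hp => e' p hp ▸ bijOn_id _,
    fun p hp u hu v hv => (e p hp u hu v hv).symm⟩
theorem SI.refl (K : Set X) (W : X → Submodule ℝ E) (ω : X → Bil E) : SI K W ω W ω :=
  SI.of_eq (fun _ _ _ _ _ _ => rfl) fun _ _ => rfl
theorem SI.mono (h : SI K W ω W' ω') (e : K' ⊆ K) : SI K' W ω W' ω' :=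
  let ⟨_, h⟩ := h
  ⟨_, sb2_comp h continuousOn_id e⟩
theorem SI.trans (h : SI K W ω W' ω') (h' : SI K W' ω' W'' ω'') : SI K W ω W'' ω'' :=
  let ⟨_, h⟩ := h
  let ⟨_, h'⟩ := h'
  ⟨_, sb2_trans h h'⟩
theorem SI.comp (h : SI K W ω W' ω') {S : Set X'} {f : X' → X} (hf : ContinuousOn f S)
    (m : MapsTo f S K) :
    SI S (fun p => W (f p)) (fun p => ω (f p)) (fun p => W' (f p)) fun p => ω' (f p) :=
  let ⟨_, h⟩ := h
  ⟨_, sb2_comp h hf m⟩
theorem SI.prod {V : X → Submodule ℝ F} {V' : X → Submodule ℝ F'} {o : X → Bil F} {o' : X → Bil F'}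
    (h : SI K W ω W' ω') (h' : SI K V o V' o') :
    SI K (fun p => (W p).prod (V p)) (fun p => osum (ω p) (o p)) (fun p => (W' p).prod (V' p))
      fun p => osum (ω' p) (o' p) :=
  let ⟨Φ, h⟩ := h
  let ⟨Ψ, h'⟩ := h'
  ⟨fun p => (Φ p).prodMap (Ψ p), h.cont.prod_mapL ℝ h'.cont,
    fun p hp => (h.bij p hp).prodMap (h'.bij p hp), fun p hp u hu v hv => by
      rw [osum_apply, osum_apply, ← h.form p hp _ hu.1 _ hv.1, ← h'.form p hp _ hu.2 _ hv.2]
      rfl⟩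
/-- multiply by the square root -/
theorem si_smul {c : X → ℝ} (hc : ContinuousOn c K) (pos : ∀ p ∈ K, 0 < c p) :
    SI K W (fun p => c p • ω p) W ω := by
  refine ⟨fun p => √(c p) • ContinuousLinearMap.id ℝ E, hc.sqrt.smul continuousOn_const,
    fun p hp => ?_, fun p hp u _ v _ => ?_⟩
  · have h := (Real.sqrt_pos.2 (pos p hp)).ne'
    exact ⟨fun u hu => (W p).smul_mem _ hu, (smul_right_injective E h).injOn, fun u hu =>
      ⟨_, (W p).smul_mem (√(c p))⁻¹ hu, smul_inv_smul₀ h u⟩⟩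
  · simp [← mul_assoc, Real.mul_self_sqrt (pos p hp).le]
theorem SI.smul (h : SI K W ω W' ω') (c : X → ℝ) :
    SI K W (fun p => c p • ω p) W' fun p => c p • ω' p :=
  let ⟨Φ, h⟩ := h
  ⟨Φ, h.cont, h.bij, fun p hp u hu v hv => congrArg (c p * ·) (h.form p hp u hu v hv)⟩
theorem si_assoc : SI K (fun p => ((W p).prod (W' p)).prod (W'' p))
    (fun p => osum (osum (ω p) (ω' p)) (ω'' p)) (fun p => (W p).prod ((W' p).prod (W'' p)))
    fun p => osum (ω p) (osum (ω' p) (ω'' p)) :=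
  sb2_equiv (ContinuousLinearEquiv.prodAssoc ℝ E E' E'') (fun _ _ => and_assoc.symm)
    fun _ _ _ => by simp [add_assoc]
theorem si_assoc' : SI K (fun p => (W p).prod ((W' p).prod (W'' p)))
    (fun p => osum (ω p) (osum (ω' p) (ω'' p))) (fun p => ((W p).prod (W' p)).prod (W'' p))
    fun p => osum (osum (ω p) (ω' p)) (ω'' p) :=
  sb2_equiv (ContinuousLinearEquiv.prodAssoc ℝ E E' E'').symm (fun _ _ => and_assoc)
    fun _ _ _ => by simp only [osum_apply]; exact add_assoc _ _ _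
theorem si_comm : SI K (fun p => (W p).prod (W' p)) (fun p => osum (ω p) (ω' p))
    (fun p => (W' p).prod (W p)) fun p => osum (ω' p) (ω p) :=
  sb2_equiv (ContinuousLinearEquiv.prodComm ℝ E E') (fun _ _ => and_comm)
    fun _ _ _ => by simp [add_comm]
theorem SI.nd (h : SI K W ω W' ω') {p : X} (hp : p ∈ K) (n : Nd (W' p) (ω' p)) : Nd (W p) (ω p) :=
  let ⟨_, h⟩ := h
  n.of_bij (h.bij p hp) fun u hu v hv => (h.form p hp u hu v hv).symm

variable [FiniteDimensional ℝ E] [FiniteDimensional ℝ E'] [FiniteDimensional ℝ E'']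

omit [FiniteDimensional ℝ E''] in
theorem sb2_symm {Φ : X → E →L[ℝ] E'} (h : IsSI K W ω W' ω' Φ) (c : CS K W) (c' : CS K W') :
    ∃ Ψ, IsSI K W' ω' W ω Ψ ∧ ∀ p ∈ K, ∀ u ∈ W p, Ψ p (Φ p u) = u := by
  obtain ⟨Ψ, h1, h2⟩ := c.inv c' h.cont h.bij
  refine ⟨Ψ, ⟨h1, fun p hp => (h.bij p hp).symm ⟨(h2 p hp).2.1, (h2 p hp).2.2⟩,
    fun p hp u hu v hv => ?_⟩, fun p hp => (h2 p hp).2.2⟩
  rw [← h.form p hp _ ((h2 p hp).1 u) _ ((h2 p hp).1 v), (h2 p hp).2.1 u hu, (h2 p hp).2.1 v hv]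

theorem SI.symm (h : SI K W ω W' ω') (c : CS K W) (c' : CS K W') : SI K W' ω' W ω :=
  let ⟨_, h⟩ := h
  (sb2_symm h c c').imp fun _ => And.left

omit [FiniteDimensional ℝ E'] in
/-- pasting along a retraction onto the intersection -/
theorem IsSI.paste {K₁ K₂ : Set X} (c₁ : IsClosed K₁) (c₂ : IsClosed K₂) (cs : CS (K₁ ∪ K₂) W)
    {Φ₁ : X → E →L[ℝ] E'} (h₁ : IsSI K₁ W ω W' ω' Φ₁) (h₂ : SI K₂ W ω W'' ω'') (cs'' : CS K₂ W'')
    {ρ : X → X} (hρ : ContinuousOn ρ K₂) (m : MapsTo ρ K₂ (K₁ ∩ K₂)) (r : ∀ p ∈ K₁ ∩ K₂, ρ p = p)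
    (e : ∀ p ∈ K₂, W' (ρ p) = W' p ∧ ω' (ρ p) = ω' p ∧ W'' (ρ p) = W'' p ∧ ω'' (ρ p) = ω'' p) :
    ∃ Φ, IsSI (K₁ ∪ K₂) W ω W' ω' Φ ∧ ∀ p ∈ K₁, ∀ u ∈ W p, Φ p u = Φ₁ p u := by
  classical
  obtain ⟨Φ₂, h₂⟩ := h₂
  obtain ⟨Ψ, h₃, h₄⟩ := sb2_symm h₂ (cs.mono subset_union_right) cs''
  have h₅ := sb2_trans (sb2_comp h₃ hρ fun p hp => (m hp).2) (sb2_comp h₁ hρ fun p hp => (m hp).1)
  have h₆ := sb2_trans h₂ (W'' := W') (ω'' := ω') ⟨h₅.cont, fun p hp =>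
    (e p hp).1 ▸ (e p hp).2.2.1 ▸ h₅.bij p hp, fun p hp =>
      (e p hp).2.1 ▸ (e p hp).2.2.1 ▸ (e p hp).2.2.2 ▸ h₅.form p hp⟩
  obtain ⟨P, hP, hW⟩ := cs
  let Θ := K₁.piecewise Φ₁ fun p => ((Φ₁ (ρ p)).comp (Ψ (ρ p))).comp (Φ₂ p)
  have e₁ : ∀ p ∈ K₁, Θ p = Φ₁ p := fun p hp => piecewise_eq_of_mem _ _ _ hp
  have e₂ : ∀ p ∈ K₂, ∀ u ∈ W p, Θ p u = Φ₁ (ρ p) (Ψ (ρ p) (Φ₂ p u)) := fun p hp u hu => by
    by_cases h : p ∈ K₁
    · rw [e₁ p h, r p ⟨h, hp⟩, h₄ p hp u hu]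
    · exact DFunLike.congr_fun (piecewise_eq_of_notMem K₁ Φ₁ _ h) u
  have e₃ : ∀ p ∈ K₁ ∪ K₂, ∀ u ∈ W p, (Θ p).comp (P p) u = Θ p u := fun p hp u hu =>
    congrArg (Θ p) ((hW p hp).2 u hu)
  refine ⟨fun p => (Θ p).comp (P p), ⟨.union_of_isClosed
    ((h₁.cont.clm_comp (hP.mono subset_union_left)).congr fun p hp => by rw [e₁ p hp])
    ((h₆.cont.clm_comp (hP.mono subset_union_right)).congr fun p hp =>
      ContinuousLinearMap.ext fun u => e₂ p hp _ ((hW p (Or.inr hp)).1 u)) c₁ c₂,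
    fun p hp => BijOn.congr ?_ fun u hu => (e₃ p hp u hu).symm, fun p hp u hu v hv => ?_⟩,
    fun p hp u hu => by rw [e₃ p (Or.inl hp) u hu, e₁ p hp]⟩
  · obtain hp | hp := hp
    · exact e₁ p hp ▸ h₁.bij p hp
    · exact (h₆.bij p hp).congr fun u hu => (e₂ p hp u hu).symm
  · rw [e₃ p hp u hu, e₃ p hp v hv]
    obtain hp | hp := hp
    · exact e₁ p hp ▸ h₁.form p hp u hu v hv
    · rw [e₂ p hp u hu, e₂ p hp v hv]
      exact h₆.form p hp u hu v hv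

end Pool.Agent.Lib.MP_ccffa6_gt.P
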