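import Pool.Agent.Lib.MP_ccffa6_gt.P.FinB
import Pool.Agent.Lib.MP_ccffa6_gt.P.SB2
import Pool.Agent.Lib.MP_ccffa6_gt.K.LSlab

/-! The slab is a Liouville slab whose upper level is hypertight. -/

namespace Pool.Agent.Lib.MP_ccffa6_gt.P

open Set Filter Topology ContinuousLinearMap
open scoped ContDiff

variable {E Y F : Type} [NormedAddCommGroup E] [NormedSpace ℝ E] [NormedAddCommGroup Y]
  [NormedSpace ℝ Y] [NormedAddCommGroup F] [NormedSpace ℝ F] [FiniteDimensional ℝ E]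
  [FiniteDimensional ℝ Y] [FiniteDimensional ℝ F]
  {n : ℕ} {N O : Set E} {α : Form1 E} {D : PD E Y F} {W : Set (E × Y)} {g : E × Y → ℝ}
  {lam : Form1 (E × Y)} {ν : E × Y → E × Y}

/-- the Liouville vector shows that both levels are regular -/
theorem exists_lslab {S : Set E} {f : E → ℝ} {a b : ℝ} {l : Form1 E} (hS : IsSub (2 * n + 2) S)
    (hf : ContDiff ℝ ∞ f) (hab : a < b) (hc : IsCompact (S ∩ f ⁻¹' Icc a b)) (hl : ContDiff ℝ ∞ l)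
    (nd : ∀ x ∈ S ∩ f ⁻¹' Icc a b, ND (Tan S x) (dF l x))
    (up : ∀ x ∈ S ∩ f ⁻¹' {a, b}, ∀ Z ∈ Tan S x, (∀ v ∈ Tan S x, dF l x Z v = l x v) →
      0 < fderiv ℝ f x Z) : ∃ μ, LSlab n S f a b μ l := by
  obtain ⟨μ, -, hμ⟩ := exists_slab hS hf hab hc fun x hx => by
    obtain ⟨Z, hZ, -⟩ := (nd x ⟨hx.1, by
      rcases hx.2 with e | e
      · exact ⟨e.ge, e.trans_le hab.le⟩
      · exact ⟨hab.le.trans_eq (Eq.symm e), Eq.le e⟩⟩).exists_dual (l x)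
    exact ⟨Z, hZ.1, (up x hx Z hZ.1 hZ.2).ne'⟩
  exact ⟨μ, hμ, hl, nd, up⟩

/-- the slab is a Liouville slab -/
theorem PD.Ext.lslab (h : D.Ext N (2 * n + 2) W g lam) (A : D.Amb α O) (B : D.Ok α N)
    (hα : ContDiff ℝ ∞ α) (hO : IsOpen O) (hN : N ⊆ O) : ∃ μ, LSlab n W g (-3) 0 μ lam := by
  refine exists_lslab h.sub h.sg (by norm_num) (h.slab_eq A hN ▸ B.cpt (-1)) h.sl
    (fun p hp => ?_) fun p hp Z hZ hl => ?_
  · rw [h.tan p hp.1, dF_congr (h.el p hp.1)]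
    exact ⟨fun u _ => sub_self _, B.nd p (h.slab_eq A hN ▸ hp : p ∈ D.C N).1⟩
  have hZ' := hZ
  rw [h.tan p hp.1] at hZ'
  rw [h.tan p hp.1, dF_congr (h.el p hp.1), (h.el p hp.1).eq_of_nhds] at hl
  rcases hp.2 with e | e
  · have h1 : p ∈ Lev W g (-3) := ⟨hp.1, e⟩
    obtain ⟨hX, hτ⟩ := (h.lev_bot A hN).1 h1
    have h2 : D.τ p.2 < 0 := by rw [hτ]; norm_num
    obtain ⟨w, h3, h4⟩ := A.exists_vert hO (hN hX.1) hX.2.1 hX.2.2.1 h2
    have h5 : Z = (0, w) := sub_eq_zero.1 (B.nd p hX _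
      (sub_mem hZ' ⟨⟨zero_mem _, trivial⟩, h3⟩) fun v hv => by
        rw [map_sub, sub_apply, hl v hv, A.dF_vert hα hX.2.1 h2 h4, sub_self])
    rw [h.dg_bot A hN h1 hZ, h5, h4]
    norm_num
  · have h1 : p ∈ Lev W g 0 := ⟨hp.1, e⟩
    obtain ⟨hX, hΦ⟩ := (h.lev_top A hN).1 h1
    rw [h.dg_top A hN h1]
    exact B.out p hX hΦ Z hZ' hl

/-- the upper level is hypertight -/
theorem PD.Ext.hyp (h : D.Ext N (2 * n + 2) W g lam) (A : D.Amb α O) (B : D.Ok α N) (hN : N ⊆ O)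
    (L : LSlab n W g (-3) 0 ν lam) : Hyp (Lev W g 0) lam := by
  intro γ γ' T hT hper hm hd hR
  have C := L.cMan (Or.inr rfl)
  obtain ⟨R, hR1, hR2⟩ := C.exists_reeb
  have ht : ∀ t v, v ∈ Tan (Lev W g 0) (γ t) ↔
      v ∈ D.T N (γ t) ∧ fderiv ℝ D.Φ (γ t).2 v.2 = 0 := fun t v => by
    rw [L.slab.mem_tan (Or.inr rfl) (hm t), h.tan _ (hm t).1, h.dg_top A hN (hm t)]
  obtain ⟨θ, h1, h2, h3⟩ := B.hyp γ γ' T ⟨hT, hper, fun t => (h.lev_top A hN).1 (hm t), hd,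
    (hR1.continuous.comp (continuous_iff_continuousAt.2 fun t => (hd t).continuousAt)).congr
      fun t => C.reeb_unique (hm t) (hR2 _ (hm t)) (hR t),
    fun t => (ht t _).1 (hR t).1,
    fun t => by rw [← (h.el _ (hm t).1).eq_of_nhds, (hR t).2.1]; exact one_pos,
    fun t v hv h0 => by rw [← dF_congr (h.el _ (hm t).1)]; exact (hR t).2.2 v ((ht t v).2 ⟨hv, h0⟩)⟩
  have hV : ∀ p ∈ Lev W g 0, p.2 ∈ D.V := fun p hp => (h.mem p hp.1).2.1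
  obtain ⟨θ', h4, h5, -⟩ := exists_smooth_nhdsSet (f := fun p : E × Y => (θ p.2).comp (snd ℝ E Y))
    C.cl.cpt.isClosed (isOpen_univ.prod A.opn) (fun p hp => ⟨trivial, hV p hp⟩)
    ((h1.comp contDiffOn_snd fun _ hp => hp.2).clm_comp contDiffOn_const)
  have h6 : ∀ p ∈ Lev W g 0, θ' =ᶠ[𝓝 p] fun p => (θ (snd ℝ E Y p)).comp (snd ℝ E Y) :=
    eventually_nhdsSet_iff_forall.1 h5
  refine ⟨θ', h4, fun p hp u _ v _ => ?_, ?_⟩
  · rw [dF_congr (h6 p hp), dF_clm _ ((h1.contDiffAt (A.opn.mem_nhds (hV p hp))).differentiableAt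
      (by simp)), bp_apply, coe_snd', h2 _ (hV p hp)]
    rfl
  · simp only [fun t => (h6 _ (hm t)).eq_of_nhds]
    exact h3

omit [FiniteDimensional ℝ E] [FiniteDimensional ℝ Y] [FiniteDimensional ℝ F] in
/-- the form on the lower level -/
theorem PD.Ext.lam_bot {d : ℕ} (h : D.Ext N d W g lam) (A : D.Amb α O) (hN : N ⊆ O) {p : E × Y}
    (hp : p ∈ Lev W g (-3)) (v : E × Y) :
    lam p v = Real.exp (-1) * α p.1 (fderiv ℝ Prod.fst p v) := by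
  obtain ⟨hX, hτ⟩ := (h.lev_bot A hN).1 hp
  rw [(h.el p hp.1).eq_of_nhds, fderiv_fst, A.lam₀ p.1 p.2 hX.2.1 (by rw [hτ]; norm_num), hτ]
  rfl

omit [FiniteDimensional ℝ E] [FiniteDimensional ℝ Y] [FiniteDimensional ℝ F] in
/-- the same isomorphism as in `Ok.si` -/
theorem PD.Ext.si {d : ℕ} (h : D.Ext N d W g lam) (A : D.Amb α O) (B : D.Ok α N) (hN : N ⊆ O) :
    SI (W ∩ g ⁻¹' Icc (-3) 0) (fun p => pl (Tan W p) F) (fun p => osum (dF lam p) D.o)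
      (fun p => pl (T1 N p.1) F) fun p => osum (symz α p.1) D.o := by
  obtain ⟨Φ, h1, h2, h3⟩ := B.si
  rw [h.slab_eq A hN]
  refine ⟨Φ, h1, fun p hp => ?_, fun p hp => ?_⟩
  · rw [h.tan p (h.sup hp)]
    exact h2 p hp
  · rw [h.tan p (h.sup hp), dF_congr (h.el p (h.sup hp))]
    exact h3 p hp

end Pool.Agent.Lib.MP_ccffa6_gt.P
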