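import Pool.Agent.Lib.MP_ccffa6_gt.P.SB2
import Pool.Agent.Lib.MP_ccffa6_gt.K.LSlab

/-! An exact cobordism read backwards is a normal bordism over its concave end. -/

namespace Pool.Agent.Lib.MP_ccffa6_gt.P

open Set ContinuousLinearMap
open scoped ContDiff

variable {E E' K : Type} [NormedAddCommGroup E] [NormedSpace ℝ E] [NormedAddCommGroup E']
  [NormedSpace ℝ E'] [NormedAddCommGroup K] [NormedSpace ℝ K]
  {W : Set E} {g : E → ℝ} {a b : ℝ} {ν : E → E} {lam : Form1 E}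

theorem lev_neg (W : Set E) (g : E → ℝ) (c : ℝ) : Lev W (fun p => -g p) (-c) = Lev W g c := by
  ext x
  simp [Lev]

theorem preimage_neg_Icc (g : E → ℝ) (a b : ℝ) :
    (fun p => -g p) ⁻¹' Icc (-b) (-a) = g ⁻¹' Icc a b := by
  ext x
  simp [and_comm]

theorem rev_pair (g : E → ℝ) (a b : ℝ) : (fun p => -g p) ⁻¹' {-b, -a} = g ⁻¹' {a, b} := by
  ext x
  simp [or_comm]

theorem slab_neg {d : ℕ} (h : Slab d W g a b ν) :
    Slab d W (fun p => -g p) (-b) (-a) fun p => -ν p := by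
  refine ⟨h.sub, h.sm.neg, neg_lt_neg h.le, ?_, ?_, ?_⟩
  · rw [preimage_neg_Icc]
    exact h.cpt
  · rw [rev_pair]
    exact h.cν.neg
  · rw [rev_pair]
    intro x hx
    refine ⟨Submodule.neg_mem _ (h.tν x hx).1, ?_⟩
    rw [fderiv_fun_neg, neg_apply, map_neg, neg_neg, (h.tν x hx).2]

theorem rev_mem {T : Submodule ℝ E} {u : E × K} : u ∈ pl T K ↔ u.1 ∈ T := by simp [pl]

/-- Rotation of the plane of `u.1.2` and `u.2.2.im` by the angle `π t`. -/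
theorem exists_rot (E K : Type) [NormedAddCommGroup E] [NormedSpace ℝ E] [NormedAddCommGroup K]
    [NormedSpace ℝ K] : ∃ ρ : ℝ → ((E × ℝ) × (K × ℂ)) →L[ℝ] ((E × ℝ) × (K × ℂ)), Continuous ρ ∧
      (∀ t (T : Submodule ℝ E), BijOn (ρ t) (pl (pl T ℝ) (K × ℂ)) (pl (pl T ℝ) (K × ℂ))) ∧
      (∀ u, ρ 0 u = u) ∧
      ∀ u, ρ 1 u = ((u.1.1, -u.1.2), (u.2.1, (starRingEnd ℂ) u.2.2)) := by
  let pe : ((E × ℝ) × (K × ℂ)) →L[ℝ] E := (fst ℝ E ℝ).comp (fst ℝ _ _)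
  let ps : ((E × ℝ) × (K × ℂ)) →L[ℝ] ℝ := (snd ℝ E ℝ).comp (fst ℝ _ _)
  let pk : ((E × ℝ) × (K × ℂ)) →L[ℝ] K := (fst ℝ K ℂ).comp (snd ℝ _ _)
  let pz : ((E × ℝ) × (K × ℂ)) →L[ℝ] ℂ := (snd ℝ K ℂ).comp (snd ℝ _ _)
  let P₀ : ((E × ℝ) × (K × ℂ)) →L[ℝ] ((E × ℝ) × (K × ℂ)) :=
    (pe.prod 0).prod (pk.prod ((Complex.reCLM.comp pz).smulRight 1))
  let P₁ : ((E × ℝ) × (K × ℂ)) →L[ℝ] ((E × ℝ) × (K × ℂ)) :=
    ((0 : _ →L[ℝ] E).prod ps).prod
      ((0 : _ →L[ℝ] K).prod ((Complex.imCLM.comp pz).smulRight Complex.I))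
  let P₂ : ((E × ℝ) × (K × ℂ)) →L[ℝ] ((E × ℝ) × (K × ℂ)) :=
    ((0 : _ →L[ℝ] E).prod (-Complex.imCLM.comp pz)).prod
      ((0 : _ →L[ℝ] K).prod (ps.smulRight Complex.I))
  let R : ℝ → ((E × ℝ) × (K × ℂ)) →L[ℝ] ((E × ℝ) × (K × ℂ)) := fun θ =>
    P₀ + Real.cos θ • P₁ + Real.sin θ • P₂
  have hR : ∀ θ u, R θ u = ((u.1.1, Real.cos θ * u.1.2 - Real.sin θ * u.2.2.im),
      (u.2.1, (⟨u.2.2.re, Real.sin θ * u.1.2 + Real.cos θ * u.2.2.im⟩ : ℂ))) := by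
    intro θ u
    refine Prod.ext (Prod.ext ?_ ?_) (Prod.ext ?_ (Complex.ext ?_ ?_)) <;>
      simp [R, P₀, P₁, P₂, pe, ps, pk, pz, -Complex.ofReal_cos, -Complex.ofReal_sin] <;> ring
  have hinv : ∀ θ u, R (-θ) (R θ u) = u := by
    intro θ u
    have h1 := Real.sin_sq_add_cos_sq θ
    rw [hR, hR, Real.cos_neg, Real.sin_neg]
    refine Prod.ext (Prod.ext rfl ?_) (Prod.ext rfl (Complex.ext rfl ?_))
    · linear_combination u.1.2 * h1
    · linear_combination u.2.2.im * h1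
  have hm : ∀ θ (T : Submodule ℝ E),
      MapsTo (R θ) (pl (pl T ℝ) (K × ℂ)) (pl (pl T ℝ) (K × ℂ)) := by
    intro θ T u hu
    rw [hR]
    exact rev_mem.2 (rev_mem.2 (rev_mem.1 (rev_mem.1 hu)))
  refine ⟨fun t => R (Real.pi * t), by fun_prop, fun t T => ?_, fun u => ?_, fun u => ?_⟩
  · refine InvOn.bijOn (f' := R (-(Real.pi * t))) ⟨fun u _ => hinv _ u, fun u _ => ?_⟩ (hm _ T)
      (hm _ T)
    have h1 := hinv (-(Real.pi * t)) u
    rwa [neg_neg] at h1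
  · rw [hR]
    simp
  · rw [hR]
    refine Prod.ext (Prod.ext rfl ?_) (Prod.ext rfl (Complex.ext ?_ ?_)) <;> simp

variable [FiniteDimensional ℝ E] [FiniteDimensional ℝ E'] [FiniteDimensional ℝ K]

omit [FiniteDimensional ℝ E] in
theorem nd_osum_ar {o : Bil K} (ho : ND ⊤ o) : ND ⊤ (osum o ar) := by
  have h1 : ND ⊤ ar := ⟨fun u _ => by rw [ar_apply, mul_comm, sub_self], nd_ar⟩
  have h2 := ho.plus h1
  rwa [pl, Submodule.prod_top] at h2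

/-- Rotate with `exists_rot`, then use `LSlab.formal`. -/
theorem rev_htpy {n : ℕ} (h : LSlab n W g a b ν lam) {c : ℝ} (hc : c = a ∨ c = b) {o : Bil K}
    (ho : ND ⊤ o) {Ω : E → Bil ((E × ℝ) × (K × ℂ))}
    (e : ∀ x ∈ Lev W g c, ∀ u ∈ pl (T1 (Lev W g c) x) (K × ℂ), ∀ v ∈ pl (T1 (Lev W g c) x) (K × ℂ),
      Ω x u v = dF lam x (u.1.1 - u.1.2 • ν x) (v.1.1 - v.1.2 • ν x) + o u.2.1 v.2.1 -
        ar u.2.2 v.2.2) :
    NDHtpy (Lev W g c) (fun x => pl (T1 (Lev W g c) x) (K × ℂ))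
      (fun x => osum (symz lam x) (osum o ar)) Ω := by
  obtain ⟨ρ, hρ, hb, h0, h1⟩ := exists_rot E K
  have hA := NDField.plus (h.cMan hc).formal (nd_osum_ar ho)
  have h2 := hA.comp_htpy (S := Lev W g c) (T := fun x => pl (T1 (Lev W g c) x) (K × ℂ))
    (r := Prod.snd) continuous_snd.continuousOn (fun q hq => hq.2) (Φ := fun q => ρ q.1)
    (hρ.comp continuous_fst).continuousOn fun q _ => hb q.1 _
  have h3 := (h.formal hc (nd_osum_ar ho)).comp (S := Lev W g c)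
    (T := fun x => pl (T1 (Lev W g c) x) (K × ℂ)) (r := id) continuousOn_id (mapsTo_id _)
    (Φ := fun _ => ρ 1) continuousOn_const fun x _ => hb 1 _
  refine (h2.trans h3).congr (fun x _ u _ v _ => ?_) fun x hx u hu v hv => ?_
  · rw [bilinearComp_apply, h0, h0]
  · rw [e x hx u hu v hv, bilinearComp_apply, h1, h1, bilinearComp_apply, osum_apply, osum_apply,
      ar_apply, ar_apply]
    simp [incl, sub_eq_add_neg, add_assoc, -dF_apply]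
    ring

/-- `symz lam = c • pb2 φ (symz α)` on `T1 S` -/
theorem htpy_scale {n d : ℕ} {S : Set E} (hS : IsSub d S) {N : Set E'} {α : Form1 E'}
    (hN : CMan n N α) {φ : E → E'} {ψ : E' → E} (hd : Diff S N φ ψ) (hl : ContDiff ℝ ∞ lam) {c : ℝ}
    (hc : 0 < c) (he : ∀ x ∈ S, ∀ v ∈ Tan S x, lam x v = c * α (φ x) (fderiv ℝ φ x v)) :
    Htpy S (pb2 φ (symz α)) (symz lam) := by
  have hF := Formal.diff hd hN.formal
  have hp := contDiff_pb hd.smφ hN.sm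
  have h1 : NDHtpy S (T1 S) (pb2 φ (symz α)) fun x => c • pb2 φ (symz α) x := by
    refine NDHtpy.segment hF.cont (hF.cont.const_smul c) fun t ht x hx => ?_
    refine ((hF.nd x hx).smul (c := 1 - t + t * c) (ne_of_gt ?_)).congr fun u _ v _ => ?_
    · rcases ht.1.eq_or_lt with h2 | h2
      · rw [← h2]
        simp
      · linarith [mul_pos h2 hc, ht.2]
    · simp only [smul_apply, add_apply, smul_eq_mul]
      ring
  refine h1.congr (fun _ _ _ _ _ _ => rfl) fun x hx u hu v hv => ?_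
  have hu' : u.1 ∈ Tan S x := rev_mem.1 hu
  have hv' : v.1 ∈ Tan S x := rev_mem.1 hv
  have h2 := EqT.dF_eq hS hl (hp.const_smul c) he hx hu' hv'
  have h3 := Pool.Agent.Lib.MP_ccffa6_gt.dF_smul (g := fun _ : E => c) (x := x)
    (differentiableAt_const c) (hp.differentiable (by simp) x) u.1 v.1
  rw [← symz_pb hd.smφ hN.sm, smul_apply, smul_apply, symz_apply, symz_apply, h2, h3,
    he x hx _ hu', he x hx _ hv']
  simp only [fderiv_fun_const, Pi.zero_apply, zero_apply, pb, comp_apply, smul_eq_mul]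
  ring

omit [FiniteDimensional ℝ E] [FiniteDimensional ℝ E'] [FiniteDimensional ℝ K] in
/-- `Φ p (w, (k, z)) = ((Ψ p (w, k)).1, ((Ψ p (w, k)).2, conj z))` -/
theorem exists_conj {X : Type} [TopologicalSpace X] {C : Set X} {T : X → Submodule ℝ E}
    {T' : X → Submodule ℝ E'} {Ψ : X → E × K →L[ℝ] E' × K} (hΨ : ContinuousOn Ψ C)
    (hb : ∀ p ∈ C, BijOn (Ψ p) (pl (T p) K) (pl (T' p) K)) :
    ∃ Φ : X → E × (K × ℂ) →L[ℝ] E' × (K × ℂ), ContinuousOn Φ C ∧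
      (∀ p ∈ C, BijOn (Φ p) (pl (T p) (K × ℂ)) (pl (T' p) (K × ℂ))) ∧
      ∀ p u, Φ p u = ((Ψ p (u.1, u.2.1)).1, ((Ψ p (u.1, u.2.1)).2, (starRingEnd ℂ) u.2.2)) := by
  let j : E × (K × ℂ) →L[ℝ] E × K := (fst ℝ _ _).prod ((fst ℝ K ℂ).comp (snd ℝ _ _))
  let L : E' × K →L[ℝ] E' × (K × ℂ) := (fst ℝ _ _).prod ((snd ℝ _ _).prod 0)
  let M : E × (K × ℂ) →L[ℝ] E' × (K × ℂ) := (0 : _ →L[ℝ] E').prod ((0 : _ →L[ℝ] K).prod
    ((Complex.conjCLE : ℂ →L[ℝ] ℂ).comp ((snd ℝ K ℂ).comp (snd ℝ _ _))))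
  have hΦ : ∀ p (u : E × (K × ℂ)), (L.comp ((Ψ p).comp j) + M) u =
      ((Ψ p (u.1, u.2.1)).1, ((Ψ p (u.1, u.2.1)).2, (starRingEnd ℂ) u.2.2)) := by
    intro p u
    simp [L, M, j]
  refine ⟨fun p => L.comp ((Ψ p).comp j) + M,
    (continuousOn_const.clm_comp (hΨ.clm_comp continuousOn_const)).add continuousOn_const,
    fun p hp => ⟨fun u hu => ?_, fun u hu v hv he => ?_, fun w hw => ?_⟩, hΦ⟩
  · rw [hΦ]
    exact rev_mem.2 (rev_mem.1 ((hb p hp).mapsTo (rev_mem.2 (rev_mem.1 hu))))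
  · rw [hΦ, hΦ] at he
    have h1 := (hb p hp).injOn (x₁ := (u.1, u.2.1)) (rev_mem.2 (rev_mem.1 hu))
      (x₂ := (v.1, v.2.1)) (rev_mem.2 (rev_mem.1 hv))
      (Prod.ext (congrArg (·.1) he) (congrArg (·.2.1) he))
    exact Prod.ext (congrArg (·.1) h1) (Prod.ext (congrArg (·.2) h1)
      (star_injective (congrArg (·.2.2) he)))
  · obtain ⟨u, hu, h1⟩ := (hb p hp).surjOn (a := (w.1, w.2.1)) (rev_mem.2 (rev_mem.1 hw))
    refine ⟨(u.1, (u.2, (starRingEnd ℂ) w.2.2)), rev_mem.2 (rev_mem.1 hu), ?_⟩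
    rw [hΦ]
    simp [h1]

/-- Data: `ν' = -ν`, stabilisation `K × ℂ` with `osum o ar`, `r = φ`, `Φ` from `exists_conj`. -/
theorem nbord_rev {n : ℕ} (h : LSlab n W g a b ν lam) {N : Set E'} {α : Form1 E'}
    (hN : CMan n N α) {φ : E → E'} {ψ : E' → E} (hd : Diff (Lev W g a) N φ ψ) {c : ℝ} (hc : 0 < c)
    (he : ∀ x ∈ Lev W g a, ∀ v ∈ Tan (Lev W g a) x, lam x v = c * α (φ x) (fderiv ℝ φ x v))
    (hm : MapsTo φ (W ∩ g ⁻¹' Icc a b) N) {o : Bil K} (ho : ND ⊤ o)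
    (si : SI (W ∩ g ⁻¹' Icc a b) (fun p => pl (Tan W p) K) (fun p => osum (dF lam p) o)
      (fun p => pl (T1 N (φ p)) K) fun p => osum (symz α (φ p)) o) :
    NBord n W (fun p => -g p) (-b) (-a) (symz lam) N (symz α) := by
  obtain ⟨Ψ, hΨ⟩ := si
  obtain ⟨Φ, hΦ, hb, hf⟩ := exists_conj hΨ.cont hΨ.bij
  have key : ∀ d, d = a ∨ d = b → NDHtpy (Lev W g d) (fun x => pl (T1 (Lev W g d) x) (K × ℂ))
      (fun x => osum (symz lam x) (osum o ar)) fun x =>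
        (osum (symz α (φ x)) (osum o ar)).bilinearComp ((Φ x).comp (incl (-ν x) (K × ℂ)))
          ((Φ x).comp (incl (-ν x) (K × ℂ))) := by
    intro d hdab
    refine rev_htpy h hdab ho fun x hx u hu v hv => ?_
    have hg : g x = d := hx.2
    have hx1 : x ∈ W ∩ g ⁻¹' {a, b} := ⟨hx.1, by simpa [hg] using hdab⟩
    have hx2 : x ∈ W ∩ g ⁻¹' Icc a b := by
      refine ⟨hx.1, ?_⟩
      rcases hdab with h1 | h1 <;> simp [hg, h1, h.slab.le.le]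
    have ht : ∀ w ∈ pl (T1 (Lev W g d) x) (K × ℂ), w.1.1 - w.1.2 • ν x ∈ Tan W x := fun w hw =>
      Submodule.sub_mem _ ((h.slab.mem_tan hdab hx _).1 (rev_mem.1 (rev_mem.1 hw))).1
        (Submodule.smul_mem _ _ (h.slab.tν x hx1).1)
    have hi : ∀ w : (E × ℝ) × (K × ℂ), incl (-ν x) (K × ℂ) w = (w.1.1 - w.1.2 • ν x, w.2) := by
      intro w
      simp [incl, sub_eq_add_neg, Prod.map]
    have h1 := hΨ.form x hx2 (u.1.1 - u.1.2 • ν x, u.2.1) (rev_mem.2 (ht u hu))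
      (v.1.1 - v.1.2 • ν x, v.2.1) (rev_mem.2 (ht v hv))
    rw [osum_apply, osum_apply] at h1
    rw [bilinearComp_apply, comp_apply, comp_apply, hi, hi, hf, hf, osum_apply, osum_apply,
      ar_apply, ar_apply, ← add_assoc, h1]
    simp only [Complex.conj_re, Complex.conj_im]
    ring
  refine ⟨fun p => -ν p, K × ℂ, inferInstance, inferInstance, inferInstance, osum o ar, φ, ψ, φ, Φ,
    slab_neg h.slab, nd_osum_ar ho, ?_⟩
  rw [lev_neg, lev_neg, preimage_neg_Icc]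
  refine ⟨(h.cMan (Or.inr rfl)).formal, hN.formal, hd, hd.smφ.continuous.continuousOn, hm,
    fun _ _ => rfl, hΦ, hb, key b (Or.inr rfl), NDHtpy.trans ?_ (key a (Or.inl rfl))⟩
  exact NDHtpy.plus (htpy_scale (n := n) (h.cMan (Or.inl rfl)).cl.sub hN hd h.sm hc he)
    (nd_osum_ar ho)

end Pool.Agent.Lib.MP_ccffa6_gt.P
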