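import Pool.Agent.Lib.MP_ccffa6_gt.P.Ind
import Pool.Agent.Lib.MP_ccffa6_gt.P.Rev
import Pool.Agent.Lib.MP_ccffa6_gt.P.FinA
import Pool.Agent.Lib.MP_ccffa6_gt.P.FinC

/-! Block P from the inductive step and block G. -/

namespace Pool.Agent.Lib.MP_ccffa6_gt.P

open Set

theorem p_of_step (hS : ∀ (E : Type) [NormedAddCommGroup E] [NormedSpace ℝ E]
    [FiniteDimensional ℝ E], StepStmt E) (hG : ∀ n, GStmt n) (n : ℕ) : PStmt n := by
  intro E _ _ _ N α h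
  obtain ⟨R, hR⟩ := h.cl.cpt.isBounded.subset_ball 0
  obtain ⟨Y, F, _, _, _, _, _, _, D, A, B⟩ :=
    hasPD_of (hS E) hG Metric.isBounded_ball Metric.isOpen_ball n h hR
  obtain ⟨W, g, lam, X⟩ := PD.exists_ext h.cl A B
  obtain ⟨ν, L⟩ := X.lslab A B h.sm Metric.isOpen_ball hR
  obtain ⟨ψ, hd⟩ := X.diff A Metric.isOpen_ball hR h.cl.cpt.isClosed
  have ho : ND ⊤ D.o := ⟨fun u _ => by have := A.alt u u; linarith, A.ndo⟩
  have hm : MapsTo Prod.fst (W ∩ g ⁻¹' Icc (-3) 0) N := fun p hp => (X.mem p hp.1).1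
  refine ⟨E × Y, inferInstance, inferInstance, inferInstance, W, fun p => -g p, -0, -(-3), lam,
    ?_, ?_, ?_⟩
  · rw [lev_neg]; exact L.cMan (Or.inr rfl)
  · rw [lev_neg]; exact X.hyp A B hR L
  · exact nbord_rev L h hd (Real.exp_pos (-1)) (fun x hx v _ => X.lam_bot A hR hx v) hm ho
      (X.si A B hR)

end Pool.Agent.Lib.MP_ccffa6_gt.P
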