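import Pool.Agent.Lib.MP_ccffa6_gt.P.SBDef

/-! Local calculus of one-forms. -/

namespace Pool.Agent.Lib.MP_ccffa6_gt.P

open Set Filter Topology ContinuousLinearMap
open scoped ContDiff

variable {E E' F : Type} [NormedAddCommGroup E] [NormedSpace ℝ E] [NormedAddCommGroup E']
  [NormedSpace ℝ E'] [NormedAddCommGroup F] [NormedSpace ℝ F] {a b : Form1 E} {x : E}

theorem dF_congr (h : a =ᶠ[𝓝 x] b) : dF a x = dF b x := by
  rw [dF, dF, h.fderiv_eq]

theorem dF_add (ha : DifferentiableAt ℝ a x) (hb : DifferentiableAt ℝ b x) :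
    dF (fun y => a y + b y) x = dF a x + dF b x := by
  ext u v
  simp only [dF_apply, fderiv_fun_add ha hb, add_apply]
  ring

theorem dF_sub (ha : DifferentiableAt ℝ a x) (hb : DifferentiableAt ℝ b x) :
    dF (fun y => a y - b y) x = dF a x - dF b x := by
  ext u v
  simp only [dF_apply, fderiv_fun_sub ha hb, sub_apply]
  ring

theorem dF_smul {f : E → ℝ} (hf : DifferentiableAt ℝ f x) (ha : DifferentiableAt ℝ a x) :
    dF (fun y => f y • a y) x = wg (fderiv ℝ f x) (a x) + f x • dF a x := by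
  ext u v
  simp only [dF_apply, fderiv_fun_smul hf ha, add_apply, smul_apply, smulRight_apply, wg_apply,
    smul_eq_mul]
  ring

theorem dF_const_smul (c : ℝ) (ha : DifferentiableAt ℝ a x) :
    dF (fun y => c • a y) x = c • dF a x := by
  ext u v
  simp only [dF_apply, fderiv_fun_const_smul ha, smul_apply, smul_eq_mul]
  ring

/-- symmetry of the second derivative -/
theorem cal_symm {φ : E → E'} (hφ : ContDiffAt ℝ 2 φ x) (u v : E) :
    fderiv ℝ (fderiv ℝ φ) x u v = fderiv ℝ (fderiv ℝ φ) x v u :=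
  hφ.isSymmSndFDerivAt (by simp) u v

theorem cal_pull {φ : E → E'} (hφ : ContDiffAt ℝ 2 φ x) {c : Form1 E'}
    (hc : DifferentiableAt ℝ c (φ x)) : dF (pb φ c) x = bp (fderiv ℝ φ x) (dF c (φ x)) := by
  have h1 : DifferentiableAt ℝ φ x := hφ.differentiableAt two_ne_zero
  have h2 : DifferentiableAt ℝ (fderiv ℝ φ) x :=
    (hφ.fderiv_right (m := 1) (by norm_num)).differentiableAt one_ne_zero
  have h3 : fderiv ℝ (pb φ c) x = _ :=
    ((hc.hasFDerivAt.comp x h1.hasFDerivAt).clm_comp h2.hasFDerivAt).fderiv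
  ext u v
  simp only [dF_apply, bp_apply, h3, add_apply, comp_apply, compL_apply, flip_apply,
    Function.comp_apply, cal_symm hφ u v]
  ring

theorem dF_clm (A : E →L[ℝ] E') {c : Form1 E'} (hc : DifferentiableAt ℝ c (A x)) :
    dF (fun y => (c (A y)).comp A) x = bp A (dF c (A x)) := by
  have h := cal_pull (φ := A) A.contDiff.contDiffAt hc
  unfold pb at h
  simpa only [A.fderiv] using h

/-- symmetry of the second derivative -/
theorem dF_fderiv {f : E → ℝ} (hf : ContDiffAt ℝ 2 f x) : dF (fderiv ℝ f) x = 0 := by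
  ext u v
  rw [dF_apply, cal_symm hf u v, sub_self]
  rfl

/-- `d` commutes with pull-back -/
theorem dF_pull {φ : E → E'} (hφ : ContDiffAt ℝ 2 φ x) {c : Form1 E'}
    (hc : DifferentiableAt ℝ c (φ x)) : dF (pb φ c) x = bp (fderiv ℝ φ x) (dF c (φ x)) :=
  cal_pull hφ hc

/-- Extension from a neighbourhood of a compact set. -/
theorem exists_ext_cpt [FiniteDimensional ℝ E] {C U : Set E} (hC : IsCompact C) (hU : IsOpen U)
    (s : C ⊆ U) {f : E → F} (hf : ContDiffOn ℝ ∞ f U) :
    ∃ (g : E → F) (U' : Set E), ContDiff ℝ ∞ g ∧ IsOpen U' ∧ C ⊆ U' ∧ U' ⊆ U ∧ EqOn g f U' := by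
  obtain ⟨χ, h0, h1, -⟩ := exists_contMDiffMap_zero_one_nhds_of_isClosed (n := ⊤)
    (modelWithCornersSelf ℝ E) hU.isClosed_compl hC.isClosed (disjoint_compl_left_iff_subset.2 s)
  have hχ : ContDiff ℝ ∞ χ := χ.contMDiff.contDiff
  obtain ⟨V, hV, hCV, hV1⟩ := mem_nhdsSet_iff_exists.1 h1
  refine ⟨fun y => χ y • f y, V ∩ U, contDiff_iff_contDiffAt.2 fun y => ?_, hV.inter hU,
    subset_inter hCV s, inter_subset_right, fun y hy => ?_⟩
  · by_cases hy : y ∈ U
    · exact hχ.contDiffAt.smul (hf.contDiffAt (hU.mem_nhds hy))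
    · refine (contDiffAt_const (c := 0)).congr_of_eventuallyEq ?_
      filter_upwards [nhds_le_nhdsSet hy h0] with z hz
      rw [show χ z = 0 from hz, zero_smul]
  · show χ y • f y = f y
    rw [show χ y = 1 from hV1 hy.1, one_smul]

/-- a continuous function of constant sign has a nonzero integral -/
theorem integral_ne_zero_of_sign {f : ℝ → ℝ} (hf : Continuous f) {T c : ℝ} (hT : 0 < T)
    (h : ∀ t, 0 < c * f t) : ∫ t in (0 : ℝ)..T, f t ≠ 0 := fun h0 => by
  have h1 := intervalIntegral.intervalIntegral_pos_of_pos (f := fun t => c * f t)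
    ((continuous_const.mul hf).intervalIntegrable 0 T) h hT
  rw [intervalIntegral.integral_const_mul, h0, mul_zero] at h1
  exact lt_irrefl _ h1

end Pool.Agent.Lib.MP_ccffa6_gt.P
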