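import Pool.Agent.Lib.MP_ccffa6_gt.P.SBDef

/-! Cut-off functions of one variable. -/

namespace Pool.Agent.Lib.MP_ccffa6_gt.P

open Set
open scoped ContDiff

/-- the smooth step -/
noncomputable abbrev st : ℝ → ℝ := Real.smoothTransition

/-- zero for `x ≤ 0`, the identity for `1 ≤ x` -/
noncomputable def jj (x : ℝ) : ℝ := x * st x

/-- zero for `x ≤ -e`, increasing afterwards, `1` at `0` -/
noncomputable def AA (e x : ℝ) : ℝ := expNegInvGlue (x + e) / expNegInvGlue e

/-- zero for `p ^ 2 ≤ 1 / 2`, `1` at `± 1` -/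
noncomputable def BB (p : ℝ) : ℝ := AA (1 / 2) (p ^ 2 - 1)

/-- the identity for `x ≤ 2`, constant for `3 ≤ x` -/
noncomputable def HH (x : ℝ) : ℝ := 3 - jj (3 - x)

variable {x e : ℝ}

theorem contDiff_st : ContDiff ℝ ∞ st := Real.smoothTransition.contDiff
theorem deriv_st_nonneg (x : ℝ) : 0 ≤ deriv st x := Real.smoothTransition.monotone.deriv_nonneg
theorem deriv_st_of_nonpos (h : x ≤ 0) : deriv st x = 0 :=
  IsLocalMin.deriv_eq_zero (Filter.Eventually.of_forall fun y =>
    (Real.smoothTransition.zero_of_nonpos h).trans_le (Real.smoothTransition.nonneg y))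
theorem deriv_st_of_one_le (h : 1 ≤ x) : deriv st x = 0 :=
  IsLocalMax.deriv_eq_zero (Filter.Eventually.of_forall fun y =>
    (Real.smoothTransition.le_one y).trans_eq (Real.smoothTransition.one_of_one_le h).symm)
theorem exists_deriv_st_le : ∃ C : ℝ, 0 < C ∧ ∀ x, deriv st x ≤ C := by
  obtain ⟨C, hC⟩ := (isCompact_Icc (a := (0 : ℝ)) (b := 1)).bddAbove_image
    (contDiff_st.continuous_deriv (by simp)).continuousOn
  refine ⟨max C 1, lt_max_of_lt_right one_pos, fun x => ?_⟩
  rcases le_total x 0 with h | h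
  · rw [deriv_st_of_nonpos h]
    exact le_max_of_le_right zero_le_one
  rcases le_total x 1 with h' | h'
  · exact le_max_of_le_left (hC ⟨x, ⟨h, h'⟩, rfl⟩)
  · rw [deriv_st_of_one_le h']
    exact le_max_of_le_right zero_le_one
theorem contDiff_jj : ContDiff ℝ ∞ jj := contDiff_id.mul contDiff_st
theorem jj_of_nonpos (h : x ≤ 0) : jj x = 0 := by
  rw [jj, st, Real.smoothTransition.zero_of_nonpos h, mul_zero]
theorem jj_of_one_le (h : 1 ≤ x) : jj x = x := by
  rw [jj, st, Real.smoothTransition.one_of_one_le h, mul_one]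
theorem jj_nonneg (x : ℝ) : 0 ≤ jj x := by
  rcases le_total x 0 with h | h
  · exact (jj_of_nonpos h).ge
  · exact mul_nonneg h (Real.smoothTransition.nonneg x)
theorem jj_lt_one (h : x < 1) : jj x < 1 := by
  rcases le_total x 0 with h' | h'
  · rw [jj_of_nonpos h']
    exact one_pos
  · exact (mul_le_of_le_one_right h' (Real.smoothTransition.le_one x)).trans_lt h

theorem cut_deriv_jj (x : ℝ) : deriv jj x = st x + x * deriv st x := by
  have h := (hasDerivAt_id x).mul ((contDiff_st.differentiable (by simp)) x).hasDerivAt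
  rw [one_mul] at h
  exact h.deriv

theorem deriv_jj_nonneg (x : ℝ) : 0 ≤ deriv jj x := by
  rw [cut_deriv_jj]
  rcases le_total x 0 with h | h
  · rw [deriv_st_of_nonpos h, mul_zero, add_zero]
    exact Real.smoothTransition.nonneg x
  · exact add_nonneg (Real.smoothTransition.nonneg x) (mul_nonneg h (deriv_st_nonneg x))
theorem deriv_jj_of_nonpos (h : x ≤ 0) : deriv jj x = 0 := by
  rw [cut_deriv_jj, deriv_st_of_nonpos h, mul_zero, add_zero]
  exact Real.smoothTransition.zero_of_nonpos h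
theorem deriv_jj_of_one_le (h : 1 ≤ x) : deriv jj x = 1 := by
  rw [cut_deriv_jj, deriv_st_of_one_le h, mul_zero, add_zero]
  exact Real.smoothTransition.one_of_one_le h
theorem contDiff_AA (e : ℝ) : ContDiff ℝ ∞ (AA e) :=
  (expNegInvGlue.contDiff.comp (contDiff_id.add contDiff_const)).div_const _
theorem AA_nonneg (e x : ℝ) : 0 ≤ AA e x :=
  div_nonneg (expNegInvGlue.nonneg _) (expNegInvGlue.nonneg _)
theorem AA_of_le (h : x ≤ -e) : AA e x = 0 := by
  rw [AA, expNegInvGlue.zero_of_nonpos (by linarith), zero_div]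
theorem deriv_AA_of_le (h : x ≤ -e) : deriv (AA e) x = 0 :=
  IsLocalMin.deriv_eq_zero (Filter.Eventually.of_forall fun y =>
    (AA_of_le h).trans_le (AA_nonneg e y))

theorem cut_hasDerivAt (y : ℝ) : HasDerivAt expNegInvGlue (y⁻¹ ^ 2 * expNegInvGlue y) y := by
  simpa using expNegInvGlue.hasDerivAt_polynomial_eval_inv_mul 1 y

theorem cut_lt {a b : ℝ} (h : a < b) (hb : 0 < b) : expNegInvGlue a < expNegInvGlue b := by
  rcases le_or_gt a 0 with ha | ha
  · rw [expNegInvGlue.zero_of_nonpos ha]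
    exact expNegInvGlue.pos_of_pos hb
  · rw [expNegInvGlue, expNegInvGlue, if_neg ha.not_ge, if_neg hb.not_ge]
    exact Real.exp_lt_exp.2 (neg_lt_neg (inv_strictAnti₀ ha h))

/-- `expNegInvGlue y = exp (-y⁻¹)` for `0 < y` -/
theorem deriv_AA_pos (he : 0 < e) (h : -e < x) : 0 < deriv (AA e) x := by
  have h1 : HasDerivAt (AA e) (((x + e)⁻¹ ^ 2 * expNegInvGlue (x + e)) / expNegInvGlue e) x :=
    ((cut_hasDerivAt (x + e)).comp_add_const x e).div_const _
  have h2 : 0 < x + e := by linarith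
  rw [h1.deriv]
  exact div_pos (mul_pos (by positivity) (expNegInvGlue.pos_of_pos h2))
    (expNegInvGlue.pos_of_pos he)
theorem AA_pos (he : 0 < e) (h : -e < x) : 0 < AA e x :=
  div_pos (expNegInvGlue.pos_of_pos (by linarith)) (expNegInvGlue.pos_of_pos he)
theorem AA_le_one_iff (he : 0 < e) : AA e x ≤ 1 ↔ x ≤ 0 := by
  rw [AA, div_le_one (expNegInvGlue.pos_of_pos he)]
  refine ⟨fun h => le_of_not_gt fun hx => ?_, fun h => expNegInvGlue.monotone (by linarith)⟩
  exact (cut_lt (show e < x + e by linarith) (by linarith)).not_ge h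
theorem AA_eq_one_iff (he : 0 < e) : AA e x = 1 ↔ x = 0 := by
  rw [AA, div_eq_one_iff_eq (expNegInvGlue.pos_of_pos he).ne']
  refine ⟨fun h => ?_, fun h => by rw [h, zero_add]⟩
  rcases lt_trichotomy x 0 with hx | hx | hx
  · exact absurd h (cut_lt (show x + e < e by linarith) he).ne
  · exact hx
  · exact absurd h (cut_lt (show e < x + e by linarith) (by linarith)).ne'
theorem contDiff_BB : ContDiff ℝ ∞ BB :=
  (contDiff_AA (1 / 2)).comp ((contDiff_id.pow 2).sub contDiff_const)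
theorem BB_nonneg (x : ℝ) : 0 ≤ BB x := AA_nonneg _ _
theorem BB_of_le (h : x ^ 2 ≤ 1 / 2) : BB x = 0 ∧ deriv BB x = 0 := by
  have h1 : BB x = 0 := AA_of_le (by linarith)
  exact ⟨h1, IsLocalMin.deriv_eq_zero (Filter.Eventually.of_forall fun y =>
    h1.trans_le (BB_nonneg y))⟩
theorem BB_of_lt (h : 1 / 2 < x ^ 2) : ∃ r : ℝ, 0 < r ∧ deriv BB x = r * x := by
  have h1 : HasDerivAt (fun p : ℝ => p ^ 2 - 1) (2 * x) x := by
    simpa using (hasDerivAt_pow 2 x).sub_const 1
  have h2 : HasDerivAt BB (deriv (AA (1 / 2)) (x ^ 2 - 1) * (2 * x)) x :=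
    (((contDiff_AA (1 / 2)).differentiable (by simp)) (x ^ 2 - 1)).hasDerivAt.comp x h1
  refine ⟨deriv (AA (1 / 2)) (x ^ 2 - 1) * 2,
    mul_pos (deriv_AA_pos (by norm_num) (by linarith)) two_pos, ?_⟩
  rw [h2.deriv, mul_assoc]
theorem BB_le_one_iff : BB x ≤ 1 ↔ x ^ 2 ≤ 1 := by
  rw [BB, AA_le_one_iff (by norm_num), sub_nonpos]
theorem contDiff_HH : ContDiff ℝ ∞ HH :=
  contDiff_const.sub (contDiff_jj.comp (contDiff_const.sub contDiff_id))

theorem cut_deriv_HH (x : ℝ) : deriv HH x = deriv jj (3 - x) := by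
  have h1 : HasDerivAt (fun p : ℝ => 3 - p) (-1) x := by
    simpa using (hasDerivAt_id x).const_sub 3
  have h2 : HasDerivAt HH (-(deriv jj (3 - x) * -1)) x :=
    (((contDiff_jj.differentiable (by simp)) (3 - x)).hasDerivAt.comp x h1).const_sub 3
  rw [h2.deriv, mul_neg_one, neg_neg]

theorem HH_of_le (h : x ≤ 2) : HH x = x ∧ deriv HH x = 1 := by
  rw [cut_deriv_HH, HH, jj_of_one_le (by linarith), deriv_jj_of_one_le (by linarith)]
  exact ⟨by ring, rfl⟩
theorem HH_of_ge (h : 3 ≤ x) : HH x = 3 ∧ deriv HH x = 0 := by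
  rw [cut_deriv_HH, HH, jj_of_nonpos (by linarith), deriv_jj_of_nonpos (by linarith)]
  exact ⟨by ring, rfl⟩
theorem deriv_HH_nonneg (x : ℝ) : 0 ≤ deriv HH x := by
  rw [cut_deriv_HH]
  exact deriv_jj_nonneg _

end Pool.Agent.Lib.MP_ccffa6_gt.P
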