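import Pool.Agent.Lib.MP_ccffa6_gt.P.SB3

/-! Symplectic fibrations over the plane: horizontal lifts. -/

namespace Pool.Agent.Lib.MP_ccffa6_gt.P

open Set ContinuousLinearMap

variable {X E : Type} [TopologicalSpace X] [NormedAddCommGroup E] [NormedSpace ℝ E]
  [FiniteDimensional ℝ E] {K : Set X} {W : X → Submodule ℝ E} {ω : X → Bil E} {L : X → E →L[ℝ] ℂ}

/-- `H` is the `o`-horizontal lift for `l : V → ℂ` -/
def IsHl (V : Submodule ℝ E) (o : Bil E) (l : E →L[ℝ] ℂ) (H : ℂ →L[ℝ] E) : Prop :=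
  ∀ z, H z ∈ V ∧ l (H z) = z ∧ ∀ v ∈ kr V l, o v (H z) = 0

/-- horizontal lifts exist -/
theorem exists_hl (cs : CS K W) (hω : ContinuousOn ω K) (alt : ∀ p ∈ K, Alt (ω p))
    (hL : ContinuousOn L K) (o : ∀ p ∈ K, Onto (W p) (L p))
    (nd : ∀ p ∈ K, Nd (kr (W p) (L p)) (ω p)) :
    ∃ H : X → ℂ →L[ℝ] E, ContinuousOn H K ∧ ∀ p ∈ K, IsHl (W p) (ω p) (L p) (H p) := by
  obtain ⟨S, hS, s⟩ := cs.rinv hL o
  have key : ∀ z : ℂ, ∃ h : X → E, ContinuousOn h K ∧ ∀ p ∈ K, h p ∈ W p ∧ L p (h p) = z ∧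
      ∀ v ∈ kr (W p) (L p), ω p v (h p) = 0 := fun z => by
    choose! w hw using fun p hp => (nd p hp).exists_dual (ω p (S p z))
    have c := hS.clm_apply (continuousOn_const (c := z))
    refine ⟨fun p => S p z - w p, c.sub ((cs.kr hL o).dual hω nd (hω.clm_apply c) hw),
      fun p hp => ⟨sub_mem (s p hp z).1 (hw p hp).1.1, ?_, fun v hv => ?_⟩⟩
    · rw [map_sub, (s p hp z).2, show L p (w p) = 0 from (hw p hp).1.2, sub_zero]
    · rw [alt p hp, map_sub, sub_apply, (hw p hp).2 v hv, sub_self, neg_zero]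
  obtain ⟨a, ha, a'⟩ := key 1
  obtain ⟨b, hb, b'⟩ := key Complex.I
  refine ⟨fun p => Complex.reCLM.smulRight (a p) + Complex.imCLM.smulRight (b p),
    continuousOn_clm_apply.2 fun z => (ha.const_smul z.re).add (hb.const_smul z.im),
    fun p hp z => ?_⟩
  obtain ⟨a1, a2, a3⟩ := a' p hp
  obtain ⟨b1, b2, b3⟩ := b' p hp
  refine ⟨add_mem ((W p).smul_mem _ a1) ((W p).smul_mem _ b1), ?_, fun v hv => ?_⟩
  · simp [a2, b2]
  · simp [a3 v hv, b3 v hv]

section point

variable {V : Submodule ℝ E} {o : Bil E} {l : E →L[ℝ] ℂ} {H : ℂ →L[ℝ] E}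

omit [FiniteDimensional ℝ E] in
theorem fib_mem (h : IsHl V o l H) {u : E} (hu : u ∈ V) : u - H (l u) ∈ kr V l :=
  ⟨sub_mem hu (h _).1, by simp [(h _).2.1]⟩

omit [FiniteDimensional ℝ E] in
theorem fib_app (h : IsHl V o l H) (alt : Alt o) {u : E} (hu : u ∈ V) (z : ℂ) :
    o u (H z) = o (H 1) (H Complex.I) * ar (l u) z := by
  have e : ∀ a : ℂ, H a = a.re • H 1 + a.im • H Complex.I := fun a => by
    rw [← map_smul, ← map_smul, ← map_add]
    exact congrArg H (by simp)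
  have h1 := (h z).2.2 _ (fib_mem h hu)
  rw [map_sub, sub_apply, sub_eq_zero] at h1
  rw [h1, e (l u), e z]
  simp only [map_add, map_smul, add_apply, smul_apply, smul_eq_mul, ar_apply]
  linear_combination (l u).re * z.re / 2 * alt (H 1) (H 1) + (l u).im * z.re *
    alt (H Complex.I) (H 1) + (l u).im * z.im / 2 * alt (H Complex.I) (H Complex.I)

omit [FiniteDimensional ℝ E] in
theorem IsHl.apply (h : IsHl V o l H) (alt : Alt o) (k : ℝ) {u : E} (hu : u ∈ V) (z : ℂ) :
    (o + k • bp l ar) u (H z) = (o (H 1) (H Complex.I) + k) * ar (l u) z := by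
  simp only [add_apply, smul_apply, bp_apply, fib_app h alt hu, (h z).2.1, smul_eq_mul, add_mul]

omit [FiniteDimensional ℝ E] in
theorem IsHl.nd (h : IsHl V o l H) (alt : Alt o) (nd : Nd (kr V l) o) {k : ℝ}
    (hk : o (H 1) (H Complex.I) + k ≠ 0) : Nd V (o + k • bp l ar) := fun u hu e => by
  have h0 : l u = 0 := nd_ar _ trivial fun z _ =>
    (mul_eq_zero.1 ((h.apply alt k hu z).symm.trans (e _ (h z).1))).resolve_left hk
  exact nd u ⟨hu, h0⟩ fun v hv => by simpa [h0] using e v hv.1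

theorem IsHl.unique (h : IsHl V o l H) (nd : Nd (kr V l) o) {H' : ℂ →L[ℝ] E} (h' : IsHl V o l H') :
    H' = H := by
  refine ContinuousLinearMap.ext fun z => sub_eq_zero.1
    (SeparatingDual.eq_zero_of_forall_dual_eq_zero (R := ℝ) fun f => ?_)
  obtain ⟨u, hu, e⟩ := nd.exists_dual f
  rw [← e _ ⟨sub_mem (h' z).1 (h z).1, by simp [(h z).2.1, (h' z).2.1]⟩, map_sub, (h z).2.2 u hu,
    (h' z).2.2 u hu, sub_self]

end point

/-- The map `u ↦ (u - H (L u), √(c + k) • L u)`, `c = ω (H 1) (H I)`. -/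
theorem si_fib {H : X → ℂ →L[ℝ] E} (hH : ContinuousOn H K) (hω : ContinuousOn ω K)
    (alt : ∀ p ∈ K, Alt (ω p)) (hL : ContinuousOn L K) (h : ∀ p ∈ K, IsHl (W p) (ω p) (L p) (H p))
    {k : X → ℝ} (hk : ContinuousOn k K) (pos : ∀ p ∈ K, 0 < ω p (H p 1) (H p Complex.I) + k p) :
    SI K W (fun p => ω p + k p • bp (L p) ar) (fun p => (kr (W p) (L p)).prod ⊤)
      fun p => osum (ω p) ar := by
  let s := fun p => √(ω p (H p 1) (H p Complex.I) + k p)
  have hs : ContinuousOn s K := (((hω.clm_apply (hH.clm_apply continuousOn_const)).clm_apply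
    (hH.clm_apply continuousOn_const)).add hk).sqrt
  have s0 : ∀ p ∈ K, s p ≠ 0 := fun p hp => (Real.sqrt_pos.2 (pos p hp)).ne'
  refine ⟨fun p => (1 - (H p).comp (L p)).prod (s p • L p), continuousOn_clm_apply.2 fun u => ?_,
    fun p hp => ⟨fun u hu => ⟨fib_mem (h p hp) hu, trivial⟩, fun u _ v _ e => ?_,
      fun y hy => ⟨y.1 + H p ((s p)⁻¹ • y.2), add_mem hy.1.1 (h p hp _).1, ?_⟩⟩,
    fun p hp u hu v hv => ?_⟩
  · have c := hL.clm_apply (continuousOn_const (c := u))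
    exact (continuousOn_const.sub (hH.clm_apply c)).prodMk (hs.smul c)
  · have e1 : u - H p (L p u) = v - H p (L p v) := congrArg Prod.fst e
    have e2 : L p u = L p v := smul_right_injective ℂ (s0 p hp) (congrArg Prod.snd e)
    rwa [e2, sub_left_inj] at e1
  · have e1 : L p (y.1 + H p ((s p)⁻¹ • y.2)) = (s p)⁻¹ • y.2 := by
      rw [map_add, (h p hp _).2.1, show L p y.1 = 0 from hy.1.2, zero_add]
    refine Prod.ext ?_ ?_
    · change y.1 + H p _ - H p (L p _) = _
      rw [e1, add_sub_cancel_right]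
    · change s p • L p _ = _
      rw [e1, smul_inv_smul₀ (s0 p hp)]
  · have e1 : s p * s p = _ := Real.mul_self_sqrt (pos p hp).le
    change osum (ω p) ar (u - H p (L p u), s p • L p u) (v - H p (L p v), s p • L p v) = _
    rw [osum_apply, map_sub, (h p hp _).2.2 _ (fib_mem (h p hp) hu), map_sub, sub_apply,
      alt p hp (H p _), fib_app (h p hp) (alt p hp) hv, alt_ar (L p v)]
    simp only [map_smul, add_apply, smul_apply, bp_apply, smul_eq_mul]
    linear_combination ar (L p u) (L p v) * e1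

/-- for large `k` over a compact set -/
theorem si_fib_large (hK : IsCompact K) (cs : CS K W) (hω : ContinuousOn ω K)
    (alt : ∀ p ∈ K, Alt (ω p)) (hL : ContinuousOn L K) (o : ∀ p ∈ K, Onto (W p) (L p))
    (nd : ∀ p ∈ K, Nd (kr (W p) (L p)) (ω p)) : ∃ k₀ : ℝ, 0 < k₀ ∧ ∀ k ≥ k₀,
      SB K W (fun p => ω p + k • bp (L p) ar) ∧
      SI K W (fun p => ω p + k • bp (L p) ar) (fun p => (kr (W p) (L p)).prod ⊤)
        fun p => osum (ω p) ar := by
  obtain ⟨H, hH, h⟩ := exists_hl cs hω alt hL o nd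
  obtain ⟨C, hC⟩ := hK.exists_bound_of_continuousOn ((hω.clm_apply
    (hH.clm_apply (continuousOn_const (c := 1)))).clm_apply
    (hH.clm_apply (continuousOn_const (c := Complex.I))))
  refine ⟨|C| + 1, by positivity, fun k hk => ?_⟩
  have pos : ∀ p ∈ K, 0 < ω p (H p 1) (H p Complex.I) + k := fun p hp => by
    have := neg_le_of_abs_le ((hC p hp).trans (le_abs_self C))
    linarith
  exact ⟨⟨cs, continuousOn_clm_apply.2 fun u => (hω.clm_apply continuousOn_const).add
    (((continuousOn_bp hL continuousOn_const).clm_apply continuousOn_const).const_smul k),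
    fun p hp => (alt p hp).add ((alt_ar.bp _).smul k),
    fun p hp => (h p hp).nd (alt p hp) (nd p hp) (pos p hp).ne'⟩,
    si_fib hH hω alt hL h continuousOn_const pos⟩

end Pool.Agent.Lib.MP_ccffa6_gt.P
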