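import Pool.Agent.Lib.MP_ccffa6_gt.P.FinDef
import Pool.Agent.Lib.MP_ccffa6_gt.P.Cal
import Pool.Agent.Lib.MP_ccffa6_gt.K.Diffeo

/-! The slab, its two levels and the height function along them. -/

namespace Pool.Agent.Lib.MP_ccffa6_gt.P

open Set Filter Topology ContinuousLinearMap
open scoped ContDiff

variable {E Y F : Type} [NormedAddCommGroup E] [NormedSpace ℝ E] [NormedAddCommGroup Y]
  [NormedSpace ℝ Y] [NormedAddCommGroup F] [NormedSpace ℝ F]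
  {d : ℕ} {N O : Set E} {α : Form1 E} {D : PD E Y F} {W : Set (E × Y)} {g : E × Y → ℝ}
  {lam : Form1 (E × Y)} {p : E × Y}

theorem finb_jj_le {x : ℝ} : jj x ≤ 2 ↔ x ≤ 2 := by
  rcases le_or_gt 1 x with h | h
  · rw [jj_of_one_le h]
  · exact ⟨fun _ => by linarith, fun _ => by linarith [jj_lt_one h]⟩

theorem finb_jj_eq {x : ℝ} : jj x = 2 ↔ x = 2 := by
  rcases le_or_gt 1 x with h | h
  · rw [jj_of_one_le h]
  · exact ⟨fun _ => by linarith [jj_lt_one h], fun _ => by linarith⟩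

theorem finb_cases (A : D.Amb α O) (h1 : p.1 ∈ O) (h2 : p.2 ∈ D.V) (h3 : D.G p = 0) :
    (D.τ p.2 < 0 ∧ D.Φ p.2 = -1 ∧ D.g p = -1 - jj (-2 * D.τ p.2)) ∨
      (0 ≤ D.τ p.2 ∧ D.g p = D.Φ p.2) := by
  rcases lt_or_ge (D.τ p.2) 0 with h | h
  · have := A.Φ₀ p.1 h1 p.2 h2 h3 h
    exact Or.inl ⟨h, this, by rw [PD.g, this]⟩
  · exact Or.inr ⟨h, by rw [PD.g, jj_of_nonpos (by linarith), sub_zero]⟩

theorem finb_dτ (A : D.Amb α O) (h2 : p.2 ∈ D.V) : DifferentiableAt ℝ D.τ p.2 :=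
  (A.sτ.contDiffAt (A.opn.mem_nhds h2)).differentiableAt (by simp)

/-- the slab is the compact part -/
theorem PD.Ext.slab_eq (h : D.Ext N d W g lam) (A : D.Amb α O) (hN : N ⊆ O) :
    W ∩ g ⁻¹' Icc (-3) 0 = D.C N := by
  ext p
  constructor
  · rintro ⟨hW, h1, h2⟩
    obtain ⟨a, b, c⟩ := h.mem p hW
    rw [(h.eg p hW).self_of_nhds] at h1 h2
    rcases finb_cases A (hN a) b c with ⟨t, f, e⟩ | ⟨t, e⟩ <;> rw [e] at h1 h2
    · have := finb_jj_le.1 (show jj (-2 * D.τ p.2) ≤ 2 by linarith)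
      exact ⟨⟨a, b, c, by linarith⟩, show -1 ≤ D.τ p.2 by linarith⟩
    · exact ⟨⟨a, b, c, h2⟩, show -1 ≤ D.τ p.2 by linarith⟩
  · intro hp
    have hW := h.sup hp
    obtain ⟨⟨a, b, c, f⟩, t'⟩ := hp
    have t'' : -1 ≤ D.τ p.2 := t'
    refine ⟨hW, ?_⟩
    rw [mem_preimage, (h.eg p hW).self_of_nhds]
    rcases finb_cases A (hN a) b c with ⟨t, f', e⟩ | ⟨t, e⟩ <;> rw [e]
    · have := finb_jj_le.2 (show -2 * D.τ p.2 ≤ 2 by linarith)
      exact ⟨by linarith, by linarith [jj_nonneg (-2 * D.τ p.2)]⟩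
    · exact ⟨by linarith [A.Φ₁ p.2 b], f⟩

theorem PD.Ext.lev_top (h : D.Ext N d W g lam) (A : D.Amb α O) (hN : N ⊆ O) :
    p ∈ Lev W g 0 ↔ p ∈ D.X N ∧ D.Φ p.2 = 0 := by
  constructor
  · rintro ⟨hW, h1⟩
    obtain ⟨a, b, c⟩ := h.mem p hW
    rw [mem_preimage, mem_singleton_iff, (h.eg p hW).self_of_nhds] at h1
    rcases finb_cases A (hN a) b c with ⟨t, f, e⟩ | ⟨t, e⟩ <;> rw [e] at h1
    · linarith [jj_nonneg (-2 * D.τ p.2)]
    · exact ⟨⟨a, b, c, h1.le⟩, h1⟩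
  · rintro ⟨⟨a, b, c, f⟩, f'⟩
    rcases finb_cases A (hN a) b c with ⟨t, f'', e⟩ | ⟨t, e⟩
    · linarith
    · have hW := h.sup ⟨⟨a, b, c, f⟩, show -1 ≤ D.τ p.2 by linarith⟩
      exact ⟨hW, ((h.eg p hW).self_of_nhds.trans e).trans f'⟩

theorem PD.Ext.lev_bot (h : D.Ext N d W g lam) (A : D.Amb α O) (hN : N ⊆ O) :
    p ∈ Lev W g (-3) ↔ p ∈ D.X N ∧ D.τ p.2 = -1 := by
  constructor
  · rintro ⟨hW, h1⟩
    obtain ⟨a, b, c⟩ := h.mem p hW
    rw [mem_preimage, mem_singleton_iff, (h.eg p hW).self_of_nhds] at h1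
    rcases finb_cases A (hN a) b c with ⟨t, f, e⟩ | ⟨t, e⟩ <;> rw [e] at h1
    · have := finb_jj_eq.1 (show jj (-2 * D.τ p.2) = 2 by linarith)
      exact ⟨⟨a, b, c, by linarith⟩, by linarith⟩
    · linarith [A.Φ₁ p.2 b]
  · rintro ⟨⟨a, b, c, f⟩, f'⟩
    have hW := h.sup ⟨⟨a, b, c, f⟩, f'.ge⟩
    rcases finb_cases A (hN a) b c with ⟨t, f'', e⟩ | ⟨t, e⟩
    · have := finb_jj_eq.2 (show -2 * D.τ p.2 = 2 by linarith)
      exact ⟨hW, ((h.eg p hW).self_of_nhds.trans e).trans (by linarith)⟩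
    · linarith

/-- the differential of the height on the upper level -/
theorem PD.Ext.dg_top (h : D.Ext N d W g lam) (A : D.Amb α O) (hN : N ⊆ O) (hp : p ∈ Lev W g 0)
    (v : E × Y) : fderiv ℝ g p v = fderiv ℝ D.Φ p.2 v.2 := by
  obtain ⟨⟨a, b, c, -⟩, f⟩ := (h.lev_top A hN).1 hp
  have t : 0 ≤ D.τ p.2 := by
    rcases finb_cases A (hN a) b c with ⟨t, f', e⟩ | ⟨t, e⟩
    · linarith
    · exact t
  have h1 : DifferentiableAt ℝ D.Φ p.2 :=
    (A.sΦ.contDiffAt (A.opn.mem_nhds b)).differentiableAt (by simp)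
  have h2 := ((finb_dτ A b).hasFDerivAt.comp p hasFDerivAt_snd).const_mul (-2)
  have h3 := ((contDiff_jj.differentiable (by simp)) (-2 * D.τ p.2)).hasDerivAt
  rw [deriv_jj_of_nonpos (by linarith)] at h3
  have h5 := h3.comp_hasFDerivAt p h2
  have h4 : HasFDerivAt D.g _ p := (h1.hasFDerivAt.comp p hasFDerivAt_snd).sub h5
  rw [(h.eg p hp.1).fderiv_eq, h4.fderiv]
  simp

/-- the vertical vector of the negative end -/
theorem PD.Amb.exists_vert (A : D.Amb α O) (hO : IsOpen O) (h1 : p.1 ∈ O) (h2 : p.2 ∈ D.V)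
    (h3 : D.G p = 0) (h4 : D.τ p.2 < 0) :
    ∃ w : Y, fderiv ℝ D.G p (0, w) = 0 ∧ fderiv ℝ D.τ p.2 w = 1 := by
  have e : D.κ (p.1, D.τ p.2) = p.2 := (A.κ₂ p.1 h1 p.2 h2 h3 h4).symm
  have k1 : DifferentiableAt ℝ D.κ (p.1, D.τ p.2) :=
    (A.sκ.contDiffAt ((hO.prod isOpen_Iio).mem_nhds (mk_mem_prod h1 h4))).differentiableAt
      (by simp)
  have k2 : DifferentiableAt ℝ (fun a : ℝ => D.κ (p.1, a)) (D.τ p.2) :=
    k1.comp _ ((differentiableAt_const _).prodMk differentiableAt_id)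
  have k3 := k2.hasDerivAt
  generalize deriv (fun a : ℝ => D.κ (p.1, a)) (D.τ p.2) = w at k3
  have hn : ∀ᶠ a in 𝓝 (D.τ p.2), a < 0 := Iio_mem_nhds h4
  refine ⟨w, ?_, ?_⟩
  · have g1 : DifferentiableAt ℝ D.G p :=
      (A.sG.contDiffAt ((isOpen_univ.prod A.opn).mem_nhds ⟨mem_univ _, h2⟩)).differentiableAt
        (by simp)
    have g2 : HasDerivAt (fun a : ℝ => D.G (p.1, D.κ (p.1, a))) (fderiv ℝ D.G p (0, w))
        (D.τ p.2) :=
      g1.hasFDerivAt.comp_hasDerivAt_of_eq _ ((hasDerivAt_const _ p.1).prodMk k3) (by rw [e])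
    exact g2.unique ((hasDerivAt_const _ (0 : F)).congr_of_eventuallyEq
      (hn.mono fun a ha => (A.κ₁ p.1 h1 a ha).2.1))
  · have g2 : HasDerivAt (fun a : ℝ => D.τ (D.κ (p.1, a))) (fderiv ℝ D.τ p.2 w) (D.τ p.2) :=
      (finb_dτ A h2).hasFDerivAt.comp_hasDerivAt_of_eq _ k3 e.symm
    exact g2.unique ((hasDerivAt_id _).congr_of_eventuallyEq
      (hn.mono fun a ha => (A.κ₁ p.1 h1 a ha).2.2))

/-- the vertical vector is the Liouville vector -/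
theorem PD.Amb.dF_vert (A : D.Amb α O) (hα : ContDiff ℝ ∞ α) (h2 : p.2 ∈ D.V) (h4 : D.τ p.2 < 0)
    {w : Y} (hw : fderiv ℝ D.τ p.2 w = 1) (v : E × Y) : dF D.lam p (0, w) v = D.lam p v := by
  have t1 := finb_dτ A h2
  have hn : ∀ᶠ q in 𝓝 p, q.2 ∈ D.V ∧ D.τ q.2 < 0 :=
    continuous_snd.continuousAt.eventually
      ((A.opn.eventually_mem h2).and (t1.continuousAt.eventually_lt continuousAt_const h4))
  have e : D.lam =ᶠ[𝓝 p] fun q => Real.exp (D.τ q.2) • (α (fst ℝ E Y q)).comp (fst ℝ E Y) :=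
    hn.mono fun q hq => A.lam₀ q.1 q.2 hq.1 hq.2
  have t2 : HasFDerivAt (fun q : E × Y => Real.exp (D.τ q.2)) _ p :=
    (t1.hasFDerivAt.comp p hasFDerivAt_snd).exp
  have a1 : DifferentiableAt ℝ α (fst ℝ E Y p) := hα.differentiable (by simp) _
  have a2 : DifferentiableAt ℝ (fun q => (α (fst ℝ E Y q)).comp (fst ℝ E Y)) p :=
    (a1.comp p (fst ℝ E Y).differentiableAt).clm_comp (differentiableAt_const _)
  rw [dF_congr e, dF_smul t2.differentiableAt a2, dF_clm _ a1, t2.fderiv, e.self_of_nhds]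
  simp [hw]

variable [FiniteDimensional ℝ E] [FiniteDimensional ℝ Y]

/-- the differential of the height on the lower level -/
theorem PD.Ext.dg_bot (h : D.Ext N d W g lam) (A : D.Amb α O) (hN : N ⊆ O)
    (hp : p ∈ Lev W g (-3)) {v : E × Y} (hv : v ∈ Tan W p) :
    fderiv ℝ g p v = 2 * fderiv ℝ D.τ p.2 v.2 := by
  obtain ⟨⟨a, b, c, -⟩, f⟩ := (h.lev_bot A hN).1 hp
  have t1 := finb_dτ A b
  have t2 : HasFDerivAt (fun q : E × Y => -1 + 2 * D.τ q.2) _ p :=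
    ((t1.hasFDerivAt.comp p hasFDerivAt_snd).const_mul 2).const_add (-1)
  have hn : ∀ᶠ q in 𝓝 p, D.τ q.2 < -1 / 2 :=
    continuous_snd.continuousAt.eventually
      (t1.continuousAt.eventually_lt continuousAt_const (by linarith))
  rw [Tan.fderiv_congr hp.1 (h.sg.differentiable (by simp) p) t2.differentiableAt ?_ hv, t2.fderiv]
  · simp
  · filter_upwards [self_mem_nhdsWithin, mem_nhdsWithin_of_mem_nhds hn] with q hq hq'
    obtain ⟨a', b', c'⟩ := h.mem q hq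
    rw [(h.eg q hq).self_of_nhds]
    rcases finb_cases A (hN a') b' c' with ⟨t, f', e⟩ | ⟨t, e⟩
    · rw [e, jj_of_one_le (by linarith)]
      ring
    · linarith

/-- the lower level is a graph over `N` -/
theorem PD.Ext.diff (h : D.Ext N d W g lam) (A : D.Amb α O) (hO : IsOpen O) (hN : N ⊆ O)
    (hc : IsClosed N) : ∃ ψ : E → E × Y, Diff (Lev W g (-3)) N Prod.fst ψ := by
  obtain ⟨k, hk, he, -⟩ := exists_smooth_nhdsSet hc hO hN (f := fun x => D.κ (x, -1))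
    (A.sκ.comp (contDiff_id.prodMk contDiff_const).contDiffOn fun x hx =>
      ⟨hx, show (-1 : ℝ) < 0 by norm_num⟩)
  have he' : ∀ x ∈ N, k x = D.κ (x, -1) := he.self_of_nhdsSet
  refine ⟨fun x => (x, k x), contDiff_fst, contDiff_id.prodMk hk,
    fun p hp => ((h.lev_bot A hN).1 hp).1.1, fun x hx => ?_, fun p hp => ?_, fun _ _ => rfl⟩
  · obtain ⟨a, b, c⟩ := A.κ₁ x (hN hx) (-1) (by norm_num)
    rw [← he' x hx] at a b c
    have := A.Φ₀ x (hN hx) _ a b (by linarith)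
    exact (h.lev_bot A hN).2 ⟨⟨hx, a, b, show D.Φ (k x) ≤ 0 by linarith⟩, c⟩
  · obtain ⟨⟨a, b, c, -⟩, f⟩ := (h.lev_bot A hN).1 hp
    have := A.κ₂ p.1 (hN a) p.2 b c (by linarith)
    rw [f, ← he' _ a] at this
    exact Prod.ext rfl this.symm

end Pool.Agent.Lib.MP_ccffa6_gt.P
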