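import Pool.Agent.Lib.MP_ccffa6_gt.P.PDef
import Pool.Agent.Lib.MP_ccffa6_gt.P.Cut

/-! The slab cut out of the inductive structure. -/

namespace Pool.Agent.Lib.MP_ccffa6_gt.P

open Set Filter Topology
open scoped ContDiff

variable {E Y F : Type} [NormedAddCommGroup E] [NormedSpace ℝ E] [NormedAddCommGroup Y]
  [NormedSpace ℝ Y] [NormedAddCommGroup F] [NormedSpace ℝ F]

/-- the compact part -/
def PD.C (D : PD E Y F) (N : Set E) : Set (E × Y) := D.X N ∩ {p | -1 ≤ D.τ p.2}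

/-- the height function: `0` on the convex end, `-3` on the concave end -/
noncomputable def PD.g (D : PD E Y F) (p : E × Y) : ℝ := D.Φ p.2 - jj (-2 * D.τ p.2)

/-- a manifold `W` around the compact part, with globally smooth height and form -/
structure PD.Ext (D : PD E Y F) (N : Set E) (d : ℕ) (W : Set (E × Y)) (g : E × Y → ℝ)
    (lam : Form1 (E × Y)) : Prop where
  sub : IsSub d W
  sg : ContDiff ℝ ∞ g
  sl : ContDiff ℝ ∞ lam
  sup : D.C N ⊆ W
  mem : ∀ p ∈ W, p.1 ∈ N ∧ p.2 ∈ D.V ∧ D.G p = 0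
  eg : ∀ p ∈ W, g =ᶠ[𝓝 p] D.g
  el : ∀ p ∈ W, lam =ᶠ[𝓝 p] D.lam
  tan : ∀ p ∈ W, Tan W p = D.T N p

end Pool.Agent.Lib.MP_ccffa6_gt.P
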