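import Pool.Agent.Lib.MP_ccffa6_gt.P.SB2

/-! Linear algebra of a contact space with a complex valued linear form. -/

namespace Pool.Agent.Lib.MP_ccffa6_gt.P

open Set ContinuousLinearMap

variable {X E : Type} [TopologicalSpace X] [NormedAddCommGroup E] [NormedSpace ℝ E]

/-- Reeb vector and the two dual vectors of `re l`, `im l` -/
structure CD (T : Submodule ℝ E) (o : Bil E) (a : F1 E) (l : E →L[ℝ] ℂ) (R X₁ X₂ : E) : Prop where
  alt : Alt o
  nd : Nd (T.prod ⊤) (Om o a)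
  hR : R ∈ T ∧ a R = 1 ∧ ∀ w ∈ T, o R w = 0
  h₁ : X₁ ∈ T ∧ a X₁ = 0 ∧ ∀ v ∈ T, a v = 0 → o X₁ v = (l v).re
  h₂ : X₂ ∈ T ∧ a X₂ = 0 ∧ ∀ v ∈ T, a v = 0 → o X₂ v = (l v).im

/-- the covector `re (conj n * l v)` -/
noncomputable def rc (n : ℂ) (l : E →L[ℝ] ℂ) : F1 E :=
  n.re • Complex.reCLM.comp l + n.im • Complex.imCLM.comp l

@[simp] theorem rc_apply (n : ℂ) (l : E →L[ℝ] ℂ) (v : E) :
    rc n l v = n.re * (l v).re + n.im * (l v).im := by simp [rc]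

/-- the family of forms on `E × ℝ` -/
noncomputable def Fm (o : Bil E) (a : F1 E) (l : E →L[ℝ] ℂ) (m : ℝ) (n : ℂ) (c : ℝ) (b : ℂ) :
    Bil (E × ℝ) := Om (o + m • bp l ar + wg (rc n l) a) (c • a + rc b l)

/-- its discriminant, `L = o X₁ X₂`, `θ = l R` -/
def Sc (L : ℝ) (θ : ℂ) (m : ℝ) (n : ℂ) (c : ℝ) (b : ℂ) : ℝ :=
  c * (1 + m * L) + b.re * (θ.re + n.im * L) + b.im * (θ.im - n.re * L)

/-- `(v, s) ↦ l v - s μ` -/
noncomputable def lm (l : E →L[ℝ] ℂ) (μ : ℂ) : E × ℝ →L[ℝ] ℂ :=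
  l.comp (fst ℝ E ℝ) - (snd ℝ E ℝ).smulRight μ

@[simp] theorem lm_apply (l : E →L[ℝ] ℂ) (μ : ℂ) (v : E × ℝ) : lm l μ v = l v.1 - v.2 • μ := by
  simp [lm]

variable {T : Submodule ℝ E} {o : Bil E} {a : F1 E} {l : E →L[ℝ] ℂ} {R X₁ X₂ : E}

theorem fm_zero (o : Bil E) (a : F1 E) (l : E →L[ℝ] ℂ) : Fm o a l 0 0 1 0 = Om o a :=
  ContinuousLinearMap.ext fun u => ContinuousLinearMap.ext fun v => by simp [Fm]

theorem alt_fm (h : Alt o) (a : F1 E) (l : E →L[ℝ] ℂ) (m : ℝ) (n : ℂ) (c : ℝ) (b : ℂ) :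
    Alt (Fm o a l m n c b) :=
  ((h.add ((alt_ar.bp l).smul m)).add (alt_wg _ _)).om _

theorem fm_lm (o : Bil E) (a : F1 E) (l : E →L[ℝ] ℂ) (c M : ℝ) (μ : ℂ) :
    Om o (c • a) + M • bp (lm l μ) ar = Fm o a l M 0 c (-(M • (Complex.I * μ))) :=
  ContinuousLinearMap.ext fun u => ContinuousLinearMap.ext fun v => by
    simp [Fm]
    ring

theorem nl_add {K : Set X} {f g : X → Bil E} (hf : ContinuousOn f K) (hg : ContinuousOn g K) :
    ContinuousOn (fun p => f p + g p) K :=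
  have := (inferInstance : IsTopologicalAddGroup (Bil E)).toContinuousAdd
  hf.add hg

theorem nl_smul {K : Set X} {f : X → ℝ} {g : X → Bil E} (hf : ContinuousOn f K)
    (hg : ContinuousOn g K) : ContinuousOn (fun p => f p • g p) K := hf.smul hg

theorem nl_rc {K : Set X} {l : X → E →L[ℝ] ℂ} {n : X → ℂ} (hl : ContinuousOn l K)
    (hn : ContinuousOn n K) : ContinuousOn (fun p => rc (n p) (l p)) K :=
  ((Complex.continuous_re.comp_continuousOn hn).smul (continuousOn_const.clm_comp hl)).add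
    ((Complex.continuous_im.comp_continuousOn hn).smul (continuousOn_const.clm_comp hl))

theorem continuousOn_fm {K : Set X} {o : X → Bil E} {a : X → F1 E} {l : X → E →L[ℝ] ℂ}
    {m c : X → ℝ} {n b : X → ℂ} (ho : ContinuousOn o K) (ha : ContinuousOn a K)
    (hl : ContinuousOn l K) (hm : ContinuousOn m K) (hn : ContinuousOn n K) (hc : ContinuousOn c K)
    (hb : ContinuousOn b K) :
    ContinuousOn (fun p => Fm (o p) (a p) (l p) (m p) (n p) (c p) (b p)) K := by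
  have h1 : ContinuousOn (fun p => m p • bp (l p) ar) K :=
    nl_smul hm (continuousOn_bp hl continuousOn_const)
  have h2 : ContinuousOn (fun p => c p • a p + rc (b p) (l p)) K := (hc.smul ha).add (nl_rc hl hb)
  exact continuousOn_om (nl_add (nl_add ho h1) (continuousOn_wg (nl_rc hl hn) ha)) h2

theorem continuousOn_lm {K : Set X} {l : X → E →L[ℝ] ℂ} {μ : X → ℂ} (hl : ContinuousOn l K)
    (hμ : ContinuousOn μ K) : ContinuousOn (fun p => lm (l p) (μ p)) K :=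
  (hl.clm_comp continuousOn_const).sub
    ((smulRightL ℝ (E × ℝ) ℂ (snd ℝ E ℝ)).continuous.comp_continuousOn hμ)

theorem nl_self (h : Alt o) (v : E) : o v v = 0 := by linarith [h v v]

theorem nl_dec (h : CD T o a l R X₁ X₂) {w : E} (hw : w ∈ T) :
    w - a w • R ∈ T ∧ a (w - a w • R) = 0 :=
  ⟨sub_mem hw (T.smul_mem _ h.hR.1), by simp [h.hR.2.1]⟩

theorem nl_R (h : CD T o a l R X₁ X₂) {w : E} (hw : w ∈ T) : o w R = 0 := by
  rw [h.alt, h.hR.2.2 w hw, neg_zero]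

theorem nl_X₁ (h : CD T o a l R X₁ X₂) {w : E} (hw : w ∈ T) :
    o w X₁ = a w * (l R).re - (l w).re := by
  have e := h.h₁.2.2 _ (nl_dec h hw).1 (nl_dec h hw).2
  simp only [map_sub, map_smul, nl_R h h.h₁.1, smul_eq_mul, mul_zero, sub_zero, Complex.sub_re,
    Complex.smul_re] at e
  rw [h.alt, e]
  ring

theorem nl_X₂ (h : CD T o a l R X₁ X₂) {w : E} (hw : w ∈ T) :
    o w X₂ = a w * (l R).im - (l w).im := by
  have e := h.h₂.2.2 _ (nl_dec h hw).1 (nl_dec h hw).2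
  simp only [map_sub, map_smul, nl_R h h.h₂.1, smul_eq_mul, mul_zero, sub_zero, Complex.sub_im,
    Complex.smul_im] at e
  rw [h.alt, e]
  ring

theorem nl_l (h : CD T o a l R X₁ X₂) :
    (l X₁).re = 0 ∧ (l X₁).im = -o X₁ X₂ ∧ (l X₂).re = o X₁ X₂ ∧ (l X₂).im = 0 :=
  ⟨(h.h₁.2.2 _ h.h₁.1 h.h₁.2.1).symm.trans (nl_self h.alt _),
    (h.h₂.2.2 _ h.h₁.1 h.h₁.2.1).symm.trans (h.alt _ _), (h.h₁.2.2 _ h.h₂.1 h.h₂.2.1).symm,
    (h.h₂.2.2 _ h.h₂.1 h.h₂.2.1).symm.trans (nl_self h.alt _)⟩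

/-- `o` is nondegenerate on `T ⊓ ker a` -/
theorem CD.xi (h : CD T o a l R X₁ X₂) {v : E} (hv : v ∈ T) (h0 : a v = 0)
    (e : ∀ w ∈ T, a w = 0 → o v w = 0) : v = 0 := by
  refine congrArg Prod.fst (h.nd (v, 0) ⟨hv, trivial⟩ fun w hw => ?_)
  have e1 := e _ (nl_dec h hw.1).1 (nl_dec h hw.1).2
  simp only [map_sub, map_smul, nl_R h hv, smul_zero, sub_zero] at e1
  simp [e1, h0]

/-- test a kernel vector with `X₁, X₂, R, (0, 1)` -/
theorem CD.nd_fm (h : CD T o a l R X₁ X₂) {m c : ℝ} {n b : ℂ}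
    (hS : Sc (o X₁ X₂) (l R) m n c b ≠ 0) : Nd (T.prod ⊤) (Fm o a l m n c b) := by
  rintro ⟨z, t⟩ ⟨hz, -⟩ e
  obtain ⟨l1, l2, l3, l4⟩ := nl_l h
  have e1 := e (X₁, 0) ⟨h.h₁.1, trivial⟩
  have e2 := e (X₂, 0) ⟨h.h₂.1, trivial⟩
  have e3 := e (R, 0) ⟨h.hR.1, trivial⟩
  have e4 := e (0, 1) ⟨T.zero_mem, trivial⟩
  simp only [Fm, Om_apply, add_apply, smul_apply, bp_apply, ar_apply, wg_apply, rc_apply,
    smul_eq_mul, nl_X₁ h hz, nl_X₂ h hz, nl_R h hz, l1, l2, l3, l4, h.h₁.2.1, h.h₂.2.1, h.hR.2.1,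
    map_zero] at e1 e2 e3 e4
  have ht : t = 0 := (mul_eq_zero.1 (show Sc (o X₁ X₂) (l R) m n c b * t = 0 by
    unfold Sc
    linear_combination (1 + m * o X₁ X₂) * e3 +
      (m * ((l R).im - n.re * o X₁ X₂) + (1 + m * o X₁ X₂) * n.re) * e1 +
      (-m * ((l R).re + n.im * o X₁ X₂) + (1 + m * o X₁ X₂) * n.im) * e2)).resolve_left hS
  subst ht
  have hr : a z = 0 := (mul_eq_zero.1 (show Sc (o X₁ X₂) (l R) m n c b * a z = 0 by
    unfold Sc
    linear_combination (-(1 + m * o X₁ X₂)) * e4 + b.re * e1 + b.im * e2)).resolve_left hS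
  rw [hr] at e1 e2 e3 e4
  have e5 : ((l R).im - n.re * o X₁ X₂) * (l z).re - ((l R).re + n.im * o X₁ X₂) * (l z).im = 0 := by
    linear_combination (-o X₁ X₂) * e3 - (l R).im * e1 + (l R).re * e2
  have h1 : (l z).re = 0 := (mul_eq_zero.1 (show Sc (o X₁ X₂) (l R) m n c b * (l z).re = 0 by
    unfold Sc
    linear_combination (-c) * e1 - ((l R).re + n.im * o X₁ X₂) * e4 + b.im * e5)).resolve_left hS
  have h2 : (l z).im = 0 := (mul_eq_zero.1 (show Sc (o X₁ X₂) (l R) m n c b * (l z).im = 0 by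
    unfold Sc
    linear_combination (-c) * e2 - ((l R).im - n.re * o X₁ X₂) * e4 - b.re * e5)).resolve_left hS
  refine Prod.ext (h.xi hz hr fun w hw h0 => ?_) rfl
  simpa [Fm, hr, h1, h2, h0] using e (w, 0) ⟨hw, trivial⟩

theorem nl_onto (h : CD T o a l R X₁ X₂) {c : ℝ} {μ : ℂ}
    (hD : c * o X₁ X₂ - (μ.re * (l R).im - μ.im * (l R).re) ≠ 0) : Onto (T.prod ⊤) (lm l μ) := by
  intro y
  obtain ⟨l1, l2, l3, l4⟩ := nl_l h
  obtain ⟨d, hd⟩ : ∃ d, d * (c * o X₁ X₂ - (μ.re * (l R).im - μ.im * (l R).re)) = 1 :=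
    ⟨_, inv_mul_cancel₀ hD⟩
  refine ⟨((d * c * y.re) • X₂ - (d * c * y.im) • X₁ - (d * (μ.re * y.im - μ.im * y.re)) • R,
    d * (y.re * (l R).im - y.im * (l R).re)), ⟨sub_mem (sub_mem (T.smul_mem _ h.h₂.1)
      (T.smul_mem _ h.h₁.1)) (T.smul_mem _ h.hR.1), trivial⟩, Complex.ext ?_ ?_⟩
  · simp only [lm_apply, map_sub, map_smul, Complex.sub_re, Complex.smul_re, smul_eq_mul, l1, l3]
    linear_combination y.re * hd
  · simp only [lm_apply, map_sub, map_smul, Complex.sub_im, Complex.smul_im, smul_eq_mul, l2, l4]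
    linear_combination y.im * hd

/-- a vector orthogonal to the kernel gives a covector `A re + B im`; test with four vectors -/
theorem CD.vert (h : CD T o a l R X₁ X₂) {c : ℝ} {μ : ℂ}
    (hD : c * o X₁ X₂ - ((starRingEnd ℂ) μ * l R).im ≠ 0) :
    Onto (T.prod ⊤) (lm l μ) ∧ Nd (kr (T.prod ⊤) (lm l μ)) (Om o (c • a)) := by
  replace hD : c * o X₁ X₂ - (μ.re * (l R).im - μ.im * (l R).re) ≠ 0 := by
    simpa [sub_eq_add_neg] using hD
  refine ⟨nl_onto h hD, ?_⟩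
  rintro ⟨z, t⟩ ⟨⟨hz, -⟩, hk⟩ e
  obtain ⟨l1, l2, l3, l4⟩ := nl_l h
  obtain ⟨p, hp, ep⟩ := nl_onto h hD 1
  obtain ⟨q, hq, eq⟩ := nl_onto h hD Complex.I
  obtain ⟨A, B, f⟩ : ∃ A B : ℝ, ∀ v ∈ T.prod (⊤ : Submodule ℝ ℝ),
      Om o (c • a) (z, t) v = (lm l μ v).re * A + (lm l μ v).im * B := by
    refine ⟨Om o (c • a) (z, t) p, Om o (c • a) (z, t) q, fun v hv => ?_⟩
    have e1 := e (v - (lm l μ v).re • p - (lm l μ v).im • q)
      ⟨sub_mem (sub_mem hv (Submodule.smul_mem _ _ hp)) (Submodule.smul_mem _ _ hq), by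
        change lm l μ _ = 0
        rw [map_sub, map_sub, map_smul, map_smul, ep, eq]
        apply Complex.ext <;> simp⟩
    rw [map_sub, map_sub, map_smul, map_smul, smul_eq_mul, smul_eq_mul] at e1
    linarith
  have k : l z - t • μ = 0 := (lm_apply l μ (z, t)).symm.trans hk
  have k1 : (l z).re = t * μ.re := by simpa [sub_eq_zero] using congrArg Complex.re k
  have k2 : (l z).im = t * μ.im := by simpa [sub_eq_zero] using congrArg Complex.im k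
  have e1 := f (X₁, 0) ⟨h.h₁.1, trivial⟩
  have e2 := f (X₂, 0) ⟨h.h₂.1, trivial⟩
  have e3 := f (R, 0) ⟨h.hR.1, trivial⟩
  have e4 := f (0, 1) ⟨T.zero_mem, trivial⟩
  simp only [Om_apply, smul_apply, lm_apply, smul_eq_mul, nl_X₁ h hz, nl_X₂ h hz, nl_R h hz, l1,
    l2, l3, l4, h.h₁.2.1, h.h₂.2.1, h.hR.2.1, map_zero, Complex.sub_re, Complex.sub_im,
    Complex.smul_re, Complex.smul_im, Complex.zero_re, Complex.zero_im, k1, k2] at e1 e2 e3 e4
  have hA : A = 0 := (mul_eq_zero.1 (show _ * A = 0 by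
    linear_combination (-c) * e2 - μ.im * e3 - (l R).im * e4)).resolve_left hD
  have hB : B = 0 := (mul_eq_zero.1 (show _ * B = 0 by
    linear_combination c * e1 + μ.re * e3 + (l R).re * e4)).resolve_left hD
  subst hA hB
  have ht : t = 0 := (mul_eq_zero.1 (show _ * t = 0 by
    linear_combination o X₁ X₂ * e3 + (l R).im * e1 - (l R).re * e2)).resolve_left hD
  have hr : a z = 0 := (mul_eq_zero.1 (show _ * a z = 0 by
    linear_combination (-o X₁ X₂) * e4 + μ.im * e1 - μ.re * e2)).resolve_left hD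
  subst ht
  refine Prod.ext (h.xi hz hr fun w hw h0 => ?_) rfl
  simpa [h0] using f (w, 0) ⟨hw, trivial⟩

theorem CD.bind (h : CD T o a l R X₁ X₂) (hL : o X₁ X₂ ≠ 0) :
    Onto T l ∧ Nd ((kr T l).prod ⊤) (Om o a) := by
  obtain ⟨h1, h2⟩ := h.vert (c := 1) (μ := 0) (by simpa using hL)
  rw [one_smul] at h2
  refine ⟨fun y => ?_, fun u hu e => h2 u ⟨⟨hu.1.1, trivial⟩, ?_⟩ fun v hv =>
    e v ⟨⟨hv.1.1, ?_⟩, trivial⟩⟩
  · obtain ⟨v, hv, e⟩ := h1 y
    exact ⟨v.1, hv.1, by simpa using e⟩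
  · change lm l 0 u = 0
    simpa using (show l u.1 = 0 from hu.1.2)
  · change l v.1 = 0
    simpa using (show lm l 0 v = 0 from hv.2)

theorem nl_dual [FiniteDimensional ℝ E] {K : Set X} {T : X → Submodule ℝ E} {o : X → Bil E}
    {a : X → F1 E} (cs : CS K T) (ho : ContinuousOn o K) (ha : ContinuousOn a K)
    (nd : ∀ p ∈ K, Nd ((T p).prod ⊤) (Om (o p) (a p))) {g : X → F1 (E × ℝ)}
    (hg : ContinuousOn g K) : ∃ u : X → E × ℝ, ContinuousOn u K ∧ ∀ p ∈ K, (u p).1 ∈ T p ∧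
      a p (u p).1 = -g p (0, 1) ∧ ∀ w ∈ T p, o p (u p).1 w + (u p).2 * a p w = g p (w, 0) := by
  have h1 : ∀ p, ∃ u : E × ℝ, p ∈ K → u ∈ (T p).prod ⊤ ∧
      ∀ v ∈ (T p).prod ⊤, Om (o p) (a p) u v = g p v := fun p => by
    by_cases hp : p ∈ K
    · obtain ⟨u, hu⟩ := (nd p hp).exists_dual (g p)
      exact ⟨u, fun _ => hu⟩
    · exact ⟨0, fun h => (hp h).elim⟩
  choose u hu using h1
  refine ⟨u, (cs.prod (cs_top K)).dual (continuousOn_om ho ha) nd hg hu, fun p hp =>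
    ⟨(hu p hp).1.1, ?_, fun w hw => ?_⟩⟩
  · rw [← (hu p hp).2 (0, 1) ⟨(T p).zero_mem, trivial⟩]
    simp
  · rw [← (hu p hp).2 (w, 0) ⟨hw, trivial⟩]
    simp

/-- the three vectors are first components of dual vectors for `Om` -/
theorem exists_cd [FiniteDimensional ℝ E] {K : Set X} {T : X → Submodule ℝ E} {o : X → Bil E}
    {a : X → F1 E} {l : X → E →L[ℝ] ℂ} (cs : CS K T) (ho : ContinuousOn o K)
    (ha : ContinuousOn a K) (hl : ContinuousOn l K) (alt : ∀ p ∈ K, Alt (o p))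
    (nd : ∀ p ∈ K, Nd ((T p).prod ⊤) (Om (o p) (a p))) :
    ∃ R X₁ X₂ : X → E, ContinuousOn R K ∧ ContinuousOn X₁ K ∧ ContinuousOn X₂ K ∧
      ∀ p ∈ K, CD (T p) (o p) (a p) (l p) (R p) (X₁ p) (X₂ p) := by
  obtain ⟨u, hu, eu⟩ := nl_dual cs ho ha nd (g := fun _ => -snd ℝ E ℝ) continuousOn_const
  obtain ⟨v, hv, ev⟩ := nl_dual cs ho ha nd
    (g := fun p => Complex.reCLM.comp ((l p).comp (fst ℝ E ℝ)))
    (continuousOn_const.clm_comp (hl.clm_comp continuousOn_const))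
  obtain ⟨w, hw, ew⟩ := nl_dual cs ho ha nd
    (g := fun p => Complex.imCLM.comp ((l p).comp (fst ℝ E ℝ)))
    (continuousOn_const.clm_comp (hl.clm_comp continuousOn_const))
  refine ⟨fun p => (u p).1, fun p => (v p).1, fun p => (w p).1, hu.fst, hv.fst, hw.fst,
    fun p hp => ⟨alt p hp, nd p hp, ?_, ⟨(ev p hp).1, by simpa using (ev p hp).2.1, fun y hy h0 => by
      simpa [h0] using (ev p hp).2.2 y hy⟩, (ew p hp).1, by simpa using (ew p hp).2.1,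
      fun y hy h0 => by simpa [h0] using (ew p hp).2.2 y hy⟩⟩
  obtain ⟨h1, h2, h3⟩ := eu p hp
  replace h2 : a p (u p).1 = 1 := by simpa using h2
  have h4 : (u p).2 = 0 := by simpa [h2, nl_self (alt p hp)] using h3 _ h1
  exact ⟨h1, h2, fun y hy => by simpa [h4] using h3 y hy⟩

end Pool.Agent.Lib.MP_ccffa6_gt.P
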