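import Pool.Agent.Lib.MP_ccffa6_gt.P.PDef
import Pool.Agent.Lib.MP_ccffa6_gt.P.NL
import Pool.Agent.Lib.MP_ccffa6_gt.K.Forms
import Pool.Agent.Lib.MP_ccffa6_gt.Iface

/-! Induction on the dimension. -/

namespace Pool.Agent.Lib.MP_ccffa6_gt.P

open Set ContinuousLinearMap
open scoped ContDiff

variable {E : Type} [NormedAddCommGroup E] [NormedSpace ℝ E] [FiniteDimensional ℝ E]
  {N O : Set E} {α : Form1 E} {s : E → ℂ} {η : ℝ}

/-- `IsSub.exists_proj` with `A = N` -/
theorem cs_tan {d : ℕ} (h : Closed d N) : CS N (Tan N) := by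
  obtain ⟨P, U, hP, -, hU, h⟩ := h.sub.exists_proj h.cpt subset_rfl
  exact ⟨P, hP.continuous.continuousOn, fun x hx => h x ⟨hx, hU hx⟩⟩

omit [FiniteDimensional ℝ E] in
/-- `Y = ℝ`, `F = Fin 0 → ℝ`, `V = univ`, `G = 0`, `τ = id`, `Φ = -1`,
`lam (x, y) = exp y • (α x).comp fst`, `κ (x, a) = a`, `o = 0`; `X ∅ = ∅` -/
theorem hasPD_empty (hα : ContDiff ℝ ∞ α) (O : Set E) : HasPD α O ∅ := by
  refine ⟨ℝ, Fin 0 → ℝ, inferInstance, inferInstance, inferInstance, inferInstance, inferInstance,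
    inferInstance, ⟨univ, fun _ => 0, id, fun _ => -1,
      fun p => Real.exp p.2 • (α p.1).comp (fst ℝ E ℝ), fun p => p.2, 0⟩, ?_, ?_⟩
  · exact
      { opn := isOpen_univ
        rk := by simp
        alt := fun u v => by simp
        ndo := fun u _ _ => Subsingleton.elim _ _
        sG := contDiffOn_const
        sτ := contDiffOn_id
        sΦ := contDiffOn_const
        slam := ((Real.contDiff_exp.comp contDiff_snd).smul
          ((hα.comp contDiff_fst).clm_comp contDiff_const)).contDiffOn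
        sκ := contDiff_snd.contDiffOn
        κ₁ := fun _ _ _ _ => ⟨trivial, rfl, rfl⟩
        κ₂ := fun _ _ _ _ _ _ => rfl
        inj := fun _ _ y _ _ _ v _ e => by simpa using e
        lam₀ := fun _ _ _ _ => rfl
        Φ₁ := fun _ _ => le_rfl
        Φ₀ := fun _ _ _ _ _ _ => rfl }
  · exact
      { cpt := fun a => by
          refine (Set.Finite.subset finite_empty ?_).isCompact
          exact fun p hp => hp.1.1
        onto := fun p hp => hp.1.elim
        nd := fun p hp => hp.1.elim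
        out := fun p hp => hp.1.elim
        hyp := fun γ γ' T h => (h.mem 0).1.1.elim
        si := ⟨fun _ => 0, continuousOn_const, fun p hp => hp.1.1.elim, fun p hp => hp.1.1.elim⟩ }

/-- `exists_cd` with `K = N` (`cs_tan`, `contDiff_dF`, `alt_dF`, `symz_eq`); the fields of `CD` are
`IsReeb` and `IsHam`, so `OB` gives the sign -/
theorem exists_cd_pos {n : ℕ} (h : CMan n N α) (hs : OB N α s η) {x : E} (hx : x ∈ N)
    (h0 : s x = 0) : ∃ R X₁ X₂ : E, CD (Tan N x) (dF α x) (α x) (fderiv ℝ s x) R X₁ X₂ ∧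
      0 < dF α x X₁ X₂ := by
  obtain ⟨R, X₁, X₂, -, -, -, e⟩ := exists_cd (K := N) (T := Tan N) (o := dF α) (a := α)
    (l := fderiv ℝ s) (cs_tan h.cl) (contDiff_dF h.sm).continuous.continuousOn
    h.sm.continuous.continuousOn (hs.1.continuous_fderiv (by simp)).continuousOn
    (fun p _ => alt_dF α p) fun p hp => (h.nd p hp).2
  refine ⟨R x, X₁ x, X₂ x, e x hx, ?_⟩
  refine (hs.2.2 x hx (R x) (X₁ x) (X₂ x) (e x hx).hR (e x hx).h₁ (e x hx).h₂).1 ?_
  rw [h0, norm_zero]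
  exact hs.2.1.le

/-- `Tan N x` is a line (`IsSub.finrank`) that contains `R` with `α R = 1`, so `X₁ = 0` -/
theorem bind_zero (h : CMan 0 N α) (hs : OB N α s η) : N ∩ s ⁻¹' {0} = ∅ := by
  refine eq_empty_of_forall_notMem fun x hx => ?_
  obtain ⟨R, X₁, X₂, e, pos⟩ := exists_cd_pos h hs hx.1 hx.2
  have hR : (⟨R, e.hR.1⟩ : Tan N x) ≠ 0 := fun h0 => by
    have h1 : R = 0 := congrArg Subtype.val h0
    have h2 := e.hR.2.1
    rw [h1, map_zero] at h2
    exact zero_ne_one h2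
  obtain ⟨c, hc⟩ := (finrank_eq_one_iff_of_nonzero' _ hR).1 (h.cl.sub.finrank hx.1) ⟨X₁, e.h₁.1⟩
  have h1 : c • R = X₁ := congrArg Subtype.val hc
  have h2 := e.h₁.2.1
  rw [← h1, map_smul, e.hR.2.1, smul_eq_mul, mul_one] at h2
  rw [← h1, h2, zero_smul, map_zero] at pos
  exact lt_irrefl _ pos

/-- `CD.bind`, `IsSub.level`, `Chart.level` (`Complex.finrank_real_complex`) -/
theorem bind_succ {n : ℕ} (h : CMan (n + 1) N α) (hs : OB N α s η) :
    CMan n (N ∩ s ⁻¹' {0}) α ∧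
      ∀ x ∈ N, s x = 0 → Tan (N ∩ s ⁻¹' {0}) x = kr (Tan N x) (fderiv ℝ s x) := by
  have hd : 2 * (n + 1) + 1 = 2 * n + 1 + Module.finrank ℝ ℂ := by
    rw [Complex.finrank_real_complex]; ring
  have hb : ∀ x ∈ N, s x = 0 → Onto (Tan N x) (fderiv ℝ s x) ∧
      Nd ((kr (Tan N x) (fderiv ℝ s x)).prod ⊤) (Om (dF α x) (α x)) := fun x hx h0 => by
    obtain ⟨R, X₁, X₂, e, pos⟩ := exists_cd_pos h hs hx h0
    exact e.bind pos.ne'
  have ht : ∀ x ∈ N, s x = 0 → Tan (N ∩ s ⁻¹' {0}) x = kr (Tan N x) (fderiv ℝ s x) :=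
    fun x hx h0 => Submodule.ext fun v =>
      (Chart.level h.cl.sub hs.1 hd hx h0 (hb x hx h0).1).2 v
  refine ⟨⟨⟨h.cl.sub.level hs.1 hd fun x hx h0 => (hb x hx h0).1,
    h.cl.cpt.inter_right (isClosed_singleton.preimage hs.1.continuous)⟩, h.sm, fun x hx => ?_⟩, ht⟩
  refine ⟨fun u _ => ?_, ?_⟩
  · have e := (alt_dF α x).om (α x) u u
    rw [symz_eq]
    linarith
  · have e := (hb x hx.1 hx.2).2
    rw [← ht x hx.1 hx.2] at e
    exact e

/-- induction on `n`, generalizing `N` -/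
theorem hasPD_of (hS : StepStmt E) (hG : ∀ n, GStmt n) (hb : Bornology.IsBounded O)
    (ho : IsOpen O) (n : ℕ) (h : CMan n N α) (hN : N ⊆ O) : HasPD α O N := by
  induction n generalizing N with
  | zero =>
    obtain ⟨s, η, hs⟩ := hG 0 E N α h
    have e := bind_zero h hs
    refine hS α O N s η h.sm hb ho hN h.cl.cpt (cs_tan h.cl) (fun x hx => (h.nd x hx).2) hs
      (fun x hx h0 => ?_) ?_
    · exact (e.subset ⟨hx, h0⟩).elim
    · rw [e]
      exact hasPD_empty h.sm O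
  | succ n ih =>
    obtain ⟨s, η, hs⟩ := hG (n + 1) E N α h
    obtain ⟨h1, h2⟩ := bind_succ h hs
    exact hS α O N s η h.sm hb ho hN h.cl.cpt (cs_tan h.cl) (fun x hx => (h.nd x hx).2) hs h2
      (ih h1 (inter_subset_left.trans hN))

end Pool.Agent.Lib.MP_ccffa6_gt.P
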