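import Pool.Agent.Lib.MP_ccffa6_gt.P.MDef

/-! Functions of `(a, ζ)`: smoothness and zones. -/

namespace Pool.Agent.Lib.MP_ccffa6_gt.P

open Set ContinuousLinearMap
open scoped ContDiff

namespace Dat

variable {E : Type} [NormedAddCommGroup E] [NormedSpace ℝ E] {d : Dat E} {q : ℝ × ℂ} {a : ℝ}

theorem contDiff_z (d : Dat E) : ContDiff ℝ ∞ d.z :=
  (((contDiff_fst.add contDiff_const).neg.div_const _).sub contDiff_const).prodMk
    ((contDiff_snd.sub contDiff_const).const_smul d.e)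
theorem fderiv_z (d : Dat E) (q v : ℝ × ℂ) : fderiv ℝ d.z q v = (-v.1 / d.k, d.e • v.2) := by
  have h1 : HasFDerivAt (fun q : ℝ × ℂ => d.rho q.1) ((-(d.k)⁻¹) • fst ℝ ℝ ℂ) q := by
    have h := ((hasFDerivAt_fst (𝕜 := ℝ) (p := q)).const_smul (-(d.k)⁻¹)).add_const
      (-2 / d.k - 1 / 2)
    refine h.congr_of_eventuallyEq (Filter.Eventually.of_forall fun y => ?_)
    simp only [rho, Pi.smul_apply, smul_eq_mul]
    ring
  have h2 : HasFDerivAt (fun q : ℝ × ℂ => d.e • (q.2 - 2)) (d.e • snd ℝ ℝ ℂ) q :=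
    ((hasFDerivAt_snd (𝕜 := ℝ) (p := q)).sub_const 2).const_smul d.e
  have h3 : HasFDerivAt d.z _ q := h1.prodMk h2
  rw [h3.fderiv]
  refine Prod.ext ?_ rfl
  show -(d.k)⁻¹ * v.1 = -v.1 / d.k
  ring
theorem isOpen_U (d : Dat E) : IsOpen d.U :=
  (isOpen_lt continuous_const continuous_snd.norm).inter
    (isOpen_PD0.preimage d.contDiff_z.continuous)
theorem continuous_t (d : Dat E) : Continuous d.t := continuous_pt.comp d.contDiff_z.continuous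
theorem contDiff_u (d : Dat E) : ContDiff ℝ ∞ d.u :=
  contDiff_const.add (contDiff_jj.comp (contDiff_id.sub contDiff_const))
theorem contDiffOn_t (d : Dat E) : ContDiffOn ℝ ∞ d.t d.U :=
  contDiffOn_pt.comp d.contDiff_z.contDiffOn fun _ h => h.2

theorem m1_contDiffOn_pwz (d : Dat E) : ContDiffOn ℝ ∞ (fun q => pw (d.z q)) d.U :=
  contDiffOn_pw.comp d.contDiff_z.contDiffOn fun _ h => h.2

theorem m1_contDiff_st : ContDiff ℝ ∞ fun q : ℝ × ℂ => st (-1 - q.1) :=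
  contDiff_st.comp (contDiff_const.sub contDiff_fst)

theorem contDiffOn_w (d : Dat E) : ContDiffOn ℝ ∞ d.w d.U :=
  m1_contDiff_st.contDiffOn.smul d.m1_contDiffOn_pwz
theorem contDiff_kap (d : Dat E) : ContDiff ℝ ∞ fun p : ℂ × ℝ => d.kap p.1 p.2 := by
  have h : ContDiff ℝ ∞ fun p : ℂ × ℝ => d.t₀ * Real.exp p.2 :=
    contDiff_const.mul (Real.contDiff_exp.comp contDiff_snd)
  exact (contDiff_const.sub (contDiff_const.mul
    ((((contDiff_fst.norm_sq ℝ).sub (h.pow 2)).div_const 2).add contDiff_const))).prodMk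
    (contDiff_const.add ((h.div_const d.e).smul contDiff_fst))
theorem t_pos (h : q ∈ d.U) : 0 < d.t q := mem_PD0_iff.1 h.2
theorem ne_zero_of_U (h : q ∈ d.U) : q.2 ≠ 0 := norm_pos_iff.1 (one_pos.trans h.1)

theorem m1_deriv_u (d : Dat E) (a : ℝ) : deriv d.u a = deriv jj (a - (d.a₂ - 1)) := by
  have h : HasDerivAt d.u (deriv jj (a - (d.a₂ - 1))) a :=
    ((((contDiff_jj.differentiable (by simp)) (a - (d.a₂ - 1))).hasDerivAt).comp_sub_const
      a (d.a₂ - 1)).const_add (d.a₂ - 1)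
  exact h.deriv

theorem deriv_u_nonneg (d : Dat E) (a : ℝ) : 0 ≤ deriv d.u a := by
  rw [m1_deriv_u]
  exact deriv_jj_nonneg _
theorem u_hi (h : d.a₂ ≤ a) : d.u a = a ∧ deriv d.u a = 1 := by
  rw [m1_deriv_u, u, jj_of_one_le (by linarith), deriv_jj_of_one_le (by linarith)]
  exact ⟨by ring, rfl⟩
theorem u_lo (h : a ≤ d.a₂ - 1) : deriv d.u a = 0 := by
  rw [m1_deriv_u, deriv_jj_of_nonpos (by linarith)]

theorem m1_fderiv_comp {F : Type} [NormedAddCommGroup F] [NormedSpace ℝ F] {f : ℝ × ℂ → F}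
    (hf : ContDiffOn ℝ ∞ f PD0) (hU : q ∈ d.U) :
    HasFDerivAt (fun q => f (d.z q)) ((fderiv ℝ f (d.z q)).comp (fderiv ℝ d.z q)) q :=
  ((hf.contDiffAt (isOpen_PD0.mem_nhds hU.2)).differentiableAt (by simp)).hasFDerivAt.comp q
    ((d.contDiff_z.differentiable (by simp)) q).hasFDerivAt

theorem m1_fderiv_w (hU : q ∈ d.U) (h : deriv st (-1 - q.1) = 0) :
    fderiv ℝ d.w q = st (-1 - q.1) • (fderiv ℝ pw (d.z q)).comp (fderiv ℝ d.z q) := by
  have h1 : HasFDerivAt (fun q : ℝ × ℂ => st (-1 - q.1)) (0 : ℝ × ℂ →L[ℝ] ℝ) q := by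
    have h2 := (((contDiff_st.differentiable (by simp)) (-1 - q.1)).hasDerivAt).comp_hasFDerivAt q
      ((hasFDerivAt_fst (𝕜 := ℝ) (p := q)).const_sub (-1))
    rw [h, zero_smul] at h2
    exact h2
  have h3 : HasFDerivAt d.w _ q := h1.smul (m1_fderiv_comp contDiffOn_pw hU)
  rw [h3.fderiv]
  ext v <;> simp

/-- product rule, `st 1 = 1`, `deriv st 1 = 0` -/
theorem w_lo (hU : q ∈ d.U) (h : q.1 ≤ -2) : d.w q = pw (d.z q) ∧
    ∀ v, fderiv ℝ d.w q v = fderiv ℝ pw (d.z q) (fderiv ℝ d.z q v) := by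
  have h1 : (1 : ℝ) ≤ -1 - q.1 := by linarith
  have h2 : st (-1 - q.1) = 1 := Real.smoothTransition.one_of_one_le h1
  refine ⟨by rw [w, h2, one_smul], fun v => ?_⟩
  rw [m1_fderiv_w hU (deriv_st_of_one_le h1), h2, one_smul]
  rfl
theorem w_hi (hU : q ∈ d.U) (h : -1 ≤ q.1) : d.w q = 0 ∧ fderiv ℝ d.w q = 0 := by
  have h1 : -1 - q.1 ≤ 0 := by linarith
  have h2 : st (-1 - q.1) = 0 := Real.smoothTransition.zero_of_nonpos h1
  refine ⟨by rw [w, h2, zero_smul], ?_⟩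
  rw [m1_fderiv_w hU (deriv_st_of_nonpos h1), h2]
  ext v <;> simp

theorem Num.contDiffOn_l (n : d.Num) : ContDiffOn ℝ ∞ d.l d.U :=
  (d.contDiffOn_t.div_const d.t₀).log fun _ h => (div_pos (t_pos h) n.t₀).ne'
theorem Num.t_eq (n : d.Num) (h : q ∈ d.U) : d.t q = d.t₀ * Real.exp (d.l q) := by
  rw [l, Real.exp_log (div_pos (t_pos h) n.t₀), mul_div_cancel₀ _ n.t₀.ne']
theorem Num.fderiv_t (n : d.Num) (h : q ∈ d.U) (v : ℝ × ℂ) :
    fderiv ℝ d.t q v = d.t q * fderiv ℝ d.l q v := by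
  have hn := d.isOpen_U.mem_nhds h
  have h1 := ((n.contDiffOn_l.contDiffAt hn).differentiableAt (by simp)).hasFDerivAt
  have h2 : HasFDerivAt d.t _ q := (h1.exp.const_mul d.t₀).congr_of_eventuallyEq (by
    filter_upwards [hn] with y hy using n.t_eq hy)
  rw [h2.fderiv, n.t_eq h]
  simp only [smul_apply, smul_eq_mul]
  ring
theorem Num.tau_rho (n : d.Num) (a : ℝ) : d.tau (d.rho a) = a := by
  have := n.k.ne'
  rw [tau, rho]
  field_simp
  ring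
theorem Num.rho_tau (n : d.Num) (r : ℝ) : d.rho (d.tau r) = r := by
  have := n.k.ne'
  rw [tau, rho]
  field_simp
  ring
theorem Num.a₂_lt (n : d.Num) : d.a₂ < -2 := by
  have h : 0 < d.k * (d.η ^ 2 / 8 + 1 / 2) := mul_pos n.k (by positivity)
  rw [a₂, tau]
  linarith

theorem m1_sq (d : Dat E) (q : ℝ × ℂ) : 1 + 2 * ((q.1 + 2) / d.k) ≤ d.t q ^ 2 := by
  have h := neg_le_pt_sq (d.z q)
  have h1 : (d.z q).1 = -((q.1 + 2) / d.k) - 1 / 2 := by
    rw [← neg_div]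
    rfl
  rw [h1] at h
  have h2 : d.t q = pt (d.z q) := rfl
  rw [h2]
  linarith

theorem m1_t_nonneg (d : Dat E) (q : ℝ × ℂ) : 0 ≤ d.t q := Real.sqrt_nonneg _

/-- `neg_le_pt_sq` and `i₃` -/
theorem Num.hi (n : d.Num) (h : -2 ≤ q.1) : 1 ≤ d.t q ∧ 3 ≤ d.l q := by
  have h1 := d.m1_sq q
  have h2 : 0 ≤ (q.1 + 2) / d.k := div_nonneg (by linarith) n.k.le
  have h3 : 1 ≤ d.t q := by
    by_contra h4
    nlinarith [d.m1_t_nonneg q, not_le.1 h4]
  refine ⟨h3, ?_⟩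
  rw [l, Real.le_log_iff_exp_le (div_pos (one_pos.trans_le h3) n.t₀), le_div_iff₀ n.t₀]
  linarith [n.i₃]
theorem Num.hi_mem (n : d.Num) (h : -2 ≤ q.1) (h' : 1 < ‖q.2‖) : q ∈ d.U :=
  ⟨h', mem_PD0_iff.2 (one_pos.trans_le (n.hi h).1)⟩
theorem Num.lo (n : d.Num) (hU : q ∈ d.U) (h : d.l q ≤ 3) : q.1 ≤ -2 := by
  by_contra h0
  have h1 := d.m1_sq q
  have h2 : 0 < (q.1 + 2) / d.k := div_pos (by linarith [not_le.1 h0]) n.k
  have h3 : d.t q ≤ 1 := by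
    rw [n.t_eq hU]
    exact (mul_le_mul_of_nonneg_left (Real.exp_le_exp.2 h) n.t₀.le).trans n.i₃
  nlinarith [d.m1_t_nonneg q]

/-- `fderiv_par` at `d.z q` for the vector `fderiv ℝ d.z q v` -/
theorem Num.col_d (n : d.Num) (hU : q ∈ d.U) (h : q.1 ≤ -2) (v : ℝ × ℂ) :
    v.1 = -d.k * (((starRingEnd ℂ) (d.w q) * fderiv ℝ d.w q v).re - d.t q ^ 2 * fderiv ℝ d.l q v) ∧
    d.e • v.2 = (d.t q * fderiv ℝ d.l q v) • d.w q + d.t q • fderiv ℝ d.w q v := by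
  obtain ⟨h1, h2⟩ := fderiv_par hU.2 (fderiv ℝ d.z q v)
  obtain ⟨h3, h4⟩ := w_lo hU h
  have h5 : fderiv ℝ pt (d.z q) (fderiv ℝ d.z q v) = d.t q * fderiv ℝ d.l q v := by
    rw [← n.fderiv_t hU v]
    have h6 : HasFDerivAt d.t _ q := m1_fderiv_comp contDiffOn_pt hU
    rw [h6.fderiv]
    rfl
  have h7 : pt (d.z q) = d.t q := rfl
  rw [h5, ← h4, ← h3, h7, fderiv_z] at h1 h2
  refine ⟨?_, h1⟩
  have hk := n.k.ne'
  have h8 : -v.1 / d.k = ((starRingEnd ℂ) (d.w q) * fderiv ℝ d.w q v).re -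
    d.t q * (d.t q * fderiv ℝ d.l q v) := h2
  rw [div_eq_iff hk] at h8
  linear_combination -h8
theorem Num.col_pos (n : d.Num) (hU : q ∈ d.U) (h : q.1 ≤ -2) :
    q.2 - 2 = (d.t q / d.e) • d.w q := by
  have h1 : d.t q • d.w q = d.e • (q.2 - 2) := by
    rw [(w_lo hU h).1]
    exact pt_smul_pw hU.2
  rw [div_eq_inv_mul, mul_smul, h1, smul_smul, inv_mul_cancel₀ n.e.ne', one_smul]
theorem Num.col_inj (n : d.Num) (hU : q ∈ d.U) (h : q.1 ≤ -2) {v : ℝ × ℂ}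
    (h₁ : fderiv ℝ d.w q v = 0) (h₂ : fderiv ℝ d.l q v = 0) : v = 0 := by
  obtain ⟨h1, h2⟩ := n.col_d hU h v
  rw [h₁, h₂] at h1 h2
  refine Prod.ext (by simpa using h1) ?_
  simpa [n.e.ne'] using h2
/-- an injective linear map `ℝ × ℂ → ℂ × ℝ` is onto -/
theorem Num.col_onto (n : d.Num) (hU : q ∈ d.U) (h : q.1 ≤ -2) (c : ℂ) (b : ℝ) :
    ∃ v, fderiv ℝ d.w q v = c ∧ fderiv ℝ d.l q v = b := by
  let L : (ℝ × ℂ) →ₗ[ℝ] ℂ × ℝ :=
    (fderiv ℝ d.w q).toLinearMap.prod (fderiv ℝ d.l q).toLinearMap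
  have h1 : Function.Injective L := by
    rw [injective_iff_map_eq_zero]
    intro v hv
    exact n.col_inj hU h (congrArg Prod.fst hv) (congrArg Prod.snd hv)
  have h2 : Module.finrank ℝ (ℝ × ℂ) = Module.finrank ℝ (ℂ × ℝ) := by
    rw [Module.finrank_prod, Module.finrank_prod, add_comm]
  obtain ⟨v, hv⟩ := (LinearMap.injective_iff_surjective_of_finrank_eq_finrank h2).1 h1 (c, b)
  exact ⟨v, congrArg Prod.fst hv, congrArg Prod.snd hv⟩

end Dat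

end Pool.Agent.Lib.MP_ccffa6_gt.P
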