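import Pool.Agent.Lib.MP_ccffa6_gt.P.M1

/-! The collar parametrisation, bounds, compactness, continuity. -/

namespace Pool.Agent.Lib.MP_ccffa6_gt.P

open Set ContinuousLinearMap
open scoped ContDiff

namespace Dat

variable {E : Type} [NormedAddCommGroup E] [NormedSpace ℝ E] {d : Dat E} {q : ℝ × ℂ}

theorem m1b_z (n : d.Num) (hp : pp q.2 ^ 2 ≤ 1) : ‖(d.z q).2‖ ≤ 5 * d.e := by
  have h1 := norm_sub_le q.2 2
  rw [Complex.norm_two] at h1
  rw [z, norm_smul, Real.norm_of_nonneg n.e.le]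
  nlinarith [(norm_of_pp hp).2, n.e]

theorem m1b_dz (d : Dat E) (q : ℝ × ℂ) : fderiv ℝ d.z q (1, 0) = -(d.k⁻¹ • (1, 0)) := by
  simp [fderiv_z, neg_div]

theorem m1b_dF (h : d.Ok) : Continuous (dF d.α) :=
  continuousOn_univ.1 (continuousOn_dF isOpen_univ (h.sα.of_le (by simp)).contDiffOn)

theorem m1b_fd {F : Type} [NormedAddCommGroup F] [NormedSpace ℝ F] {f : ℝ × ℂ → F}
    (h : ContDiffOn ℝ ∞ f d.U) : ContinuousOn (fun p : E × ℝ × ℂ => fderiv ℝ f p.2) d.MX :=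
  (h.continuousOn_fderiv_of_isOpen d.isOpen_U (by simp)).comp continuousOn_snd fun _ hp => hp.2.1

theorem m1b_du (d : Dat E) : Continuous (deriv d.u) := d.contDiff_u.continuous_deriv (by simp)

theorem Num.kap_mem (n : d.Num) {c : ℂ} {b : ℝ} (hc : ‖c‖ ≤ d.S) (hb : b ≤ 3) :
    d.kap c b ∈ d.U ∧ d.w (d.kap c b) = c ∧ d.l (d.kap c b) = b ∧ ‖(d.kap c b).2 - 2‖ ≤ 1 / 8 := by
  have ht : 0 < d.t₀ * Real.exp b := mul_pos n.t₀ (Real.exp_pos b)
  have he := n.e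
  have h1 : d.z (d.kap c b) = ((‖c‖ ^ 2 - (d.t₀ * Real.exp b) ^ 2) / 2, (d.t₀ * Real.exp b) • c) := by
    rw [z, kap, n.rho_tau, add_sub_cancel_left, smul_smul, mul_div_cancel₀ _ he.ne']
  obtain ⟨h2, h3, h4⟩ := par_inv ht c
  rw [← h1] at h2 h3 h4
  have h5 : ‖(d.kap c b).2 - 2‖ ≤ 1 / 8 := by
    have h6 : d.t₀ * Real.exp b * ‖c‖ ≤ d.t₀ * Real.exp 3 * d.S := by
      have := n.t₀
      gcongr
    rw [kap, add_sub_cancel_left, norm_smul, Real.norm_of_nonneg (div_pos ht he).le,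
      div_mul_eq_mul_div, div_le_iff₀ he]
    linarith [n.i₄]
  have hU : d.kap c b ∈ d.U := ⟨by
    have h6 := norm_sub_norm_le 2 (d.kap c b).2
    rw [norm_sub_rev, Complex.norm_two] at h6
    linarith, h2⟩
  have h6 : d.l (d.kap c b) = b := by
    rw [l, t, h3, mul_div_cancel_left₀ _ n.t₀.ne', Real.log_exp]
  exact ⟨hU, (w_lo hU (n.lo hU (h6.trans_le hb))).1.trans h4, h6, h5⟩

theorem Num.kap_eq (n : d.Num) (hU : q ∈ d.U) (h : d.l q ≤ 3) : q = d.kap (d.w q) (d.l q) := by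
  have h1 := n.lo hU h
  have h2 : ‖d.w q‖ ^ 2 = d.t q ^ 2 + 2 * d.rho q.1 := (w_lo hU h1).1 ▸ norm_pw_sq hU.2
  rw [kap, ← n.t_eq hU, ← n.col_pos hU h1, h2, add_sub_cancel_left, mul_div_cancel_left₀ _ two_ne_zero,
    n.tau_rho, add_sub_cancel]

theorem Num.col_near (n : d.Num) (hU : q ∈ d.U) (h : d.l q ≤ 3) (hS : ‖d.w q‖ ≤ d.S) :
    ‖q.2 - 2‖ ≤ 1 / 8 :=
  (congrArg (fun q : ℝ × ℂ => ‖q.2 - 2‖) (n.kap_eq hU h)).trans_le (n.kap_mem hS h).2.2.2

theorem Num.small (n : d.Num) (hU : q ∈ d.U) (hp : pp q.2 ^ 2 ≤ 1) (h : d.a₂ - 1 < q.1) :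
    ‖d.w q‖ ≤ d.η := by
  have hk := n.k
  have h1 : d.rho q.1 ≤ d.η ^ 2 / 4 := by
    rw [a₂, tau] at h
    rw [rho, sub_le_iff_le_add, div_le_iff₀ hk]
    nlinarith [n.i₅]
  have h2 := norm_pw_sq_le hU.2
  have h3 : max (d.z q).1 0 ≤ d.η ^ 2 / 4 := max_le h1 (by positivity)
  have h4 : ‖pw (d.z q)‖ ≤ d.η :=
    le_of_sq_le_sq (by linarith [m1b_z n hp, n.i₁]) n.η.le
  rw [w, norm_smul, Real.norm_of_nonneg (Real.smoothTransition.nonneg _)]
  exact (mul_le_of_le_one_left (norm_nonneg _) (Real.smoothTransition.le_one _)).trans h4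

theorem Num.big (n : d.Num) (hU : q ∈ d.U) (h : q.1 ≤ d.a₂) :
    d.η / 2 ≤ ‖d.w q‖ ∧ ∃ c : ℝ, 0 < c ∧ d.μ q = -(c • d.w q) := by
  have hk := n.k
  obtain ⟨h1, h2⟩ := w_lo hU (h.trans n.a₂_lt.le)
  have h3 : d.η ^ 2 / 8 ≤ d.rho q.1 := by
    rw [a₂, tau] at h
    rw [rho, le_sub_iff_add_le, le_div_iff₀ hk]
    linarith
  have h4 : 2 * d.rho q.1 ≤ ‖pw (d.z q)‖ ^ 2 := le_norm_pw_sq hU.2
  have h5 := pq_pos hU.2
  refine ⟨h1 ▸ le_of_sq_le_sq (by linarith) (norm_nonneg _), d.k⁻¹ * (2 * pq (d.z q))⁻¹,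
    by positivity, ?_⟩
  rw [μ, h2, m1b_dz, map_neg, map_smul, fderiv_pw_fst hU.2, smul_smul, h1]

theorem Num.mu_le (n : d.Num) (hU : q ∈ d.U) (hp : pp q.2 ^ 2 ≤ 1) (h : 0 ≤ d.l q) :
    2 * (‖d.μ q‖ * d.M) ≤ d.L₀ := by
  have hk := n.k
  have h0 := n.t₀
  have he := n.e
  have hC : 0 ≤ d.C := (deriv_st_nonneg 0).trans (n.C 0)
  have h1 : HasFDerivAt (fun q : ℝ × ℂ => st (-1 - q.1)) _ q :=
    (contDiff_st.differentiable (by simp) _).hasDerivAt.comp_hasFDerivAt q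
      ((hasFDerivAt_fst (𝕜 := ℝ)).const_sub (-1))
  have h2 : HasFDerivAt (fun q => pw (d.z q)) _ q :=
    ((contDiffOn_pw.contDiffAt (isOpen_PD0.mem_nhds hU.2)).differentiableAt
      (by simp)).hasFDerivAt.comp q (d.contDiff_z.differentiable (by simp) q).hasFDerivAt
  have h3 : d.μ q = -((st (-1 - q.1) * d.k⁻¹) • fderiv ℝ pw (d.z q) (1, 0) +
      deriv st (-1 - q.1) • pw (d.z q)) := by
    rw [μ, show fderiv ℝ d.w q = _ from (h1.smul h2).fderiv, add_apply, smul_apply, comp_apply,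
      m1b_dz, map_neg, map_smul, smul_neg, smul_smul, neg_add]
    simp
  have h4 : d.t₀ ≤ pt (d.z q) :=
    (le_mul_of_one_le_right h0.le (Real.one_le_exp h)).trans_eq (n.t_eq hU).symm
  have h5 : ‖(st (-1 - q.1) * d.k⁻¹) • fderiv ℝ pw (d.z q) (1, 0)‖ ≤ 1 * d.k⁻¹ * (2 * d.t₀)⁻¹ := by
    have := Real.smoothTransition.nonneg (-1 - q.1)
    rw [norm_smul, Real.norm_of_nonneg (by positivity)]
    gcongr
    · exact Real.smoothTransition.le_one _
    · exact (norm_fderiv_pw_fst hU.2).trans (by gcongr)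
  have h6 : ‖deriv st (-1 - q.1) • pw (d.z q)‖ ≤ d.C * (5 * d.e) := by
    rcases le_total q.1 (-2) with h7 | h7
    · rw [deriv_st_of_one_le (by linarith), zero_smul, norm_zero]
      positivity
    · rw [norm_smul, Real.norm_of_nonneg (deriv_st_nonneg _)]
      exact mul_le_mul (n.C _) ((le_mul_of_one_le_left (norm_nonneg _) (n.hi h7).1).trans
        ((par_mul_norm hU.2).trans_le (m1b_z n hp))) (norm_nonneg _) hC
  have h7 : ‖d.μ q‖ * d.M ≤ (1 * d.k⁻¹ * (2 * d.t₀)⁻¹ + d.C * (5 * d.e)) * d.M := by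
    rw [h3, norm_neg]
    exact mul_le_mul_of_nonneg_right (norm_add_le_of_le h5 h6) n.M
  have h8 : 1 * d.k⁻¹ * (2 * d.t₀)⁻¹ * d.M ≤ d.L₀ / 4 := by
    rw [one_mul, ← mul_inv, inv_mul_le_iff₀ (by positivity)]
    linarith [n.i₆]
  linarith [n.i₂]

theorem Ok.cpt_out (h : d.Ok) (b : ℝ) : IsCompact (d.out b) := by
  have n := h.num
  let D : Set (ℝ × ℂ) := {q | pp q.2 ^ 2 ≤ 1 ∧ d.t₀ * Real.exp b ≤ d.t q ∧ q.1 ≤ -1}
  have hD : IsClosed D :=
    (isClosed_le ((contDiff_pp.continuous.comp continuous_snd).pow 2) continuous_const).inter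
      ((isClosed_le continuous_const d.continuous_t).inter
        (isClosed_le continuous_fst continuous_const))
  have hU : D ⊆ d.U := fun q hq => ⟨by linarith [(norm_of_pp hq.1).1],
    mem_PD0_iff.2 ((mul_pos n.t₀ (Real.exp_pos b)).trans_le hq.2.1)⟩
  have hl : ∀ q ∈ d.U, b ≤ d.l q ↔ d.t₀ * Real.exp b ≤ d.t q := fun q hq => by
    rw [n.t_eq hq, mul_le_mul_iff_right₀ n.t₀, Real.exp_le_exp]
  have e : d.out b = {p ∈ d.N ×ˢ D | d.s p.1 = d.w p.2} := Set.ext fun p =>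
    ⟨fun ⟨⟨h1, h2, h3, h4⟩, h5, h6⟩ => ⟨⟨h1, h4, (hl _ h2).1 h6, h5⟩, h3⟩,
      fun ⟨⟨h1, h2⟩, h3⟩ => ⟨⟨h1, hU h2, h3, h2.1⟩, h2.2.2, (hl _ (hU h2)).2 h2.2.1⟩⟩
  refine (h.cpt.prod ((isCompact_Icc (a := min (-2) (d.tau (d.S ^ 2 / 2))) (b := -1)).prod
    (isCompact_closedBall (0 : ℂ) 3))).of_isClosed_subset
    (e ▸ (h.cpt.isClosed.prod hD).isClosed_eq (h.ss.continuous.comp continuous_fst).continuousOn
      (d.contDiffOn_w.continuousOn.comp continuousOn_snd fun p hp => hU hp.2))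
    fun p ⟨⟨h1, h2, h3, h4⟩, h5, _⟩ =>
      ⟨h1, ⟨?_, h5⟩, mem_closedBall_zero_iff.2 (norm_of_pp h4).2⟩
  rcases le_total p.2.1 (-2) with h6 | h6
  · have h7 : 2 * d.rho p.2.1 ≤ ‖d.s p.1‖ ^ 2 := h3 ▸ (w_lo h2 h6).1 ▸ le_norm_pw_sq h2.2
    have h8 := pow_le_pow_left₀ (norm_nonneg _) (h.bs _ (h.sub h1)) 2
    refine min_le_of_right_le (le_of_le_of_eq ?_ (n.tau_rho _))
    rw [tau, tau]
    nlinarith [n.k]
  · exact min_le_of_left_le h6
theorem Ok.cpt_col (h : d.Ok) (b : ℝ) : IsCompact (d.col b) := by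
  have e : d.col b = {p ∈ d.out b | d.l p.2 ≤ 3} := Set.ext fun p =>
    ⟨fun ⟨h1, h2, h3⟩ => ⟨⟨h1, (h.num.lo h1.2.1 h3).trans (by norm_num), h2⟩, h3⟩,
      fun ⟨⟨h1, h2⟩, h3⟩ => ⟨h1, h2.2, h3⟩⟩
  exact e ▸ (h.cpt_out b).of_isClosed_subset ((h.cpt_out b).isClosed.isClosed_le
    (h.num.contDiffOn_l.continuousOn.comp continuousOn_snd fun p hp => hp.1.2.1)
    continuousOn_const) (sep_subset _ _)
theorem Num.out_eq (n : d.Num) {b : ℝ} (hb : b ≤ 3) : d.out b = d.out 3 ∪ d.col b :=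
  Set.ext fun p => ⟨fun ⟨h1, h2, h3⟩ => (le_total 3 (d.l p.2)).imp (fun h => ⟨h1, h2, h⟩)
    fun h => ⟨h1, h3, h⟩, fun h => h.elim (fun ⟨h1, h2, h3⟩ => ⟨h1, h2, hb.trans h3⟩)
      fun ⟨h1, h2, h3⟩ => ⟨h1, (n.lo h1.2.1 h3).trans (by norm_num), h2⟩⟩

theorem Ok.contDiffOn_lam (h : d.Ok) (K k' : ℝ) :
    ContDiffOn ℝ ∞ (d.lam K k') (univ ×ˢ d.U) := by
  have h1 : ContDiffOn ℝ ∞ (fun p : E × ℝ × ℂ => d.l p.2) (univ ×ˢ d.U) :=
    h.num.contDiffOn_l.comp contDiffOn_snd fun p hp => hp.2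
  have h2 := contDiff_st.comp_contDiffOn h1
  exact (contDiffOn_const.mul (contDiff_HH.comp_contDiffOn h1)).exp.smul
    (((h2.mul (d.contDiff_u.comp contDiff_snd.fst).contDiffOn).exp.smul
      ((h.sα.comp contDiff_fst).clm_comp contDiff_const).contDiffOn).add
      ((h2.mul contDiffOn_const).smul ((h.pl.sσ.comp contDiff_snd.snd.contDiffOn
        fun _ hp => ne_zero_of_U hp.2).clm_comp contDiffOn_const)))
theorem Ok.cont_dlam (h : d.Ok) (K k' : ℝ) : ContinuousOn (dF (d.lam K k')) d.MX :=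
  (continuousOn_dF (isOpen_univ.prod d.isOpen_U) ((h.contDiffOn_lam K k').of_le (by simp))).mono
    fun _ hp => ⟨trivial, hp.2.1⟩
theorem Ok.cont_mL (h : d.Ok) : ContinuousOn d.mL d.MX :=
  (((h.ss.continuous_fderiv (by simp)).comp continuous_fst).continuousOn.clm_comp
    continuousOn_const).sub ((m1b_fd d.contDiffOn_w).clm_comp continuousOn_const)
theorem Ok.cont_pc (h : d.Ok) : ContinuousOn d.pc d.MX :=
  (prodₗᵢ ℝ).continuous.comp_continuousOn (continuousOn_const.prodMk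
    ((m1b_fd h.num.contDiffOn_l).clm_comp continuousOn_const))
theorem Ok.cont_l (h : d.Ok) : ContinuousOn (fun p : E × ℝ × ℂ => d.l p.2) d.MX :=
  h.num.contDiffOn_l.continuousOn.comp continuousOn_snd fun _ hp => hp.2.1
theorem Ok.cont_μ (h : d.Ok) : ContinuousOn (fun p : E × ℝ × ℂ => d.μ p.2) d.MX :=
  (m1b_fd d.contDiffOn_w).clm_apply continuousOn_const
theorem Ok.cont_Γ (h : d.Ok) (K : ℝ) : ContinuousOn (fun p : E × ℝ × ℂ => d.Γ K p.2) d.MX :=
  ((continuousOn_const.mul (((d.continuous_t.comp continuous_snd).div_const _).pow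
    2).continuousOn).mul ((contDiff_st.continuous.comp_continuousOn h.cont_l).mul
      (d.contDiff_u.continuous.comp continuous_snd.fst).continuousOn).neg.rexp).div_const _
theorem Ok.cont_c₁ (h : d.Ok) : ContinuousOn (fun p : E × ℝ × ℂ => d.c₁ p.2) d.MX :=
  (((contDiff_st.continuous_deriv (by simp)).comp_continuousOn h.cont_l).mul
    (d.contDiff_u.continuous.comp continuous_snd.fst).continuousOn).add
    ((((contDiff_st.continuous.comp_continuousOn h.cont_l).mul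
      ((m1b_du d).comp continuous_snd.fst).continuousOn).mul continuousOn_const).mul
      ((d.continuous_t.comp continuous_snd).pow 2).continuousOn)
theorem Ok.cont_S₁ (h : d.Ok) (K : ℝ) : ContinuousOn (d.S₁ K) d.MX := by
  have h1 := contDiff_st.continuous.comp_continuousOn h.cont_l
  have h2 := (contDiff_st.continuous_deriv (by simp)).comp_continuousOn h.cont_l
  have m : MapsTo Prod.fst d.MX d.N := fun _ hp => hp.1
  have h3 : ContinuousOn d.Λ d.N :=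
    ((m1b_dF h).continuousOn.clm_apply h.c₁).clm_apply h.c₂
  have h4 : ContinuousOn d.Θ d.N := Complex.continuous_im.comp_continuousOn
    ((Complex.continuous_conj.comp h.ss.continuous).continuousOn.mul
      ((h.ss.continuous_fderiv (by simp)).continuousOn.clm_apply h.cR))
  have h5 := h3.comp continuousOn_fst m
  exact (h.cont_c₁.mul (continuousOn_const.add
    (((continuousOn_const.mul h1).mul (h.cont_Γ K)).mul h5))).add
    (((h2.add (continuousOn_const.mul h1)).mul (h.cont_Γ K)).mul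
      ((h4.comp continuousOn_fst m).add ((((continuousOn_const.mul h1).mul
        ((m1b_du d).comp continuous_snd.fst).continuousOn).mul
        ((h.ss.continuous.comp continuous_fst).norm.pow 2).continuousOn).mul h5)))
theorem Ok.cont_Vo (h : d.Ok) : Continuous d.Vo :=
  continuousOn_univ.1 (continuousOn_om ((m1b_dF h).comp continuous_fst).continuousOn
    (((m1b_du d).comp continuous_snd.fst).smul (h.sα.continuous.comp continuous_fst)).continuousOn)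
theorem cont_du (d : Dat E) : Continuous (deriv d.u) := m1b_du d
theorem Ok.cs_T (h : d.Ok) : CS d.MX fun p => (Tan d.N p.1).prod (⊤ : Submodule ℝ ℝ) :=
  (h.cs.comp continuousOn_fst fun _ hp => hp.1).prod (cs_top _)
theorem Ok.cs_T' (h : d.Ok) : CS d.MX fun p => (Tan d.N p.1).prod (⊤ : Submodule ℝ (ℝ × ℂ)) :=
  (h.cs.comp continuousOn_fst fun _ hp => hp.1).prod (cs_top _)

end Dat

end Pool.Agent.Lib.MP_ccffa6_gt.P
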