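import Pool.Agent.Lib.MP_ccffa6_gt.P.M1b

/-! Formulas for the Liouville form of the model. -/

namespace Pool.Agent.Lib.MP_ccffa6_gt.P

open Set ContinuousLinearMap
open scoped ContDiff

namespace Dat

variable {E : Type} [NormedAddCommGroup E] [NormedSpace ℝ E] {d : Dat E} {p : E × ℝ × ℂ}

/-- `dF_smul`, `dF_add`, `dF_clm`, `Plane.dσ` -/
theorem Ok.dlam (h : d.Ok) (K k' : ℝ) (hU : p.2 ∈ d.U) (u v : E × ℝ × ℂ) :
    dF (d.lam K k') p u v =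
      k' * deriv HH (d.l p.2) *
          (fderiv ℝ d.l p.2 u.2 * d.lam K k' p v - d.lam K k' p u * fderiv ℝ d.l p.2 v.2) +
        Real.exp (k' * HH (d.l p.2)) * (Real.exp (st (d.l p.2) * d.u p.2.1) *
          ((deriv st (d.l p.2) * d.u p.2.1 * fderiv ℝ d.l p.2 u.2 +
              st (d.l p.2) * deriv d.u p.2.1 * u.2.1) * d.α p.1 v.1 -
            d.α p.1 u.1 * (deriv st (d.l p.2) * d.u p.2.1 * fderiv ℝ d.l p.2 v.2 +
              st (d.l p.2) * deriv d.u p.2.1 * v.2.1) + dF d.α p.1 u.1 v.1) +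
          K * (deriv st (d.l p.2) * (fderiv ℝ d.l p.2 u.2 * d.σ p.2.2 v.2.2 -
            d.σ p.2.2 u.2.2 * fderiv ℝ d.l p.2 v.2) + st (d.l p.2) * ar u.2.2 v.2.2)) := by
  have hl : HasFDerivAt (fun y : E × ℝ × ℂ => d.l y.2)
      ((fderiv ℝ d.l p.2).comp (snd ℝ E (ℝ × ℂ))) p :=
    ((h.num.contDiffOn_l.contDiffAt (d.isOpen_U.mem_nhds hU)).differentiableAt
      (by simp)).hasFDerivAt.comp p hasFDerivAt_snd
  have hH := (contDiff_HH.differentiable (by simp) (d.l p.2)).hasDerivAt.comp_hasFDerivAt p hl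
  have hs := (contDiff_st.differentiable (by simp) (d.l p.2)).hasDerivAt.comp_hasFDerivAt p hl
  have h21 : HasFDerivAt (fun y : E × ℝ × ℂ => y.2.1)
      ((fst ℝ ℝ ℂ).comp (snd ℝ E (ℝ × ℂ))) p := hasFDerivAt_fst.comp p hasFDerivAt_snd
  have hu := (d.contDiff_u.differentiable (by simp) p.2.1).hasDerivAt.comp_hasFDerivAt p h21
  have f1 : HasFDerivAt (fun y : E × ℝ × ℂ => Real.exp (k' * HH (d.l y.2))) _ p :=
    (hH.const_mul k').exp
  have f2 : HasFDerivAt (fun y : E × ℝ × ℂ => Real.exp (st (d.l y.2) * d.u y.2.1)) _ p :=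
    (hs.mul hu).exp
  have f3 : HasFDerivAt (fun y : E × ℝ × ℂ => st (d.l y.2) * K) _ p := hs.mul_const K
  have hα : DifferentiableAt ℝ d.α (fst ℝ E (ℝ × ℂ) p) := h.sα.differentiable (by simp) _
  have hσ : DifferentiableAt ℝ d.σ (p₂ E p) :=
    (h.pl.sσ.contDiffAt (isOpen_compl_singleton.mem_nhds (ne_zero_of_U hU))).differentiableAt
      (by simp)
  have a1 : DifferentiableAt ℝ
      (fun y : E × ℝ × ℂ => (d.α (fst ℝ E (ℝ × ℂ) y)).comp (fst ℝ E (ℝ × ℂ))) p :=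
    (hα.comp p (fst ℝ E (ℝ × ℂ)).differentiableAt).clm_comp (differentiableAt_const _)
  have a2 : DifferentiableAt ℝ (fun y : E × ℝ × ℂ => (d.σ (p₂ E y)).comp (p₂ E)) p :=
    (hσ.comp p (p₂ E).differentiableAt).clm_comp (differentiableAt_const _)
  have b1 := f2.differentiableAt.fun_smul a1
  have b2 := f3.differentiableAt.fun_smul a2
  have e : d.lam K k' = fun y => Real.exp (k' * HH (d.l y.2)) •
      (Real.exp (st (d.l y.2) * d.u y.2.1) • (d.α (fst ℝ E (ℝ × ℂ) y)).comp (fst ℝ E (ℝ × ℂ)) +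
        (st (d.l y.2) * K) • (d.σ (p₂ E y)).comp (p₂ E)) := rfl
  rw [e, dF_smul f1.differentiableAt (b1.fun_add b2), dF_add b1 b2,
    dF_smul f2.differentiableAt a1, dF_smul f3.differentiableAt a2, dF_clm _ hα, dF_clm _ hσ,
    f1.fderiv, f2.fderiv, f3.fderiv, p₂_apply, h.pl.dσ _ (ne_zero_of_U hU)]
  simp only [add_apply, smul_apply, wg_apply, bp_apply, comp_apply, coe_fst', coe_snd', p₂_apply,
    smul_eq_mul, Function.comp_apply, Pi.mul_apply]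
  ring

theorem lam_mid (K k' : ℝ) (h3 : 3 ≤ d.l p.2) (v : E × ℝ × ℂ) : d.lam K k' p v =
    Real.exp (k' * 3) * (Real.exp (d.u p.2.1) * d.α p.1 v.1 + K * d.σ p.2.2 v.2.2) := by
  have h1 : st (d.l p.2) = 1 := Real.smoothTransition.one_of_one_le (by linarith)
  simp only [lam, h1, (HH_of_ge h3).1, add_apply, smul_apply, comp_apply, coe_fst', p₂_apply,
    smul_eq_mul, one_mul]

theorem Ok.dlam_mid (h : d.Ok) (K k' : ℝ) (hU : p.2 ∈ d.U) (h3 : 3 ≤ d.l p.2) :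
    dF (d.lam K k') p = Real.exp (k' * 3) •
      (Real.exp (d.u p.2.1) • bp (p₁ E) (d.Vo p) + K • bp (p₂ E) ar) := by
  have h1 : st (d.l p.2) = 1 := Real.smoothTransition.one_of_one_le (by linarith)
  have h2 : deriv st (d.l p.2) = 0 := deriv_st_of_one_le (by linarith)
  refine ContinuousLinearMap.ext fun u => ContinuousLinearMap.ext fun v => ?_
  rw [h.dlam K k' hU, h1, h2, (HH_of_ge h3).1, (HH_of_ge h3).2]
  simp only [Vo, add_apply, smul_apply, bp_apply, Om_apply, p₁_apply, p₂_apply, smul_eq_mul,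
    one_mul]
  ring

/-- `Num.col_onto` -/
theorem Ok.col_onto (h : d.Ok) (hp : p ∈ d.MX) (h3 : d.l p.2 ≤ 3) :
    Onto ((Tan d.N p.1).prod ⊤) (d.mL p) := by
  intro y
  obtain ⟨v, h1, -⟩ := h.num.col_onto hp.2.1 (h.num.lo hp.2.1 h3) (-y) 0
  exact ⟨(0, v), ⟨Submodule.zero_mem _, trivial⟩, by simp [h1]⟩

/-- `Num.col_inj`, `Num.col_onto` -/
theorem Ok.col_bij (h : d.Ok) (hp : p ∈ d.MX) (h3 : d.l p.2 ≤ 3) :
    BijOn (d.pc p) (d.MT p) ((Tan d.N p.1).prod (⊤ : Submodule ℝ ℝ)) := by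
  have hq := h.num.lo hp.2.1 h3
  refine ⟨fun v hv => ⟨hv.1.1, trivial⟩, fun u hu v hv e => ?_, fun y hy => ?_⟩
  · have e1 : u.1 = v.1 := (Prod.ext_iff.1 e).1
    have e2 : fderiv ℝ d.l p.2 u.2 = fderiv ℝ d.l p.2 v.2 := (Prod.ext_iff.1 e).2
    have a1 : fderiv ℝ d.s p.1 u.1 - fderiv ℝ d.w p.2 u.2 = 0 := hu.2
    have a2 : fderiv ℝ d.s p.1 v.1 - fderiv ℝ d.w p.2 v.2 = 0 := hv.2
    refine Prod.ext e1 (sub_eq_zero.1 (h.num.col_inj hp.2.1 hq ?_ ?_))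
    · rw [map_sub, ← sub_eq_zero.1 a1, ← sub_eq_zero.1 a2, e1, sub_self]
    · rw [map_sub, e2, sub_self]
  · obtain ⟨v, h1, h2⟩ := h.num.col_onto hp.2.1 hq (fderiv ℝ d.s p.1 y.1) y.2
    refine ⟨(y.1, v), ⟨⟨hy.1, trivial⟩, ?_⟩, Prod.ext rfl h2⟩
    exact sub_eq_zero.2 h1.symm

/-- Put `s = w`, `ds u.1 = dw u.2`, `r = t / e`. By `Num.col_d`, `u.2.2 = r • (dl u • s + ds u)` and
`u.2.1 = -k (re (conj s * ds u) - t ^ 2 dl u)`; by `Plane.near` (`Num.col_near`, `Num.col_pos`)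
`σ u.2.2 = r ^ 2 * ar s (ds u) / 2`; `K r ^ 2 / 2 = Γ * exp (st * u)`. Then `Ok.dlam`, `ring`. -/
theorem Ok.dlam_col (h : d.Ok) (K k' : ℝ) (hp : p ∈ d.MX) (h3 : d.l p.2 ≤ 3) {u v : E × ℝ × ℂ}
    (hu : u ∈ d.MT p) (hv : v ∈ d.MT p) : dF (d.lam K k') p u v =
      Real.exp (k' * HH (d.l p.2) + st (d.l p.2) * d.u p.2.1) *
        d.cF K p (k' * deriv HH (d.l p.2)) 1 (d.pc p u) (d.pc p v) := by
  have hU := hp.2.1
  have hq := h.num.lo hU h3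
  have hw : d.w p.2 = d.s p.1 := hp.2.2.1.symm
  have hn := h.pl.near _ (h.num.col_near hU h3 (hw ▸ h.bs _ (h.sub hp.1)))
  have key : ∀ x ∈ d.MT p, x.2.1 = -d.k * ((d.s p.1).re * (fderiv ℝ d.s p.1 x.1).re +
      (d.s p.1).im * (fderiv ℝ d.s p.1 x.1).im - d.t p.2 ^ 2 * fderiv ℝ d.l p.2 x.2) ∧
      x.2.2 = (d.t p.2 / d.e) • (fderiv ℝ d.l p.2 x.2 • d.s p.1 + fderiv ℝ d.s p.1 x.1) := by
    intro x hx
    have a : fderiv ℝ d.s p.1 x.1 - fderiv ℝ d.w p.2 x.2 = 0 := hx.2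
    obtain ⟨b1, b2⟩ := h.num.col_d hU hq x.2
    rw [← sub_eq_zero.1 a, hw] at b1 b2
    refine ⟨by rw [b1]; simp, ?_⟩
    rw [div_eq_inv_mul, mul_smul, smul_add, smul_smul, ← b2, inv_smul_smul₀ h.num.e.ne']
  obtain ⟨u1, u2⟩ := key u hu
  obtain ⟨v1, v2⟩ := key v hv
  have hb := Real.exp_ne_zero (st (d.l p.2) * d.u p.2.1)
  rw [h.dlam K k' hU]
  simp only [lam, cF, Fm, Γ, Dat.c₁, Real.exp_add, Real.exp_neg, add_apply, smul_apply, comp_apply,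
    coe_fst', p₂_apply, pc_apply, Om_apply, bp_apply, wg_apply, rc_apply, hn, h.num.col_pos hU hq,
    hw, smul_eq_mul]
  rw [u1, v1, u2, v2]
  simp only [ar_apply, Complex.smul_re, Complex.smul_im, Complex.add_re, Complex.add_im,
    Complex.neg_re, Complex.neg_im, Complex.mul_re, Complex.mul_im, Complex.I_re, Complex.I_im,
    smul_eq_mul]
  generalize d.t p.2 / d.e = r
  field_simp
  ring

end Dat

end Pool.Agent.Lib.MP_ccffa6_gt.P
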