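import Pool.Agent.Lib.MP_ccffa6_gt.P.M2
import Pool.Agent.Lib.MP_ccffa6_gt.P.M3
import Pool.Agent.Lib.MP_ccffa6_gt.P.Fib

/-! The part of the model that fibres over the annulus. -/

namespace Pool.Agent.Lib.MP_ccffa6_gt.P

open Set ContinuousLinearMap
open scoped ContDiff

namespace Dat

variable {E : Type} [NormedAddCommGroup E] [NormedSpace ℝ E] [FiniteDimensional ℝ E] {d : Dat E}
  {p : E × ℝ × ℂ}

omit [FiniteDimensional ℝ E] in
theorem m4_dw (d : Dat E) (q : ℝ × ℂ) (r : ℝ) (z : ℂ) :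
    fderiv ℝ d.w q (r, z) = r • d.μ q + fderiv ℝ d.w q (0, z) := by
  rw [μ, ← map_smul, ← map_add]
  simp

/-- the vertical spaces are symplectic -/
theorem Ok.vert (h : d.Ok) (hp : p ∈ d.MX) (h0 : 0 ≤ d.l p.2) :
    Onto ((Tan d.N p.1).prod ⊤) (lm (fderiv ℝ d.s p.1) (d.μ p.2)) ∧ Nd (d.VT p) (d.Vo p) :=
  (h.cd p.1 hp.1).vert (h.vert_pos hp h0).ne'

/-- the model fibres over the plane -/
theorem Ok.mid_onto (h : d.Ok) (hp : p ∈ d.MX) (h0 : 0 ≤ d.l p.2) :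
    Onto ((Tan d.N p.1).prod ⊤) (d.mL p) ∧ Onto (d.MT p) (p₂ E) := by
  have o := (h.vert hp h0).1
  refine ⟨fun y => ?_, fun z => ?_⟩
  · obtain ⟨v, hv, e⟩ := o y
    refine ⟨(v.1, v.2, 0), ⟨hv.1, trivial⟩, ?_⟩
    rw [mL_apply, m4_dw, show ((0, 0) : ℝ × ℂ) = 0 from rfl, map_zero, add_zero]
    exact e
  · obtain ⟨v, hv, e⟩ := o (fderiv ℝ d.w p.2 (0, z))
    refine ⟨(v.1, v.2, z), ⟨⟨hv.1, trivial⟩, ?_⟩, rfl⟩
    rw [lm_apply] at e
    show d.mL p (v.1, v.2, z) = 0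
    rw [mL_apply, m4_dw, ← e]
    simp

theorem bij_p₁ (d : Dat E) (p : E × ℝ × ℂ) : BijOn (p₁ E) (kr (d.MT p) (p₂ E)) (d.VT p) := by
  have z : ∀ r : ℝ, fderiv ℝ d.w p.2 (r, 0) = r • d.μ p.2 := fun r => by
    rw [m4_dw, show ((0, 0) : ℝ × ℂ) = 0 from rfl, map_zero, add_zero]
  refine ⟨fun v hv => ⟨⟨hv.1.1.1, trivial⟩, ?_⟩, fun u hu v hv e => ?_, fun y hy => ?_⟩
  · have h1 : d.mL p v = 0 := hv.1.2
    have h2 : v.2.2 = 0 := hv.2
    show lm (fderiv ℝ d.s p.1) (d.μ p.2) (v.1, v.2.1) = 0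
    rw [mL_apply, show v.2 = (v.2.1, 0) from Prod.ext rfl h2, z] at h1
    rw [lm_apply]
    exact h1
  · have h1 : u.2.2 = 0 := hu.2
    have h2 : v.2.2 = 0 := hv.2
    obtain ⟨e₁, e₂⟩ := Prod.mk.inj e
    exact Prod.ext e₁ (Prod.ext e₂ (h1.trans h2.symm))
  · refine ⟨(y.1, y.2, 0), ⟨⟨⟨hy.1.1, trivial⟩, ?_⟩, rfl⟩, rfl⟩
    have h1 : lm (fderiv ℝ d.s p.1) (d.μ p.2) y = 0 := hy.2
    show d.mL p (y.1, y.2, 0) = 0
    rw [mL_apply, z]
    rwa [lm_apply] at h1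

/-- horizontal lifts and a large multiple of the area form -/
theorem Ok.mid (h : d.Ok) : ∃ K₀ : ℝ, 0 < K₀ ∧ ∀ K ≥ K₀, ∀ k' : ℝ,
    (∀ p ∈ d.out 3, d.Pt K k' p) ∧ SI (d.out 3) d.MT (dF (d.lam K k'))
      (fun p => (d.VT p).prod (⊤ : Submodule ℝ ℂ)) fun p => osum (d.Vo p) ar := by
  have sub : d.out 3 ⊆ d.MX := inter_subset_left
  have l0 : ∀ p ∈ d.out 3, 0 ≤ d.l p.2 := fun p hp => le_trans (by norm_num) hp.2.2
  have cu : Continuous fun p : E × ℝ × ℂ => Real.exp (d.u p.2.1) :=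
    Real.continuous_exp.comp (d.contDiff_u.continuous.comp (by fun_prop))
  set o : E × ℝ × ℂ → Bil (E × ℝ × ℂ) := fun p => Real.exp (d.u p.2.1) • bp (p₁ E) (d.Vo p) with ho
  have cb : ContinuousOn (fun p => bp (p₁ E) (d.Vo p)) (d.out 3) :=
    continuousOn_bp continuousOn_const h.cont_Vo.continuousOn
  have co : ContinuousOn o (d.out 3) := cu.continuousOn.smul cb
  have alt : ∀ p ∈ d.out 3, Alt (o p) := fun p _ => (((alt_dF _ _).om _).bp _).smul _
  have cs : CS (d.out 3) d.MT :=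
    (h.cs_T'.mono sub).kr (h.cont_mL.mono sub) fun p hp => (h.mid_onto (sub hp) (l0 p hp)).1
  have nd : ∀ p ∈ d.out 3, Nd (kr (d.MT p) (p₂ E)) (o p) := fun p hp =>
    (((h.vert (sub hp) (l0 p hp)).2.of_bij (d.bij_p₁ p) (o := bp (p₁ E) (d.Vo p))
      fun u _ v _ => bp_apply _ _ u v)).smul (Real.exp_pos _).ne'
  obtain ⟨H, cH, hH⟩ := exists_hl cs co alt (L := fun _ => p₂ E) continuousOn_const
    (fun p hp => (h.mid_onto (sub hp) (l0 p hp)).2) nd
  have cc : ContinuousOn (fun p => o p (H p 1) (H p Complex.I)) (d.out 3) :=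
    (co.clm_apply (cH.clm_apply continuousOn_const)).clm_apply (cH.clm_apply continuousOn_const)
  have cg : ContinuousOn (fun p : E × ℝ × ℂ => pp p.2.2 * (Real.exp (d.u p.2.1) *
      d.α p.1 (H p (Complex.I * p.2.2)).1)) (d.out 3) :=
    (contDiff_pp.continuous.comp (by fun_prop)).continuousOn.mul (cu.continuousOn.mul
      ((h.sα.continuous.comp continuous_fst).continuousOn.clm_apply
        (continuous_fst.comp_continuousOn (cH.clm_apply (by fun_prop)))))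
  obtain ⟨C₁, b₁⟩ := (h.cpt_out 3).exists_bound_of_continuousOn cc
  obtain ⟨C₂, b₂⟩ := (h.cpt_out 3).exists_bound_of_continuousOn cg
  refine ⟨|C₁| + 2 * |C₂| + 1, by positivity, fun K hK k' => ?_⟩
  have a₁ := le_abs_self C₁
  have a₂ := le_abs_self C₂
  have n₁ := abs_nonneg C₁
  have n₂ := abs_nonneg C₂
  have pos : ∀ p ∈ d.out 3, 0 < o p (H p 1) (H p Complex.I) + K := fun p hp => by
    have := (abs_le.1 (b₁ p hp)).1
    linarith
  have e : ∀ p ∈ d.out 3, dF (d.lam K k') p = Real.exp (k' * 3) • (o p + K • bp (p₂ E) ar) :=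
    fun p hp => h.dlam_mid K k' (sub hp).2.1 hp.2.2
  have t : ∀ p ∈ d.out 3, ∀ Z ∈ d.MT p, ∀ z, dF (d.lam K k') p Z (H p z) =
      Real.exp (k' * 3) * ((o p (H p 1) (H p Complex.I) + K) * ar Z.2.2 z) := fun p hp Z hZ z => by
    rw [e p hp, smul_apply, smul_apply, (hH p hp).apply (alt p hp) K hZ z]
    rfl
  have ex := Real.exp_pos (k' * 3)
  refine ⟨fun p hp => ⟨(h.mid_onto (sub hp) (l0 p hp)).1, ?_, fun hf Z hZ hl => ?_,
    fun _ Z hZ c hc => ?_⟩, ?_⟩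
  · rw [e p hp]
    exact ((hH p hp).nd (alt p hp) (nd p hp) (pos p hp).ne').smul ex.ne'
  · have h1 := hl _ (hH p hp (Complex.I * p.2.2)).1
    have h2 : (H p (Complex.I * p.2.2)).2.2 = Complex.I * p.2.2 := (hH p hp _).2.1
    rw [t p hp Z hZ, lam_mid K k' hp.2.2, h2,
      (h.pl.far _ (ne_zero_of_U (sub hp).2.1) hf).1, ← fderiv_pp] at h1
    have h3 := mul_left_cancel₀ ex.ne' h1
    have h4 := (abs_le.1 (b₂ p hp)).1
    refine pos_of_mul_pos_right (a := o p (H p 1) (H p Complex.I) + K) ?_ (pos p hp).le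
    have h5 : (o p (H p 1) (H p Complex.I) + K) * (pp p.2.2 * fderiv ℝ pp p.2.2 Z.2.2) =
        pp p.2.2 * (Real.exp (d.u p.2.1) * d.α p.1 (H p (Complex.I * p.2.2)).1) +
          K * pp p.2.2 ^ 2 := by linear_combination pp p.2.2 * h3
    rw [h5]
    nlinarith
  · have hp' := pos p hp
    have t' := t p hp Z hZ
    generalize o p (H p 1) (H p Complex.I) + K = A at hp' t'
    refine ⟨(Real.exp (k' * 3) * A)⁻¹, by positivity, ?_⟩
    have key : ∀ z, ar Z.2.2 z = -(c * (Real.exp (k' * 3) * A)⁻¹) * ar (Complex.I * p.2.2) z := by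
      intro z
      have h1 := hc _ (hH p hp z).1
      have h2 : (H p z).2.2 = z := (hH p hp _).2.1
      rw [t', h2, fderiv_pp, alt_ar z] at h1
      field_simp
      linear_combination h1
    refine sub_eq_zero.1 (nd_ar _ trivial fun z _ => ?_)
    rw [map_sub, sub_apply, key, map_smul, smul_apply, smul_eq_mul, sub_self]
  · have s₁ : SI (d.out 3) d.MT (dF (d.lam K k')) d.MT
        fun p => (fun _ => Real.exp (k' * 3)) p • (o p + K • bp (p₂ E) ar) :=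
      SI.of_eq (fun p hp u _ v _ => by rw [e p hp]) fun _ _ => rfl
    have s₂ : SI (d.out 3) d.MT
        (fun p => (fun _ => Real.exp (k' * 3)) p • (o p + K • bp (p₂ E) ar)) d.MT
        fun p => o p + K • bp (p₂ E) ar := si_smul continuousOn_const fun _ _ => ex
    have s₃ := si_fib cH co alt (L := fun _ => p₂ E) continuousOn_const hH (k := fun _ => K)
      continuousOn_const pos
    have s₄ : SI (d.out 3) (fun p => kr (d.MT p) (p₂ E)) o (fun p => kr (d.MT p) (p₂ E))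
        fun p => bp (p₁ E) (d.Vo p) := si_smul cu.continuousOn fun _ _ => Real.exp_pos _
    have s₅ : SI (d.out 3) (fun p => kr (d.MT p) (p₂ E)) (fun p => bp (p₁ E) (d.Vo p)) d.VT d.Vo :=
      ⟨fun _ => p₁ E, continuousOn_const, fun p _ => d.bij_p₁ p,
        fun p _ u _ v _ => (bp_apply _ _ u v).symm⟩
    exact ((s₁.trans s₂).trans s₃).trans
      ((s₄.trans s₅).prod (SI.refl (d.out 3) (fun _ => (⊤ : Submodule ℝ ℂ)) fun _ => ar))

end Dat

end Pool.Agent.Lib.MP_ccffa6_gt.P
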