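import Pool.Agent.Lib.MP_ccffa6_gt.P.SBDef

/-! Parabolic coordinates on `ℝ × ℂ`. -/

namespace Pool.Agent.Lib.MP_ccffa6_gt.P

open Set
open scoped ContDiff

/-- Euclidean norm -/
noncomputable def pq (z : ℝ × ℂ) : ℝ := √(z.1 ^ 2 + ‖z.2‖ ^ 2)

/-- the parabolic height -/
noncomputable def pt (z : ℝ × ℂ) : ℝ := √(pq z - z.1)

/-- the parabolic position -/
noncomputable def pw (z : ℝ × ℂ) : ℂ := (pt z)⁻¹ • z.2

/-- the complement of the ray -/
def PD0 : Set (ℝ × ℂ) := {z | z.2 ≠ 0 ∨ z.1 < 0}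

variable {z : ℝ × ℂ}

theorem par_pq_sq (z : ℝ × ℂ) : pq z ^ 2 = z.1 ^ 2 + ‖z.2‖ ^ 2 :=
  Real.sq_sqrt (by positivity)

theorem par_pq_nonneg (z : ℝ × ℂ) : 0 ≤ pq z := Real.sqrt_nonneg _

theorem par_abs_le (z : ℝ × ℂ) : |z.1| ≤ pq z :=
  Real.abs_le_sqrt (by nlinarith [sq_nonneg ‖z.2‖])

theorem isOpen_PD0 : IsOpen PD0 :=
  (isOpen_ne_fun continuous_snd continuous_const).union
    (isOpen_lt continuous_fst continuous_const)

theorem continuous_pq : Continuous pq := by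
  unfold pq; fun_prop

theorem continuous_pt : Continuous pt := (continuous_pq.sub continuous_fst).sqrt

theorem mem_PD0_iff : z ∈ PD0 ↔ 0 < pt z := by
  have h1 := par_pq_sq z
  have h2 := par_pq_nonneg z
  have h3 := le_abs_self z.1
  have h4 := par_abs_le z
  rw [pt, Real.sqrt_pos, sub_pos]
  constructor
  · rintro (h | h)
    · have h5 : 0 < ‖z.2‖ := norm_pos_iff.2 h
      by_contra h6
      have h7 : pq z = z.1 := le_antisymm (not_lt.1 h6) (h3.trans h4)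
      rw [h7] at h1
      nlinarith
    · linarith
  · intro h
    by_contra h5
    simp only [PD0, mem_ofPred_eq, not_or, not_not, not_lt] at h5
    rw [h5.1, norm_zero] at h1
    nlinarith [h5.2]

theorem pq_pos (h : z ∈ PD0) : 0 < pq z := by
  have h1 := mem_PD0_iff.1 h
  rw [pt, Real.sqrt_pos, sub_pos] at h1
  have h2 := neg_abs_le z.1
  have h3 := par_abs_le z
  have h4 := neg_le_abs z.1
  linarith

theorem norm_le_pq (z : ℝ × ℂ) : ‖z.2‖ ≤ pq z :=
  Real.le_sqrt_of_sq_le (by nlinarith [sq_nonneg z.1])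

theorem pt_sq (z : ℝ × ℂ) : pt z ^ 2 = pq z - z.1 :=
  Real.sq_sqrt (sub_nonneg.2 ((le_abs_self _).trans (par_abs_le z)))

theorem neg_le_pt_sq (z : ℝ × ℂ) : -2 * z.1 ≤ pt z ^ 2 := by
  rw [pt_sq]
  linarith [neg_le_abs z.1, par_abs_le z]

theorem pt_smul_pw (h : z ∈ PD0) : pt z • pw z = z.2 := by
  rw [pw, smul_smul, mul_inv_cancel₀ (mem_PD0_iff.1 h).ne', one_smul]

theorem par_mul_norm (h : z ∈ PD0) : pt z * ‖pw z‖ = ‖z.2‖ := by
  rw [← pt_smul_pw h, norm_smul, Real.norm_of_nonneg (mem_PD0_iff.1 h).le]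

theorem norm_pw_sq (h : z ∈ PD0) : ‖pw z‖ ^ 2 = pt z ^ 2 + 2 * z.1 := by
  have h0 : 0 < pt z ^ 2 := pow_pos (mem_PD0_iff.1 h) 2
  apply mul_left_cancel₀ h0.ne'
  rw [← mul_pow, par_mul_norm h, pt_sq]
  linear_combination -par_pq_sq z

theorem le_norm_pw_sq (h : z ∈ PD0) : 2 * z.1 ≤ ‖pw z‖ ^ 2 := by
  rw [norm_pw_sq h]
  linarith [sq_nonneg (pt z)]

theorem norm_pw_sq_le (h : z ∈ PD0) : ‖pw z‖ ^ 2 ≤ 2 * max z.1 0 + ‖z.2‖ := by
  have h1 : pq z ≤ |z.1| + ‖z.2‖ := by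
    apply Real.sqrt_le_iff.2
    refine ⟨by positivity, ?_⟩
    nlinarith [sq_abs z.1, mul_nonneg (abs_nonneg z.1) (norm_nonneg z.2)]
  rw [norm_pw_sq h, pt_sq]
  rcases le_total 0 z.1 with h2 | h2
  · rw [abs_of_nonneg h2] at h1
    rw [max_eq_left h2]; linarith
  · rw [abs_of_nonpos h2] at h1
    rw [max_eq_right h2]; linarith

theorem contDiffOn_pt : ContDiffOn ℝ ∞ pt PD0 := by
  have h1 : ContDiffOn ℝ ∞ pq PD0 := by
    refine ContDiffOn.sqrt ?_ fun z hz => ?_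
    · exact ((contDiff_fst.pow 2).add (contDiff_snd.norm_sq ℝ)).contDiffOn
    · rw [← par_pq_sq]; exact (pow_pos (pq_pos hz) 2).ne'
  refine ContDiffOn.sqrt (h1.sub contDiff_fst.contDiffOn) fun z hz => ?_
  rw [← pt_sq]; exact (pow_pos (mem_PD0_iff.1 hz) 2).ne'

theorem contDiffOn_pw : ContDiffOn ℝ ∞ pw PD0 :=
  (contDiffOn_pt.inv fun _ hz => (mem_PD0_iff.1 hz).ne').smul contDiff_snd.contDiffOn

theorem fderiv_par (h : z ∈ PD0) (v : ℝ × ℂ) :
    v.2 = fderiv ℝ pt z v • pw z + pt z • fderiv ℝ pw z v ∧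
    v.1 = ((starRingEnd ℂ) (pw z) * fderiv ℝ pw z v).re - pt z * fderiv ℝ pt z v := by
  have hn := isOpen_PD0.mem_nhds h
  have ht := ((contDiffOn_pt.contDiffAt hn).differentiableAt (by simp)).hasFDerivAt
  have hw := ((contDiffOn_pw.contDiffAt hn).differentiableAt (by simp)).hasFDerivAt
  constructor
  · have e : (fun z => pt z • pw z) =ᶠ[nhds z] Prod.snd := by
      filter_upwards [hn] with y hy using pt_smul_pw hy
    have h1 := ((ht.smul hw).congr_of_eventuallyEq e.symm).unique hasFDerivAt_snd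
    have h2 := congrArg (fun L : (ℝ × ℂ) →L[ℝ] ℂ => L v) h1
    simp only [add_apply, smul_apply,
      ContinuousLinearMap.smulRight_apply, ContinuousLinearMap.coe_snd'] at h2
    rw [← h2, add_comm]
  · have e : (fun z => ‖pw z‖ ^ 2) =ᶠ[nhds z] fun z => pt z * pt z + 2 * z.1 := by
      filter_upwards [hn] with y hy
      rw [norm_pw_sq hy, sq]
    have h1 := (hw.norm_sq.congr_of_eventuallyEq e.symm).unique
      ((ht.mul ht).add (hasFDerivAt_fst.const_mul 2))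
    have h2 := congrArg (fun L : (ℝ × ℂ) →L[ℝ] ℝ => L v) h1
    simp only [add_apply, smul_apply,
      ContinuousLinearMap.comp_apply, ContinuousLinearMap.coe_fst', innerSL_apply_apply,
      Complex.inner, smul_eq_mul, nsmul_eq_mul, Nat.cast_ofNat] at h2
    rw [mul_comm ((starRingEnd ℂ) (pw z))]
    linarith

theorem fderiv_pw_fst (h : z ∈ PD0) : fderiv ℝ pw z (1, 0) = (2 * pq z)⁻¹ • pw z := by
  obtain ⟨h1, h2⟩ := fderiv_par h (1, 0)
  have ht := mem_PD0_iff.1 h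
  have hq := pq_pos h
  set a := fderiv ℝ pt z (1, 0)
  set W := fderiv ℝ pw z (1, 0)
  have h3 : W = (-(a / pt z)) • pw z := by
    have h4 : pt z • W = (-a) • pw z := by
      rw [neg_smul]; exact (neg_eq_of_add_eq_zero_right h1.symm).symm
    calc W = (pt z)⁻¹ • pt z • W := by rw [smul_smul, inv_mul_cancel₀ ht.ne', one_smul]
      _ = _ := by rw [h4, smul_smul]; congr 1; field_simp
  have h5 : ((starRingEnd ℂ) (pw z) * W).re = -(a / pt z) * ‖pw z‖ ^ 2 := by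
    rw [h3, mul_smul_comm, Complex.conj_mul', Complex.smul_re, smul_eq_mul]
    norm_cast
  rw [h5, norm_pw_sq h] at h2
  rw [h3]
  congr 1
  have h6 := pt_sq z
  have h7 : a = a / pt z * pt z := by field_simp
  generalize a / pt z = b at *
  apply eq_inv_of_mul_eq_one_left
  simp only at h2
  rw [h7] at h2
  linear_combination -h2 + 2 * b * h6

theorem norm_fderiv_pw_fst (h : z ∈ PD0) : ‖fderiv ℝ pw z (1, 0)‖ ≤ (2 * pt z)⁻¹ := by
  have ht := mem_PD0_iff.1 h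
  have hq := pq_pos h
  have h1 := par_mul_norm h
  have h2 := norm_le_pq z
  rw [fderiv_pw_fst h, norm_smul, Real.norm_of_nonneg (by positivity), ← div_eq_inv_mul,
    inv_eq_one_div, div_le_div_iff₀ (by positivity) (by positivity)]
  linarith

theorem par_inv {t : ℝ} (ht : 0 < t) (w : ℂ) : ((‖w‖ ^ 2 - t ^ 2) / 2, t • w) ∈ PD0 ∧
    pt ((‖w‖ ^ 2 - t ^ 2) / 2, t • w) = t ∧ pw ((‖w‖ ^ 2 - t ^ 2) / 2, t • w) = w := by
  have h1 : pq ((‖w‖ ^ 2 - t ^ 2) / 2, t • w) = (‖w‖ ^ 2 + t ^ 2) / 2 := by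
    rw [pq, Real.sqrt_eq_iff_mul_self_eq (by positivity) (by positivity)]
    simp only [norm_smul, Real.norm_of_nonneg ht.le]
    ring
  have h2 : pt ((‖w‖ ^ 2 - t ^ 2) / 2, t • w) = t := by
    rw [pt, h1, Real.sqrt_eq_iff_mul_self_eq (by nlinarith [sq_nonneg t]) ht.le]
    ring
  refine ⟨mem_PD0_iff.2 (by rw [h2]; exact ht), h2, ?_⟩
  rw [pw, h2, smul_smul, inv_mul_cancel₀ ht.ne', one_smul]

end Pool.Agent.Lib.MP_ccffa6_gt.P
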