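import Pool.Agent.Lib.MP_ccffa6_gt.P.Cal

/-! One-forms on the annulus. -/

namespace Pool.Agent.Lib.MP_ccffa6_gt.P

open Set
open scoped ContDiff

/-- the moment coordinate -/
noncomputable def pp (ζ : ℂ) : ℝ := ‖ζ‖ ^ 2 / 2 - 2

theorem contDiff_pp : ContDiff ℝ ∞ pp :=
  ((contDiff_norm_sq ℝ).div_const 2).sub contDiff_const

theorem pl_nsq (ζ : ℂ) : ‖ζ‖ ^ 2 = ζ.re ^ 2 + ζ.im ^ 2 := by
  rw [Complex.sq_norm, Complex.normSq_apply]; ring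

theorem pl_hasF (ζ : ℂ) : HasFDerivAt (fun y : ℂ => ‖y‖ ^ 2)
    ((2 * ζ.re) • Complex.reCLM + (2 * ζ.im) • Complex.imCLM) ζ := by
  have h1 := (Complex.reCLM.hasFDerivAt (x := ζ)).mul (Complex.reCLM.hasFDerivAt (x := ζ))
  have h2 := (Complex.imCLM.hasFDerivAt (x := ζ)).mul (Complex.imCLM.hasFDerivAt (x := ζ))
  refine ((h1.add h2).congr_of_eventuallyEq (Filter.Eventually.of_forall fun y => ?_)).congr_fderiv
    (ContinuousLinearMap.ext fun v => ?_)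
  · simp only [pl_nsq]
    simp [pow_two]
  · simp
    ring

theorem fderiv_pp (ζ v : ℂ) : fderiv ℝ pp ζ v = ar v (Complex.I * ζ) := by
  have h1 := ((pl_hasF ζ).const_mul (1 / 2 : ℝ)).sub_const 2
  have h := h1.congr_of_eventuallyEq (f₁ := pp)
    (Filter.Eventually.of_forall fun y => by simp only [pp]; ring)
  rw [h.fderiv]
  simp
  ring

theorem pp_sq_le {ζ : ℂ} (h : ‖ζ - 2‖ ≤ 1 / 4) : pp ζ ^ 2 ≤ 1 / 2 := by
  have h1 := abs_norm_sub_norm_le ζ 2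
  have h2 : ‖(2 : ℂ)‖ = 2 := by simp
  rw [h2] at h1
  obtain ⟨h3, h4⟩ := abs_le.1 (h1.trans h)
  have h5 : -(17 / 32 : ℝ) ≤ pp ζ := by simp only [pp]; nlinarith
  have h6 : pp ζ ≤ 17 / 32 := by simp only [pp]; nlinarith
  nlinarith

theorem norm_of_pp {ζ : ℂ} (h : pp ζ ^ 2 ≤ 1) : 1.4 ≤ ‖ζ‖ ∧ ‖ζ‖ ≤ 3 := by
  obtain ⟨h1, h2⟩ := abs_le.1 ((sq_le_one_iff_abs_le_one _).1 h)
  simp only [pp] at h1 h2
  have h0 := norm_nonneg ζ
  constructor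
  · by_contra hc
    have := not_le.1 hc
    nlinarith
  · nlinarith

/-- a primitive `σ` of the area form and a closed form `θ` -/
structure Plane (σ θ : Form1 ℂ) : Prop where
  sσ : ContDiffOn ℝ ∞ σ {0}ᶜ
  sθ : ContDiffOn ℝ ∞ θ {0}ᶜ
  dσ : ∀ ζ, ζ ≠ 0 → dF σ ζ = ar
  dθ : ∀ ζ, ζ ≠ 0 → dF θ ζ = 0
  near : ∀ ζ, ‖ζ - 2‖ ≤ 1 / 8 → ∀ v, σ ζ v = ar (ζ - 2) v / 2
  far : ∀ ζ, ζ ≠ 0 → 1 / 2 < pp ζ ^ 2 → σ ζ (Complex.I * ζ) = pp ζ ∧ θ ζ (Complex.I * ζ) = 1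

theorem pl_dar (ζ : ℂ) : dF (fun y => ar y) ζ = (2 : ℝ) • ar := by
  ext1 u; ext1 v
  rw [dF_apply, ar.fderiv]
  simp
  ring

theorem pl_sth : ContDiffOn ℝ ∞ (fun y : ℂ => (‖y‖ ^ 2)⁻¹ • ar y) {0}ᶜ :=
  ((contDiff_norm_sq ℝ).contDiffOn.inv fun _ hy => pow_ne_zero 2 (norm_ne_zero_iff.2 hy)).smul
    ar.contDiff.contDiffOn

theorem pl_dth {ζ : ℂ} (h : ζ ≠ 0) : dF (fun y : ℂ => (‖y‖ ^ 2)⁻¹ • ar y) ζ = 0 := by
  have h0 : ‖ζ‖ ^ 2 ≠ 0 := pow_ne_zero 2 (norm_ne_zero_iff.2 h)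
  have h1 : HasFDerivAt (fun y : ℂ => (‖y‖ ^ 2)⁻¹) _ ζ :=
    (hasDerivAt_inv h0).comp_hasFDerivAt ζ (pl_hasF ζ)
  rw [dF_smul h1.differentiableAt ar.differentiableAt, h1.fderiv, pl_dar]
  ext1 u; ext1 v
  rw [pl_nsq] at h0
  simp only [pl_nsq, add_apply, wg_apply, smul_apply,
    ar_apply, smul_eq_mul, Complex.reCLM_apply, Complex.imCLM_apply,
    zero_apply]
  field_simp
  ring

theorem pl_slit {ζ : ℂ} (h : ‖ζ - 2‖ ≤ 1 / 4) : ζ ∈ Complex.slitPlane := by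
  have h1 := (abs_le.1 ((Complex.abs_re_le_norm (ζ - 2)).trans h)).1
  simp only [Complex.sub_re, Complex.re_ofNat] at h1
  exact Or.inl (by linarith)

theorem pl_fun : ∃ g : ℂ → ℝ, ContDiff ℝ ∞ g ∧
    (∀ ζ, ‖ζ - 2‖ ≤ 1 / 8 → ∀ v, fderiv ℝ g ζ v = v.im - 2 * ((‖ζ‖ ^ 2)⁻¹ * ar ζ v)) ∧
    ∀ ζ, 1 / 4 < ‖ζ - 2‖ → fderiv ℝ g ζ = 0 := by
  let χ : ContDiffBump (2 : ℂ) := ⟨1 / 6, 1 / 4, by norm_num, by norm_num⟩
  have hz : ∀ ζ : ℂ, 1 / 4 < ‖ζ - 2‖ →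
      (fun y : ℂ => χ y * (y.im - 2 * (Complex.log y).im)) =ᶠ[nhds ζ] fun _ => 0 := by
    intro ζ h
    have ho : IsOpen {y : ℂ | 1 / 4 < ‖y - 2‖} := isOpen_lt continuous_const (by fun_prop)
    filter_upwards [ho.mem_nhds h] with y hy
    rw [χ.zero_of_le_dist (by rw [dist_eq_norm]; exact le_of_lt hy), zero_mul]
  refine ⟨fun y => χ y * (y.im - 2 * (Complex.log y).im), contDiff_iff_contDiffAt.2 fun ζ => ?_,
    fun ζ h v => ?_, fun ζ h => ?_⟩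
  · by_cases h : ‖ζ - 2‖ ≤ 1 / 4
    · have h1 : ContDiffAt ℝ ∞ Complex.log ζ :=
        (Complex.contDiffAt_log (pl_slit h)).restrict_scalars ℝ
      exact χ.contDiff.contDiffAt.mul (Complex.imCLM.contDiff.contDiffAt.sub
        (contDiffAt_const.mul (Complex.imCLM.contDiff.contDiffAt.comp ζ h1)))
    · exact contDiffAt_const.congr_of_eventuallyEq (hz ζ (not_le.1 h))
  · have hs := pl_slit (h.trans (by norm_num))
    have h1 := (Complex.hasStrictFDerivAt_log_real hs).hasFDerivAt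
    have h2 := (Complex.imCLM.hasFDerivAt (x := ζ)).sub
      ((Complex.imCLM.hasFDerivAt.comp ζ h1).const_mul 2)
    have h3 : (fun y : ℂ => χ y * (y.im - 2 * (Complex.log y).im)) =ᶠ[nhds ζ]
        fun y => y.im - 2 * (Complex.log y).im := by
      have hb : ζ ∈ Metric.ball (2 : ℂ) (1 / 6) := by
        rw [Metric.mem_ball, dist_eq_norm]; linarith
      filter_upwards [Metric.isOpen_ball.mem_nhds hb] with y hy
      rw [χ.one_of_mem_closedBall (Metric.ball_subset_closedBall hy), one_mul]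
    rw [(HasFDerivAt.congr_of_eventuallyEq h2 h3).fderiv]
    simp [Complex.sq_norm]
    ring
  · rw [(hz ζ h).fderiv_eq]
    simp

/-- `σ = ar ζ / 2 - 2 θ - dg`, `θ = ar ζ / ‖ζ‖ ^ 2`. -/
theorem exists_plane : ∃ σ θ, Plane σ θ := by
  obtain ⟨g, hg, hn, hf⟩ := pl_fun
  have hg1 : ContDiff ℝ ∞ (fderiv ℝ g) := hg.fderiv_right (m := ∞) (by simp)
  have ha : ContDiff ℝ ∞ fun y : ℂ => (1 / 2 : ℝ) • ar y := ar.contDiff.const_smul _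
  refine ⟨fun y => ((1 / 2 : ℝ) • ar y - (2 : ℝ) • ((‖y‖ ^ 2)⁻¹ • ar y)) - fderiv ℝ g y,
    fun y => (‖y‖ ^ 2)⁻¹ • ar y, (ha.contDiffOn.sub (pl_sth.const_smul _)).sub hg1.contDiffOn,
    pl_sth, fun ζ h => ?_, fun ζ h => pl_dth h, fun ζ h v => ?_, fun ζ h h1 => ?_⟩
  · have h1 : DifferentiableAt ℝ (fun y : ℂ => (‖y‖ ^ 2)⁻¹ • ar y) ζ :=
      (pl_sth.contDiffAt (isOpen_compl_singleton.mem_nhds h)).differentiableAt (by simp)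
    have h2 : DifferentiableAt ℝ (fun y : ℂ => (1 / 2 : ℝ) • ar y) ζ :=
      ha.differentiable (by simp) ζ
    have h3 : DifferentiableAt ℝ (fun y : ℂ => (2 : ℝ) • ((‖y‖ ^ 2)⁻¹ • ar y)) ζ :=
      h1.fun_const_smul _
    rw [dF_sub (h2.fun_sub h3) (hg1.differentiable (by simp) ζ), dF_sub h2 h3,
      dF_const_smul _ ar.differentiableAt, dF_const_smul _ h1, pl_dth h, pl_dar,
      dF_fderiv (hg.contDiffAt.of_le (WithTop.coe_le_coe.2 (le_top : (2 : ℕ∞) ≤ ⊤)))]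
    ext1 u; ext1 v
    simp
  · simp only [sub_apply, smul_apply, hn ζ h v]
    simp
    ring
  · have h2 : 1 / 4 < ‖ζ - 2‖ := not_le.1 fun h3 => absurd (pp_sq_le h3) (not_le.2 h1)
    have h0 : ‖ζ‖ ^ 2 ≠ 0 := pow_ne_zero 2 (norm_ne_zero_iff.2 h)
    have h3 : ar ζ (Complex.I * ζ) = ‖ζ‖ ^ 2 := by rw [pl_nsq]; simp; ring
    simp only [sub_apply, smul_apply, hf ζ h2, h3,
      smul_eq_mul, inv_mul_cancel₀ h0, zero_apply, pp]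
    exact ⟨by ring, trivial⟩

end Pool.Agent.Lib.MP_ccffa6_gt.P
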