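import Pool.Agent.Lib.MP_ccffa6_gt.P.NL
import Pool.Agent.Lib.MP_ccffa6_gt.P.Par
import Pool.Agent.Lib.MP_ccffa6_gt.P.Cut
import Pool.Agent.Lib.MP_ccffa6_gt.P.Pl

/-! The model `{s x = w (a, ζ)}` in `N × ℝ × ℂ`. -/

namespace Pool.Agent.Lib.MP_ccffa6_gt.P

open Set ContinuousLinearMap
open scoped ContDiff

/-- the data of one step -/
structure Dat (E : Type) [NormedAddCommGroup E] [NormedSpace ℝ E] where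
  α : Form1 E
  O : Set E
  N : Set E
  s : E → ℂ
  σ : Form1 ℂ
  θ₀ : Form1 ℂ
  R : E → E
  X₁ : E → E
  X₂ : E → E
  η : ℝ
  e : ℝ
  k : ℝ
  t₀ : ℝ
  L₀ : ℝ
  M : ℝ
  S : ℝ
  C : ℝ

namespace Dat

variable {E : Type} [NormedAddCommGroup E] [NormedSpace ℝ E] (d : Dat E)

/-- the bracket -/
noncomputable def Λ (x : E) : ℝ := dF d.α x (d.X₁ x) (d.X₂ x)
/-- the derivative of `s` along the Reeb field -/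
noncomputable def θ (x : E) : ℂ := fderiv ℝ d.s x (d.R x)
/-- its angular part -/
noncomputable def Θ (x : E) : ℝ := ((starRingEnd ℂ) (d.s x) * d.θ x).im
noncomputable def rho (a : ℝ) : ℝ := -(a + 2) / d.k - 1 / 2
noncomputable def tau (r : ℝ) : ℝ := -2 - d.k * (r + 1 / 2)
noncomputable def a₂ : ℝ := d.tau (d.η ^ 2 / 8)
noncomputable def u (a : ℝ) : ℝ := d.a₂ - 1 + jj (a - (d.a₂ - 1))
noncomputable def z (q : ℝ × ℂ) : ℝ × ℂ := (d.rho q.1, d.e • (q.2 - 2))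
noncomputable def t (q : ℝ × ℂ) : ℝ := pt (d.z q)
noncomputable def w (q : ℝ × ℂ) : ℂ := st (-1 - q.1) • pw (d.z q)
noncomputable def l (q : ℝ × ℂ) : ℝ := Real.log (d.t q / d.t₀)
def U : Set (ℝ × ℂ) := {q | 1 < ‖q.2‖ ∧ d.z q ∈ PD0}
/-- the point with position `c` and height `b` -/
noncomputable def kap (c : ℂ) (b : ℝ) : ℝ × ℂ :=
  (d.tau ((‖c‖ ^ 2 - (d.t₀ * Real.exp b) ^ 2) / 2), 2 + (d.t₀ * Real.exp b / d.e) • c)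
noncomputable def μ (q : ℝ × ℂ) : ℂ := fderiv ℝ d.w q (1, 0)

/-- the model hypersurface -/
def MX : Set (E × ℝ × ℂ) := {p | p.1 ∈ d.N ∧ p.2 ∈ d.U ∧ d.s p.1 = d.w p.2 ∧ pp p.2.2 ^ 2 ≤ 1}
/-- the derivative of the equation -/
noncomputable def mL (p : E × ℝ × ℂ) : E × ℝ × ℂ →L[ℝ] ℂ :=
  (fderiv ℝ d.s p.1).comp (fst ℝ E (ℝ × ℂ)) - (fderiv ℝ d.w p.2).comp (snd ℝ E (ℝ × ℂ))
/-- the tangent spaces -/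
noncomputable def MT (p : E × ℝ × ℂ) : Submodule ℝ (E × ℝ × ℂ) := kr ((Tan d.N p.1).prod ⊤) (d.mL p)
def out (b : ℝ) : Set (E × ℝ × ℂ) := d.MX ∩ {p | p.2.1 ≤ -1 ∧ b ≤ d.l p.2}
def col (b : ℝ) : Set (E × ℝ × ℂ) := d.MX ∩ {p | b ≤ d.l p.2 ∧ d.l p.2 ≤ 3}

/-- projections -/
noncomputable def p₁ (E : Type) [NormedAddCommGroup E] [NormedSpace ℝ E] : E × ℝ × ℂ →L[ℝ] E × ℝ :=
  (fst ℝ E (ℝ × ℂ)).prod ((fst ℝ ℝ ℂ).comp (snd ℝ E (ℝ × ℂ)))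
noncomputable def p₂ (E : Type) [NormedAddCommGroup E] [NormedSpace ℝ E] : E × ℝ × ℂ →L[ℝ] ℂ :=
  (snd ℝ ℝ ℂ).comp (snd ℝ E (ℝ × ℂ))
noncomputable def pc (p : E × ℝ × ℂ) : E × ℝ × ℂ →L[ℝ] E × ℝ :=
  (fst ℝ E (ℝ × ℂ)).prod ((fderiv ℝ d.l p.2).comp (snd ℝ E (ℝ × ℂ)))

@[simp] theorem p₁_apply (v : E × ℝ × ℂ) : p₁ E v = (v.1, v.2.1) := rfl
@[simp] theorem p₂_apply (v : E × ℝ × ℂ) : p₂ E v = v.2.2 := rfl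
@[simp] theorem pc_apply (p v : E × ℝ × ℂ) : d.pc p v = (v.1, fderiv ℝ d.l p.2 v.2) := rfl
@[simp] theorem mL_apply (p v : E × ℝ × ℂ) :
    d.mL p v = fderiv ℝ d.s p.1 v.1 - fderiv ℝ d.w p.2 v.2 := rfl

/-- the Liouville form -/
noncomputable def lam (K k' : ℝ) (p : E × ℝ × ℂ) : F1 (E × ℝ × ℂ) :=
  Real.exp (k' * HH (d.l p.2)) •
    (Real.exp (st (d.l p.2) * d.u p.2.1) • (d.α p.1).comp (fst ℝ E (ℝ × ℂ)) +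
      (st (d.l p.2) * K) • (d.σ p.2.2).comp (p₂ E))

noncomputable def Γ (K : ℝ) (q : ℝ × ℂ) : ℝ :=
  K * (d.t q / d.e) ^ 2 * Real.exp (-(st (d.l q) * d.u q.1)) / 2
noncomputable def c₁ (q : ℝ × ℂ) : ℝ :=
  deriv st (d.l q) * d.u q.1 + st (d.l q) * deriv d.u q.1 * d.k * d.t q ^ 2
noncomputable def Θ' (p : E × ℝ × ℂ) : ℝ :=
  d.Θ p.1 + d.k * st (d.l p.2) * deriv d.u p.2.1 * ‖d.s p.1‖ ^ 2 * d.Λ p.1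
noncomputable def S₀ (K : ℝ) (p : E × ℝ × ℂ) : ℝ :=
  1 + st (d.l p.2) * d.Γ K p.2 * (2 * d.Λ p.1 + d.Θ' p)
noncomputable def S₁ (K : ℝ) (p : E × ℝ × ℂ) : ℝ :=
  d.c₁ p.2 * (1 + 2 * st (d.l p.2) * d.Γ K p.2 * d.Λ p.1) +
    (deriv st (d.l p.2) + 2 * st (d.l p.2)) * d.Γ K p.2 * d.Θ' p
/-- the forms on the collar, in the coordinates `(x, l)` -/
noncomputable def cF (K : ℝ) (p : E × ℝ × ℂ) (A ϑ : ℝ) : Bil (E × ℝ) :=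
  Fm (dF d.α p.1) (d.α p.1) (fderiv ℝ d.s p.1) (2 * st (d.l p.2) * d.Γ K p.2)
    (-((d.k * st (d.l p.2) * deriv d.u p.2.1) • d.s p.1)) (A + ϑ * d.c₁ p.2)
    (((A * st (d.l p.2) + ϑ * (deriv st (d.l p.2) + 2 * st (d.l p.2))) * d.Γ K p.2) •
      (Complex.I * d.s p.1))
/-- the vertical spaces and forms -/
noncomputable def VT (p : E × ℝ × ℂ) : Submodule ℝ (E × ℝ) :=
  kr ((Tan d.N p.1).prod ⊤) (lm (fderiv ℝ d.s p.1) (d.μ p.2))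
noncomputable def Vo (p : E × ℝ × ℂ) : Bil (E × ℝ) := Om (dF d.α p.1) (deriv d.u p.2.1 • d.α p.1)

/-- inequalities between the constants -/
structure Num : Prop where
  η : 0 < d.η
  e : 0 < d.e
  k : 0 < d.k
  t₀ : 0 < d.t₀
  L₀ : 0 < d.L₀
  M : 0 ≤ d.M
  S : 0 ≤ d.S
  C : ∀ x, deriv st x ≤ d.C
  i₁ : 10 * d.e ≤ d.η ^ 2
  i₂ : 20 * d.C * d.e * d.M ≤ d.L₀
  i₃ : d.t₀ * Real.exp 3 ≤ 1
  i₄ : 8 * (d.t₀ * Real.exp 3) * d.S ≤ d.e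
  i₅ : 8 ≤ d.k * d.η ^ 2
  i₆ : 2 * d.M ≤ d.k * d.t₀ * d.L₀

/-- hypotheses on the data -/
structure Ok : Prop where
  num : d.Num
  sα : ContDiff ℝ ∞ d.α
  ss : ContDiff ℝ ∞ d.s
  pl : Plane d.σ d.θ₀
  opn : IsOpen d.O
  sub : d.N ⊆ d.O
  cpt : IsCompact d.N
  cs : CS d.N (Tan d.N)
  cR : ContinuousOn d.R d.N
  c₁ : ContinuousOn d.X₁ d.N
  c₂ : ContinuousOn d.X₂ d.N
  cd : ∀ x ∈ d.N, CD (Tan d.N x) (dF d.α x) (d.α x) (fderiv ℝ d.s x) (d.R x) (d.X₁ x) (d.X₂ x)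
  near : ∀ x ∈ d.N, ‖d.s x‖ ≤ d.η → d.L₀ ≤ d.Λ x
  far : ∀ x ∈ d.N, d.η / 2 ≤ ‖d.s x‖ → 0 < d.Θ x
  all : ∀ x ∈ d.N, 0 < d.Θ x + 2 * d.Λ x
  bθ : ∀ x ∈ d.N, ‖d.θ x‖ ≤ d.M
  bs : ∀ x ∈ d.O, ‖d.s x‖ ≤ d.S

/-- pointwise properties of the model -/
structure Pt (K k' : ℝ) (p : E × ℝ × ℂ) : Prop where
  onto : Onto ((Tan d.N p.1).prod ⊤) (d.mL p)
  nd : Nd (d.MT p) (dF (d.lam K k') p)
  sgn : 1 / 2 < pp p.2.2 ^ 2 → ∀ Z ∈ d.MT p, (∀ v ∈ d.MT p, dF (d.lam K k') p Z v = d.lam K k' p v) →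
    0 < pp p.2.2 * fderiv ℝ pp p.2.2 Z.2.2
  chr : 1 / 2 < pp p.2.2 ^ 2 → ∀ Z ∈ d.MT p, ∀ c : ℝ,
    (∀ v ∈ d.MT p, dF (d.lam K k') p Z v = c * fderiv ℝ pp p.2.2 v.2.2) →
    ∃ r : ℝ, 0 < r ∧ Z.2.2 = -(c * r) • (Complex.I * p.2.2)

/-- the result on the model -/
structure MOk (K k' : ℝ) : Prop where
  hK : 0 < K
  hk : 0 < k'
  pt : ∀ p ∈ d.MX, p.2.1 ≤ -1 → d.Pt K k' p
  si : ∀ b ≤ 3, SI (d.out b) d.MT (dF (d.lam K k')) (fun p => (Tan d.N p.1).prod ⊤)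
    fun p => symz d.α p.1

end Dat

end Pool.Agent.Lib.MP_ccffa6_gt.P
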