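import Pool.Agent.Lib.MP_ccffa6_gt.P.SBDef

/-! The inductive structure: an exact cobordism cut out by equations in `N × Y`. -/

namespace Pool.Agent.Lib.MP_ccffa6_gt.P

open Set ContinuousLinearMap
open scoped ContDiff

variable {E : Type} [NormedAddCommGroup E] [NormedSpace ℝ E]

/-- the data -/
structure PD (E Y F : Type) [NormedAddCommGroup E] [NormedSpace ℝ E] [NormedAddCommGroup Y]
    [NormedSpace ℝ Y] [NormedAddCommGroup F] [NormedSpace ℝ F] where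
  V : Set Y
  G : E × Y → F
  τ : Y → ℝ
  Φ : Y → ℝ
  lam : Form1 (E × Y)
  κ : E × ℝ → Y
  o : Bil F

variable {Y F : Type} [NormedAddCommGroup Y] [NormedSpace ℝ Y] [NormedAddCommGroup F]
  [NormedSpace ℝ F]

/-- the cobordism with its negative end -/
def PD.X (D : PD E Y F) (N : Set E) : Set (E × Y) :=
  {p | p.1 ∈ N ∧ p.2 ∈ D.V ∧ D.G p = 0 ∧ D.Φ p.2 ≤ 0}

/-- its tangent spaces -/
noncomputable def PD.T (D : PD E Y F) (N : Set E) (p : E × Y) : Submodule ℝ (E × Y) :=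
  kr ((Tan N p.1).prod ⊤) (fderiv ℝ D.G p)

/-- `γ` is a closed characteristic of the convex end -/
structure PD.Orb (D : PD E Y F) (N : Set E) (γ γ' : ℝ → E × Y) (T : ℝ) : Prop where
  pos : 0 < T
  per : ∀ t, γ (t + T) = γ t
  mem : ∀ t, γ t ∈ D.X N ∧ D.Φ (γ t).2 = 0
  der : ∀ t, HasDerivAt γ (γ' t) t
  cont : Continuous γ'
  tan : ∀ t, γ' t ∈ D.T N (γ t) ∧ fderiv ℝ D.Φ (γ t).2 (γ' t).2 = 0
  lam : ∀ t, 0 < D.lam (γ t) (γ' t)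
  chr : ∀ t, ∀ v ∈ D.T N (γ t), fderiv ℝ D.Φ (γ t).2 v.2 = 0 → dF D.lam (γ t) (γ' t) v = 0

/-- properties that do not involve `N` -/
structure PD.Amb (D : PD E Y F) (α : Form1 E) (O : Set E) : Prop where
  opn : IsOpen D.V
  rk : Module.finrank ℝ Y = Module.finrank ℝ F + 1
  alt : Alt D.o
  ndo : Nd ⊤ D.o
  sG : ContDiffOn ℝ ∞ D.G (univ ×ˢ D.V)
  sτ : ContDiffOn ℝ ∞ D.τ D.V
  sΦ : ContDiffOn ℝ ∞ D.Φ D.V
  slam : ContDiffOn ℝ ∞ D.lam (univ ×ˢ D.V)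
  sκ : ContDiffOn ℝ ∞ D.κ (O ×ˢ Iio 0)
  κ₁ : ∀ x ∈ O, ∀ a < 0, D.κ (x, a) ∈ D.V ∧ D.G (x, D.κ (x, a)) = 0 ∧ D.τ (D.κ (x, a)) = a
  κ₂ : ∀ x ∈ O, ∀ y ∈ D.V, D.G (x, y) = 0 → D.τ y < 0 → y = D.κ (x, D.τ y)
  inj : ∀ x ∈ O, ∀ y ∈ D.V, D.G (x, y) = 0 → D.τ y < 0 → ∀ v : Y,
    fderiv ℝ D.G (x, y) (0, v) = 0 → fderiv ℝ D.τ y v = 0 → v = 0
  lam₀ : ∀ x, ∀ y ∈ D.V, D.τ y < 0 → D.lam (x, y) = Real.exp (D.τ y) • (α x).comp (fst ℝ E Y)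
  Φ₁ : ∀ y ∈ D.V, -1 ≤ D.Φ y
  Φ₀ : ∀ x ∈ O, ∀ y ∈ D.V, D.G (x, y) = 0 → D.τ y < 0 → D.Φ y = -1

/-- properties of the cobordism over `N` -/
structure PD.Ok (D : PD E Y F) (α : Form1 E) (N : Set E) : Prop where
  cpt : ∀ a : ℝ, IsCompact (D.X N ∩ {p | a ≤ D.τ p.2})
  onto : ∀ p ∈ D.X N, Onto ((Tan N p.1).prod ⊤) (fderiv ℝ D.G p)
  nd : ∀ p ∈ D.X N, Nd (D.T N p) (dF D.lam p)
  out : ∀ p ∈ D.X N, D.Φ p.2 = 0 → ∀ Z ∈ D.T N p, (∀ v ∈ D.T N p, dF D.lam p Z v = D.lam p v) →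
    0 < fderiv ℝ D.Φ p.2 Z.2
  hyp : ∀ γ γ' T, D.Orb N γ γ' T → ∃ θ : Form1 Y, ContDiffOn ℝ ∞ θ D.V ∧
    (∀ y ∈ D.V, dF θ y = 0) ∧ ∫ t in (0 : ℝ)..T, θ (γ t).2 (γ' t).2 ≠ 0
  si : SI (D.X N ∩ {p | -1 ≤ D.τ p.2}) (fun p => (D.T N p).prod ⊤) (fun p => osum (dF D.lam p) D.o)
    (fun p => ((Tan N p.1).prod ⊤).prod ⊤) fun p => osum (symz α p.1) D.o

/-- existence of the structure -/
def HasPD (α : Form1 E) (O N : Set E) : Prop :=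
  ∃ (Y F : Type) (_ : NormedAddCommGroup Y) (_ : NormedSpace ℝ Y) (_ : FiniteDimensional ℝ Y)
    (_ : NormedAddCommGroup F) (_ : NormedSpace ℝ F) (_ : FiniteDimensional ℝ F) (D : PD E Y F),
    D.Amb α O ∧ D.Ok α N

/-- the inductive step, proved in `Step` -/
def StepStmt (E : Type) [NormedAddCommGroup E] [NormedSpace ℝ E] : Prop :=
  ∀ (α : Form1 E) (O N : Set E) (s : E → ℂ) (η : ℝ), ContDiff ℝ ∞ α → Bornology.IsBounded O →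
    IsOpen O → N ⊆ O → IsCompact N → CS N (Tan N) → (∀ x ∈ N, Nd ((Tan N x).prod ⊤) (symz α x)) →
    OB N α s η → (∀ x ∈ N, s x = 0 → Tan (N ∩ s ⁻¹' {0}) x = kr (Tan N x) (fderiv ℝ s x)) →
    HasPD α O (N ∩ s ⁻¹' {0}) → HasPD α O N

end Pool.Agent.Lib.MP_ccffa6_gt.P
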