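import Pool.Agent.Lib.MP_ccffa6_gt.P.SDef

/-! Ambient properties of the new structure. -/

namespace Pool.Agent.Lib.MP_ccffa6_gt.P

open Set ContinuousLinearMap
open scoped ContDiff

variable {E Y F : Type} [NormedAddCommGroup E] [NormedSpace ℝ E] [NormedAddCommGroup Y]
  [NormedSpace ℝ Y] [NormedAddCommGroup F] [NormedSpace ℝ F]
  [FiniteDimensional ℝ E] [FiniteDimensional ℝ Y] [FiniteDimensional ℝ F]
  {d : Dat E} {D : PD E Y F} {K k' ε : ℝ} {p : E × Y × ℂ}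

section

omit [FiniteDimensional ℝ E] [FiniteDimensional ℝ Y] [FiniteDimensional ℝ F]

theorem s1_τ (h : SOk d D K k') :
    ContDiffOn ℝ ∞ (fun y : Y × ℂ => D.τ y.1) (step d D K k' ε).V :=
  h.amb.sτ.comp contDiffOn_fst fun _ hy => hy.1

theorem s1_qq (h : SOk d D K k') : ContDiffOn ℝ ∞ D.qq (step d D K k' ε).V :=
  (s1_τ h).prodMk contDiffOn_snd

theorem s1_opn (h : SOk d D K k') : IsOpen (step d D K k' ε).V :=
  ContinuousOn.isOpen_inter_preimage (f := D.qq) (s := Prod.fst ⁻¹' D.V)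
    ((h.amb.sτ.continuousOn.comp continuousOn_fst fun _ hy => hy).prodMk continuousOn_snd)
    (h.amb.opn.preimage continuous_fst) d.isOpen_U

theorem s1_l (h : SOk d D K k') :
    ContDiffOn ℝ ∞ (fun y : Y × ℂ => d.l (D.qq y)) (step d D K k' ε).V :=
  h.ok.num.contDiffOn_l.comp (s1_qq h) fun _ hy => hy.2

theorem s1_dq (h : SOk d D K k') {y : Y × ℂ} (hy : y.1 ∈ D.V) : HasFDerivAt D.qq
    (((fderiv ℝ D.τ y.1).comp (fst ℝ Y ℂ)).prod (snd ℝ Y ℂ)) y :=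
  (((h.amb.sτ.contDiffAt (h.amb.opn.mem_nhds hy)).differentiableAt (by simp)).hasFDerivAt.comp y
    hasFDerivAt_fst).prodMk hasFDerivAt_snd

theorem s1_neg (h : SOk d D K k') {y : Y × ℂ} (hy : y ∈ (step d D K k' ε).V)
    (h0 : (step d D K k' ε).τ y < 0) : d.l (D.qq y) < 0 ∧ D.τ y.1 ≤ -2 :=
  have a : d.l (D.qq y) < 0 := neg_of_mul_neg_right h0 h.m.hk.le
  ⟨a, h.ok.num.lo hy.2 (by linarith)⟩

theorem s1_kap (h : SOk d D K k') {x : E} (hx : x ∈ d.O) {a : ℝ} (ha : a < 0) :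
    d.kap (d.s x) (a / k') ∈ d.U ∧ d.w (d.kap (d.s x) (a / k')) = d.s x ∧
      d.l (d.kap (d.s x) (a / k')) = a / k' ∧ (d.kap (d.s x) (a / k')).1 < 0 := by
  have b : a / k' ≤ 3 := (div_neg_of_neg_of_pos ha h.m.hk).le.trans (by norm_num)
  obtain ⟨a1, a2, a3, -⟩ := h.ok.num.kap_mem (h.ok.bs x hx) b
  exact ⟨a1, a2, a3, (h.ok.num.lo a1 (a3.trans_le b)).trans_lt (by norm_num)⟩

theorem s1_dG (h : SOk d D K k') (hp : p.2 ∈ (step d D K k' ε).V) (v : E × Y × ℂ) :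
    fderiv ℝ (step d D K k' ε).G p v =
      (fderiv ℝ D.G (p.1, p.2.1) (v.1, v.2.1), d.mL (D.Pi p) (D.DPi p v)) := by
  have a1 := ((h.amb.sG.contDiffAt (x := (p.1, p.2.1)) ((isOpen_univ.prod h.amb.opn).mem_nhds
    ⟨trivial, hp.1⟩)).differentiableAt (by simp)).hasFDerivAt.comp p (pr E Y).hasFDerivAt
  have a2 := (h.ok.ss.differentiable (by simp) p.1).hasFDerivAt.comp p hasFDerivAt_fst
  have a3 := ((d.contDiffOn_w.contDiffAt (d.isOpen_U.mem_nhds hp.2)).differentiableAt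
    (by simp)).hasFDerivAt.comp p ((s1_dq h hp.1).comp p hasFDerivAt_snd)
  rw [show fderiv ℝ (step d D K k' ε).G p = _ from (a1.prodMk (a2.sub a3)).fderiv]
  rfl

theorem s1_lam (h : SOk d D K k') :
    ContDiffOn ℝ ∞ (step d D K k' ε).lam (univ ×ˢ (step d D K k' ε).V) := by
  have a1 := (s1_l (ε := ε) h).comp (contDiffOn_snd (s := (univ : Set E) ×ˢ _)) fun _ hy => hy.2
  have a2 := (s1_τ (ε := ε) h).comp (contDiffOn_snd (s := (univ : Set E) ×ˢ _)) fun _ hy => hy.2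
  have a3 := contDiff_st.comp_contDiffOn a1
  exact (contDiffOn_const.mul (contDiff_HH.comp_contDiffOn a1)).exp.smul
    ((((a3.mul (d.contDiff_u.comp_contDiffOn a2)).sub a2).exp.smul
      ((h.amb.slam.comp (pr E Y).contDiff.contDiffOn fun _ hy => ⟨trivial, hy.2.1⟩).clm_comp
        contDiffOn_const)).add ((a3.mul contDiffOn_const).smul
      ((h.ok.pl.sσ.comp (pr₂ E Y).contDiff.contDiffOn fun p hy =>
        Dat.ne_zero_of_U (q := D.qq p.2) hy.2.2).clm_comp contDiffOn_const)))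

theorem s1_κ (h : SOk d D K k') : ContDiffOn ℝ ∞ (step d D K k' ε).κ (d.O ×ˢ Iio 0) := by
  have a := d.contDiff_kap.comp (f := fun r : E × ℝ => (d.s r.1, r.2 / k'))
    ((h.ok.ss.comp contDiff_fst).prodMk (contDiff_snd.div_const _))
  exact (h.amb.sκ.comp (contDiff_fst.prodMk a.fst).contDiffOn fun r hr =>
    ⟨hr.1, (s1_kap h hr.1 hr.2).2.2.2⟩).prodMk a.snd.contDiffOn

theorem s1_inj (h : SOk d D K k') {x : E} (hx : x ∈ d.O) {y : Y × ℂ} (hy : y ∈ (step d D K k' ε).V)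
    (h1 : (step d D K k' ε).G (x, y) = 0) (h0 : (step d D K k' ε).τ y < 0) (v : Y × ℂ)
    (h2 : fderiv ℝ (step d D K k' ε).G (x, y) (0, v) = 0)
    (h3 : fderiv ℝ (step d D K k' ε).τ y v = 0) : v = 0 := by
  obtain ⟨-, n2⟩ := s1_neg h hy h0
  have a := (((h.ok.num.contDiffOn_l.contDiffAt (d.isOpen_U.mem_nhds hy.2)).differentiableAt
    (by simp)).hasFDerivAt.comp y (s1_dq h hy.1)).const_mul k'
  rw [show fderiv ℝ (step d D K k' ε).τ y = _ from a.fderiv] at h3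
  rw [s1_dG h hy, Prod.mk_eq_zero] at h2
  have b := Prod.mk_eq_zero.1 (h.ok.num.col_inj hy.2 n2 (v := (fderiv ℝ D.τ y.1 v.1, v.2))
    (by simpa [PD.Pi] using h2.2) (by simpa [h.m.hk.ne'] using h3))
  exact Prod.ext (h.amb.inj x hx _ hy.1 (congrArg Prod.fst h1) (by linarith) _ h2.1 b.1) b.2

end

/-- the ambient properties -/
theorem SOk.amb' (h : SOk d D K k') (hε : ε ≤ 1) : (step d D K k' ε).Amb d.α d.O where
  opn := s1_opn h
  rk := by simp only [Module.finrank_prod, h.amb.rk]; omega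
  alt := h.amb.alt.osum alt_ar
  ndo := by simpa [step] using h.amb.ndo.osum nd_ar
  sG := (h.amb.sG.comp (pr E Y).contDiff.contDiffOn fun _ hy => ⟨trivial, hy.2.1⟩).prodMk
    ((h.ok.ss.comp contDiff_fst).contDiffOn.sub (d.contDiffOn_w.comp
      ((s1_qq h).comp contDiffOn_snd fun _ hy => hy.2) fun _ hy => hy.2.2))
  sτ := contDiffOn_const.mul (s1_l h)
  sΦ := (((contDiff_AA ε).comp_contDiffOn (h.amb.sΦ.comp contDiffOn_fst fun _ hy => hy.1)).add
    (contDiff_BB.comp (contDiff_pp.comp contDiff_snd)).contDiffOn).sub contDiffOn_const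
  slam := s1_lam h
  sκ := s1_κ h
  κ₁ x hx a ha := by
    obtain ⟨a1, a2, a3, a4⟩ := s1_kap h hx ha
    obtain ⟨b1, b2, b3⟩ := h.amb.κ₁ x hx _ a4
    have e : D.qq ((step d D K k' ε).κ (x, a)) = d.kap (d.s x) (a / k') := Prod.ext b3 rfl
    refine ⟨⟨b1, e ▸ a1⟩, Prod.ext b2 ?_, ?_⟩
    · change d.s x - d.w (D.qq _) = 0
      rw [e, a2, sub_self]
    · change k' * d.l (D.qq _) = a
      rw [e, a3, mul_div_cancel₀ _ h.m.hk.ne']
  κ₂ x hx y hy h1 h0 := by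
    obtain ⟨n1, n2⟩ := s1_neg h hy h0
    have e : d.kap (d.s x) (k' * d.l (D.qq y) / k') = D.qq y := by
      rw [mul_div_cancel_left₀ _ h.m.hk.ne', sub_eq_zero.1 (congrArg Prod.snd h1)]
      exact (h.ok.num.kap_eq hy.2 (by linarith)).symm
    exact Prod.ext ((h.amb.κ₂ x hx _ hy.1 (congrArg Prod.fst h1) (by linarith)).trans
      (congrArg (fun q : ℝ × ℂ => D.κ (x, q.1)) e.symm)) (congrArg (fun q : ℝ × ℂ => q.2) e.symm)
  inj x hx y hy := s1_inj h hx hy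
  lam₀ x y hy h0 := by
    obtain ⟨n1, n2⟩ := s1_neg h hy h0
    refine ContinuousLinearMap.ext fun v => ?_
    simp [step, (HH_of_le (show d.l (D.qq y) ≤ 2 by linarith)).1,
      Real.smoothTransition.zero_of_nonpos n1.le, h.amb.lam₀ x _ hy.1 (by linarith), Real.exp_neg]
  Φ₁ y _ := by
    change -1 ≤ AA ε _ + BB _ - 1
    linarith [AA_nonneg ε (D.Φ y.1), BB_nonneg (pp y.2)]
  Φ₀ x hx y hy h1 h0 := by
    obtain ⟨n1, n2⟩ := s1_neg h hy h0
    have a := h.ok.num.col_near hy.2 (by linarith)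
      (sub_eq_zero.1 (congrArg Prod.snd h1) ▸ h.ok.bs x hx)
    change AA ε _ + BB _ - 1 = -1
    rw [h.amb.Φ₀ x hx _ hy.1 (congrArg Prod.fst h1) (by linarith), AA_of_le (by linarith),
      (BB_of_le (pp_sq_le (ζ := y.2) (a.trans (by norm_num)))).1]
    norm_num

theorem SOk.dG (h : SOk d D K k') (hp : p.2 ∈ (step d D K k' ε).V) (v : E × Y × ℂ) :
    fderiv ℝ (step d D K k' ε).G p v =
      (fderiv ℝ D.G (p.1, p.2.1) (v.1, v.2.1), d.mL (D.Pi p) (D.DPi p v)) := s1_dG h hp v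

theorem SOk.dΦ (h : SOk d D K k') {y : Y × ℂ} (hy : y ∈ (step d D K k' ε).V) (v : Y × ℂ) :
    fderiv ℝ (step d D K k' ε).Φ y v = deriv (AA ε) (D.Φ y.1) * fderiv ℝ D.Φ y.1 v.1 +
      deriv BB (pp y.2) * fderiv ℝ pp y.2 v.2 := by
  have a1 := ((contDiff_AA ε).differentiable (by simp) _).hasDerivAt.comp_hasFDerivAt y
    (((h.amb.sΦ.contDiffAt (h.amb.opn.mem_nhds hy.1)).differentiableAt (by simp)).hasFDerivAt.comp y
      hasFDerivAt_fst)
  have a2 := (contDiff_BB.differentiable (by simp) _).hasDerivAt.comp_hasFDerivAt y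
    ((contDiff_pp.differentiable (by simp) y.2).hasFDerivAt.comp y hasFDerivAt_snd)
  rw [show fderiv ℝ (step d D K k' ε).Φ y = _ from ((a1.add a2).sub_const 1).fderiv]
  rfl

end Pool.Agent.Lib.MP_ccffa6_gt.P
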