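import Pool.Agent.Lib.MP_ccffa6_gt.P.S1

/-! The zone `τ ≤ -1`, isomorphic to the model. -/

namespace Pool.Agent.Lib.MP_ccffa6_gt.P

open Set ContinuousLinearMap
open scoped ContDiff

variable {E Y F : Type} [NormedAddCommGroup E] [NormedSpace ℝ E] [NormedAddCommGroup Y]
  [NormedSpace ℝ Y] [NormedAddCommGroup F] [NormedSpace ℝ F]
  [FiniteDimensional ℝ E] [FiniteDimensional ℝ Y] [FiniteDimensional ℝ F]
  {d : Dat E} {D : PD E Y F} {K k' ε : ℝ} {p : E × Y × ℂ}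

theorem SOk.mem_MX (h : SOk d D K k') (hp : p ∈ (step d D K k' ε).X d.N) : D.Pi p ∈ d.MX := by
  obtain ⟨h1, h2, h3, h4⟩ := hp
  have h5 : AA ε (D.Φ p.2.1) + BB (pp p.2.2) - 1 ≤ 0 := h4
  refine ⟨h1, h2.2, sub_eq_zero.1 (congrArg Prod.snd h3), BB_le_one_iff.1 ?_⟩
  change BB (pp p.2.2) ≤ 1
  linarith [AA_nonneg ε (D.Φ p.2.1)]

/-- `v ↦ (dG (0, v), dτ v)` is injective (`Amb.inj`), hence onto (`Amb.rk`) -/
theorem PD.Amb.solve {α : Form1 E} {O : Set E} (h : D.Amb α O) {x : E} (hx : x ∈ O) {y : Y}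
    (hy : y ∈ D.V) (hG : D.G (x, y) = 0) (hτ : D.τ y < 0) (u : E) (f : F) (a : ℝ) :
    ∃ v : Y, fderiv ℝ D.G (x, y) (u, v) = f ∧ fderiv ℝ D.τ y v = a := by
  let L : Y →ₗ[ℝ] F × ℝ := (((fderiv ℝ D.G (x, y)).comp (inr ℝ E Y)).prod (fderiv ℝ D.τ y) :)
  have h1 : Function.Injective L := (injective_iff_map_eq_zero L).2 fun v hv =>
    h.inj x hx y hy hG hτ v (congrArg Prod.fst hv) (congrArg Prod.snd hv)
  obtain ⟨v, hv⟩ := (LinearMap.injective_iff_surjective_of_finrank_eq_finrank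
    (by rw [Module.finrank_prod, Module.finrank_self, h.rk])).1 h1
    (f - fderiv ℝ D.G (x, y) (u, 0), a)
  refine ⟨v, ?_, congrArg Prod.snd hv⟩
  have h2 : fderiv ℝ D.G (x, y) (0, v) = f - fderiv ℝ D.G (x, y) (u, 0) := congrArg Prod.fst hv
  rw [show (u, v) = (u, 0) + (0, v) by simp, map_add, h2, add_sub_cancel]

theorem SOk.out_bij (h : SOk d D K k') (hp : p ∈ (step d D K k' ε).X d.N) (ho : D.τ p.2.1 ≤ -1) :
    BijOn (D.DPi p) ((step d D K k' ε).T d.N p) (d.MT (D.Pi p)) := by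
  have hx := h.ok.sub hp.1
  have hG : D.G (p.1, p.2.1) = 0 := congrArg Prod.fst hp.2.2.1
  have hτ : D.τ p.2.1 < 0 := by linarith
  have key : ∀ v : E × Y × ℂ, v ∈ (step d D K k' ε).T d.N p ↔ v.1 ∈ Tan d.N p.1 ∧
      fderiv ℝ D.G (p.1, p.2.1) (v.1, v.2.1) = 0 ∧ d.mL (D.Pi p) (D.DPi p v) = 0 := fun v => by
    rw [← Prod.mk_eq_zero, ← h.dG hp.2.1]
    exact ⟨fun hv => ⟨hv.1.1, hv.2⟩, fun hv => ⟨⟨hv.1, trivial⟩, hv.2⟩⟩
  refine ⟨fun v hv => ⟨⟨hv.1.1, trivial⟩, ((key v).1 hv).2.2⟩, fun v hv v' hv' e => ?_,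
    fun w hw => ?_⟩
  · have h1 := ((key _).1 (Submodule.sub_mem _ hv hv')).2.1
    have h2 : D.DPi p (v - v') = 0 := by rw [map_sub, e, sub_self]
    have h3 : (v - v').1 = 0 := congrArg Prod.fst h2
    rw [h3] at h1
    exact sub_eq_zero.1 (Prod.ext h3 (Prod.ext (h.amb.inj _ hx _ hp.2.1.1 hG hτ _ h1
      (congrArg (fun z => z.2.1) h2)) (congrArg (fun z => z.2.2) h2)))
  · obtain ⟨v, h1, h2⟩ := h.amb.solve hx hp.2.1.1 hG hτ w.1 0 w.2.1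
    have h3 : D.DPi p (w.1, v, w.2.2) = w := by rw [PD.DPi_apply, h2]
    exact ⟨(w.1, v, w.2.2), (key _).2 ⟨hw.1.1, h1, h3.symm ▸ hw.2⟩, h3⟩

theorem SOk.out_lam (h : SOk d D K k') (hp : p.2 ∈ (step d D K k' ε).V) (ho : D.τ p.2.1 < 0) :
    (step d D K k' ε).lam p = (d.lam K k' (D.Pi p)).comp (D.DPi p) := by
  refine ContinuousLinearMap.ext fun v => ?_
  have e := h.amb.lam₀ p.1 p.2.1 hp.1 ho
  simp only [step, Dat.lam, PD.Pi, PD.qq, e, smul_apply, add_apply, comp_apply, pr_apply, pr₂_apply,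
    PD.DPi_apply, Dat.p₂_apply, coe_fst', smul_eq_mul]
  rw [← mul_assoc (Real.exp (_ - _)), ← Real.exp_add, sub_add_cancel]

omit [FiniteDimensional ℝ E] [FiniteDimensional ℝ Y] [FiniteDimensional ℝ F] in
theorem s2_smooth (hV : IsOpen D.V) (hτ : ContDiffOn ℝ ∞ D.τ D.V) (hp : p.2.1 ∈ D.V) :
    ContDiffAt ℝ ∞ D.Pi p :=
  contDiffAt_fst.prodMk ((ContDiffAt.comp (f := fun q : E × Y × ℂ => q.2.1) p
    (hτ.contDiffAt (hV.mem_nhds hp)) contDiffAt_snd.fst).prodMk contDiffAt_snd.snd)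

omit [FiniteDimensional ℝ E] [FiniteDimensional ℝ Y] [FiniteDimensional ℝ F] in
theorem s2_fderiv (hV : IsOpen D.V) (hτ : ContDiffOn ℝ ∞ D.τ D.V) (hp : p.2.1 ∈ D.V) :
    fderiv ℝ D.Pi p = D.DPi p :=
  (hasFDerivAt_fst.prodMk ((HasFDerivAt.comp (f := fun q : E × Y × ℂ => q.2.1) p
    ((hτ.contDiffAt (hV.mem_nhds hp)).differentiableAt (by simp)).hasFDerivAt
    ((snd ℝ E Y).comp (pr E Y)).hasFDerivAt).prodMk (pr₂ E Y).hasFDerivAt)).fderiv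

/-- near `p` the form is `pb D.Pi (d.lam K k')`; `dF_congr`, `dF_pull` -/
theorem SOk.out_dlam (h : SOk d D K k') (hp : p.2 ∈ (step d D K k' ε).V) (ho : D.τ p.2.1 < 0) :
    dF (step d D K k' ε).lam p = bp (D.DPi p) (dF (d.lam K k') (D.Pi p)) := by
  have h1 := s2_smooth h.amb.opn h.amb.sτ hp.1
  have h2 : DifferentiableAt ℝ (d.lam K k') (D.Pi p) :=
    ((h.ok.contDiffOn_lam K k').contDiffAt ((isOpen_univ.prod d.isOpen_U).mem_nhds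
      ⟨trivial, hp.2⟩)).differentiableAt (by simp)
  rw [← s2_fderiv h.amb.opn h.amb.sτ hp.1, ← dF_pull (h1.of_le (WithTop.coe_le_coe.2 le_top)) h2]
  refine dF_congr ?_
  have c1 : ∀ᶠ q : E × Y × ℂ in nhds p, q.2.1 ∈ D.V :=
    (continuous_snd.fst.continuousAt).eventually (h.amb.opn.mem_nhds hp.1)
  have c2 : ∀ᶠ q : E × Y × ℂ in nhds p, D.qq q.2 ∈ d.U :=
    h1.continuousAt.snd.eventually (d.isOpen_U.mem_nhds hp.2)
  have c3 : ∀ᶠ q : E × Y × ℂ in nhds p, D.τ q.2.1 < 0 :=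
    h1.continuousAt.snd.fst.eventually_lt continuousAt_const ho
  filter_upwards [c1, c2, c3] with q q1 q2 q3
  rw [h.out_lam ⟨q1, q2⟩ q3, pb, s2_fderiv h.amb.opn h.amb.sτ q1]

theorem SOk.out_Φ (h : SOk d D K k') (hε : ε ≤ 1) (hp : p ∈ (step d D K k' ε).X d.N)
    (ho : D.τ p.2.1 < 0) : AA ε (D.Φ p.2.1) = 0 ∧ deriv (AA ε) (D.Φ p.2.1) = 0 := by
  have h1 : D.Φ p.2.1 ≤ -ε := by
    rw [h.amb.Φ₀ p.1 (h.ok.sub hp.1) p.2.1 hp.2.1.1 (congrArg Prod.fst hp.2.2.1) ho]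
    linarith
  exact ⟨AA_of_le h1, deriv_AA_of_le h1⟩

end Pool.Agent.Lib.MP_ccffa6_gt.P
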