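import Pool.Agent.Lib.MP_ccffa6_gt.P.S2

/-! The zone `-1 ≤ τ`, a product. -/

namespace Pool.Agent.Lib.MP_ccffa6_gt.P

open Set ContinuousLinearMap
open scoped ContDiff

variable {E Y F : Type} [NormedAddCommGroup E] [NormedSpace ℝ E] [NormedAddCommGroup Y]
  [NormedSpace ℝ Y] [NormedAddCommGroup F] [NormedSpace ℝ F]
  [FiniteDimensional ℝ E] [FiniteDimensional ℝ Y] [FiniteDimensional ℝ F]
  {d : Dat E} {D : PD E Y F} {K k' ε : ℝ} {p : E × Y × ℂ}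

omit [FiniteDimensional ℝ E] [FiniteDimensional ℝ Y] [FiniteDimensional ℝ F] in
theorem s2b_s (hp : p ∈ (step d D K k' ε).X d.N) (hi : -1 ≤ D.τ p.2.1) :
    D.G (p.1, p.2.1) = 0 ∧ d.s p.1 = 0 ∧ fderiv ℝ d.w (D.qq p.2) = 0 := by
  obtain ⟨-, ⟨-, hU⟩, hG, -⟩ := hp
  obtain ⟨w0, w1⟩ := Dat.w_hi hU hi
  have h1 : D.G (p.1, p.2.1) = 0 := congrArg Prod.fst hG
  have h2 : d.s p.1 - d.w (D.qq p.2) = 0 := congrArg Prod.snd hG
  rw [w0, sub_zero] at h2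
  exact ⟨h1, h2, w1⟩

theorem SOk.in_mem (h : SOk d D K k') (hε : 0 < ε) (hp : p ∈ (step d D K k' ε).X d.N)
    (hi : -1 ≤ D.τ p.2.1) : (p.1, p.2.1) ∈ D.X d.B := by
  obtain ⟨h1, h2, -⟩ := s2b_s hp hi
  refine ⟨⟨hp.1, h2⟩, hp.2.1.1, h1, (AA_le_one_iff hε).1 ?_⟩
  have h3 : AA ε (D.Φ p.2.1) + BB (pp p.2.2) - 1 ≤ 0 := hp.2.2.2
  have h4 := BB_nonneg (pp p.2.2)
  show AA ε (D.Φ p.2.1) ≤ 1
  linarith

theorem SOk.in_T (h : SOk d D K k') (hp : p ∈ (step d D K k' ε).X d.N) (hi : -1 ≤ D.τ p.2.1)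
    (v : E × Y × ℂ) : v ∈ (step d D K k' ε).T d.N p ↔ (v.1, v.2.1) ∈ D.T d.B (p.1, p.2.1) := by
  obtain ⟨-, h2, h3⟩ := s2b_s hp hi
  have e1 : v ∈ (step d D K k' ε).T d.N p ↔ (v.1 ∈ Tan d.N p.1 ∧ True) ∧
    fderiv ℝ (step d D K k' ε).G p v = 0 := Iff.rfl
  have e2 : (v.1, v.2.1) ∈ D.T d.B (p.1, p.2.1) ↔ (v.1 ∈ Tan d.B p.1 ∧ True) ∧
    fderiv ℝ D.G (p.1, p.2.1) (v.1, v.2.1) = 0 := Iff.rfl
  have e3 : v.1 ∈ Tan d.B p.1 ↔ v.1 ∈ Tan d.N p.1 ∧ fderiv ℝ d.s p.1 v.1 = 0 := by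
    rw [h.tan _ hp.1 h2]; rfl
  have e4 : d.mL (D.Pi p) (D.DPi p v) = fderiv ℝ d.s p.1 v.1 := by
    show fderiv ℝ d.s p.1 v.1 - fderiv ℝ d.w (D.qq p.2) _ = _
    rw [h3, zero_apply, sub_zero]
  rw [e1, e2, e3, h.dG hp.2.1, Prod.mk_eq_zero, e4]
  tauto

/-- `Num.hi`, `u_hi` -/
theorem SOk.in_lam (h : SOk d D K k') (hi : -2 ≤ D.τ p.2.1) :
    (step d D K k' ε).lam p = Real.exp (k' * 3) •
      ((D.lam (p.1, p.2.1)).comp (pr E Y) + K • (d.σ p.2.2).comp (pr₂ E Y)) := by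
  have h3 : 3 ≤ d.l (D.qq p.2) := (h.ok.num.hi (q := D.qq p.2) hi).2
  have h1 : st (d.l (D.qq p.2)) = 1 := Real.smoothTransition.one_of_one_le (by linarith)
  have h2 : d.u (D.τ p.2.1) = D.τ p.2.1 := (Dat.u_hi (h.ok.num.a₂_lt.le.trans hi)).1
  show Real.exp (k' * HH (d.l (D.qq p.2))) •
    (Real.exp (st (d.l (D.qq p.2)) * d.u (D.τ p.2.1) - D.τ p.2.1) •
        (D.lam (p.1, p.2.1)).comp (pr E Y) +
      (st (d.l (D.qq p.2)) * K) • (d.σ p.2.2).comp (pr₂ E Y)) = _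
  rw [h1, h2, (HH_of_ge h3).1, one_mul, one_mul, sub_self, Real.exp_zero, one_smul]

/-- `in_lam` on the open set `-2 < τ` -/
theorem SOk.in_dlam (h : SOk d D K k') (hp : p.2 ∈ (step d D K k' ε).V) (hi : -1 ≤ D.τ p.2.1) :
    dF (step d D K k' ε).lam p = Real.exp (k' * 3) •
      (bp (pr E Y) (dF D.lam (p.1, p.2.1)) + K • bp (pr₂ E Y) ar) := by
  have hV := h.amb.opn.mem_nhds hp.1
  have c1 : ContinuousAt (fun q : E × Y × ℂ => D.τ q.2.1) p :=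
    ContinuousAt.comp (f := fun q : E × Y × ℂ => q.2.1) (g := D.τ)
      (h.amb.sτ.continuousOn.continuousAt hV) continuous_snd.fst.continuousAt
  have ev : (step d D K k' ε).lam =ᶠ[nhds p] fun q => Real.exp (k' * 3) •
      ((D.lam (pr E Y q)).comp (pr E Y) + K • (d.σ (pr₂ E Y q)).comp (pr₂ E Y)) := by
    filter_upwards [c1.eventually (lt_mem_nhds (show -2 < D.τ p.2.1 by linarith))] with q hq
    exact h.in_lam hq.le
  have h0 : p.2.2 ≠ 0 := Dat.ne_zero_of_U hp.2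
  have d1 : DifferentiableAt ℝ D.lam (pr E Y p) :=
    (h.amb.slam.contDiffAt ((isOpen_univ.prod h.amb.opn).mem_nhds ⟨trivial, hp.1⟩)).differentiableAt
      (by simp)
  have d2 : DifferentiableAt ℝ d.σ (pr₂ E Y p) :=
    (h.ok.pl.sσ.contDiffAt (isOpen_compl_singleton.mem_nhds h0)).differentiableAt (by simp)
  have e1 : DifferentiableAt ℝ (fun q => (D.lam (pr E Y q)).comp (pr E Y)) p :=
    (d1.comp p (pr E Y).differentiableAt).clm_comp (differentiableAt_const _)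
  have e2 : DifferentiableAt ℝ (fun q => (d.σ (pr₂ E Y q)).comp (pr₂ E Y)) p :=
    (d2.comp p (pr₂ E Y).differentiableAt).clm_comp (differentiableAt_const _)
  rw [dF_congr ev, dF_const_smul _ (e1.fun_add (e2.fun_const_smul K)),
    dF_add e1 (e2.fun_const_smul K), dF_const_smul _ e2, dF_clm _ d1, dF_clm _ d2,
    h.ok.pl.dσ (pr₂ E Y p) h0]
  rfl

/-- `CD.bind`, `Ok.near` -/
theorem Dat.Ok.bind (h : d.Ok) {x : E} (hx : x ∈ d.B) :
    0 < d.Λ x ∧ Onto (Tan d.N x) (fderiv ℝ d.s x) := by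
  have h0 : d.s x = 0 := hx.2
  have h1 : 0 < d.Λ x := h.num.L₀.trans_le (h.near x hx.1 (by rw [h0, norm_zero]; exact h.num.η.le))
  exact ⟨h1, ((h.cd x hx.1).bind h1.ne').1⟩

theorem SOk.cs_B (h : SOk d D K k') : CS d.B (Tan d.B) :=
  ((h.ok.cs.mono inter_subset_left).kr (h.ok.ss.continuous_fderiv (by simp)).continuousOn
    fun _ hx => (h.ok.bind hx).2).congr fun x hx => h.tan x hx.1 hx.2

theorem SOk.cs_TB (h : SOk d D K k') : CS (D.X d.B) (D.T d.B) :=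
  ((h.cs_B.comp continuousOn_fst fun _ hp => hp.1).prod (cs_top _)).kr
    ((h.amb.sG.continuousOn_fderiv_of_isOpen (isOpen_univ.prod h.amb.opn) (by simp)).mono
      fun _ hp => ⟨trivial, hp.2.1⟩) h.pd.onto

/-- zone out: `Pt.onto` then `Amb.solve`; zone in: `Ok.bind` then `pd.onto` -/
theorem SOk.onto (h : SOk d D K k') (hε : 0 < ε) (hp : p ∈ (step d D K k' ε).X d.N) :
    Onto ((Tan d.N p.1).prod ⊤) (fderiv ℝ (step d D K k' ε).G p) := by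
  rintro ⟨f, c⟩
  rcases le_total (D.τ p.2.1) (-1) with ho | hi
  · obtain ⟨v, hv, e⟩ := (h.m.pt _ (h.mem_MX hp) ho).onto c
    obtain ⟨y, h1, h2⟩ := h.amb.solve (h.ok.sub hp.1) hp.2.1.1 (congrArg Prod.fst hp.2.2.1)
      (by linarith) v.1 f v.2.1
    refine ⟨(v.1, y, v.2.2), ⟨hv.1, trivial⟩, ?_⟩
    rw [h.dG hp.2.1, PD.DPi_apply]
    dsimp only
    rw [h1, h2, ← e]
  · have hm := h.in_mem hε hp hi
    obtain ⟨-, h2, h3⟩ := s2b_s hp hi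
    obtain ⟨u, hu, e⟩ := (h.ok.bind hm.1).2 c
    obtain ⟨v, hv, e'⟩ := h.pd.onto _ hm (f - fderiv ℝ D.G (p.1, p.2.1) (u, 0))
    have hv1 : v.1 ∈ kr (Tan d.N p.1) (fderiv ℝ d.s p.1) := by
      rw [← h.tan _ hp.1 h2]; exact hv.1
    have hv2 : fderiv ℝ d.s p.1 v.1 = 0 := hv1.2
    refine ⟨(u + v.1, v.2, 0), ⟨add_mem hu hv1.1, trivial⟩, ?_⟩
    rw [h.dG hp.2.1]
    refine Prod.ext ?_ ?_
    · show fderiv ℝ D.G (p.1, p.2.1) (u + v.1, v.2) = f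
      rw [show (u + v.1, v.2) = (u, 0) + v from Prod.ext rfl (zero_add _).symm, map_add, e',
        add_sub_cancel]
    · show fderiv ℝ d.s p.1 (u + v.1) - fderiv ℝ d.w (D.qq p.2) _ = c
      rw [h3, zero_apply, sub_zero, map_add, hv2, add_zero]
      exact e

theorem SOk.nd (h : SOk d D K k') (hε : 0 < ε) (hp : p ∈ (step d D K k' ε).X d.N) :
    Nd ((step d D K k' ε).T d.N p) (dF (step d D K k' ε).lam p) := by
  rcases le_total (D.τ p.2.1) (-1) with ho | hi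
  · refine (h.m.pt _ (h.mem_MX hp) ho).nd.of_bij (h.out_bij hp ho) fun u _ v _ => ?_
    rw [h.out_dlam hp.2.1 (by linarith), bp_apply]
  · have n := ((h.pd.nd _ (h.in_mem hε hp hi)).osum (nd_ar.smul h.m.hK.ne')).smul
      (Real.exp_pos (k' * 3)).ne'
    refine n.of_bij (A := (pr E Y).prod (pr₂ E Y)) ⟨fun v hv => ⟨(h.in_T hp hi v).1 hv, trivial⟩,
      fun u _ v _ e => ?_, fun y hy => ⟨(y.1.1, y.1.2, y.2), (h.in_T hp hi _).2 hy.1, rfl⟩⟩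
      fun u _ v _ => ?_
    · have e1 : ((u.1, u.2.1), u.2.2) = ((v.1, v.2.1), v.2.2) := e
      simp only [Prod.mk.injEq] at e1
      exact Prod.ext e1.1.1 (Prod.ext e1.1.2 e1.2)
    · rw [h.in_dlam hp.2.1 hi]
      simp only [smul_apply, add_apply, bp_apply, osum_apply, prod_apply]

end Pool.Agent.Lib.MP_ccffa6_gt.P
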