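import Pool.Agent.Lib.MP_ccffa6_gt.P.S2b

/-! Compactness. -/

namespace Pool.Agent.Lib.MP_ccffa6_gt.P

open Set ContinuousLinearMap
open scoped ContDiff

variable {E Y F : Type} [NormedAddCommGroup E] [NormedSpace ℝ E] [NormedAddCommGroup Y]
  [NormedSpace ℝ Y] [NormedAddCommGroup F] [NormedSpace ℝ F]
  [FiniteDimensional ℝ E] [FiniteDimensional ℝ Y] [FiniteDimensional ℝ F]
  {d : Dat E} {D : PD E Y F} {K k' ε : ℝ} {p : E × Y × ℂ}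

theorem s3_of {X : Type} [TopologicalSpace X] {s t : Set X} (h : IsCompact s) (h1 : s ⊆ t)
    (h2 : t ⊆ s) : IsCompact t := Subset.antisymm h1 h2 ▸ h

/-- the outer zone is an image of the model -/
theorem SOk.cpt_out (h : SOk d D K k') (hε : ε ≤ 1) (a : ℝ) :
    IsCompact ((step d D K k' ε).X d.N ∩ {p | a ≤ (step d D K k' ε).τ p.2} ∩
      {p | D.τ p.2.1 ≤ -1}) := by
  have hk := h.m.hk
  have hc : ContinuousOn (fun q : E × ℝ × ℂ => (q.1, D.κ (q.1, q.2.1), q.2.2)) (d.out (a / k')) :=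
    continuousOn_fst.prodMk ((h.amb.sκ.continuousOn.comp (by fun_prop) fun q hq =>
      ⟨h.ok.sub hq.1.1, lt_of_le_of_lt hq.2.1 (by norm_num)⟩).prodMk (by fun_prop))
  refine s3_of ((h.ok.cpt_out (a / k')).image_of_continuousOn hc) ?_ ?_
  · rintro _ ⟨⟨x, c, ζ⟩, ⟨⟨hx, hU, hs, hp⟩, hc1, hl⟩, rfl⟩
    have hc1' : c ≤ -1 := hc1
    have hl' : a / k' ≤ d.l (c, ζ) := hl
    obtain ⟨a1, a2, a3⟩ := h.amb.κ₁ x (h.ok.sub hx) c (by linarith)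
    have a4 := h.amb.Φ₀ x (h.ok.sub hx) _ a1 a2 (by linarith)
    have e : D.qq (D.κ (x, c), ζ) = (c, ζ) := Prod.ext a3 rfl
    refine ⟨⟨⟨hx, ⟨a1, ?_⟩, Prod.ext a2 ?_, ?_⟩, ?_⟩, a3.le.trans hc1'⟩
    · rw [e]
      exact hU
    · show d.s x - d.w (D.qq (D.κ (x, c), ζ)) = 0
      rw [e]
      exact sub_eq_zero.2 hs
    · show AA ε (D.Φ (D.κ (x, c))) + BB (pp ζ) - 1 ≤ 0
      rw [AA_of_le (by linarith)]
      linarith [BB_le_one_iff.2 hp]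
    · show a ≤ k' * d.l (D.qq (D.κ (x, c), ζ))
      rw [e, mul_comm]
      exact (div_le_iff₀ hk).1 hl'
  · rintro p ⟨⟨hp, ha⟩, ho⟩
    have ho' : D.τ p.2.1 ≤ -1 := ho
    have ha' : a ≤ k' * d.l (D.qq p.2) := ha
    refine ⟨D.Pi p, ⟨h.mem_MX hp, ho, (div_le_iff₀ hk).2 (by rwa [mul_comm] at ha')⟩, ?_⟩
    have := h.amb.κ₂ p.1 (h.ok.sub hp.1) p.2.1 hp.2.1.1 (congrArg Prod.fst hp.2.2.1) (by linarith)
    exact Prod.ext rfl (Prod.ext this.symm rfl)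

/-- the inner zone is a closed part of a product -/
theorem SOk.cpt_in (h : SOk d D K k') (hε : 0 < ε) (a : ℝ) :
    IsCompact ((step d D K k' ε).X d.N ∩ {p | a ≤ (step d D K k' ε).τ p.2} ∩
      {p | -1 ≤ D.τ p.2.1}) := by
  have h1 : IsCompact {ζ : ℂ | pp ζ ^ 2 ≤ 1} := (isCompact_closedBall 0 3).of_isClosed_subset
    (isClosed_le (contDiff_pp.continuous.pow 2) continuous_const)
    fun ζ hζ => mem_closedBall_zero_iff.2 (norm_of_pp hζ).2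
  have h2 := ((h.pd.cpt (-1)).prod h1).image
    (f := fun q : (E × Y) × ℂ => (q.1.1, q.1.2, q.2)) (by fun_prop)
  generalize hQ : (fun q : (E × Y) × ℂ => (q.1.1, q.1.2, q.2)) ''
    ((D.X d.B ∩ {p | -1 ≤ D.τ p.2}) ×ˢ {ζ : ℂ | pp ζ ^ 2 ≤ 1}) = Q at h2
  have hm : ∀ p ∈ Q, p.1 ∈ d.N ∧ p.2 ∈ (step d D K k' ε).V ∧ (step d D K k' ε).G p = 0 ∧
      -1 ≤ D.τ p.2.1 := by
    rw [← hQ]
    rintro _ ⟨⟨⟨x, y⟩, ζ⟩, ⟨⟨⟨hx, hy, hG, -⟩, hτ⟩, hζ⟩, rfl⟩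
    have hτ' : -1 ≤ D.τ y := hτ
    have hU : D.qq (y, ζ) ∈ d.U := h.ok.num.hi_mem (show -2 ≤ D.τ y by linarith)
      (lt_of_lt_of_le (by norm_num) (norm_of_pp hζ).1)
    refine ⟨hx.1, ⟨hy, hU⟩, Prod.ext hG ?_, hτ⟩
    show d.s x - d.w (D.qq (y, ζ)) = 0
    rw [(Dat.w_hi hU hτ').1, show d.s x = 0 from hx.2, sub_zero]
  have c1 : ContinuousOn (fun p : E × Y × ℂ => (step d D K k' ε).τ p.2) Q :=
    (h.amb' (ε := 1) le_rfl).sτ.continuousOn.comp continuousOn_snd fun p hp => (hm p hp).2.1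
  have c2 : ContinuousOn (fun p : E × Y × ℂ => (step d D K k' ε).Φ p.2) Q :=
    (((contDiff_AA ε).continuous.comp_continuousOn (h.amb.sΦ.continuousOn.comp
      (f := fun p : E × Y × ℂ => p.2.1) (by fun_prop) fun p hp => (hm p hp).2.1.1)).add
        (contDiff_BB.continuous.comp (contDiff_pp.continuous.comp
          (continuous_snd.comp continuous_snd))).continuousOn).sub continuousOn_const
  have h3 := h2.of_isClosed_subset ((c1.prodMk c2).preimage_isClosed_of_isClosed h2.isClosed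
    ((isClosed_Ici (a := a)).prod (isClosed_Iic (a := (0 : ℝ))))) inter_subset_left
  refine s3_of h3 ?_ ?_
  · rintro p ⟨hp, ha, hΦ⟩
    obtain ⟨a1, a2, a3, a4⟩ := hm p hp
    exact ⟨⟨⟨a1, a2, a3, hΦ⟩, ha⟩, a4⟩
  · rintro p ⟨⟨hp, ha⟩, hi⟩
    refine ⟨?_, ha, hp.2.2.2⟩
    rw [← hQ]
    exact ⟨((p.1, p.2.1), p.2.2), ⟨⟨h.in_mem hε hp hi, hi⟩, (h.mem_MX hp).2.2.2⟩, rfl⟩

theorem SOk.cpt (h : SOk d D K k') (hε : 0 < ε) (hε' : ε ≤ 1) (a : ℝ) :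
    IsCompact ((step d D K k' ε).X d.N ∩ {p | a ≤ (step d D K k' ε).τ p.2}) := by
  refine s3_of ((h.cpt_out hε' a).union (h.cpt_in hε a)) ?_ ?_
  · exact union_subset inter_subset_left inter_subset_left
  · exact fun p hp => (le_total (D.τ p.2.1) (-1)).imp (fun h' => ⟨hp, h'⟩) fun h' => ⟨hp, h'⟩

end Pool.Agent.Lib.MP_ccffa6_gt.P
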