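import Pool.Agent.Lib.MP_ccffa6_gt.P.S2b

/-! The Liouville field points outwards along the convex end. -/

namespace Pool.Agent.Lib.MP_ccffa6_gt.P

open Set ContinuousLinearMap
open scoped ContDiff

variable {E Y F : Type} [NormedAddCommGroup E] [NormedSpace ℝ E] [NormedAddCommGroup Y]
  [NormedSpace ℝ Y] [NormedAddCommGroup F] [NormedSpace ℝ F]
  [FiniteDimensional ℝ E] [FiniteDimensional ℝ Y] [FiniteDimensional ℝ F]
  {d : Dat E} {D : PD E Y F} {K k' ε : ℝ} {p : E × Y × ℂ}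

/-- `Φ < 0` on the compact set where `0 ≤ τ` and `dΦ Z ≤ 0`. -/
theorem SOk.exists_eps (h : SOk d D K k') : ∃ ε, Eps D d.B ε := by
  choose! Z hZ1 hZ2 using fun p (hp : p ∈ D.X d.B) => (h.pd.nd p hp).exists_dual (D.lam p)
  have sub : D.X d.B ⊆ univ ×ˢ D.V := fun p hp => ⟨trivial, hp.2.1⟩
  have mp : MapsTo Prod.snd (D.X d.B) D.V := fun p hp => hp.2.1
  have cZ : ContinuousOn Z (D.X d.B) := h.cs_TB.dual
    ((continuousOn_dF (isOpen_univ.prod h.amb.opn) (h.amb.slam.of_le (by simp))).mono sub)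
    h.pd.nd (h.amb.slam.continuousOn.mono sub) fun p hp => ⟨hZ1 p hp, hZ2 p hp⟩
  have cf : ContinuousOn (fun p : E × Y => fderiv ℝ D.Φ p.2 (Z p).2) (D.X d.B) :=
    ((h.amb.sΦ.continuousOn_fderiv_of_isOpen h.amb.opn (by simp)).comp continuousOn_snd
      mp).clm_apply cZ.snd
  have hC := h.pd.cpt 0
  have hC' := hC.of_isClosed_subset ((cf.mono inter_subset_left).preimage_isClosed_of_isClosed
    hC.isClosed (isClosed_Iic (a := (0 : ℝ)))) inter_subset_left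
  obtain ⟨a, ha, hb⟩ := hC'.exists_forall_le' (f := fun p : E × Y => -D.Φ p.2) (a := 0)
    ((h.amb.sΦ.continuousOn.comp continuousOn_snd mp).neg.mono fun p hp => hp.1.1) fun p hp => by
      rcases hp.1.1.2.2.2.eq_or_lt with h1 | h1
      · exact absurd (h.pd.out p hp.1.1 h1 _ (hZ1 p hp.1.1) (hZ2 p hp.1.1)) (not_lt.2 hp.2)
      · exact neg_pos.2 h1
  refine ⟨min a 1, lt_min ha one_pos, min_le_right _ _, fun p hp h1 W hW e => ?_⟩
  have h2 : W = Z p := by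
    refine sub_eq_zero.1 (h.pd.nd p hp _ (Submodule.sub_mem _ hW (hZ1 p hp)) fun v hv => ?_)
    rw [map_sub, sub_apply, e v hv, hZ2 p hp v hv, sub_self]
  rw [h2]
  by_contra h3
  rcases lt_or_ge (D.τ p.2) 0 with h4 | h4
  · have h5 := h.amb.Φ₀ p.1 (h.ok.sub hp.1.1) p.2 hp.2.1 hp.2.2.1 h4
    linarith [min_le_right a 1]
  · have h5 : a ≤ -D.Φ p.2 := hb p ⟨⟨hp, h4⟩, not_lt.1 h3⟩
    linarith [min_le_left a 1]

/-- Zone out: the model. Zone in: a product; both terms of `SOk.dΦ` are nonnegative. -/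
theorem SOk.out (h : SOk d D K k') (hε : Eps D d.B ε) (hp : p ∈ (step d D K k' ε).X d.N)
    (h0 : (step d D K k' ε).Φ p.2 = 0) {Z : E × Y × ℂ} (hZ : Z ∈ (step d D K k' ε).T d.N p)
    (e : ∀ v ∈ (step d D K k' ε).T d.N p,
      dF (step d D K k' ε).lam p Z v = (step d D K k' ε).lam p v) :
    0 < fderiv ℝ (step d D K k' ε).Φ p.2 Z.2 := by
  have hV := hp.2.1
  have h1 : AA ε (D.Φ p.2.1) + BB (pp p.2.2) - 1 = 0 := h0
  rw [h.dΦ hV]
  rcases le_total (D.τ p.2.1) (-1) with ho | hi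
  · have ho' : D.τ p.2.1 < 0 := by linarith
    obtain ⟨h2, h3⟩ := h.out_Φ hε.le hp ho'
    have h4 : 1 / 2 < pp p.2.2 ^ 2 := by
      by_contra h5
      linarith [(BB_of_le (not_lt.1 h5)).1]
    obtain ⟨r, hr, h5⟩ := BB_of_lt h4
    have hb := h.out_bij hp ho
    have h6 := (h.m.pt (D.Pi p) (h.mem_MX hp) ho).sgn h4 (D.DPi p Z) (hb.mapsTo hZ) fun w hw => by
      obtain ⟨v, hv, rfl⟩ := hb.surjOn hw
      have h7 := e v hv
      rwa [h.out_dlam hV ho', h.out_lam hV ho', bp_apply, comp_apply] at h7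
    rw [h3, h5, zero_mul, zero_add, mul_assoc]
    exact mul_pos hr h6
  · have hm := h.in_mem hε.pos hp hi
    have hx := (Real.exp_pos (k' * 3)).ne'
    rw [h.in_dlam hV hi, h.in_lam (by linarith)] at e
    have e1 : ∀ w ∈ D.T d.B (p.1, p.2.1),
        dF D.lam (p.1, p.2.1) (Z.1, Z.2.1) w = D.lam (p.1, p.2.1) w := by
      intro w hw
      have h2 := e (w.1, w.2, 0) ((h.in_T hp hi _).2 hw)
      simpa [hx, -dF_apply] using h2
    have e2 : ∀ z, ar Z.2.2 z = d.σ p.2.2 z := by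
      intro z
      have h2 := e (0, 0, z) ((h.in_T hp hi _).2 (Submodule.zero_mem _))
      simpa [hx, h.m.hK.ne', Prod.mk_zero_zero, -dF_apply, -ar_apply] using h2
    have hA : -ε < D.Φ p.2.1 → 0 < deriv (AA ε) (D.Φ p.2.1) * fderiv ℝ D.Φ p.2.1 Z.2.1 := fun h2 =>
      mul_pos (deriv_AA_pos hε.pos h2) (hε.out _ hm h2 _ ((h.in_T hp hi Z).1 hZ) e1)
    have hB : 1 / 2 < pp p.2.2 ^ 2 → 0 < deriv BB (pp p.2.2) * fderiv ℝ pp p.2.2 Z.2.2 := by
      intro h2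
      obtain ⟨r, hr, h3⟩ := BB_of_lt h2
      rw [h3, fderiv_pp, e2, (h.ok.pl.far p.2.2 (Dat.ne_zero_of_U hV.2) h2).1, mul_assoc,
        ← pow_two]
      exact mul_pos hr (by linarith)
    rcases lt_or_ge (-ε) (D.Φ p.2.1) with h2 | h2 <;>
      rcases lt_or_ge (1 / 2) (pp p.2.2 ^ 2) with h3 | h3
    · exact add_pos (hA h2) (hB h3)
    · rw [(BB_of_le h3).2, zero_mul, add_zero]
      exact hA h2
    · rw [deriv_AA_of_le h2, zero_mul, zero_add]
      exact hB h3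
    · linarith [AA_of_le h2, (BB_of_le h3).1]

end Pool.Agent.Lib.MP_ccffa6_gt.P
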