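import Pool.Agent.Lib.MP_ccffa6_gt.P.S4

/-! Closed characteristics of the convex end. -/

namespace Pool.Agent.Lib.MP_ccffa6_gt.P

open Set ContinuousLinearMap
open scoped ContDiff

variable {E Y F : Type} [NormedAddCommGroup E] [NormedSpace ℝ E] [NormedAddCommGroup Y]
  [NormedSpace ℝ Y] [NormedAddCommGroup F] [NormedSpace ℝ F]
  [FiniteDimensional ℝ E] [FiniteDimensional ℝ Y] [FiniteDimensional ℝ F]
  {d : Dat E} {D : PD E Y F} {K k' ε : ℝ} {p : E × Y × ℂ}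

theorem s5_ar {a b : ℝ} (ha : a ≠ 0) {u w : ℂ} (h : ∀ z, a * ar u z = b * ar z w) :
    u = -(b * a⁻¹) • w := by
  have h1 := h 1
  have h2 := h Complex.I
  refine Complex.ext ?_ ?_ <;> simp at h1 h2 ⊢ <;> field_simp <;> linarith

theorem s5_bp (A : E →L[ℝ] Y) : bp A 0 = 0 :=
  ContinuousLinearMap.ext fun u => ContinuousLinearMap.ext fun v => bp_apply A 0 u v

theorem SOk.chr_neg (h : SOk d D K k') (hε : Eps D d.B ε) (hp : p ∈ (step d D K k' ε).X d.N)
    (h0 : (step d D K k' ε).Φ p.2 = 0) {g : E × Y × ℂ} (hg : g ∈ (step d D K k' ε).T d.N p)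
    (pos : 0 < (step d D K k' ε).lam p g)
    (e : ∀ v ∈ (step d D K k' ε).T d.N p, fderiv ℝ (step d D K k' ε).Φ p.2 v.2 = 0 →
      dF (step d D K k' ε).lam p g v = 0) :
    ∃ c : ℝ, c < 0 ∧ ∀ v ∈ (step d D K k' ε).T d.N p,
      dF (step d D K k' ε).lam p g v = c * fderiv ℝ (step d D K k' ε).Φ p.2 v.2 := by
  obtain ⟨Z, hZ, eZ⟩ := (h.nd hε.pos hp).exists_dual ((step d D K k' ε).lam p)
  have h1 := h.out hε hp h0 hZ eZ
  have h2 : dF (step d D K k' ε).lam p g Z = -(step d D K k' ε).lam p g := by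
    rw [← eZ g hg, dF_apply, dF_apply, neg_sub]
  refine ⟨_, div_neg_of_neg_of_pos (neg_lt_zero.2 pos) h1, fun v hv => ?_⟩
  have h3 := e (v - (fderiv ℝ (step d D K k' ε).Φ p.2 v.2 /
    fderiv ℝ (step d D K k' ε).Φ p.2 Z.2) • Z) (sub_mem hv (Submodule.smul_mem _ _ hZ)) (by
      rw [Prod.snd_sub, Prod.smul_snd, map_sub, map_smul, smul_eq_mul, div_mul_cancel₀ _ h1.ne',
        sub_self])
  rw [map_sub, map_smul, h2, smul_eq_mul, sub_eq_zero] at h3
  rw [h3]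
  ring

theorem SOk.chr_rot (h : SOk d D K k') (hε : Eps D d.B ε) (hp : p ∈ (step d D K k' ε).X d.N)
    (h0 : (step d D K k' ε).Φ p.2 = 0) {g : E × Y × ℂ} (hg : g ∈ (step d D K k' ε).T d.N p)
    {c : ℝ} (e : ∀ v ∈ (step d D K k' ε).T d.N p,
      dF (step d D K k' ε).lam p g v = c * fderiv ℝ (step d D K k' ε).Φ p.2 v.2) :
    ∃ r : ℝ, 0 < r ∧ g.2.2 = -(c * deriv BB (pp p.2.2) * r) • (Complex.I * p.2.2) := by
  rcases le_total (D.τ p.2.1) (-1) with ho | hi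
  · have ho' : D.τ p.2.1 < 0 := by linarith
    obtain ⟨h1, h2⟩ := h.out_Φ hε.le hp ho'
    have h3 : 1 / 2 < pp p.2.2 ^ 2 := not_le.1 fun h3 => by
      have h4 : AA ε (D.Φ p.2.1) + BB (pp p.2.2) - 1 = 0 := h0
      rw [h1, (BB_of_le h3).1] at h4
      norm_num at h4
    have hb := h.out_bij hp ho
    refine (h.m.pt _ (h.mem_MX hp) ho).chr h3 _ (hb.mapsTo hg) _ fun v hv => ?_
    obtain ⟨u, hu, rfl⟩ := hb.surjOn hv
    have h4 := e u hu
    rw [h.out_dlam hp.2.1 ho', bp_apply, h.dΦ hp.2.1, h2, zero_mul, zero_add, ← mul_assoc] at h4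
    exact h4
  · have h1 : 0 < Real.exp (k' * 3) * K := mul_pos (Real.exp_pos _) h.m.hK
    have h2 : ∀ z : ℂ, Real.exp (k' * 3) * K * ar g.2.2 z =
        c * deriv BB (pp p.2.2) * ar z (Complex.I * p.2.2) := fun z => by
      have h3 := e (0, 0, z) ((h.in_T hp hi _).2 (zero_mem _))
      rw [h.in_dlam hp.2.1 hi, h.dΦ hp.2.1, fderiv_pp] at h3
      simp only [smul_apply, add_apply, bp_apply, pr_apply, pr₂_apply, Prod.mk_zero_zero, map_zero,
        smul_eq_mul, mul_zero, zero_add] at h3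
      rw [mul_assoc, mul_assoc, h3]
    exact ⟨_, inv_pos.2 h1, s5_ar h1.ne' h2⟩

theorem SOk.hyp (h : SOk d D K k') (hε : Eps D d.B ε) (γ γ' : ℝ → E × Y × ℂ) (T : ℝ)
    (o : (step d D K k' ε).Orb d.N γ γ' T) :
    ∃ θ : Form1 (Y × ℂ), ContDiffOn ℝ ∞ θ (step d D K k' ε).V ∧
      (∀ y ∈ (step d D K k' ε).V, dF θ y = 0) ∧ ∫ t in (0 : ℝ)..T, θ (γ t).2 (γ' t).2 ≠ 0 := by
  have hV := fun t => (o.mem t).1.2.1
  have cγ : Continuous γ := continuous_iff_continuousAt.2 fun t => (o.der t).continuousAt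
  choose c hc e using fun t =>
    h.chr_neg hε (o.mem t).1 (o.mem t).2 (o.tan t).1 (o.lam t) (o.chr t)
  choose r hr e' using fun t => h.chr_rot hε (o.mem t).1 (o.mem t).2 (o.tan t).1 (e t)
  have h1 : ∀ t, HasDerivAt (fun t => pp (γ t).2.2) 0 t := fun t => by
    refine ((contDiff_pp.differentiable (by simp) _).hasFDerivAt.comp_hasDerivAt t
      (o.der t).snd.snd).congr_deriv ?_
    rw [fderiv_pp, e', map_smul, smul_apply, ar_apply]
    simp [mul_comm]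
  have h2 : ∀ t, pp (γ t).2.2 = pp (γ 0).2.2 := fun t =>
    is_const_of_deriv_eq_zero (fun t => (h1 t).differentiableAt) (fun t => (h1 t).deriv) t 0
  rcases lt_or_ge (1 / 2) (pp (γ 0).2.2 ^ 2) with h3 | h3
  · obtain ⟨b, hb, h4⟩ := BB_of_lt h3
    refine ⟨fun y => (d.θ₀ y.2).comp (snd ℝ Y ℂ), (h.ok.pl.sθ.comp contDiffOn_snd
      fun y (hy : y ∈ (step d D K k' ε).V) => (Dat.ne_zero_of_U hy.2 :)).clm_comp
        contDiffOn_const, fun y hy => ?_,
      integral_ne_zero_of_sign (c := pp (γ 0).2.2) ((h.ok.pl.sθ.continuousOn.comp_continuous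
        cγ.snd.snd fun t => Dat.ne_zero_of_U (hV t).2).clm_apply o.cont.snd.snd) o.pos fun t => ?_⟩
    · have h5 : y.2 ≠ 0 := Dat.ne_zero_of_U hy.2
      refine (dF_clm (snd ℝ Y ℂ) ((h.ok.pl.sθ.contDiffAt
        (isOpen_compl_singleton.mem_nhds h5)).differentiableAt (by simp))).trans ?_
      exact (congrArg _ (h.ok.pl.dθ _ h5)).trans (s5_bp _)
    · have h5 := (h.ok.pl.far _ (Dat.ne_zero_of_U (hV t).2) (h2 t ▸ h3)).2
      have h6 : d.θ₀ (γ t).2.2 (γ' t).2.2 = -(c t * (b * pp (γ 0).2.2) * r t) := by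
        rw [e', map_smul, h2, h4]
        exact (congrArg _ h5).trans (mul_one _)
      have h7 := mul_pos (mul_pos (mul_pos (neg_pos.2 (hc t)) hb) (hr t)) (one_half_pos.trans h3)
      change 0 < _ * d.θ₀ (γ t).2.2 (γ' t).2.2
      rw [h6]
      linarith
  · have hB := fun t => BB_of_le ((h2 t).symm ▸ h3 : pp (γ t).2.2 ^ 2 ≤ 1 / 2)
    have hA : ∀ t, AA ε (D.Φ (γ t).2.1) = 1 := fun t => by
      have h4 : AA ε (D.Φ (γ t).2.1) + BB (pp (γ t).2.2) - 1 = 0 := (o.mem t).2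
      linarith [(hB t).1]
    have h4 : ∀ t, D.Φ (γ t).2.1 = 0 := fun t => (AA_eq_one_iff hε.pos).1 (hA t)
    have hi : ∀ t, -1 ≤ D.τ (γ t).2.1 := fun t => not_lt.1 fun h5 =>
      zero_ne_one ((h.out_Φ hε.le (o.mem t).1 (by linarith)).1.symm.trans (hA t))
    have h5 : ∀ t, (γ' t).2.2 = 0 := fun t => by
      rw [e', (hB t).2, mul_zero, zero_mul, neg_zero, zero_smul]
    have h6 : ∀ t v, fderiv ℝ (step d D K k' ε).Φ (γ t).2 v = 0 ↔
        fderiv ℝ D.Φ (γ t).2.1 v.1 = 0 := fun t v => by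
      rw [h.dΦ (hV t), (hB t).2, zero_mul, add_zero, h4, mul_eq_zero,
        or_iff_right (deriv_AA_pos hε.pos (neg_lt_zero.2 hε.pos)).ne']
    obtain ⟨θ, h7, h8, h9⟩ := h.pd.hyp (fun t => pr E Y (γ t)) (fun t => pr E Y (γ' t)) T
      ⟨o.pos, fun t => congrArg _ (o.per t), fun t => ⟨h.in_mem hε.pos (o.mem t).1 (hi t), h4 t⟩,
        fun t => (pr E Y).hasFDerivAt.comp_hasDerivAt t (o.der t), (pr E Y).continuous.comp o.cont,
        fun t => ⟨(h.in_T (o.mem t).1 (hi t) _).1 (o.tan t).1, (h6 t _).1 (o.tan t).2⟩,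
        fun t => by
          have h7 := o.lam t
          rw [h.in_lam (by linarith [hi t])] at h7
          simpa [h5, Real.exp_pos] using h7,
        fun t v hv h7 => by
          have h8 := o.chr t (v.1, v.2, 0) ((h.in_T (o.mem t).1 (hi t) _).2 hv) ((h6 t _).2 h7)
          rw [h.in_dlam (hV t) (hi t)] at h8
          simpa using h8⟩
    refine ⟨fun y => (θ y.1).comp (fst ℝ Y ℂ), (h7.comp contDiffOn_fst
      fun y hy => hy.1).clm_comp contDiffOn_const, fun y hy => ?_, h9⟩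
    refine (dF_clm (fst ℝ Y ℂ) ((h7.contDiffAt
      (h.amb.opn.mem_nhds hy.1)).differentiableAt (by simp))).trans ?_
    exact (congrArg _ (h8 _ hy.1)).trans (s5_bp _)

end Pool.Agent.Lib.MP_ccffa6_gt.P
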