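import Pool.Agent.Lib.MP_ccffa6_gt.P.SBDef

/-! Continuous families of subspaces. -/

namespace Pool.Agent.Lib.MP_ccffa6_gt.P

open Set ContinuousLinearMap

variable {X X' E E' : Type} [TopologicalSpace X] [TopologicalSpace X'] [NormedAddCommGroup E]
  [NormedSpace ℝ E] [NormedAddCommGroup E'] [NormedSpace ℝ E'] {K K' : Set X}
  {W : X → Submodule ℝ E} {W' : X → Submodule ℝ E'} {ω : X → Bil E} {ω' : X → Bil E'}

theorem cs_top (K : Set X) : CS K fun _ => (⊤ : Submodule ℝ E) :=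
  ⟨fun _ => ContinuousLinearMap.id ℝ E, continuousOn_const,
    fun _ _ => ⟨fun _ => trivial, fun _ _ => rfl⟩⟩

theorem CS.mono (h : CS K W) (e : K' ⊆ K) : CS K' W :=
  h.imp fun _ h => ⟨h.1.mono e, fun p hp => h.2 p (e hp)⟩

theorem CS.congr {V : X → Submodule ℝ E} (h : CS K W) (e : ∀ p ∈ K, V p = W p) : CS K V :=
  h.imp fun _ h => ⟨h.1, fun p hp => e p hp ▸ h.2 p hp⟩

theorem CS.comp (h : CS K W) {S : Set X'} {f : X' → X} (hf : ContinuousOn f S)
    (m : MapsTo f S K) : CS S fun p => W (f p) :=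
  h.elim fun P h => ⟨fun p => P (f p), h.1.comp hf m, fun _ hp => h.2 _ (m hp)⟩

theorem CS.prod (h : CS K W) (h' : CS K W') : CS K fun p => (W p).prod (W' p) := by
  obtain ⟨P, hP, h⟩ := h
  obtain ⟨P', hP', h'⟩ := h'
  exact ⟨fun p => (P p).prodMap (P' p), hP.prod_mapL ℝ hP', fun p hp =>
    ⟨fun v => ⟨(h p hp).1 _, (h' p hp).1 _⟩,
      fun v hv => Prod.ext ((h p hp).2 _ hv.1) ((h' p hp).2 _ hv.2)⟩⟩

variable [FiniteDimensional ℝ E] [FiniteDimensional ℝ E']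

theorem sb1_sol {T : X → E →L[ℝ] E'} (hT : ContinuousOn T K)
    (inj : ∀ p ∈ K, ∀ u, T p u = 0 → u = 0) {c : X → E'} (hc : ContinuousOn c K) {v : X → E}
    (hv : ∀ p ∈ K, T p (v p) = c p) : ContinuousOn v K := fun p₀ h₀ => by
  have := FiniteDimensional.complete ℝ E
  obtain ⟨B₀, hB⟩ := (T p₀ : E →ₗ[ℝ] E').exists_leftInverse_of_injective
    (LinearMap.ker_eq_bot'.2 (inj p₀ h₀))
  let B : E' →L[ℝ] E := LinearMap.toContinuousLinearMap B₀
  have h1 : B.comp (T p₀) = ((1 : (E →L[ℝ] E)ˣ) : E →L[ℝ] E) :=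
    ContinuousLinearMap.ext (LinearMap.congr_fun hB)
  have h2 : ContinuousWithinAt (fun p => B.comp (T p)) K p₀ :=
    (continuousOn_const.clm_comp hT) p₀ h₀
  have h3 : ContinuousWithinAt (fun p => Ring.inverse (B.comp (T p)) (B (c p))) K p₀ :=
    (ContinuousAt.comp_continuousWithinAt (g := Ring.inverse) (f := fun p => B.comp (T p))
      (h1 ▸ NormedRing.inverse_continuousAt 1) h2).clm_apply
      (B.continuous.continuousAt.comp_continuousWithinAt (hc p₀ h₀))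
  have h4 : ∀ p ∈ K, IsUnit (B.comp (T p)) → v p = Ring.inverse (B.comp (T p)) (B (c p)) :=
    fun p hp e => by
      rw [← hv p hp]
      exact (DFunLike.congr_fun (Ring.inverse_mul_cancel _ e) (v p)).symm
  have h5 : IsUnit (B.comp (T p₀)) := h1 ▸ Units.isUnit 1
  refine h3.congr_of_eventuallyEq ?_ (h4 p₀ h₀ h5)
  filter_upwards [self_mem_nhdsWithin, h2.preimage_mem_nhdsWithin (Units.isOpen.mem_nhds h5)]
    using h4

/-- continuity of the solution of a uniquely solvable linear system -/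
theorem CS.sol (h : CS K W) {A : X → E →L[ℝ] E'} (hA : ContinuousOn A K)
    (inj : ∀ p ∈ K, ∀ u ∈ W p, A p u = 0 → u = 0) {b : X → E'} (hb : ContinuousOn b K)
    {v : X → E} (hv : ∀ p ∈ K, v p ∈ W p ∧ A p (v p) = b p) : ContinuousOn v K := by
  obtain ⟨P, hP, h⟩ := h
  refine sb1_sol (T := fun p => (ContinuousLinearMap.id ℝ E - P p).prod (A p))
    (continuousOn_clm_apply.2 fun u => ((continuousOn_const.sub hP).clm_apply
      continuousOn_const).prodMk (hA.clm_apply continuousOn_const)) (fun p hp u e => ?_)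
    (continuousOn_const.prodMk hb) fun p hp =>
      Prod.ext (sub_eq_zero.2 ((h p hp).2 _ (hv p hp).1).symm) (hv p hp).2
  have e1 : u = P p u := sub_eq_zero.1 (congrArg Prod.fst e)
  exact inj p hp u (e1 ▸ (h p hp).1 u) (congrArg Prod.snd e)

theorem sb1_fam {F : Type} [NormedAddCommGroup F] [NormedSpace ℝ F] [FiniteDimensional ℝ F]
    (h : CS K W) {A : X → E →L[ℝ] E'} (hA : ContinuousOn A K)
    (inj : ∀ p ∈ K, ∀ u ∈ W p, A p u = 0 → u = 0) {c : X → F →L[ℝ] E'} (hc : ContinuousOn c K)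
    (ex : ∀ p ∈ K, ∀ y, ∃ u ∈ W p, A p u = c p y) : ∃ Ψ : X → F →L[ℝ] E, ContinuousOn Ψ K ∧
      ∀ p ∈ K, ∀ y, Ψ p y ∈ W p ∧ A p (Ψ p y) = c p y := by
  have h1 : ∀ p, ∃ Ψ : F →L[ℝ] E, p ∈ K → ∀ y, Ψ y ∈ W p ∧ A p (Ψ y) = c p y := fun p => by
    by_cases hp : p ∈ K
    · obtain ⟨B, hB⟩ := ((A p : E →ₗ[ℝ] E').domRestrict (W p)).exists_leftInverse_of_injective
        (LinearMap.ker_eq_bot'.2 fun u e => Subtype.ext (inj p hp u u.2 e))
      refine ⟨LinearMap.toContinuousLinearMap ((W p).subtype ∘ₗ B ∘ₗ (c p : F →ₗ[ℝ] E')),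
        fun _ y => ⟨(B _).2, ?_⟩⟩
      obtain ⟨u, hu, e⟩ := ex p hp y
      change A p (B (c p y)) = _
      rw [← e, show B (A p u) = ⟨u, hu⟩ from DFunLike.congr_fun hB ⟨u, hu⟩]
    · exact ⟨0, fun h => (hp h).elim⟩
  choose Ψ hΨ using h1
  exact ⟨Ψ, continuousOn_clm_apply.2 fun y => h.sol hA inj (hc.clm_apply continuousOn_const)
    fun p hp => hΨ p hp y, hΨ⟩

/-- the inverse of a family of isomorphisms -/
theorem CS.inv (h : CS K W) (h' : CS K W') {Φ : X → E →L[ℝ] E'} (hΦ : ContinuousOn Φ K)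
    (b : ∀ p ∈ K, BijOn (Φ p) (W p) (W' p)) : ∃ Ψ : X → E' →L[ℝ] E, ContinuousOn Ψ K ∧
      ∀ p ∈ K, (∀ y, Ψ p y ∈ W p) ∧ (∀ y ∈ W' p, Φ p (Ψ p y) = y) ∧
        ∀ u ∈ W p, Ψ p (Φ p u) = u := by
  obtain ⟨P', hP', h'⟩ := h'
  obtain ⟨Ψ, h1, h2⟩ := sb1_fam h hΦ (fun p hp u hu e =>
    (b p hp).injOn hu (W p).zero_mem (e.trans (map_zero _).symm)) hP' fun p hp y =>
      (b p hp).surjOn ((h' p hp).1 y)
  exact ⟨Ψ, h1, fun p hp => ⟨fun y => (h2 p hp y).1,
    fun y hy => (h2 p hp y).2.trans ((h' p hp).2 y hy), fun u hu =>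
      (b p hp).injOn (h2 p hp _).1 hu ((h2 p hp _).2.trans ((h' p hp).2 _ ((b p hp).mapsTo hu)))⟩⟩

theorem sb1_pos (E : Type) [NormedAddCommGroup E] [NormedSpace ℝ E] [FiniteDimensional ℝ E] :
    ∃ G : F1 E →L[ℝ] E, ∀ l : F1 E, l (G l) = 0 → l = 0 := by
  let b := Module.finBasis ℝ E
  refine ⟨∑ i, (ContinuousLinearMap.apply ℝ ℝ (b i)).smulRight (b i), fun l e => ?_⟩
  simp only [sum_apply, map_sum, smulRight_apply, apply_apply, map_smul,
    smul_eq_mul] at e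
  exact ContinuousLinearMap.coe_injective (b.ext fun i => mul_self_eq_zero.1
    ((Finset.sum_eq_zero_iff_of_nonneg fun _ _ => mul_self_nonneg _).1 e i (Finset.mem_univ i)))

/-- a continuous right inverse -/
theorem CS.rinv (h : CS K W) {L : X → E →L[ℝ] E'} (hL : ContinuousOn L K)
    (o : ∀ p ∈ K, Onto (W p) (L p)) : ∃ S : X → E' →L[ℝ] E, ContinuousOn S K ∧
      ∀ p ∈ K, ∀ y, S p y ∈ W p ∧ L p (S p y) = y := by
  obtain ⟨P, hP, h⟩ := h
  obtain ⟨G, hG⟩ := sb1_pos E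
  let D : X → F1 E' →L[ℝ] E := fun p =>
    (P p).comp (G.comp ((compL ℝ E E' ℝ).flip ((L p).comp (P p))))
  have hD : ContinuousOn D K := hP.clm_comp (continuousOn_const.clm_comp
    ((compL ℝ E E' ℝ).flip.continuous.comp_continuousOn (hL.clm_comp hP)))
  have inj : ∀ p ∈ K, ∀ l : F1 E', ((L p).comp (D p)) l = 0 → l = 0 := fun p hp l e => by
    have e1 : l.comp ((L p).comp (P p)) = 0 := hG _ ((congrArg l e).trans (map_zero l))
    refine ContinuousLinearMap.ext fun y => ?_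
    obtain ⟨v, hv, rfl⟩ := o p hp y
    rw [← (h p hp).2 v hv]
    exact DFunLike.congr_fun e1 v
  obtain ⟨R, h1, h2⟩ := sb1_fam (cs_top K) (hL.clm_comp hD) (fun p hp l _ => inj p hp l)
    (c := fun _ => ContinuousLinearMap.id ℝ E') continuousOn_const fun p hp y => by
      obtain ⟨l, e⟩ := (LinearMap.injective_iff_surjective_of_finrank_eq_finrank
        (f := (((L p).comp (D p) : F1 E' →L[ℝ] E') : F1 E' →ₗ[ℝ] E'))
        (LinearMap.toContinuousLinearMap.finrank_eq.symm.trans Subspace.dual_finrank_eq)).1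
        ((injective_iff_map_eq_zero _).2 (inj p hp)) y
      exact ⟨l, trivial, e⟩
  exact ⟨fun p => (D p).comp (R p), hD.clm_comp h1, fun p hp y => ⟨(h p hp).1 _, (h2 p hp y).2⟩⟩

/-- the projector is `(1 - S L) P` -/
theorem CS.kr (h : CS K W) {L : X → E →L[ℝ] E'} (hL : ContinuousOn L K)
    (o : ∀ p ∈ K, Onto (W p) (L p)) : CS K fun p => kr (W p) (L p) := by
  obtain ⟨S, hS, h1⟩ := h.rinv hL o
  obtain ⟨P, hP, h⟩ := h
  refine ⟨fun p => P p - (S p).comp ((L p).comp (P p)), hP.sub (hS.clm_comp (hL.clm_comp hP)),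
    fun p hp => ⟨fun v => ⟨sub_mem ((h p hp).1 v) (h1 p hp _).1, ?_⟩, fun v hv => ?_⟩⟩
  · change L p (P p v - S p (L p (P p v))) = 0
    rw [map_sub, (h1 p hp _).2, sub_self]
  · change P p v - S p (L p (P p v)) = v
    rw [(h p hp).2 v hv.1, show L p v = 0 from hv.2, map_zero, sub_zero]

omit [FiniteDimensional ℝ E'] in
/-- a nondegenerate form represents every covector -/
theorem Nd.exists_dual {V : Submodule ℝ E} {o : Bil E} (h : Nd V o) (l : F1 E) :
    ∃ u ∈ V, ∀ v ∈ V, o u v = l v := by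
  obtain ⟨u, e⟩ := (LinearMap.injective_iff_surjective_of_finrank_eq_finrank
    (f := o.toLinearMap₁₂.domRestrict₁₂ V V) Subspace.dual_finrank_eq.symm).1
    ((injective_iff_map_eq_zero _).2 fun u e => Subtype.ext (h u u.2 fun v hv =>
      DFunLike.congr_fun e ⟨v, hv⟩)) ((l : E →ₗ[ℝ] ℝ).domRestrict V)
  exact ⟨u, u.2, fun v hv => DFunLike.congr_fun e ⟨v, hv⟩⟩

omit [FiniteDimensional ℝ E'] in
/-- the dual vector depends continuously on the point (`CS.sol` with `A p u = (ω p u) ∘ P p`) -/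
theorem CS.dual (h : CS K W) (hω : ContinuousOn ω K) (nd : ∀ p ∈ K, Nd (W p) (ω p))
    {l : X → F1 E} (hl : ContinuousOn l K) {v : X → E}
    (hv : ∀ p ∈ K, v p ∈ W p ∧ ∀ u ∈ W p, ω p (v p) u = l p u) : ContinuousOn v K := by
  obtain ⟨P, hP, h1⟩ := id h
  refine h.sol (A := fun p => ((compL ℝ E E ℝ).flip (P p)).comp (ω p))
    (((compL ℝ E E ℝ).flip.continuous.comp_continuousOn hP).clm_comp hω) (fun p hp u hu e => ?_)
    (hl.clm_comp hP) fun p hp =>
      ⟨(hv p hp).1, ContinuousLinearMap.ext fun u => (hv p hp).2 _ ((h1 p hp).1 u)⟩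
  refine nd p hp u hu fun w hw => ?_
  rw [← (h1 p hp).2 w hw]
  exact DFunLike.congr_fun e w

end Pool.Agent.Lib.MP_ccffa6_gt.P
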