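import Pool.Agent.Lib.MP_ccffa6_gt.Defs

/-! Forms on normed spaces, continuous families of subspaces, symplectic isomorphisms. -/

namespace Pool.Agent.Lib.MP_ccffa6_gt.P

open Set ContinuousLinearMap

variable {X E E' : Type} [TopologicalSpace X] [NormedAddCommGroup E] [NormedSpace ℝ E]
  [NormedAddCommGroup E'] [NormedSpace ℝ E']

/-- covectors -/
abbrev F1 (E : Type) [NormedAddCommGroup E] [NormedSpace ℝ E] : Type := E →L[ℝ] ℝ

/-- wedge product of two covectors -/
noncomputable def wg (a b : F1 E) : Bil E := a.smulRight b - b.smulRight a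

/-- pull-back of a bilinear form -/
noncomputable def bp (A : E →L[ℝ] E') (ω : Bil E') : Bil E := ω.bilinearComp A A

/-- the form `ω + ds ∧ a` on `E × ℝ` -/
noncomputable def Om (ω : Bil E) (a : F1 E) : Bil (E × ℝ) :=
  bp (fst ℝ E ℝ) ω + wg (snd ℝ E ℝ) (a.comp (fst ℝ E ℝ))

/-- the area form of the plane -/
noncomputable def ar : Bil ℂ := wg Complex.reCLM Complex.imCLM

@[simp] theorem dF_apply (a : E → F1 E) (x u v : E) :
    dF a x u v = fderiv ℝ a x u v - fderiv ℝ a x v u := rfl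

@[simp] theorem wg_apply (a b : F1 E) (u v : E) : wg a b u v = a u * b v - b u * a v := by
  simp [wg]

@[simp] theorem bp_apply (A : E →L[ℝ] E') (ω : Bil E') (u v : E) : bp A ω u v = ω (A u) (A v) := by
  simp [bp]

@[simp] theorem osum_apply (ω : Bil E) (ω' : Bil E') (u v : E × E') :
    osum ω ω' u v = ω u.1 v.1 + ω' u.2 v.2 := by simp [osum]

@[simp] theorem Om_apply (ω : Bil E) (a : F1 E) (u v : E × ℝ) :
    Om ω a u v = ω u.1 v.1 + (u.2 * a v.1 - a u.1 * v.2) := by simp [Om]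

theorem symz_eq (a : Form1 E) (x : E) : symz a x = Om (dF a x) (a x) := rfl

@[simp] theorem ar_apply (u v : ℂ) : ar u v = u.re * v.im - u.im * v.re := by simp [ar]

/-- skew forms -/
def Alt (ω : Bil E) : Prop := ∀ u v, ω u v = -ω v u

/-- `ω` is nondegenerate on `W` -/
def Nd (W : Submodule ℝ E) (ω : Bil E) : Prop := ∀ u ∈ W, (∀ v ∈ W, ω u v = 0) → u = 0

/-- a family of subspaces with a continuous projector -/
def CS (K : Set X) (W : X → Submodule ℝ E) : Prop :=
  ∃ P : X → E →L[ℝ] E, ContinuousOn P K ∧ ∀ p ∈ K, (∀ v, P p v ∈ W p) ∧ ∀ v ∈ W p, P p v = v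

/-- a symplectic bundle over `K` -/
structure SB (K : Set X) (W : X → Submodule ℝ E) (ω : X → Bil E) : Prop where
  cs : CS K W
  cont : ContinuousOn ω K
  alt : ∀ p ∈ K, Alt (ω p)
  nd : ∀ p ∈ K, Nd (W p) (ω p)

/-- `Φ` is a continuous family of isomorphisms `(W, ω) → (W', ω')` over `K` -/
structure IsSI (K : Set X) (W : X → Submodule ℝ E) (ω : X → Bil E) (W' : X → Submodule ℝ E')
    (ω' : X → Bil E') (Φ : X → E →L[ℝ] E') : Prop where
  cont : ContinuousOn Φ K
  bij : ∀ p ∈ K, BijOn (Φ p) (W p) (W' p)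
  form : ∀ p ∈ K, ∀ u ∈ W p, ∀ v ∈ W p, ω' p (Φ p u) (Φ p v) = ω p u v

/-- isomorphic over `K` -/
def SI (K : Set X) (W : X → Submodule ℝ E) (ω : X → Bil E) (W' : X → Submodule ℝ E')
    (ω' : X → Bil E') : Prop := ∃ Φ, IsSI K W ω W' ω' Φ

/-- the common kernel of a linear map on a subspace -/
abbrev kr (W : Submodule ℝ E) (L : E →L[ℝ] E') : Submodule ℝ E :=
  W ⊓ LinearMap.ker (L : E →ₗ[ℝ] E')

/-- `L` maps `W` onto the target -/
def Onto (W : Submodule ℝ E) (L : E →L[ℝ] E') : Prop := ∀ y, ∃ v ∈ W, L v = y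

end Pool.Agent.Lib.MP_ccffa6_gt.P
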