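import Pool.Agent.Lib.MP_ccffa6_gt.P.M2
import Pool.Agent.Lib.MP_ccffa6_gt.P.PDef

/-! The structure over `N` built from the structure over the binding. -/

namespace Pool.Agent.Lib.MP_ccffa6_gt.P

open Set ContinuousLinearMap
open scoped ContDiff

variable {E Y F : Type} [NormedAddCommGroup E] [NormedSpace ℝ E] [NormedAddCommGroup Y]
  [NormedSpace ℝ Y] [NormedAddCommGroup F] [NormedSpace ℝ F]

/-- the coordinates `(a, ζ)` -/
def PD.qq (D : PD E Y F) (y : Y × ℂ) : ℝ × ℂ := (D.τ y.1, y.2)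
/-- the projection to the model -/
def PD.Pi (D : PD E Y F) (p : E × Y × ℂ) : E × ℝ × ℂ := (p.1, D.qq p.2)
/-- linear projections -/
noncomputable def pr (E Y : Type) [NormedAddCommGroup E] [NormedSpace ℝ E] [NormedAddCommGroup Y]
    [NormedSpace ℝ Y] : E × Y × ℂ →L[ℝ] E × Y :=
  (fst ℝ E (Y × ℂ)).prod ((fst ℝ Y ℂ).comp (snd ℝ E (Y × ℂ)))
noncomputable def pr₂ (E Y : Type) [NormedAddCommGroup E] [NormedSpace ℝ E] [NormedAddCommGroup Y]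
    [NormedSpace ℝ Y] : E × Y × ℂ →L[ℝ] ℂ := (snd ℝ Y ℂ).comp (snd ℝ E (Y × ℂ))
/-- the derivative of `Pi` -/
noncomputable def PD.DPi (D : PD E Y F) (p : E × Y × ℂ) : E × Y × ℂ →L[ℝ] E × ℝ × ℂ :=
  (fst ℝ E (Y × ℂ)).prod
    (((fderiv ℝ D.τ p.2.1).comp ((snd ℝ E Y).comp (pr E Y))).prod (pr₂ E Y))

@[simp] theorem pr_apply (v : E × Y × ℂ) : pr E Y v = (v.1, v.2.1) := rfl
@[simp] theorem pr₂_apply (v : E × Y × ℂ) : pr₂ E Y v = v.2.2 := rfl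
@[simp] theorem PD.DPi_apply (D : PD E Y F) (p v : E × Y × ℂ) :
    D.DPi p v = (v.1, fderiv ℝ D.τ p.2.1 v.2.1, v.2.2) := rfl

/-- the binding -/
abbrev Dat.B (d : Dat E) : Set E := d.N ∩ d.s ⁻¹' {0}

/-- the new structure -/
noncomputable def step (d : Dat E) (D : PD E Y F) (K k' ε : ℝ) : PD E (Y × ℂ) (F × ℂ) where
  V := {y | y.1 ∈ D.V ∧ D.qq y ∈ d.U}
  G p := (D.G (p.1, p.2.1), d.s p.1 - d.w (D.qq p.2))
  τ y := k' * d.l (D.qq y)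
  Φ y := AA ε (D.Φ y.1) + BB (pp y.2) - 1
  lam p := Real.exp (k' * HH (d.l (D.qq p.2))) •
    (Real.exp (st (d.l (D.qq p.2)) * d.u (D.τ p.2.1) - D.τ p.2.1) •
        (D.lam (p.1, p.2.1)).comp (pr E Y) +
      (st (d.l (D.qq p.2)) * K) • (d.σ p.2.2).comp (pr₂ E Y))
  κ r := (D.κ (r.1, (d.kap (d.s r.1) (r.2 / k')).1), (d.kap (d.s r.1) (r.2 / k')).2)
  o := osum D.o ar

/-- hypotheses of the step -/
structure SOk (d : Dat E) (D : PD E Y F) (K k' : ℝ) : Prop where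
  ok : d.Ok
  m : d.MOk K k'
  amb : D.Amb d.α d.O
  pd : D.Ok d.α d.B
  tan : ∀ x ∈ d.N, d.s x = 0 → Tan d.B x = kr (Tan d.N x) (fderiv ℝ d.s x)

/-- the Liouville field increases `Φ` where `-ε < Φ` -/
structure Eps (D : PD E Y F) (B : Set E) (ε : ℝ) : Prop where
  pos : 0 < ε
  le : ε ≤ 1
  out : ∀ p ∈ D.X B, -ε < D.Φ p.2 → ∀ Z ∈ D.T B p,
    (∀ v ∈ D.T B p, dF D.lam p Z v = D.lam p v) → 0 < fderiv ℝ D.Φ p.2 Z.2

end Pool.Agent.Lib.MP_ccffa6_gt.P
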